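import Mathlib

/-! Minkowski's linear forms theorem. -/

namespace Pool.Agent.SSS

open MeasureTheory

lemma minkowski_linear_forms {n : ℕ} (A : Matrix (Fin n) (Fin n) ℝ)
    (hA : A.det ≠ 0) (r : Fin n → ℝ) (hr : ∀ i, 0 < r i) (h : |A.det| < ∏ i, r i) :
    ∃ y : Fin n → ℤ, y ≠ 0 ∧ ∀ i, |(A.mulVec (fun j => (y j : ℝ))) i| < r i := by
  classical
  let b := Pi.basisFun ℝ (Fin n)
  let f : (Fin n → ℝ) →ₗ[ℝ] (Fin n → ℝ) := Matrix.toLin' A
  have hf : LinearMap.det f = A.det := LinearMap.det_toLin' A
  let s0 : Set (Fin n → ℝ) := Set.pi Set.univ fun i => Set.Ioo (-(r i)) (r i)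
  have hvol0 : volume s0 = ENNReal.ofReal (∏ i, (2 * r i)) := by
    rw [volume_pi, Measure.pi_pi]
    simp only [Real.volume_Ioo]
    rw [ENNReal.ofReal_prod_of_nonneg]
    · refine Finset.prod_congr rfl fun i _ => ?_
      congr 1; ring
    · intro i _; have := hr i; positivity
  let s : Set (Fin n → ℝ) := f ⁻¹' s0
  have hvol : volume s = ENNReal.ofReal |A.det⁻¹| * ENNReal.ofReal (∏ i, (2 * r i)) := by
    have := Measure.addHaar_preimage_linearMap (μ := (volume : Measure (Fin n → ℝ)))
      (f := f) (by rw [hf]; exact hA) s0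
    rw [hf, hvol0] at this
    exact this
  let L : AddSubgroup (Fin n → ℝ) := (Submodule.span ℤ (Set.range b)).toAddSubgroup
  have hfund := ZSpan.isAddFundamentalDomain' b (volume : Measure (Fin n → ℝ))
  have hF : volume (ZSpan.fundamentalDomain b) = 1 := by
    rw [ZSpan.fundamentalDomain_pi_basisFun, volume_pi, Measure.pi_pi]
    simp
  have hconv : Convex ℝ s := by
    apply Convex.linear_preimage
    exact convex_pi fun i _ => convex_Ioo _ _
  have hsymm : ∀ x ∈ s, -x ∈ s := by
    intro x hx
    simp only [s, s0, Set.mem_preimage, Set.mem_pi, Set.mem_univ, Set.mem_Ioo, map_neg,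
      Pi.neg_apply, forall_true_left] at hx ⊢
    intro i
    have := hx i
    constructor <;> linarith [this.1, this.2]
  have hlt : volume (ZSpan.fundamentalDomain b) * 2 ^ (Module.finrank ℝ (Fin n → ℝ)) < volume s := by
    rw [hF, hvol, one_mul, Module.finrank_fin_fun, ← ENNReal.ofReal_mul (abs_nonneg _)]
    have e2 : (2 : ENNReal) ^ n = ENNReal.ofReal (2 ^ n) := by
      rw [ENNReal.ofReal_pow (by norm_num)]; norm_num
    rw [e2]
    apply (ENNReal.ofReal_lt_ofReal_iff _).2
    · rw [Finset.prod_mul_distrib, Finset.prod_const, Finset.card_univ, Fintype.card_fin, abs_inv,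
        inv_mul_eq_div, lt_div_iff₀ (abs_pos.2 hA)]
      have : (0 : ℝ) < 2 ^ n := by positivity
      nlinarith
    · have hp : 0 < ∏ i, (2 * r i) := Finset.prod_pos fun i _ => by have := hr i; positivity
      have : 0 < |A.det⁻¹| := abs_pos.2 (inv_ne_zero hA)
      positivity
  have : Countable ↥L := by
    have : Countable (Submodule.span ℤ (Set.range b)) := inferInstance
    exact this
  obtain ⟨x, hx0, hxs⟩ := exists_ne_zero_mem_lattice_of_measure_mul_two_pow_lt_measure
    (L := L) hfund hsymm hconv hlt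
  have hxL : (x : Fin n → ℝ) ∈ Submodule.span ℤ (Set.range b) := x.2
  rw [Module.Basis.mem_span_iff_repr_mem] at hxL
  choose y hy using hxL
  have hxy : (x : Fin n → ℝ) = fun j => (y j : ℝ) := by
    ext j
    have := hy j
    simp only [b, Pi.basisFun_repr] at this
    rw [← this]; simp
  refine ⟨y, ?_, ?_⟩
  · rintro rfl
    apply hx0
    ext j
    rw [hxy]; simp
  · intro i
    rw [hxy] at hxs
    have := hxs i (Set.mem_univ _)
    rw [abs_lt]
    simpa [f, Matrix.toLin'_apply] using this

end Pool.Agent.SSS
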