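import Mathlib

/-! Joukowski coordinates and logarithmic expansions. -/

namespace Pool.Agent.SSS

open Complex ComplexConjugate

/-- For `‖u‖ < 1`, `‖v‖ ≤ 1`. -/
lemma hasSum_log_pair {u v : ℂ} (hu : ‖u‖ < 1) (hv : ‖v‖ ≤ 1) :
    HasSum (fun k : ℕ => (2 / (k : ℝ)) * ((u ^ k).re * (v ^ k).re))
      (-(Real.log ‖1 - u * v‖ + Real.log ‖1 - u * conj v‖)) := by
  have h1 : ‖u * v‖ < 1 := by
    rw [norm_mul]
    calc ‖u‖ * ‖v‖ ≤ ‖u‖ * 1 := by gcongr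
      _ < 1 := by simpa using hu
  have h2 : ‖u * conj v‖ < 1 := by
    rw [norm_mul, Complex.norm_conj]
    calc ‖u‖ * ‖v‖ ≤ ‖u‖ * 1 := by gcongr
      _ < 1 := by simpa using hu
  have s1 := Complex.hasSum_re (Complex.hasSum_taylorSeries_neg_log h1)
  have s2 := Complex.hasSum_re (Complex.hasSum_taylorSeries_neg_log h2)
  have s := s1.add s2
  convert s using 1
  · ext k
    have e1 : ((u * v) ^ k / (k : ℂ)).re = ((u * v) ^ k).re / (k : ℝ) := by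
      rw [← Complex.ofReal_natCast, Complex.div_ofReal_re]
    have e2 : ((u * conj v) ^ k / (k : ℂ)).re = ((u * conj v) ^ k).re / (k : ℝ) := by
      rw [← Complex.ofReal_natCast, Complex.div_ofReal_re]
    rw [e1, e2, mul_pow, mul_pow, ← map_pow]
    simp only [Complex.mul_re, Complex.conj_re, Complex.conj_im]
    ring
  · simp only [Complex.neg_re, Complex.log_re]
    ring

/-- `|1 - p ζ| ≥ √p |1 - ζ|`, squared form. -/
lemma sq_norm_one_sub_mul {p : ℝ} (hp0 : 0 ≤ p) (hp1 : p ≤ 1) {ζ : ℂ} (hζ : ‖ζ‖ ≤ 1) :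
    p * ‖1 - ζ‖ ^ 2 ≤ ‖1 - (p : ℂ) * ζ‖ ^ 2 := by
  have h1 : ‖1 - ζ‖ ^ 2 = (1 - ζ.re) ^ 2 + ζ.im ^ 2 := by
    rw [← Complex.normSq_eq_norm_sq, Complex.normSq_apply]; simp; ring
  have h2 : ‖1 - (p : ℂ) * ζ‖ ^ 2 = (1 - p * ζ.re) ^ 2 + (p * ζ.im) ^ 2 := by
    rw [← Complex.normSq_eq_norm_sq, Complex.normSq_apply]; simp; ring
  have h3 : ζ.re ^ 2 + ζ.im ^ 2 ≤ 1 := by
    have : ‖ζ‖ ^ 2 = ζ.re ^ 2 + ζ.im ^ 2 := by
      rw [← Complex.normSq_eq_norm_sq, Complex.normSq_apply]; ring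
    rw [← this]
    exact pow_le_one₀ (norm_nonneg _) hζ
  rw [h1, h2]
  nlinarith [mul_nonneg (sub_nonneg.2 hp1) (sub_nonneg.2 hp1), mul_nonneg hp0 (sub_nonneg.2 hp1),
    mul_nonneg (mul_nonneg hp0 (sub_nonneg.2 hp1)) (sub_nonneg.2 h3)]

/-- log form of the previous lemma -/
lemma log_one_sub_mul {p : ℝ} (hp0 : 0 < p) (hp1 : p ≤ 1) {ζ : ℂ} (hζ : ‖ζ‖ ≤ 1) (h : ζ ≠ 1) :
    Real.log p / 2 + Real.log ‖1 - ζ‖ ≤ Real.log ‖1 - (p : ℂ) * ζ‖ := by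
  have h0 : 0 < ‖1 - ζ‖ := norm_pos_iff.2 (sub_ne_zero.2 (Ne.symm h))
  have := sq_norm_one_sub_mul hp0.le hp1 hζ
  have h1 : Real.log (p * ‖1 - ζ‖ ^ 2) ≤ Real.log (‖1 - (p : ℂ) * ζ‖ ^ 2) :=
    Real.log_le_log (by positivity) this
  rw [Real.log_mul hp0.ne' (by positivity), Real.log_pow, Real.log_pow] at h1
  push_cast at h1
  linarith

/-- `|w conj w' - 1| ≥ |w - w'|` for `|w|,|w'| ≥ 1`. -/
lemma norm_sub_le_of_one_le {w w' : ℂ} (h : 1 ≤ ‖w‖) (h' : 1 ≤ ‖w'‖) :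
    ‖w - w'‖ ≤ ‖w * conj w' - 1‖ := by
  have e1 : ‖w - w'‖ ^ 2 = (w.re - w'.re) ^ 2 + (w.im - w'.im) ^ 2 := by
    rw [← Complex.normSq_eq_norm_sq, Complex.normSq_apply]; simp; ring
  have e2 : ‖w * conj w' - 1‖ ^ 2
      = (w.re * w'.re + w.im * w'.im - 1) ^ 2 + (w.im * w'.re - w.re * w'.im) ^ 2 := by
    rw [← Complex.normSq_eq_norm_sq, Complex.normSq_apply]; simp; ring
  have a1 : 1 ≤ w.re ^ 2 + w.im ^ 2 := by
    have : ‖w‖ ^ 2 = w.re ^ 2 + w.im ^ 2 := by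
      rw [← Complex.normSq_eq_norm_sq, Complex.normSq_apply]; ring
    rw [← this]; exact one_le_pow₀ h
  have a2 : 1 ≤ w'.re ^ 2 + w'.im ^ 2 := by
    have : ‖w'‖ ^ 2 = w'.re ^ 2 + w'.im ^ 2 := by
      rw [← Complex.normSq_eq_norm_sq, Complex.normSq_apply]; ring
    rw [← this]; exact one_le_pow₀ h'
  have : ‖w - w'‖ ^ 2 ≤ ‖w * conj w' - 1‖ ^ 2 := by
    rw [e1, e2]
    nlinarith [mul_nonneg (sub_nonneg.2 a1) (sub_nonneg.2 a2)]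
  exact le_of_sq_le_sq this (norm_nonneg _)

end Pool.Agent.SSS
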