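import Mathlib
import Pool.Agent.SSS.Jouk

/-! Positivity of the energy form, in terms of Chebyshev moments. -/

namespace Pool.Agent.SSS

open Complex ComplexConjugate

/-- `Ω_c(u) = ∑ (2/k) c_k Re(u^k)`. -/
noncomputable def Om (c : ℕ → ℝ) (u : ℂ) : ℝ := ∑' k : ℕ, (2 / (k : ℝ)) * (c k * (u ^ k).re)

lemma abs_re_pow_le (u : ℂ) (k : ℕ) : |(u ^ k).re| ≤ ‖u‖ ^ k := by
  calc |(u ^ k).re| ≤ ‖u ^ k‖ := Complex.abs_re_le_norm _
    _ = ‖u‖ ^ k := norm_pow _ _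

lemma two_div_nat_le (k : ℕ) : (2 / (k : ℝ)) ≤ 2 := by
  rcases Nat.eq_zero_or_pos k with h | h
  · subst h; norm_num
  · have : (1 : ℝ) ≤ k := by exact_mod_cast h
    rw [div_le_iff₀ (by linarith)]; linarith

lemma two_div_nat_nonneg (k : ℕ) : 0 ≤ (2 / (k : ℝ)) := by positivity

lemma summable_Om {c : ℕ → ℝ} {M : ℝ} (hc : ∀ k, |c k| ≤ M) {u : ℂ} (hu : ‖u‖ < 1) :
    Summable (fun k : ℕ => (2 / (k : ℝ)) * (c k * (u ^ k).re)) := by
  have hM : 0 ≤ M := (abs_nonneg _).trans (hc 0)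
  refine Summable.of_norm_bounded (g := fun k => 2 * (M * ‖u‖ ^ k)) ?_ ?_
  · exact ((summable_geometric_of_lt_one (norm_nonneg _) hu).mul_left M).mul_left 2
  · intro k
    rw [Real.norm_eq_abs, abs_mul, abs_mul, abs_of_nonneg (two_div_nat_nonneg k)]
    gcongr
    · exact two_div_nat_le k
    · exact hc k
    · exact abs_re_pow_le u k

/-- the quadratic form is nonnegative -/
lemma form_nonneg {ι : Type*} (s : Finset ι) (u : ι → ℂ) (v : ι → ℝ)
    (hu : ∀ i ∈ s, ‖u i‖ < 1) {c : ℕ → ℝ} {M : ℝ} (hc : ∀ k, |c k| ≤ M)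
    (hB : Summable (fun k : ℕ => (2 / (k : ℝ)) * (c k) ^ 2)) :
    0 ≤ (∑' k : ℕ, (2 / (k : ℝ)) * (c k) ^ 2) - 2 * ∑ i ∈ s, v i * Om c (u i)
      - ∑ i ∈ s, ∑ j ∈ s, v i * v j *
        (Real.log ‖1 - u i * u j‖ + Real.log ‖1 - u i * conj (u j)‖) := by
  have h1 : HasSum (fun k : ℕ => ∑ i ∈ s, v i * ((2 / (k : ℝ)) * (c k * ((u i) ^ k).re)))
      (∑ i ∈ s, v i * Om c (u i)) := by
    apply hasSum_sum
    intro i hi
    exact ((summable_Om hc (hu i hi)).hasSum).mul_left _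
  have h2 : HasSum (fun k : ℕ => ∑ i ∈ s, ∑ j ∈ s, v i * v j *
      ((2 / (k : ℝ)) * (((u i) ^ k).re * ((u j) ^ k).re)))
      (∑ i ∈ s, ∑ j ∈ s, v i * v j *
        (-(Real.log ‖1 - u i * u j‖ + Real.log ‖1 - u i * conj (u j)‖))) := by
    apply hasSum_sum
    intro i hi
    apply hasSum_sum
    intro j hj
    exact (hasSum_log_pair (hu i hi) (hu j hj).le).mul_left _
  have h3 := ((hB.hasSum).sub (h1.mul_left 2)).add h2
  have h4 : ∀ k : ℕ, 0 ≤ (2 / (k : ℝ)) * (c k) ^ 2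
      - 2 * ∑ i ∈ s, v i * ((2 / (k : ℝ)) * (c k * ((u i) ^ k).re))
      + ∑ i ∈ s, ∑ j ∈ s, v i * v j * ((2 / (k : ℝ)) * (((u i) ^ k).re * ((u j) ^ k).re)) := by
    intro k
    have : (2 / (k : ℝ)) * (c k) ^ 2
      - 2 * ∑ i ∈ s, v i * ((2 / (k : ℝ)) * (c k * ((u i) ^ k).re))
      + ∑ i ∈ s, ∑ j ∈ s, v i * v j * ((2 / (k : ℝ)) * (((u i) ^ k).re * ((u j) ^ k).re))
      = (2 / (k : ℝ)) * (c k - ∑ i ∈ s, v i * ((u i) ^ k).re) ^ 2 := by
      have e1 : ∑ i ∈ s, v i * ((2 / (k : ℝ)) * (c k * ((u i) ^ k).re))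
          = (2 / (k : ℝ)) * (c k * ∑ i ∈ s, v i * ((u i) ^ k).re) := by
        rw [Finset.mul_sum, Finset.mul_sum]
        refine Finset.sum_congr rfl fun i _ => by ring
      have e2 : ∑ i ∈ s, ∑ j ∈ s, v i * v j * ((2 / (k : ℝ)) * (((u i) ^ k).re * ((u j) ^ k).re))
          = (2 / (k : ℝ)) * ((∑ i ∈ s, v i * ((u i) ^ k).re) * (∑ i ∈ s, v i * ((u i) ^ k).re)) := by
        rw [Finset.sum_mul_sum, Finset.mul_sum]
        refine Finset.sum_congr rfl fun i _ => ?_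
        rw [Finset.mul_sum]
        refine Finset.sum_congr rfl fun j _ => by ring
      rw [e1, e2]; ring
    rw [this]
    exact mul_nonneg (two_div_nat_nonneg k) (sq_nonneg _)
  have h5 := h3.nonneg h4
  have e3 : ∑ i ∈ s, ∑ j ∈ s, v i * v j *
        (-(Real.log ‖1 - u i * u j‖ + Real.log ‖1 - u i * conj (u j)‖))
      = - ∑ i ∈ s, ∑ j ∈ s, v i * v j *
        (Real.log ‖1 - u i * u j‖ + Real.log ‖1 - u i * conj (u j)‖) := by
    simp only [← Finset.sum_neg_distrib]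
    refine Finset.sum_congr rfl fun i _ => Finset.sum_congr rfl fun j _ => by ring
  rw [e3] at h5
  linarith

/-- existence of the exterior Joukowski coordinate -/
lemma exists_jouk {L : ℝ} (hL : 0 < L) (z : ℂ) :
    ∃ w : ℂ, 1 ≤ ‖w‖ ∧ z = L * (2 + w + w⁻¹) := by
  obtain ⟨r, hr⟩ := IsAlgClosed.exists_pow_nat_eq ((z / L - 2) ^ 2 - 4) (n := 2) (by norm_num)
  set ζ : ℂ := z / L - 2 with hζ
  set w1 : ℂ := (ζ + r) / 2 with hw1
  set w2 : ℂ := (ζ - r) / 2 with hw2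
  have hprod : w1 * w2 = 1 := by
    rw [hw1, hw2]
    have : (ζ + r) / 2 * ((ζ - r) / 2) = (ζ ^ 2 - r ^ 2) / 4 := by ring
    rw [this, hr]; ring
  have hsum : w1 + w2 = ζ := by rw [hw1, hw2]; ring
  have hLc : (L : ℂ) ≠ 0 := by exact_mod_cast hL.ne'
  have hz : z = L * (2 + ζ) := by rw [hζ]; field_simp; ring
  have hn : ‖w1‖ * ‖w2‖ = 1 := by rw [← norm_mul, hprod, norm_one]
  have h1 : w1 ≠ 0 := left_ne_zero_of_mul (by rw [hprod]; exact one_ne_zero)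
  have h2 : w2 ≠ 0 := right_ne_zero_of_mul (by rw [hprod]; exact one_ne_zero)
  rcases le_or_gt 1 ‖w1‖ with h | h
  · refine ⟨w1, h, ?_⟩
    rw [hz, ← hsum, eq_inv_of_mul_eq_one_right hprod]; ring
  · refine ⟨w2, ?_, ?_⟩
    · by_contra hc
      push Not at hc
      have : ‖w1‖ * ‖w2‖ < 1 := by
        calc ‖w1‖ * ‖w2‖ ≤ ‖w1‖ * 1 := by gcongr
          _ < 1 := by simpa using h
      linarith
    · rw [hz, ← hsum, eq_inv_of_mul_eq_one_left hprod]; ring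

lemma jouk_sub {L : ℝ} {w w' : ℂ} (hw : w ≠ 0) (hw' : w' ≠ 0) :
    (L : ℂ) * (2 + w + w⁻¹) - L * (2 + w' + w'⁻¹) = L * (w - w') * (1 - (w * w')⁻¹) := by
  field_simp; ring

/-- comparison of the pair kernel with the true distance -/
lemma pair_lower {L : ℝ} (hL : 0 < L) {w w' : ℂ} (hw : 1 ≤ ‖w‖) (hw' : 1 ≤ ‖w'‖)
    {q q' : ℝ} (hq : 0 < q) (hq1 : q ≤ 1) (hq' : 0 < q') (hq1' : q' ≤ 1)
    (hne : (L : ℂ) * (2 + w + w⁻¹) ≠ L * (2 + w' + w'⁻¹)) :
    Real.log q + Real.log q' + Real.log ‖(L : ℂ) * (2 + w + w⁻¹) - L * (2 + w' + w'⁻¹)‖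
      - Real.log L - Real.log ‖w‖ - Real.log ‖w'‖ ≤
    Real.log ‖1 - (q / w) * (q' / w')‖ + Real.log ‖1 - (q / w) * conj (q' / w')‖ := by
  have w0 : w ≠ 0 := fun h => by rw [h, norm_zero] at hw; linarith
  have w0' : w' ≠ 0 := fun h => by rw [h, norm_zero] at hw'; linarith
  have wp : 0 < ‖w‖ := by linarith
  have wp' : 0 < ‖w'‖ := by linarith
  rw [jouk_sub w0 w0'] at *
  have hne' : (L : ℂ) * (w - w') * (1 - (w * w')⁻¹) ≠ 0 := by
    rw [← jouk_sub w0 w0']; exact sub_ne_zero.2 hne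
  have a1 : w - w' ≠ 0 := fun h => hne' (by rw [h]; ring)
  have a2 : 1 - (w * w')⁻¹ ≠ 0 := fun h => hne' (by rw [h]; ring)
  -- first factor
  have hp : 0 < q * q' := by positivity
  have hp1 : q * q' ≤ 1 := by nlinarith
  have b1 : (q : ℂ) / w * (q' / w') = ((q * q' : ℝ) : ℂ) * (w * w')⁻¹ := by
    push_cast; field_simp
  have b2 : (q : ℂ) / w * conj ((q' : ℂ) / w') = ((q * q' : ℝ) : ℂ) * (w * conj w')⁻¹ := by
    have : conj w' ≠ 0 := (map_ne_zero _).2 w0'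
    rw [map_div₀, Complex.conj_ofReal]
    push_cast; field_simp
  have n1 : ‖(w * w')⁻¹‖ ≤ 1 := by
    rw [norm_inv, norm_mul]
    exact inv_le_one_of_one_le₀ (by nlinarith)
  have n2 : ‖(w * conj w')⁻¹‖ ≤ 1 := by
    rw [norm_inv, norm_mul, Complex.norm_conj]
    exact inv_le_one_of_one_le₀ (by nlinarith)
  have hww : ‖w - w'‖ ≤ ‖w * conj w' - 1‖ := norm_sub_le_of_one_le hw hw'
  have hpos : 0 < ‖w - w'‖ := norm_pos_iff.2 a1
  have a3 : w * conj w' - 1 ≠ 0 := by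
    intro h; rw [h, norm_zero] at hww; linarith
  have a4 : (w * conj w')⁻¹ ≠ 1 := by
    intro h
    apply a3
    rw [inv_eq_one] at h
    rw [h]; ring
  have c1 := log_one_sub_mul hp hp1 n1 (fun h => a2 (by rw [h]; ring))
  have c2 := log_one_sub_mul hp hp1 n2 a4
  rw [b1, b2]
  have c3 : ‖1 - (w * conj w')⁻¹‖ = ‖w * conj w' - 1‖ / (‖w‖ * ‖w'‖) := by
    have hc : w * conj w' ≠ 0 := mul_ne_zero w0 ((map_ne_zero _).2 w0')
    have : (1 : ℂ) - (w * conj w')⁻¹ = (w * conj w' - 1) / (w * conj w') := by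
      rw [sub_div, div_self hc, one_div]
    rw [this, norm_div, norm_mul, Complex.norm_conj]
  have c4 : Real.log ‖w - w'‖ - Real.log ‖w‖ - Real.log ‖w'‖ ≤ Real.log ‖1 - (w * conj w')⁻¹‖ := by
    rw [c3, Real.log_div (by positivity) (by positivity), Real.log_mul (by positivity) (by positivity)]
    have := Real.log_le_log hpos hww
    linarith
  have c5 : Real.log ‖(L : ℂ) * (w - w') * (1 - (w * w')⁻¹)‖
      = Real.log L + Real.log ‖w - w'‖ + Real.log ‖1 - (w * w')⁻¹‖ := by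
    rw [norm_mul, norm_mul, Complex.norm_real, Real.norm_of_nonneg hL.le,
      Real.log_mul (by positivity) (by simpa using a2), Real.log_mul (by positivity) (by positivity)]
  have c6 : Real.log (q * q') = Real.log q + Real.log q' := Real.log_mul hq.ne' hq'.ne'
  rw [c5]
  linarith

/-- the diagonal -/
lemma diag_lower {u : ℂ} {q : ℝ} (hu : ‖u‖ ≤ q) (hq1 : q < 1) :
    2 * Real.log (1 - q) ≤ Real.log ‖1 - u * u‖ + Real.log ‖1 - u * conj u‖ := by
  have hq0 : 0 ≤ q := (norm_nonneg _).trans hu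
  have h1 : 1 - q ≤ ‖1 - u * u‖ := by
    have : ‖u * u‖ ≤ q := by
      rw [norm_mul]; nlinarith [norm_nonneg u]
    have h := norm_sub_norm_le (1 : ℂ) (u * u)
    rw [norm_one] at h; linarith
  have h2 : 1 - q ≤ ‖1 - u * conj u‖ := by
    have : ‖u * conj u‖ ≤ q := by
      rw [norm_mul, Complex.norm_conj]; nlinarith [norm_nonneg u]
    have h := norm_sub_norm_le (1 : ℂ) (u * conj u)
    rw [norm_one] at h; linarith
  have := Real.log_le_log (by linarith) h1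
  have := Real.log_le_log (by linarith) h2
  linarith

end Pool.Agent.SSS
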