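import Mathlib
import Pool.Agent.SSS.Energy

/-! The energy inequality for finitely many points. -/

namespace Pool.Agent.SSS

open Complex ComplexConjugate

lemma sum_sum_split {ι : Type*} [DecidableEq ι] (s : Finset ι) (f : ι → ι → ℝ) :
    ∑ i ∈ s, ∑ j ∈ s, f i j = ∑ i ∈ s, f i i + ∑ i ∈ s, ∑ j ∈ s.erase i, f i j := by
  rw [← Finset.sum_add_distrib]
  refine Finset.sum_congr rfl fun i hi => ?_
  rw [Finset.add_sum_erase s (f i) hi]

theorem energy_ineq {ι : Type*} [DecidableEq ι] (s : Finset ι) {L : ℝ} (hL : 0 < L)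
    (w : ι → ℂ) (hw : ∀ i ∈ s, 1 ≤ ‖w i‖) (q : ι → ℝ) (hq : ∀ i ∈ s, 0 < q i)
    (hq1 : ∀ i ∈ s, q i < 1) (v : ι → ℝ) (hv : ∀ i ∈ s, 0 ≤ v i)
    (hne : ∀ i ∈ s, ∀ j ∈ s, i ≠ j →
      (L : ℂ) * (2 + w i + (w i)⁻¹) ≠ L * (2 + w j + (w j)⁻¹))
    {c : ℕ → ℝ} {M : ℝ} (hc : ∀ k, |c k| ≤ M)
    (hB : Summable (fun k : ℕ => (2 / (k : ℝ)) * (c k) ^ 2)) :
    0 ≤ (∑' k : ℕ, (2 / (k : ℝ)) * (c k) ^ 2) - 2 * ∑ i ∈ s, v i * Om c (q i / w i)
      + ∑ i ∈ s, ∑ j ∈ s.erase i, v i * v j *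
        (-Real.log (q i) - Real.log (q j)
          - Real.log ‖(L : ℂ) * (2 + w i + (w i)⁻¹) - L * (2 + w j + (w j)⁻¹)‖
          + Real.log L + Real.log ‖w i‖ + Real.log ‖w j‖)
      + ∑ i ∈ s, v i ^ 2 * (-2 * Real.log (1 - q i)) := by
  have hu : ∀ i ∈ s, ‖(q i : ℂ) / w i‖ < 1 := by
    intro i hi
    rw [norm_div, Complex.norm_real, Real.norm_of_nonneg (hq i hi).le]
    have := hw i hi
    rw [div_lt_one (by linarith)]
    linarith [hq1 i hi]
  have hu' : ∀ i ∈ s, ‖(q i : ℂ) / w i‖ ≤ q i := by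
    intro i hi
    rw [norm_div, Complex.norm_real, Real.norm_of_nonneg (hq i hi).le]
    exact div_le_self (hq i hi).le (hw i hi)
  have h1 := form_nonneg s (fun i => (q i : ℂ) / w i) v hu hc hB
  rw [sum_sum_split] at h1
  have h2 : ∑ i ∈ s, v i ^ 2 * (2 * Real.log (1 - q i)) ≤
      ∑ i ∈ s, v i * v i * (Real.log ‖1 - (q i : ℂ) / w i * ((q i : ℂ) / w i)‖
        + Real.log ‖1 - (q i : ℂ) / w i * conj ((q i : ℂ) / w i)‖) := by
    refine Finset.sum_le_sum fun i hi => ?_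
    rw [← sq]
    exact mul_le_mul_of_nonneg_left (diag_lower (hu' i hi) (hq1 i hi)) (sq_nonneg _)
  have h3 : ∑ i ∈ s, ∑ j ∈ s.erase i, v i * v j *
        (Real.log (q i) + Real.log (q j)
          + Real.log ‖(L : ℂ) * (2 + w i + (w i)⁻¹) - L * (2 + w j + (w j)⁻¹)‖
          - Real.log L - Real.log ‖w i‖ - Real.log ‖w j‖) ≤
      ∑ i ∈ s, ∑ j ∈ s.erase i, v i * v j *
        (Real.log ‖1 - (q i : ℂ) / w i * ((q j : ℂ) / w j)‖
        + Real.log ‖1 - (q i : ℂ) / w i * conj ((q j : ℂ) / w j)‖) := by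
    refine Finset.sum_le_sum fun i hi => Finset.sum_le_sum fun j hj => ?_
    have hj' : j ∈ s := Finset.mem_of_mem_erase hj
    have hij : i ≠ j := (Finset.ne_of_mem_erase hj).symm
    exact mul_le_mul_of_nonneg_left (pair_lower hL (hw i hi) (hw j hj') (hq i hi) (hq1 i hi).le
      (hq j hj') (hq1 j hj').le (hne i hi j hj' hij)) (mul_nonneg (hv i hi) (hv j hj'))
  have e1 : ∑ i ∈ s, v i ^ 2 * (-2 * Real.log (1 - q i)) =
      - ∑ i ∈ s, v i ^ 2 * (2 * Real.log (1 - q i)) := by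
    rw [← Finset.sum_neg_distrib]
    refine Finset.sum_congr rfl fun i _ => by ring
  have e2 : ∑ i ∈ s, ∑ j ∈ s.erase i, v i * v j *
        (-Real.log (q i) - Real.log (q j)
          - Real.log ‖(L : ℂ) * (2 + w i + (w i)⁻¹) - L * (2 + w j + (w j)⁻¹)‖
          + Real.log L + Real.log ‖w i‖ + Real.log ‖w j‖)
      = - ∑ i ∈ s, ∑ j ∈ s.erase i, v i * v j *
        (Real.log (q i) + Real.log (q j)
          + Real.log ‖(L : ℂ) * (2 + w i + (w i)⁻¹) - L * (2 + w j + (w j)⁻¹)‖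
          - Real.log L - Real.log ‖w i‖ - Real.log ‖w j‖) := by
    simp only [← Finset.sum_neg_distrib]
    refine Finset.sum_congr rfl fun i _ => Finset.sum_congr rfl fun j _ => by ring
  rw [e1, e2]
  linarith

lemma Om_sub_le {c : ℕ → ℝ} (hc : ∀ k, |c k| ≤ 1) {u : ℂ} {q : ℝ} (hu : ‖u‖ ≤ q) (hq : q < 1)
    {t : ℝ} (ht0 : 0 ≤ t) (ht1 : t ≤ 1) :
    |Om c u - Om c (t * u)| ≤ 2 * (1 - t) / (1 - q) := by
  have hq0 : 0 ≤ q := (norm_nonneg _).trans hu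
  have hu1 : ‖u‖ < 1 := lt_of_le_of_lt hu hq
  have htu : ‖(t : ℂ) * u‖ < 1 := by
    rw [norm_mul, Complex.norm_real, Real.norm_of_nonneg ht0]
    nlinarith [norm_nonneg u]
  have s1 := summable_Om hc hu1
  have s2 := summable_Om hc htu
  have hg : HasSum (fun k : ℕ => 2 * (1 - t) * q ^ k) (2 * (1 - t) * (1 - q)⁻¹) :=
    (hasSum_geometric_of_lt_one hq0 hq).mul_left _
  unfold Om
  rw [← s1.tsum_sub s2]
  have : ‖∑' k : ℕ, ((2 / (k : ℝ)) * (c k * (u ^ k).re)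
      - (2 / (k : ℝ)) * (c k * (((t : ℂ) * u) ^ k).re))‖ ≤ 2 * (1 - t) * (1 - q)⁻¹ := by
    apply tsum_of_norm_bounded hg
    intro k
    have e : (((t : ℂ) * u) ^ k).re = t ^ k * (u ^ k).re := by
      rw [mul_pow, ← Complex.ofReal_pow, Complex.re_ofReal_mul]
    rw [e, Real.norm_eq_abs]
    have e' : (2 / (k : ℝ)) * (c k * (u ^ k).re) - (2 / (k : ℝ)) * (c k * (t ^ k * (u ^ k).re))
        = ((2 / (k : ℝ)) * (1 - t ^ k)) * (c k * (u ^ k).re) := by ring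
    rw [e', abs_mul, abs_mul (c k)]
    have b1 : |(2 / (k : ℝ)) * (1 - t ^ k)| ≤ 2 * (1 - t) := by
      rw [abs_of_nonneg (mul_nonneg (two_div_nat_nonneg k)
        (sub_nonneg.2 (pow_le_one₀ ht0 ht1)))]
      rcases Nat.eq_zero_or_pos k with h | h
      · subst h; simp; linarith
      · have hk : (0 : ℝ) < k := by exact_mod_cast h
        have := one_add_mul_le_pow (a := t - 1) (by linarith) k
        have h3 : 1 - t ^ k ≤ k * (1 - t) := by
          have e : 1 + (t - 1) = t := by ring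
          rw [e] at this; linarith
        calc (2 / (k : ℝ)) * (1 - t ^ k) ≤ (2 / (k : ℝ)) * (k * (1 - t)) := by gcongr
          _ = 2 * (1 - t) := by field_simp
    have b2 : |(u ^ k).re| ≤ q ^ k := (abs_re_pow_le u k).trans (by gcongr)
    have h1t : 0 ≤ 1 - t := by linarith
    calc |(2 / (k : ℝ)) * (1 - t ^ k)| * (|c k| * |(u ^ k).re|)
        ≤ (2 * (1 - t)) * (1 * q ^ k) := by
          gcongr
          exact hc k
      _ = 2 * (1 - t) * q ^ k := by ring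
  rw [Real.norm_eq_abs] at this
  rwa [div_eq_mul_inv]

end Pool.Agent.SSS
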