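import Mathlib
import Pool.Agent.SSS.EnIneq

/-! Joukowski coordinate of real points. -/

namespace Pool.Agent.SSS

open Complex ComplexConjugate

/-- exterior Joukowski coordinate of a real point `x ≥ 0` w.r.t. `[0, 4L]`. -/
noncomputable def ee (L x : ℝ) : ℂ :=
  ⟨(x - 2 * L) / (2 * L) + √(((x - 2 * L) / (2 * L)) ^ 2 - 1), √(1 - ((x - 2 * L) / (2 * L)) ^ 2)⟩

lemma continuous_ee (L : ℝ) : Continuous (ee L) := by
  have h : Continuous (fun x : ℝ =>
      ((((x - 2 * L) / (2 * L) + √(((x - 2 * L) / (2 * L)) ^ 2 - 1) : ℝ) : ℂ)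
        + ((√(1 - ((x - 2 * L) / (2 * L)) ^ 2) : ℝ) : ℂ) * I)) := by fun_prop
  convert h using 1
  ext x
  rw [ee, Complex.mk_eq_add_mul_I]

lemma ee_spec {L x : ℝ} (hL : 0 < L) (hx : 0 ≤ x) :
    1 ≤ ‖ee L x‖ ∧ (x : ℂ) = L * (2 + ee L x + (ee L x)⁻¹) := by
  set y := (x - 2 * L) / (2 * L) with hy
  have hxy : x = L * (2 + 2 * y) := by rw [hy]; field_simp; ring
  have hy1 : -1 ≤ y := by
    rw [hy, le_div_iff₀ (by positivity)]; linarith
  rcases le_or_gt y 1 with h | h
  · have hsq : y ^ 2 ≤ 1 := by nlinarith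
    have e1 : √(y ^ 2 - 1) = 0 := Real.sqrt_eq_zero_of_nonpos (by linarith)
    have e2 : √(1 - y ^ 2) ^ 2 = 1 - y ^ 2 := Real.sq_sqrt (by linarith)
    have he : ee L x = ⟨y, √(1 - y ^ 2)⟩ := by
      unfold ee; rw [← hy, e1, add_zero]
    have hn : normSq (ee L x) = 1 := by
      rw [he, normSq_apply]; simp only; nlinarith
    have hn' : ‖ee L x‖ = 1 := by
      have : ‖ee L x‖ ^ 2 = 1 := by rw [← normSq_eq_norm_sq, hn]
      nlinarith [norm_nonneg (ee L x)]
    refine ⟨hn'.ge, ?_⟩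
    rw [Complex.inv_def, hn]
    rw [he]
    apply Complex.ext
    · simp; rw [hxy]; ring
    · simp
  · have hsq : 1 ≤ y ^ 2 := by nlinarith
    have e1 : √(1 - y ^ 2) = 0 := Real.sqrt_eq_zero_of_nonpos (by linarith)
    have e2 : √(y ^ 2 - 1) ^ 2 = y ^ 2 - 1 := Real.sq_sqrt (by linarith)
    set t := √(y ^ 2 - 1) with ht
    have ht0 : 0 ≤ t := Real.sqrt_nonneg _
    have he : ee L x = ((y + t : ℝ) : ℂ) := by
      apply Complex.ext
      · simp [ee, ← hy, ← ht]
      · simp [ee, ← hy, e1]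
    rw [he]
    constructor
    · rw [Complex.norm_real, Real.norm_of_nonneg (by linarith)]; linarith
    · have hne : y + t ≠ 0 := by linarith
      rw [← Complex.ofReal_inv]
      norm_cast
      have : (y + t)⁻¹ = y - t := by
        apply inv_eq_of_mul_eq_one_right; nlinarith
      rw [this, hxy]; ring

lemma ee_norm_eq_one {L x : ℝ} (hL : 0 < L) (hx : 0 ≤ x) (hx' : x ≤ 4 * L) :
    ‖ee L x‖ = 1 ∧ x = L * (2 + 2 * (ee L x).re) := by
  set y := (x - 2 * L) / (2 * L) with hy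
  have hxy : x = L * (2 + 2 * y) := by rw [hy]; field_simp; ring
  have hy1 : -1 ≤ y := by
    rw [hy, le_div_iff₀ (by positivity)]; linarith
  have h : y ≤ 1 := by
    rw [hy, div_le_iff₀ (by positivity)]; linarith
  have hsq : y ^ 2 ≤ 1 := by nlinarith
  have e1 : √(y ^ 2 - 1) = 0 := Real.sqrt_eq_zero_of_nonpos (by linarith)
  have e2 : √(1 - y ^ 2) ^ 2 = 1 - y ^ 2 := Real.sq_sqrt (by linarith)
  have he : ee L x = ⟨y, √(1 - y ^ 2)⟩ := by
    unfold ee; rw [← hy, e1, add_zero]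
  have hn : normSq (ee L x) = 1 := by
    rw [he, normSq_apply]; simp only; nlinarith
  refine ⟨?_, ?_⟩
  · have : ‖ee L x‖ ^ 2 = 1 := by rw [← normSq_eq_norm_sq, hn]
    nlinarith [norm_nonneg (ee L x)]
  · rw [he]; exact hxy

/-- the smoothed potential as a function of the exterior coordinate -/
noncomputable def Wf (L : ℝ) (c : ℕ → ℝ) (q : ℝ) (w : ℂ) : ℝ :=
  Real.log L + Real.log ‖w‖ - Om c (q / w)

lemma continuous_Om_comp {X : Type*} [TopologicalSpace X] {c : ℕ → ℝ} (hc : ∀ k, |c k| ≤ 1)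
    {u : X → ℂ} (hu : Continuous u) {q : ℝ} (hq1 : q < 1) (hb : ∀ x, ‖u x‖ ≤ q) :
    Continuous (fun x => Om c (u x)) := by
  rcases isEmpty_or_nonempty X with hX | hX
  · exact continuous_of_discreteTopology
  have hq0 : 0 ≤ q := (norm_nonneg _).trans (hb hX.some)
  unfold Om
  refine continuous_tsum (u := fun k => 2 * q ^ k) ?_ ?_ ?_
  · intro k; fun_prop
  · exact (summable_geometric_of_lt_one hq0 hq1).mul_left 2
  · intro k x
    rw [Real.norm_eq_abs, abs_mul, abs_mul, abs_of_nonneg (two_div_nat_nonneg k)]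
    have h1 := two_div_nat_le k
    have h2 : |(u x ^ k).re| ≤ q ^ k := (abs_re_pow_le _ k).trans (by gcongr; exact hb x)
    calc (2 / (k : ℝ)) * (|c k| * |(u x ^ k).re|) ≤ 2 * (1 * q ^ k) := by
          gcongr
          exact hc k
      _ = 2 * q ^ k := by ring

lemma continuousOn_Wf {L : ℝ} (hL : 0 < L) {c : ℕ → ℝ} (hc : ∀ k, |c k| ≤ 1) {q : ℝ}
    (hq0 : 0 ≤ q) (hq1 : q < 1) :
    ContinuousOn (fun x : ℝ => Wf L c q (ee L x)) (Set.Ici 0) := by
  rw [continuousOn_iff_continuous_domRestrict]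
  unfold Wf
  have hne : ∀ x : Set.Ici (0 : ℝ), ee L x ≠ 0 := by
    intro x h
    have := (ee_spec hL x.2).1
    rw [h, norm_zero] at this; linarith
  have hce : Continuous (fun x : Set.Ici (0 : ℝ) => ee L (x : ℝ)) :=
    (continuous_ee L).comp continuous_subtype_val
  have h1 : Continuous (fun x : Set.Ici (0 : ℝ) => Real.log ‖ee L (x : ℝ)‖) :=
    Continuous.log (continuous_norm.comp hce) (fun x => (norm_pos_iff.2 (hne x)).ne')
  have h2 : Continuous (fun x : Set.Ici (0 : ℝ) => Om c (q / ee L (x : ℝ))) := by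
    apply continuous_Om_comp hc (q := q) _ hq1
    · intro x
      rw [norm_div, Complex.norm_real, Real.norm_of_nonneg hq0]
      exact div_le_self hq0 (ee_spec hL x.2).1
    · exact continuous_const.div hce hne
  exact (continuous_const.add h1).sub h2

end Pool.Agent.SSS
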