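import Mathlib

/-! Resultant bounds for irreducible integer polynomials. -/

namespace Pool.Agent.SSS

open Polynomial

/-- the finite set of complex roots of an integer polynomial -/
noncomputable def crt (Q : ℤ[X]) : Finset ℂ := (Q.aroots ℂ).toFinset

lemma mem_crt {Q : ℤ[X]} (hQ : Q ≠ 0) {α : ℂ} : α ∈ crt Q ↔ aeval α Q = 0 := by
  unfold crt
  rw [Multiset.mem_toFinset, mem_aroots]
  exact ⟨fun h => h.2, fun h => ⟨hQ, h⟩⟩

lemma res_bound {P Q : ℤ[X]} (hP : P ≠ 0) (h : ∀ α : ℂ, aeval α P = 0 → aeval α Q ≠ 0) :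
    1 ≤ |(P.leadingCoeff : ℝ)| ^ Q.natDegree *
      ((P.aroots ℂ).map (fun α => ‖aeval α Q‖)).prod := by
  set φ : ℤ →+* ℂ := algebraMap ℤ ℂ with hφ
  have hinj : Function.Injective φ := RingHom.injective_int φ
  have hsplit : (P.map φ).Splits := IsAlgClosed.splits _
  have h1 := resultant_eq_prod_eval (P.map φ) (Q.map φ) Q.natDegree natDegree_map_le hsplit
  have h2 := resultant_map_map (f := P) (g := Q) (m := P.natDegree) (n := Q.natDegree) φ
  rw [natDegree_map_eq_of_injective hinj, h2, leadingCoeff_map_of_injective hinj] at h1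
  have h3 : ((P.map φ).roots.map (fun α => (Q.map φ).eval α)).prod
      = ((P.aroots ℂ).map (fun α => aeval α Q)).prod := by
    congr 1
    apply Multiset.map_congr rfl
    intro α _
    exact eval_map_algebraMap Q α
  rw [show ((P.map φ).roots.map (Q.map φ).eval) =
    ((P.map φ).roots.map (fun α => (Q.map φ).eval α)) from rfl, h3] at h1
  have hne : ((P.aroots ℂ).map (fun α => aeval α Q)).prod ≠ 0 := by
    rw [Ne, Multiset.prod_eq_zero_iff, Multiset.mem_map]
    rintro ⟨α, hα, h0⟩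
    exact h α ((mem_aroots.1 hα).2) h0
  have hlead : (φ P.leadingCoeff) ≠ 0 := by
    rw [map_ne_zero_iff φ hinj]; exact leadingCoeff_ne_zero.2 hP
  have hres : P.resultant Q P.natDegree Q.natDegree ≠ 0 := by
    intro h0
    rw [h0, map_zero] at h1
    exact mul_ne_zero (pow_ne_zero _ hlead) hne h1.symm
  have h4 : (1 : ℝ) ≤ ‖φ (P.resultant Q P.natDegree Q.natDegree)‖ := by
    have : φ (P.resultant Q P.natDegree Q.natDegree)
        = ((P.resultant Q P.natDegree Q.natDegree : ℤ) : ℂ) := by simp [hφ]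
    rw [this, Complex.norm_intCast]
    exact_mod_cast Int.one_le_abs hres
  rw [h1, norm_mul, norm_pow] at h4
  have h5 : ‖φ P.leadingCoeff‖ = |(P.leadingCoeff : ℝ)| := by
    have : φ P.leadingCoeff = ((P.leadingCoeff : ℤ) : ℂ) := by simp [hφ]
    rw [this, Complex.norm_intCast]
  have h6 : ‖((P.aroots ℂ).map (fun α => aeval α Q)).prod‖
      = ((P.aroots ℂ).map (fun α => ‖aeval α Q‖)).prod := by
    rw [show ‖((P.aroots ℂ).map (fun α => aeval α Q)).prod‖
      = normHom ((P.aroots ℂ).map (fun α => aeval α Q)).prod from rfl, map_multiset_prod,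
      Multiset.map_map]
    rfl
  rw [h5, h6] at h4
  exact h4

lemma norm_aeval_eq (Q : ℤ[X]) (z : ℂ) :
    ‖aeval z Q‖ = |(Q.leadingCoeff : ℝ)| * ((Q.aroots ℂ).map (fun β => ‖z - β‖)).prod := by
  set φ : ℤ →+* ℂ := algebraMap ℤ ℂ with hφ
  have hinj : Function.Injective φ := RingHom.injective_int φ
  have hsplit : (Q.map φ).Splits := IsAlgClosed.splits _
  have h := hsplit.eq_prod_roots
  have h1 : aeval z Q = (Q.map φ).eval z := (eval_map_algebraMap Q z).symm
  rw [h1, h, eval_mul, eval_C, eval_multiset_prod, Multiset.map_map, norm_mul,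
    leadingCoeff_map_of_injective hinj]
  congr 1
  · have : φ Q.leadingCoeff = ((Q.leadingCoeff : ℤ) : ℂ) := by simp [hφ]
    rw [this, Complex.norm_intCast]
  · rw [show ‖(Multiset.map (eval z ∘ fun a => X - C a) (map φ Q).roots).prod‖
      = normHom (Multiset.map (eval z ∘ fun a => X - C a) (map φ Q).roots).prod from rfl,
      map_multiset_prod, Multiset.map_map]
    congr 1
    apply Multiset.map_congr rfl
    intro β _
    simp

section irred

variable {Q : ℤ[X]}

lemma separable_map (hQ : Irreducible Q) (hd : Q.natDegree ≠ 0) :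
    (Q.map (algebraMap ℤ ℂ)).Separable := by
  have hp := hQ.isPrimitive hd
  have h1 : Irreducible (Q.map (Int.castRingHom ℚ)) :=
    (IsPrimitive.Int.irreducible_iff_irreducible_map_cast hp).1 hQ
  have h2 : (Q.map (Int.castRingHom ℚ)).Separable := h1.separable
  have h3 : (Q.map (algebraMap ℤ ℂ)) = (Q.map (Int.castRingHom ℚ)).map (algebraMap ℚ ℂ) := by
    rw [Polynomial.map_map]; congr 1
  rw [h3]
  exact h2.map

lemma nodup_aroots_of_irred (hQ : Irreducible Q) (hd : Q.natDegree ≠ 0) :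
    (Q.aroots ℂ).Nodup := nodup_roots (separable_map hQ hd)

lemma aroots_eq_crt (hQ : Irreducible Q) (hd : Q.natDegree ≠ 0) :
    Q.aroots ℂ = (crt Q).val := by
  unfold crt
  rw [Multiset.toFinset_val, (nodup_aroots_of_irred hQ hd).dedup]

lemma card_crt (hQ : Irreducible Q) (hd : Q.natDegree ≠ 0) : (crt Q).card = Q.natDegree := by
  rw [← Finset.card_val, ← aroots_eq_crt hQ hd]
  have hsplit : (Q.map (algebraMap ℤ ℂ)).Splits := IsAlgClosed.splits _
  have := hsplit.natDegree_eq_card_roots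
  rw [natDegree_map_eq_of_injective (RingHom.injective_int _)] at this
  exact this.symm

lemma no_common_root {P : ℤ[X]} (hQ : Irreducible Q) (hd : Q.natDegree ≠ 0)
    (hP : Irreducible P) (hdP : P.natDegree ≠ 0) (hne : ¬ Associated P Q) {α : ℂ}
    (h1 : aeval α P = 0) : aeval α Q ≠ 0 := by
  intro h2
  apply hne
  have hpP := hP.isPrimitive hdP
  have hpQ := hQ.isPrimitive hd
  have i1 : Irreducible (P.map (Int.castRingHom ℚ)) :=
    (IsPrimitive.Int.irreducible_iff_irreducible_map_cast hpP).1 hP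
  have i2 : Irreducible (Q.map (Int.castRingHom ℚ)) :=
    (IsPrimitive.Int.irreducible_iff_irreducible_map_cast hpQ).1 hQ
  have e1 : aeval α (P.map (Int.castRingHom ℚ)) = 0 := by
    rw [show Int.castRingHom ℚ = algebraMap ℤ ℚ from rfl, aeval_map_algebraMap]; exact h1
  have e2 : aeval α (Q.map (Int.castRingHom ℚ)) = 0 := by
    rw [show Int.castRingHom ℚ = algebraMap ℤ ℚ from rfl, aeval_map_algebraMap]; exact h2
  have d1 := minpoly.dvd ℚ α e1
  have d2 := minpoly.dvd ℚ α e2
  have hint : IsIntegral ℚ α := IsAlgebraic.isIntegral ⟨_, i1.ne_zero, e1⟩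
  have hirr : Irreducible (minpoly ℚ α) := minpoly.irreducible hint
  have a1 : Associated (minpoly ℚ α) (P.map (Int.castRingHom ℚ)) := hirr.associated_of_dvd i1 d1
  have a2 : Associated (minpoly ℚ α) (Q.map (Int.castRingHom ℚ)) := hirr.associated_of_dvd i2 d2
  have a3 := a1.symm.trans a2
  apply associated_of_dvd_dvd
  · exact (IsPrimitive.Int.dvd_iff_map_cast_dvd_map_cast P Q hpP).2 a3.dvd
  · exact (IsPrimitive.Int.dvd_iff_map_cast_dvd_map_cast Q P hpQ).2 a3.symm.dvd

lemma multiset_map_prod_crt (hQ : Irreducible Q) (hd : Q.natDegree ≠ 0) (f : ℂ → ℝ) :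
    ((Q.aroots ℂ).map f).prod = ∏ α ∈ crt Q, f α := by
  rw [aroots_eq_crt hQ hd]; rfl

/-- (R1) -/
lemma res_log {P : ℤ[X]} (hQ : Irreducible Q) (hd : Q.natDegree ≠ 0)
    (hP : Irreducible P) (hdP : P.natDegree ≠ 0) (hne : ¬ Associated P Q) :
    0 ≤ Q.natDegree * Real.log |(P.leadingCoeff : ℝ)| + P.natDegree * Real.log |(Q.leadingCoeff : ℝ)|
      + ∑ α ∈ crt P, ∑ β ∈ crt Q, Real.log ‖α - β‖ := by
  have hP0 := hP.ne_zero
  have hQ0 := hQ.ne_zero
  have h := res_bound hP0 (fun α h1 => no_common_root hQ hd hP hdP hne h1) (Q := Q)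
  rw [multiset_map_prod_crt hP hdP] at h
  have hlP : (0 : ℝ) < |(P.leadingCoeff : ℝ)| := by
    rw [abs_pos]; exact_mod_cast leadingCoeff_ne_zero.2 hP0
  have hlQ : (0 : ℝ) < |(Q.leadingCoeff : ℝ)| := by
    rw [abs_pos]; exact_mod_cast leadingCoeff_ne_zero.2 hQ0
  have hnz : ∀ α ∈ crt P, ∀ β ∈ crt Q, ‖α - β‖ ≠ 0 := by
    intro α hα β hβ h0
    rw [norm_eq_zero, sub_eq_zero] at h0
    rw [mem_crt hP0] at hα
    rw [mem_crt hQ0, ← h0] at hβ
    exact no_common_root hQ hd hP hdP hne hα hβ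
  have e1 : ∀ α ∈ crt P, ‖aeval α Q‖ = |(Q.leadingCoeff : ℝ)| * ∏ β ∈ crt Q, ‖α - β‖ := by
    intro α _
    rw [norm_aeval_eq, multiset_map_prod_crt hQ hd]
  rw [Finset.prod_congr rfl e1] at h
  have h2 := Real.log_nonneg h
  rw [Real.log_mul (by positivity), Real.log_pow, Real.log_prod] at h2
  · have e2 : ∀ α ∈ crt P, Real.log (|(Q.leadingCoeff : ℝ)| * ∏ β ∈ crt Q, ‖α - β‖)
        = Real.log |(Q.leadingCoeff : ℝ)| + ∑ β ∈ crt Q, Real.log ‖α - β‖ := by
      intro α hα
      rw [Real.log_mul hlQ.ne' (Finset.prod_ne_zero_iff.2 (hnz α hα)), Real.log_prod (hnz α hα)]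
    rw [Finset.sum_congr rfl e2, Finset.sum_add_distrib, Finset.sum_const, card_crt hP hdP,
      nsmul_eq_mul] at h2
    linarith
  · intro α hα
    exact mul_ne_zero hlQ.ne' (Finset.prod_ne_zero_iff.2 (hnz α hα))
  · apply Finset.prod_ne_zero_iff.2
    intro α hα
    exact mul_ne_zero hlQ.ne' (Finset.prod_ne_zero_iff.2 (hnz α hα))

/-- (R2) -/
lemma disc_log {P : ℤ[X]} (hP : Irreducible P) (hdP : P.natDegree ≠ 0) :
    0 ≤ 2 * P.natDegree * Real.log |(P.leadingCoeff : ℝ)|
      + ∑ α ∈ crt P, ∑ β ∈ (crt P).erase α, Real.log ‖α - β‖ := by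
  have hP0 := hP.ne_zero
  have hlP : (0 : ℝ) < |(P.leadingCoeff : ℝ)| := by
    rw [abs_pos]; exact_mod_cast leadingCoeff_ne_zero.2 hP0
  have hlP1 : (1 : ℝ) ≤ |(P.leadingCoeff : ℝ)| := by
    exact_mod_cast Int.one_le_abs (leadingCoeff_ne_zero.2 hP0)
  have hlog : 0 ≤ Real.log |(P.leadingCoeff : ℝ)| := Real.log_nonneg hlP1
  set φ : ℤ →+* ℂ := algebraMap ℤ ℂ with hφ
  have hinj : Function.Injective φ := RingHom.injective_int φ
  have hsplit : (P.map φ).Splits := IsAlgClosed.splits _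
  have hfac : P.map φ = C (φ P.leadingCoeff) * ∏ β ∈ crt P, (X - C β) := by
    have h := hsplit.eq_prod_roots
    rw [leadingCoeff_map_of_injective hinj] at h
    rw [h]
    congr 1
    have : (P.map φ).roots = (crt P).val := aroots_eq_crt hP hdP
    rw [this]; rfl
  have hder : ∀ α ∈ crt P, aeval α (derivative P)
      = φ P.leadingCoeff * ∏ β ∈ (crt P).erase α, (α - β) := by
    intro α hα
    rw [← eval_map_algebraMap, ← derivative_map, hfac, derivative_mul, derivative_C, zero_mul,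
      zero_add, eval_mul, eval_C]
    congr 1
    rw [derivative_prod_finset, eval_finsetSum, Finset.sum_eq_single α]
    · simp [eval_prod]
    · intro γ hγ hne
      rw [eval_mul, eval_prod]
      have : ∏ j ∈ (crt P).erase γ, eval α (X - C j) = 0 := by
        apply Finset.prod_eq_zero (Finset.mem_erase.2 ⟨hne.symm, hα⟩)
        simp
      rw [this, zero_mul]
    · intro h; exact absurd hα h
  have hnz : ∀ α ∈ crt P, ∀ β ∈ (crt P).erase α, ‖α - β‖ ≠ 0 := by
    intro α hα β hβ h0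
    rw [norm_eq_zero, sub_eq_zero] at h0
    exact (Finset.ne_of_mem_erase hβ) h0.symm
  have hnorm : ∀ α ∈ crt P, ‖aeval α (derivative P)‖
      = |(P.leadingCoeff : ℝ)| * ∏ β ∈ (crt P).erase α, ‖α - β‖ := by
    intro α hα
    rw [hder α hα, norm_mul, norm_prod]
    congr 1
    have : φ P.leadingCoeff = ((P.leadingCoeff : ℤ) : ℂ) := by simp [hφ]
    rw [this, Complex.norm_intCast]
  have h := res_bound hP0 (Q := derivative P) (by
    intro α hα h0
    have hα' : α ∈ crt P := (mem_crt hP0).2 hα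
    have := hnorm α hα'
    rw [h0, norm_zero] at this
    exact mul_ne_zero hlP.ne' (Finset.prod_ne_zero_iff.2 (hnz α hα')) this.symm)
  rw [multiset_map_prod_crt hP hdP, Finset.prod_congr rfl hnorm] at h
  have h2 := Real.log_nonneg h
  rw [Real.log_mul (by positivity), Real.log_pow, Real.log_prod] at h2
  · have e2 : ∀ α ∈ crt P, Real.log (|(P.leadingCoeff : ℝ)| * ∏ β ∈ (crt P).erase α, ‖α - β‖)
        = Real.log |(P.leadingCoeff : ℝ)| + ∑ β ∈ (crt P).erase α, Real.log ‖α - β‖ := by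
      intro α hα
      rw [Real.log_mul hlP.ne' (Finset.prod_ne_zero_iff.2 (hnz α hα)), Real.log_prod (hnz α hα)]
    rw [Finset.sum_congr rfl e2, Finset.sum_add_distrib, Finset.sum_const, card_crt hP hdP,
      nsmul_eq_mul] at h2
    have hdeg : ((derivative P).natDegree : ℝ) ≤ P.natDegree := by
      exact_mod_cast (natDegree_derivative_le P).trans (Nat.sub_le _ _)
    nlinarith
  · intro α hα
    exact mul_ne_zero hlP.ne' (Finset.prod_ne_zero_iff.2 (hnz α hα))
  · apply Finset.prod_ne_zero_iff.2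
    intro α hα
    exact mul_ne_zero hlP.ne' (Finset.prod_ne_zero_iff.2 (hnz α hα))

end irred

end Pool.Agent.SSS
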