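import Mathlib
import Pool.Agent.SSS.EnIneq
import Pool.Agent.SSS.RealPt
import Pool.Agent.SSS.Resul

/-! The bad set inequality. -/

namespace Pool.Agent.SSS

open Complex ComplexConjugate Polynomial

/-- exterior Joukowski coordinate of a complex number -/
noncomputable def jw (L : ℝ) (z : ℂ) : ℂ := if h : 0 < L then (exists_jouk h z).choose else 1

lemma jw_norm {L : ℝ} (hL : 0 < L) (z : ℂ) : 1 ≤ ‖jw L z‖ := by
  unfold jw; rw [dif_pos hL]; exact (exists_jouk hL z).choose_spec.1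

lemma jw_spec {L : ℝ} (hL : 0 < L) (z : ℂ) : (L : ℂ) * (2 + jw L z + (jw L z)⁻¹) = z := by
  unfold jw; rw [dif_pos hL]; exact (exists_jouk hL z).choose_spec.2.symm

/-- log of the absolute leading coefficient -/
noncomputable def la (Q : ℤ[X]) : ℝ := Real.log |(Q.leadingCoeff : ℝ)|

/-- `log |a| + ∑ W(α)` -/
noncomputable def hh (L : ℝ) (c : ℕ → ℝ) (q : ℝ) (Q : ℤ[X]) : ℝ :=
  la Q + ∑ α ∈ crt Q, Wf L c q (jw L α)

/-- `∑ log |w(α)|` -/
noncomputable def gg (L : ℝ) (Q : ℤ[X]) : ℝ := ∑ α ∈ crt Q, Real.log ‖jw L α‖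

lemma la_nonneg (Q : ℤ[X]) : 0 ≤ la Q := by
  unfold la
  rcases eq_or_ne Q 0 with h | h
  · rw [h]; simp
  · apply Real.log_nonneg
    exact_mod_cast Int.one_le_abs (leadingCoeff_ne_zero.2 h)

lemma gg_nonneg {L : ℝ} (hL : 0 < L) (Q : ℤ[X]) : 0 ≤ gg L Q :=
  Finset.sum_nonneg fun α _ => Real.log_nonneg (jw_norm hL α)

lemma block_lower {P Q : ℤ[X]} (hQ : Irreducible Q) (hd : Q.natDegree ≠ 0)
    (hP : Irreducible P) (hdP : P.natDegree ≠ 0) (hne : P ≠ Q → ¬ Associated P Q) :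
    0 ≤ Q.natDegree * la P + P.natDegree * la Q
      + ∑ α ∈ crt P, ∑ β ∈ crt Q, Real.log ‖α - β‖ := by
  classical
  by_cases h : P = Q
  · subst h
    have h1 := disc_log hP hdP
    have h2 : ∑ α ∈ crt P, ∑ β ∈ crt P, Real.log ‖α - β‖
        = ∑ α ∈ crt P, ∑ β ∈ (crt P).erase α, Real.log ‖α - β‖ := by
      rw [sum_sum_split]
      have : ∑ i ∈ crt P, Real.log ‖i - i‖ = 0 := by
        apply Finset.sum_eq_zero; intro i _; simp
      rw [this, zero_add]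
    rw [h2]
    unfold la
    linarith
  · exact res_log hQ hd hP hdP (hne h)

theorem bad_ineq {L : ℝ} (hL : 1 ≤ L) {c : ℕ → ℝ} (hc : ∀ k, |c k| ≤ 1)
    (hB : Summable (fun k : ℕ => (2 / (k : ℝ)) * (c k) ^ 2)) {I : ℝ}
    (hI : ∑' k : ℕ, (2 / (k : ℝ)) * (c k) ^ 2 ≤ Real.log L - I)
    (F : Finset ℤ[X]) (hirr : ∀ Q ∈ F, Irreducible Q) (hdeg : ∀ Q ∈ F, Q.natDegree ≠ 0)
    (hass : ∀ P ∈ F, ∀ Q ∈ F, P ≠ Q → ¬ Associated P Q)
    (q : ℤ[X] → ℝ) (hq0 : ∀ Q ∈ F, 0 < q Q) (hq1 : ∀ Q ∈ F, q Q < 1)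
    (w : ℤ[X] → ℝ) (hw : ∀ Q ∈ F, 0 ≤ w Q) (T : ℝ) (hT : T = ∑ Q ∈ F, w Q * Q.natDegree) :
    0 ≤ (1 - T) ^ 2 * Real.log L - I + 2 * ∑ Q ∈ F, w Q * hh L c (q Q) Q
      - 2 * (1 - T) * (∑ Q ∈ F, w Q * (la Q + gg L Q))
      + 2 * T * ∑ Q ∈ F, w Q * (Q.natDegree * (-Real.log (q Q)))
      + 2 * ∑ Q ∈ F, (w Q) ^ 2 * (Q.natDegree * (-Real.log (1 - q Q))) := by
  classical
  have hL0 : 0 < L := by linarith
  have hlogL : 0 ≤ Real.log L := Real.log_nonneg hL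
  set s : Finset ((_ : ℤ[X]) × ℂ) := F.sigma (fun Q => crt Q) with hs
  have hmem : ∀ i ∈ s, i.1 ∈ F ∧ i.2 ∈ crt i.1 := fun i hi => Finset.mem_sigma.1 hi
  have key := energy_ineq s hL0 (fun i => jw L i.2) (fun i _ => jw_norm hL0 _)
    (fun i => q i.1) (fun i hi => hq0 _ (hmem i hi).1) (fun i hi => hq1 _ (hmem i hi).1)
    (fun i => w i.1) (fun i hi => hw _ (hmem i hi).1) (by
      intro i hi j hj hij
      rw [jw_spec hL0, jw_spec hL0]
      intro he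
      apply hij
      obtain ⟨hi1, hi2⟩ := hmem i hi
      obtain ⟨hj1, hj2⟩ := hmem j hj
      rw [mem_crt (hirr _ hi1).ne_zero] at hi2
      rw [mem_crt (hirr _ hj1).ne_zero, ← he] at hj2
      by_cases h : i.1 = j.1
      · exact Sigma.ext h (heq_of_eq he)
      · exact absurd hj2 (no_common_root (hirr _ hj1) (hdeg _ hj1) (hirr _ hi1) (hdeg _ hi1)
          (hass _ hi1 _ hj1 h) hi2)) hc hB
  simp only [jw_spec hL0] at key
  -- Om in terms of Wf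
  have hOm : ∑ i ∈ s, w i.1 * Om c (q i.1 / jw L i.2)
      = T * Real.log L + ∑ Q ∈ F, w Q * (la Q + gg L Q) - ∑ Q ∈ F, w Q * hh L c (q Q) Q := by
    rw [hs, Finset.sum_sigma, hT, Finset.sum_mul, ← Finset.sum_add_distrib,
      ← Finset.sum_sub_distrib]
    refine Finset.sum_congr rfl fun Q hQ => ?_
    unfold hh gg Wf
    simp only [Finset.sum_sub_distrib, Finset.sum_add_distrib, Finset.sum_const,
      card_crt (hirr Q hQ) (hdeg Q hQ), nsmul_eq_mul, ← Finset.mul_sum]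
    ring
  -- the diagonal
  have hdiag : ∑ i ∈ s, w i.1 ^ 2 * (-2 * Real.log (1 - q i.1))
      = 2 * ∑ Q ∈ F, (w Q) ^ 2 * (Q.natDegree * (-Real.log (1 - q Q))) := by
    rw [hs, Finset.sum_sigma, Finset.mul_sum]
    refine Finset.sum_congr rfl fun Q hQ => ?_
    simp only [Finset.sum_const, card_crt (hirr Q hQ) (hdeg Q hQ), nsmul_eq_mul]
    ring
  -- off diagonal
  set f : ((_ : ℤ[X]) × ℂ) → ((_ : ℤ[X]) × ℂ) → ℝ := fun i j => w i.1 * w j.1 *
        (-Real.log (q i.1) - Real.log (q j.1)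
          - Real.log ‖i.2 - j.2‖ + Real.log L + Real.log ‖jw L i.2‖ + Real.log ‖jw L j.2‖) with hf
  have hoff : ∑ i ∈ s, ∑ j ∈ s.erase i, f i j ≤ ∑ i ∈ s, ∑ j ∈ s, f i j := by
    rw [sum_sum_split s f]
    have : 0 ≤ ∑ i ∈ s, f i i := by
      apply Finset.sum_nonneg
      intro i hi
      have h1 := (hmem i hi).1
      have h2 : Real.log (q i.1) ≤ 0 := Real.log_nonpos (hq0 _ h1).le (hq1 _ h1).le
      have h3 : 0 ≤ Real.log ‖jw L i.2‖ := Real.log_nonneg (jw_norm hL0 _)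
      simp only [hf, sub_self, norm_zero, Real.log_zero]
      exact mul_nonneg (mul_self_nonneg _) (by linarith)
    linarith
  have hsum : ∑ i ∈ s, w i.1 = T := by
    rw [hs, Finset.sum_sigma, hT]
    refine Finset.sum_congr rfl fun Q hQ => ?_
    simp only [Finset.sum_const, card_crt (hirr Q hQ) (hdeg Q hQ), nsmul_eq_mul]
    ring
  have hexp : ∑ i ∈ s, ∑ j ∈ s, f i j = T ^ 2 * Real.log L
      + 2 * T * (∑ i ∈ s, w i.1 * (-Real.log (q i.1) + Real.log ‖jw L i.2‖))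
      - ∑ i ∈ s, ∑ j ∈ s, w i.1 * w j.1 * Real.log ‖i.2 - j.2‖ := by
    have e1 : ∀ i j, f i j = w i.1 * w j.1 * Real.log L
        + (w i.1 * (-Real.log (q i.1) + Real.log ‖jw L i.2‖)) * w j.1
        + w i.1 * (w j.1 * (-Real.log (q j.1) + Real.log ‖jw L j.2‖))
        - w i.1 * w j.1 * Real.log ‖i.2 - j.2‖ := by
      intro i j; simp only [hf]; ring
    simp only [e1, Finset.sum_sub_distrib, Finset.sum_add_distrib]
    have e2 : ∑ i ∈ s, ∑ j ∈ s, w i.1 * w j.1 * Real.log L = T ^ 2 * Real.log L := by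
      rw [← hsum, sq, Finset.sum_mul_sum, Finset.sum_mul]
      refine Finset.sum_congr rfl fun i _ => ?_
      rw [Finset.sum_mul]
    have e3 : ∑ i ∈ s, ∑ j ∈ s, (w i.1 * (-Real.log (q i.1) + Real.log ‖jw L i.2‖)) * w j.1
        = (∑ i ∈ s, w i.1 * (-Real.log (q i.1) + Real.log ‖jw L i.2‖)) * T := by
      rw [← hsum, Finset.sum_mul_sum]
    have e4 : ∑ i ∈ s, ∑ j ∈ s, w i.1 * (w j.1 * (-Real.log (q j.1) + Real.log ‖jw L j.2‖))
        = T * (∑ i ∈ s, w i.1 * (-Real.log (q i.1) + Real.log ‖jw L i.2‖)) := by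
      rw [← hsum, Finset.sum_mul_sum]
    rw [e2, e3, e4]; ring
  have hlg : ∑ i ∈ s, w i.1 * (-Real.log (q i.1) + Real.log ‖jw L i.2‖)
      = ∑ Q ∈ F, w Q * (Q.natDegree * (-Real.log (q Q))) + ∑ Q ∈ F, w Q * gg L Q := by
    rw [hs, Finset.sum_sigma, ← Finset.sum_add_distrib]
    refine Finset.sum_congr rfl fun Q hQ => ?_
    unfold gg
    rw [Finset.mul_sum]
    simp only [mul_add, Finset.sum_add_distrib, Finset.sum_const,
      card_crt (hirr Q hQ) (hdeg Q hQ), nsmul_eq_mul]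
    ring
  have hres : - (2 * T * ∑ Q ∈ F, w Q * la Q)
      ≤ ∑ i ∈ s, ∑ j ∈ s, w i.1 * w j.1 * Real.log ‖i.2 - j.2‖ := by
    have e1 : ∑ i ∈ s, ∑ j ∈ s, w i.1 * w j.1 * Real.log ‖i.2 - j.2‖
        = ∑ P ∈ F, ∑ Q ∈ F, w P * w Q * ∑ α ∈ crt P, ∑ β ∈ crt Q, Real.log ‖α - β‖ := by
      rw [hs, Finset.sum_sigma]
      refine Finset.sum_congr rfl fun P hP => ?_
      simp only [Finset.sum_sigma]
      rw [Finset.sum_comm]
      refine Finset.sum_congr rfl fun Q hQ => ?_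
      simp only [Finset.mul_sum]
    rw [e1]
    have e2 : - (2 * T * ∑ Q ∈ F, w Q * la Q)
        = ∑ P ∈ F, ∑ Q ∈ F, w P * w Q * (-(Q.natDegree * la P + P.natDegree * la Q)) := by
      have e3 : ∀ P Q : ℤ[X], w P * w Q * (-(Q.natDegree * la P + P.natDegree * la Q))
          = - ((w P * la P) * (w Q * Q.natDegree)) - (w P * P.natDegree) * (w Q * la Q) := by
        intro P Q; ring
      simp only [e3, Finset.sum_sub_distrib, Finset.sum_neg_distrib]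
      rw [← Finset.sum_mul_sum, ← Finset.sum_mul_sum, ← hT]; ring
    rw [e2]
    refine Finset.sum_le_sum fun P hP => Finset.sum_le_sum fun Q hQ => ?_
    apply mul_le_mul_of_nonneg_left _ (mul_nonneg (hw P hP) (hw Q hQ))
    have := block_lower (hirr Q hQ) (hdeg Q hQ) (hirr P hP) (hdeg P hP) (hass P hP Q hQ)
    linarith
  have hsplit : ∑ Q ∈ F, w Q * (la Q + gg L Q) = ∑ Q ∈ F, w Q * la Q + ∑ Q ∈ F, w Q * gg L Q := by
    rw [← Finset.sum_add_distrib]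
    refine Finset.sum_congr rfl fun Q _ => by ring
  change 0 ≤ (∑' k : ℕ, (2 / (k : ℝ)) * (c k) ^ 2)
      - 2 * ∑ i ∈ s, w i.1 * Om c (q i.1 / jw L i.2)
      + ∑ i ∈ s, ∑ j ∈ s.erase i, f i j
      + ∑ i ∈ s, w i.1 ^ 2 * (-2 * Real.log (1 - q i.1)) at key
  rw [hOm, hdiag] at key
  rw [hexp, hlg] at hoff
  rw [hsplit] at key ⊢
  nlinarith [key, hoff, hres, hI]

end Pool.Agent.SSS
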