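import Mathlib
import Pool.Agent.SSS.Bad

/-! Monic Chebyshev polynomials of an interval and their Green functions. -/

namespace Pool.Agent.SSS

open Complex ComplexConjugate Polynomial

/-- norm of the exterior coordinate in terms of the focal sum -/
lemma norm_eq_of_jouk {w : ℂ} (hw : 1 ≤ ‖w‖) :
    ‖w‖ = (‖w + w⁻¹ - 2‖ + ‖w + w⁻¹ + 2‖) / 4
      + √(((‖w + w⁻¹ - 2‖ + ‖w + w⁻¹ + 2‖) / 4) ^ 2 - 1) := by
  have w0 : w ≠ 0 := norm_ne_zero_iff.1 (by linarith)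
  have hp : 0 < ‖w‖ := by linarith
  have e1 : ‖w + w⁻¹ - 2‖ = ‖w - 1‖ ^ 2 / ‖w‖ := by
    rw [← norm_pow, ← norm_div]; congr 1; field_simp; ring
  have e2 : ‖w + w⁻¹ + 2‖ = ‖w + 1‖ ^ 2 / ‖w‖ := by
    rw [← norm_pow, ← norm_div]; congr 1; field_simp; ring
  have e3 : ‖w - 1‖ ^ 2 + ‖w + 1‖ ^ 2 = 2 * ‖w‖ ^ 2 + 2 := by
    rw [← Complex.normSq_eq_norm_sq, ← Complex.normSq_eq_norm_sq, ← Complex.normSq_eq_norm_sq,
      Complex.normSq_apply, Complex.normSq_apply, Complex.normSq_apply]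
    simp; ring
  have e4 : (‖w + w⁻¹ - 2‖ + ‖w + w⁻¹ + 2‖) / 4 = (‖w‖ + ‖w‖⁻¹) / 2 := by
    rw [e1, e2, ← add_div, e3]; field_simp; ring
  rw [e4]
  have e5 : ((‖w‖ + ‖w‖⁻¹) / 2) ^ 2 - 1 = ((‖w‖ - ‖w‖⁻¹) / 2) ^ 2 := by
    field_simp; ring
  have h1 : ‖w‖⁻¹ ≤ 1 := inv_le_one_of_one_le₀ hw
  rw [e5, Real.sqrt_sq (by linarith)]
  ring

/-- exterior coordinate relative to the interval `[c-2r, c+2r]` -/
noncomputable def wj (c r : ℝ) (z : ℂ) : ℂ := jw r (z - c + 2 * r)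

lemma wj_norm {c r : ℝ} (hr : 0 < r) (z : ℂ) : 1 ≤ ‖wj c r z‖ := jw_norm hr _

lemma wj_spec {c r : ℝ} (hr : 0 < r) (z : ℂ) :
    (c : ℂ) + r * (wj c r z + (wj c r z)⁻¹) = z := by
  have h := jw_spec hr (z - c + 2 * r)
  unfold wj
  have : (r : ℂ) * (2 + jw r (z - c + 2 * r) + (jw r (z - c + 2 * r))⁻¹)
      = 2 * r + r * (jw r (z - c + 2 * r) + (jw r (z - c + 2 * r))⁻¹) := by ring
  rw [this] at h
  linear_combination h

/-- logarithmic potential of the equilibrium measure of `[c-2r, c+2r]` -/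
noncomputable def UU (c r : ℝ) (z : ℂ) : ℝ := Real.log r + Real.log ‖wj c r z‖

/-- focal sum -/
noncomputable def fs (c r : ℝ) (z : ℂ) : ℝ := (‖(z - c) / r - 2‖ + ‖(z - c) / r + 2‖) / 4

lemma norm_of_spec {c r : ℝ} (hr : 0 < r) {w z : ℂ} (hw : 1 ≤ ‖w‖)
    (hz : (c : ℂ) + r * (w + w⁻¹) = z) : ‖w‖ = fs c r z + √((fs c r z) ^ 2 - 1) := by
  have hrc : (r : ℂ) ≠ 0 := by exact_mod_cast hr.ne'
  have h1 : (z - c) / r = w + w⁻¹ := by rw [← hz]; field_simp; ring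
  unfold fs
  rw [h1]
  exact norm_eq_of_jouk hw

lemma norm_wj {c r : ℝ} (hr : 0 < r) (z : ℂ) :
    ‖wj c r z‖ = fs c r z + √((fs c r z) ^ 2 - 1) :=
  norm_of_spec hr (wj_norm hr z) (wj_spec hr z)

lemma UU_eq {c r : ℝ} (hr : 0 < r) {w z : ℂ} (hw : 1 ≤ ‖w‖)
    (hz : (c : ℂ) + r * (w + w⁻¹) = z) : UU c r z = Real.log r + Real.log ‖w‖ := by
  unfold UU
  rw [norm_wj hr, ← norm_of_spec hr hw hz]

lemma continuous_UU {c r : ℝ} (hr : 0 < r) : Continuous (UU c r) := by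
  have h1 : Continuous (fun z : ℂ => fs c r z) := by unfold fs; fun_prop
  have h2 : UU c r = fun z => Real.log r + Real.log (fs c r z + √((fs c r z) ^ 2 - 1)) := by
    ext z; unfold UU; rw [norm_wj hr]
  rw [h2]
  refine continuous_const.add (Continuous.log (by fun_prop) ?_)
  intro z
  rw [← norm_wj hr]
  have := wj_norm (c := c) hr z
  linarith

lemma UU_ge {c r : ℝ} (hr : 0 < r) (z : ℂ) : Real.log r ≤ UU c r z := by
  unfold UU
  have := Real.log_nonneg (wj_norm (c := c) hr z)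
  linarith

lemma UU_conj {c r : ℝ} (hr : 0 < r) (z : ℂ) : UU c r (conj z) = UU c r z := by
  rw [UU_eq hr (w := conj (wj c r z)) (by rw [Complex.norm_conj]; exact wj_norm hr z),
    Complex.norm_conj]
  · rfl
  · nth_rewrite 3 [← wj_spec hr z (c := c)]
    simp

lemma exp_mul_UU {c r : ℝ} (hr : 0 < r) (z : ℂ) (n : ℕ) :
    Real.exp (n * UU c r z) = r ^ n * ‖wj c r z‖ ^ n := by
  unfold UU
  have h1 := wj_norm (c := c) hr z
  rw [← Real.log_mul hr.ne' (by linarith), ← Real.log_pow, Real.exp_log (by positivity), mul_pow]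

/-- the Dickson-type recursion -/
noncomputable def DD (c r : ℝ) : ℕ → ℝ[X]
  | 0 => C 2
  | 1 => X - C c
  | (n + 2) => (X - C c) * DD c r (n + 1) - C (r ^ 2) * DD c r n

lemma DD_zero (c r : ℝ) : DD c r 0 = C 2 := by rw [DD]
lemma DD_one (c r : ℝ) : DD c r 1 = X - C c := by rw [DD]
lemma DD_add_two (c r : ℝ) (n : ℕ) :
    DD c r (n + 2) = (X - C c) * DD c r (n + 1) - C (r ^ 2) * DD c r n := by rw [DD]

lemma DD_props (c r : ℝ) (n : ℕ) :
    ((DD c r (n + 1)).Monic ∧ (DD c r (n + 1)).natDegree = n + 1) ∧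
    (DD c r n).natDegree ≤ n := by
  induction n with
  | zero =>
    rw [zero_add, DD_one, DD_zero]
    refine ⟨⟨monic_X_sub_C c, natDegree_X_sub_C c⟩, ?_⟩
    rw [natDegree_C]
  | succ n ih =>
    obtain ⟨⟨h1, h2⟩, h3⟩ := ih
    refine ⟨?_, h2.le⟩
    have hm : ((X - C c) * DD c r (n + 1)).Monic := (monic_X_sub_C c).mul h1
    have hd : ((X - C c) * DD c r (n + 1)).natDegree = n + 2 := by
      rw [Monic.natDegree_mul (monic_X_sub_C c) h1, natDegree_X_sub_C, h2]; ring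
    have hlt : (C (r ^ 2) * DD c r n).degree < ((X - C c) * DD c r (n + 1)).degree := by
      rw [degree_eq_natDegree hm.ne_zero, hd]
      refine lt_of_le_of_lt (degree_le_natDegree) ?_
      have : (C (r ^ 2) * DD c r n).natDegree ≤ n := (natDegree_C_mul_le _ _).trans h3
      exact_mod_cast lt_of_le_of_lt this (by omega)
    rw [show n + 1 + 1 = n + 2 from rfl, DD_add_two]
    constructor
    · exact hm.sub_of_left hlt
    · rw [natDegree_eq_of_degree_eq (degree_sub_eq_left_of_degree_lt hlt), hd]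

lemma aeval_DD {c r : ℝ} {w : ℂ} (hw : w ≠ 0) (n : ℕ) :
    aeval ((c : ℂ) + r * (w + w⁻¹)) (DD c r n) = (r : ℂ) ^ n * (w ^ n + (w⁻¹) ^ n) := by
  induction n using Nat.twoStepInduction with
  | zero => rw [DD_zero]; simp; norm_num
  | one => rw [DD_one]; simp
  | more n h1 h2 =>
    rw [DD_add_two]
    simp only [map_sub, map_mul, aeval_X, aeval_C, h1, h2, coe_algebraMap]
    have : w * w⁻¹ = 1 := mul_inv_cancel₀ hw
    push_cast
    have e : w ^ n * (w * w⁻¹) = w ^ n := by rw [this, mul_one]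
    have e' : w⁻¹ ^ n * (w * w⁻¹) = w⁻¹ ^ n := by rw [this, mul_one]
    linear_combination (r : ℂ) ^ (n + 2) * e + (r : ℂ) ^ (n + 2) * e'

/-- monic Chebyshev polynomials -/
noncomputable def TT (c r : ℝ) (n : ℕ) : ℝ[X] := if n = 0 then 1 else DD c r n

lemma TT_zero (c r : ℝ) : TT c r 0 = 1 := by simp [TT]
lemma TT_succ (c r : ℝ) (n : ℕ) : TT c r (n + 1) = DD c r (n + 1) := by simp [TT]

lemma TT_monic (c r : ℝ) (n : ℕ) : (TT c r n).Monic := by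
  rcases n with _ | n
  · rw [TT_zero]; exact monic_one
  · rw [TT_succ]; exact (DD_props c r n).1.1

lemma TT_natDegree (c r : ℝ) (n : ℕ) : (TT c r n).natDegree = n := by
  rcases n with _ | n
  · rw [TT_zero]; simp
  · rw [TT_succ]; exact (DD_props c r n).1.2

lemma norm_pow_add_le {w : ℂ} (hw : 1 ≤ ‖w‖) (n : ℕ) : ‖w ^ n + (w⁻¹) ^ n‖ ≤ 2 * ‖w‖ ^ n := by
  have h1 : ‖w‖⁻¹ ≤ 1 := inv_le_one_of_one_le₀ hw
  have h2 : (‖w‖⁻¹) ^ n ≤ 1 := pow_le_one₀ (by positivity) h1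
  have h3 : 1 ≤ ‖w‖ ^ n := one_le_pow₀ hw
  calc ‖w ^ n + (w⁻¹) ^ n‖ ≤ ‖w ^ n‖ + ‖(w⁻¹) ^ n‖ := norm_add_le _ _
    _ = ‖w‖ ^ n + (‖w‖⁻¹) ^ n := by rw [norm_pow, norm_pow, norm_inv]
    _ ≤ 2 * ‖w‖ ^ n := by linarith

lemma norm_TT_le {c r : ℝ} (hr : 0 < r) (z : ℂ) (n : ℕ) :
    ‖aeval z (TT c r n)‖ ≤ 2 * Real.exp (n * UU c r z) := by
  rcases n with _ | n
  · rw [TT_zero]; simp
  · rw [TT_succ]
    have hw := wj_norm (c := c) hr z
    have w0 : wj c r z ≠ 0 := norm_ne_zero_iff.1 (by linarith)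
    have h := aeval_DD (c := c) (r := r) w0 (n + 1)
    rw [wj_spec hr] at h
    rw [h, exp_mul_UU hr, norm_mul, norm_pow, Complex.norm_real, Real.norm_of_nonneg hr.le]
    have := norm_pow_add_le hw (n + 1)
    have h2 : 0 < r ^ (n + 1) := by positivity
    nlinarith

/-- lower bound for one of two consecutive Chebyshev polynomials at a fixed point -/
lemma exists_TT_lower {c r : ℝ} (hr : 0 < r) (z : ℂ) :
    ∃ κ > 0, ∀ k : ℕ, ∃ k', (k' = k ∨ k' = k + 1) ∧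
      κ * Real.exp (k * UU c r z) ≤ ‖aeval z (TT c r k')‖ := by
  have hw := wj_norm (c := c) hr z
  set w := wj c r z with hwdef
  have w0 : w ≠ 0 := norm_ne_zero_iff.1 (by linarith)
  have hwp : 0 < ‖w‖ := by linarith
  have hev : ∀ n : ℕ, ‖aeval z (DD c r n)‖ = r ^ n * ‖w ^ n + (w⁻¹) ^ n‖ := by
    intro n
    have h := aeval_DD (c := c) (r := r) w0 n
    rw [hwdef, wj_spec hr] at h
    rw [h, norm_mul, norm_pow, Complex.norm_real, Real.norm_of_nonneg hr.le]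
  have hTT : ∀ n : ℕ, ‖aeval z (DD c r n)‖ ≤ 2 * ‖aeval z (TT c r n)‖ := by
    intro n
    rcases n with _ | n
    · rw [TT_zero, DD_zero]; simp
    · rw [TT_succ]; linarith [norm_nonneg (aeval z (DD c r (n + 1)))]
  by_cases h1 : w - w⁻¹ = 0
  · refine ⟨1, one_pos, fun k => ⟨k, Or.inl rfl, ?_⟩⟩
    have hww : w⁻¹ = w := by
      rw [sub_eq_zero] at h1; exact h1.symm
    rw [one_mul, exp_mul_UU hr, ← hwdef]
    have h2 := hev k
    rw [hww, ← two_mul, norm_mul, norm_pow] at h2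
    have h3 := hTT k
    simp only [Complex.norm_ofNat] at h2
    linarith
  · set κ0 := ‖w - w⁻¹‖ / 2 with hκ0
    have hκ0p : 0 < κ0 := by have := norm_pos_iff.2 h1; positivity
    refine ⟨min 1 r * κ0 / 2, by positivity, fun k => ?_⟩
    have hid : (w ^ (k + 1) + (w⁻¹) ^ (k + 1)) - w⁻¹ * (w ^ k + (w⁻¹) ^ k) = w ^ k * (w - w⁻¹) := by
      ring
    have hn : ‖w‖ ^ k * ‖w - w⁻¹‖ ≤ ‖w ^ (k + 1) + (w⁻¹) ^ (k + 1)‖ + ‖w ^ k + (w⁻¹) ^ k‖ := by
      rw [← norm_pow, ← norm_mul, ← hid]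
      refine (norm_sub_le _ _).trans ?_
      rw [norm_mul, norm_inv]
      have h1 : ‖w‖⁻¹ ≤ 1 := inv_le_one_of_one_le₀ hw
      nlinarith [norm_nonneg (w ^ k + w⁻¹ ^ k)]
    rcases le_or_gt (κ0 * ‖w‖ ^ k) ‖w ^ k + (w⁻¹) ^ k‖ with h2 | h2
    · refine ⟨k, Or.inl rfl, ?_⟩
      have h3 := hTT k
      rw [hev k] at h3
      rw [exp_mul_UU hr, ← hwdef]
      have h4 : r ^ k * (κ0 * ‖w‖ ^ k) ≤ r ^ k * ‖w ^ k + (w⁻¹) ^ k‖ :=
        mul_le_mul_of_nonneg_left h2 (by positivity)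
      have h5 : min 1 r * κ0 ≤ κ0 := by
        have : min 1 r ≤ 1 := min_le_left _ _
        nlinarith
      have h6 : min 1 r * κ0 / 2 * (r ^ k * ‖w‖ ^ k) ≤ κ0 / 2 * (r ^ k * ‖w‖ ^ k) := by
        apply mul_le_mul_of_nonneg_right _ (by positivity)
        linarith
      nlinarith
    · refine ⟨k + 1, Or.inr rfl, ?_⟩
      have h3 : κ0 * ‖w‖ ^ k ≤ ‖w ^ (k + 1) + (w⁻¹) ^ (k + 1)‖ := by
        have : ‖w‖ ^ k * ‖w - w⁻¹‖ = 2 * (κ0 * ‖w‖ ^ k) := by rw [hκ0]; ring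
        linarith
      rw [TT_succ, hev (k + 1), exp_mul_UU hr, ← hwdef]
      have h4 : r ^ (k + 1) * (κ0 * ‖w‖ ^ k) ≤ r ^ (k + 1) * ‖w ^ (k + 1) + (w⁻¹) ^ (k + 1)‖ :=
        mul_le_mul_of_nonneg_left h3 (by positivity)
      refine le_trans ?_ h4
      have h5 : min 1 r ≤ r := min_le_right _ _
      have h6 : min 1 r * κ0 / 2 ≤ r * κ0 := by nlinarith
      calc min 1 r * κ0 / 2 * (r ^ k * ‖w‖ ^ k) ≤ r * κ0 * (r ^ k * ‖w‖ ^ k) :=
            mul_le_mul_of_nonneg_right h6 (by positivity)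
        _ = r ^ (k + 1) * (κ0 * ‖w‖ ^ k) := by ring

end Pool.Agent.SSS
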