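import Mathlib

/-! Definitions for the Schur-Siegel-Smyth trace problem. -/

namespace Pool.Agent.SSS

open MeasureTheory Polynomial

/-- A Borel probability measure `μ` on `ℝ` is *arithmetic* when `∫ log |Q| dμ ≥ 0` for every
nonzero integer polynomial `Q`. For compactly supported `μ` the integral lies in `[-∞, ∞)`, so
the inequality means: the real zeros of `Q` carry no mass, `log |Q|` is integrable, and its
integral is nonnegative. -/
def IsArithmetic (μ : Measure ℝ) : Prop :=
  IsProbabilityMeasure μ ∧ ∀ Q : ℤ[X], Q ≠ 0 →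
    μ {x : ℝ | aeval x Q = 0} = 0 ∧ Integrable (fun x : ℝ => Real.log |aeval x Q|) μ ∧
      0 ≤ ∫ x : ℝ, Real.log |aeval x Q| ∂μ

end Pool.Agent.SSS
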