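import Mathlib

/-! A quantitative lower bound for `∫ |x - a - ∑ b_j log |Q_j||`. -/

namespace Pool.Agent.SSS

open MeasureTheory Polynomial

/-- negative part of the logarithmic kernel -/
noncomputable def nl (β : ℂ) (x : ℝ) : ℝ := max 0 (-Real.log ‖(x : ℂ) - β‖)

/-- measures on `[0,4L]` with bounded logarithmic potentials -/
structure LogBdd (m : Measure ℝ) (L K : ℝ) : Prop where
  fin : IsFiniteMeasure m
  atoms : NullSingletonClass m
  supp : ∀ᵐ x ∂m, x ∈ Set.Icc 0 (4 * L)
  bdd : ∀ β : ℂ, Integrable (nl β) m ∧ ∫ x, nl β x ∂m ≤ K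

lemma nl_nonneg (β : ℂ) (x : ℝ) : 0 ≤ nl β x := le_max_left _ _

lemma measurable_logdist (β : ℂ) : Measurable (fun x : ℝ => Real.log ‖(x : ℂ) - β‖) :=
  Real.measurable_log.comp ((Complex.measurable_ofReal.sub_const β).norm)

section

variable {m : Measure ℝ} {L K : ℝ}

lemma LogBdd.K_nonneg (h : LogBdd m L K) : 0 ≤ K :=
  (integral_nonneg (fun x => nl_nonneg 0 x)).trans (h.bdd 0).2

lemma LogBdd.integrable_log (h : LogBdd m L K) (β : ℂ) :
    Integrable (fun x : ℝ => Real.log ‖(x : ℂ) - β‖) m := by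
  have := h.fin
  refine Integrable.mono' ((h.bdd β).1.add (integrable_const (|4 * L| + ‖β‖))) 
    (measurable_logdist β).aestronglyMeasurable ?_
  filter_upwards [h.supp] with x hx
  rw [Real.norm_eq_abs, abs_le, Pi.add_apply]
  have h1 : ‖(x : ℂ) - β‖ ≤ |4 * L| + ‖β‖ := by
    calc ‖(x : ℂ) - β‖ ≤ ‖(x : ℂ)‖ + ‖β‖ := norm_sub_le _ _
      _ ≤ |4 * L| + ‖β‖ := by
        rw [Complex.norm_real, Real.norm_eq_abs, abs_of_nonneg hx.1]
        have := le_abs_self (4 * L)
        linarith [hx.2]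
  have h2 : Real.log ‖(x : ℂ) - β‖ ≤ |4 * L| + ‖β‖ := by
    refine le_trans ?_ h1
    exact (Real.log_le_self (norm_nonneg _))
  have h3 : -Real.log ‖(x : ℂ) - β‖ ≤ nl β x := le_max_right _ _
  have h4 : 0 ≤ |4 * L| + ‖β‖ := by positivity
  have h5 := nl_nonneg β x
  constructor <;> linarith

lemma LogBdd.setIntegral_log (h : LogBdd m L K) (β : ℂ) (A : Set ℝ) :
    -K ≤ ∫ x in A, Real.log ‖(x : ℂ) - β‖ ∂m := by
  have h1 : ∫ x in A, -nl β x ∂m ≤ ∫ x in A, Real.log ‖(x : ℂ) - β‖ ∂m := by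
    apply integral_mono_ae (h.bdd β).1.neg.integrableOn (h.integrable_log β).integrableOn
    filter_upwards with x
    have h3 : -Real.log ‖(x : ℂ) - β‖ ≤ nl β x := le_max_right _ _
    simp only [Pi.neg_apply]
    linarith
  have h2 : ∫ x in A, nl β x ∂m ≤ ∫ x, nl β x ∂m :=
    setIntegral_le_integral (h.bdd β).1 (Filter.Eventually.of_forall (nl_nonneg β))
  rw [integral_neg] at h1
  linarith [(h.bdd β).2]

lemma LogBdd.multiset (h : LogBdd m L K) (s : Multiset ℂ) :
    Integrable (fun x : ℝ => (s.map fun β => Real.log ‖(x : ℂ) - β‖).sum) m ∧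
    ∀ A : Set ℝ, -(Multiset.card s * K)
      ≤ ∫ x in A, (s.map fun β => Real.log ‖(x : ℂ) - β‖).sum ∂m := by
  induction s using Multiset.induction_on with
  | empty => simp
  | cons a s ih =>
    simp only [Multiset.map_cons, Multiset.sum_cons]
    refine ⟨(h.integrable_log a).add ih.1, ?_⟩
    intro A
    rw [integral_add (h.integrable_log a).integrableOn ih.1.integrableOn]
    have h1 := ih.2 A
    have h2 := h.setIntegral_log a A
    rw [Multiset.card_cons]
    push_cast
    linarith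

/-- small mass of short intervals -/
lemma LogBdd.mass_le (h : LogBdd m L K) {ℓ Λ : ℝ} (hΛ : 0 < Λ)
    (hle : ℓ ≤ Real.exp (-Λ)) {A : Set ℝ} (hA : ∀ x ∈ A, ∀ y ∈ A, |x - y| ≤ ℓ) :
    m A ≤ ENNReal.ofReal (K / Λ) := by
  have := h.fin
  have := h.atoms
  rcases A.eq_empty_or_nonempty with he | ⟨x0, hx0⟩
  · rw [he]; simp
  have hsub : A ⊆ Set.Icc (x0 - ℓ) (x0 + ℓ) := by
    intro x hx
    have := abs_le.1 (hA x hx x0 hx0)
    constructor <;> linarith [this.1, this.2]
  refine (measure_mono hsub).trans ?_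
  set B := Set.Icc (x0 - ℓ) (x0 + ℓ) with hB
  have hBm : MeasurableSet B := measurableSet_Icc
  have h1 : ∫ x in B, Λ ∂m ≤ ∫ x in B, nl x0 x ∂m := by
    apply integral_mono_ae (integrable_const _) (h.bdd x0).1.integrableOn
    have hne : ∀ᵐ x ∂(m.restrict B), x ≠ x0 := by
      apply ae_restrict_of_ae
      rw [ae_iff]
      simp
    filter_upwards [ae_restrict_mem hBm, hne] with x hx hxne
    have h2 : ‖(x : ℂ) - x0‖ ≤ ℓ := by
      rw [← Complex.ofReal_sub, Complex.norm_real, Real.norm_eq_abs, abs_le]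
      constructor <;> linarith [hx.1, hx.2]
    have h3 : 0 < ‖(x : ℂ) - x0‖ := by
      rw [← Complex.ofReal_sub, Complex.norm_real, Real.norm_eq_abs, abs_pos]
      exact sub_ne_zero.2 hxne
    have h4 := Real.log_le_log h3 (h2.trans hle)
    rw [Real.log_exp] at h4
    exact le_trans (by linarith) (le_max_right _ _)
  have h2 : ∫ x in B, nl x0 x ∂m ≤ ∫ x, nl x0 x ∂m :=
    setIntegral_le_integral (h.bdd x0).1 (Filter.Eventually.of_forall (nl_nonneg x0))
  rw [setIntegral_const, smul_eq_mul] at h1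
  have h3 : m.real B * Λ ≤ K := h1.trans (h2.trans (h.bdd x0).2)
  have h4 : m.real B ≤ K / Λ := by rwa [le_div_iff₀ hΛ]
  rw [← ENNReal.ofReal_toReal (measure_ne_top m B)]
  exact ENNReal.ofReal_le_ofReal h4

end

/-- slope bound on a monotone piece -/
lemma piece_aux {f φ : ℝ → ℝ} {x y τ : ℝ} (hxy : x < y)
    (hder : ∀ t ∈ Set.Icc x y, HasDerivAt f (φ t) t) (hcont : ContinuousOn φ (Set.Icc x y))
    (hne : ∀ t ∈ Set.Icc x y, φ t ≠ τ) (hx : τ < φ x) : τ * (y - x) ≤ f y - f x := by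
  have hall : ∀ t ∈ Set.Icc x y, τ < φ t := by
    intro t ht
    by_contra hcon
    push Not at hcon
    have hsub : Set.Icc x t ⊆ Set.Icc x y := Set.Icc_subset_Icc le_rfl ht.2
    have := intermediate_value_Icc' ht.1 (hcont.mono hsub)
    obtain ⟨r, hr, hre⟩ := this ⟨hcon, hx.le⟩
    exact hne r (hsub hr) hre
  have hfc : ContinuousOn f (Set.Icc x y) := fun t ht => (hder t ht).continuousAt.continuousWithinAt
  obtain ⟨ξ, hξ, hs⟩ := exists_hasDerivAt_eq_slope f φ hxy hfc
    (fun t ht => hder t (Set.Ioo_subset_Icc_self ht))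
  have h1 := hall ξ (Set.Ioo_subset_Icc_self hξ)
  rw [hs, lt_div_iff₀ (by linarith)] at h1
  linarith

lemma piece_slope {f φ : ℝ → ℝ} {x y τ : ℝ} (hxy : x < y)
    (hder : ∀ t ∈ Set.Icc x y, HasDerivAt f (φ t) t) (hcont : ContinuousOn φ (Set.Icc x y))
    (hne : ∀ t ∈ Set.Icc x y, φ t ≠ τ) (hne' : ∀ t ∈ Set.Icc x y, φ t ≠ -τ)
    (hx : τ < |φ x|) : τ * (y - x) ≤ |f y - f x| := by
  rcases lt_abs.1 hx with h | h
  · exact (piece_aux hxy hder hcont hne h).trans (le_abs_self _)
  · have := piece_aux (f := fun t => -f t) (φ := fun t => -φ t) hxy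
      (fun t ht => (hder t ht).neg) hcont.neg
      (fun t ht h' => hne' t ht (by linarith)) h
    refine this.trans ?_
    have e : -f y - -f x = -(f y - f x) := by ring
    rw [e]
    exact neg_le_abs _

/-- growth of a real polynomial relative to its leading coefficient -/
noncomputable def gr (L : ℝ) (P : ℝ[X]) : ℝ := ((P.aroots ℂ).map fun β => Real.log (4 * L + ‖β‖)).sum

lemma abs_eval_eq (P : ℝ[X]) (x : ℝ) :
    |P.eval x| = |P.leadingCoeff| * ((P.aroots ℂ).map (fun β => ‖(x : ℂ) - β‖)).prod := by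
  set φ : ℝ →+* ℂ := algebraMap ℝ ℂ with hφ
  have hinj : Function.Injective φ := RingHom.injective φ
  have hsplit : (P.map φ).Splits := IsAlgClosed.splits _
  have h := hsplit.eq_prod_roots
  have h0 : |P.eval x| = ‖(P.map φ).eval (x : ℂ)‖ := by
    have : (P.map φ).eval (x : ℂ) = ((P.eval x : ℝ) : ℂ) := by
      rw [show (x : ℂ) = φ x from rfl, eval_map, eval₂_at_apply]; rfl
    rw [this, Complex.norm_real, Real.norm_eq_abs]
  rw [h0, h, eval_mul, eval_C, eval_multiset_prod, Multiset.map_map, norm_mul,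
    leadingCoeff_map_of_injective hinj]
  congr 1
  · rw [show φ P.leadingCoeff = ((P.leadingCoeff : ℝ) : ℂ) from rfl, Complex.norm_real,
      Real.norm_eq_abs]
  · rw [show ‖(Multiset.map (eval (x : ℂ) ∘ fun a => X - C a) (map φ P).roots).prod‖
      = normHom (Multiset.map (eval (x : ℂ) ∘ fun a => X - C a) (map φ P).roots).prod from rfl,
      map_multiset_prod, Multiset.map_map]
    congr 1
    apply Multiset.map_congr rfl
    intro β _
    simp

lemma log_multiset_prod (s : Multiset ℝ) (h : ∀ x ∈ s, x ≠ 0) :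
    Real.log s.prod = (s.map Real.log).sum := by
  induction s using Multiset.induction_on with
  | empty => simp
  | cons a s ih =>
    rw [Multiset.prod_cons, Multiset.map_cons, Multiset.sum_cons, Real.log_mul
      (h a (Multiset.mem_cons_self a s)), ih (fun x hx => h x (Multiset.mem_cons_of_mem hx))]
    rw [Ne, Multiset.prod_eq_zero_iff]
    exact fun h0 => h 0 (Multiset.mem_cons_of_mem h0) rfl

lemma log_abs_eval {P : ℝ[X]} (hP : P ≠ 0) {x : ℝ} (hx : P.eval x ≠ 0) :
    Real.log |P.eval x| = Real.log |P.leadingCoeff|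
      + ((P.aroots ℂ).map fun β => Real.log ‖(x : ℂ) - β‖).sum := by
  have h1 := abs_eval_eq P x
  have hlead : |P.leadingCoeff| ≠ 0 := abs_ne_zero.2 (leadingCoeff_ne_zero.2 hP)
  have h2 : ((P.aroots ℂ).map (fun β => ‖(x : ℂ) - β‖)).prod ≠ 0 := by
    intro h0; rw [h0, mul_zero, abs_eq_zero] at h1; exact hx h1
  rw [h1, Real.log_mul hlead h2, log_multiset_prod, Multiset.map_map]
  · rfl
  · intro y hy h0
    apply h2
    rw [Multiset.prod_eq_zero_iff, ← h0]; exact hy

lemma card_aroots_le (P : ℝ[X]) : Multiset.card (P.aroots ℂ) ≤ P.natDegree := by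
  have := card_roots' (P.map (algebraMap ℝ ℂ))
  refine this.trans natDegree_map_le

lemma log_abs_eval_le {L : ℝ} {P : ℝ[X]} (hP : P ≠ 0) {x : ℝ} (hx : P.eval x ≠ 0)
    (hx' : x ∈ Set.Icc 0 (4 * L)) :
    Real.log |P.eval x| ≤ Real.log |P.leadingCoeff| + gr L P := by
  rw [log_abs_eval hP hx]
  have h1 := abs_eval_eq P x
  have h2 : ((P.aroots ℂ).map (fun β => ‖(x : ℂ) - β‖)).prod ≠ 0 := by
    intro h0; rw [h0, mul_zero, abs_eq_zero] at h1; exact hx h1
  unfold gr
  have key : ((P.aroots ℂ).map fun β => Real.log ‖(x : ℂ) - β‖).sum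
      ≤ ((P.aroots ℂ).map fun β => Real.log (4 * L + ‖β‖)).sum := by
    apply Multiset.sum_map_le_sum_map
    intro β hβ
    apply Real.log_le_log
    · rw [norm_pos_iff]
      intro h0
      apply h2
      rw [Multiset.prod_eq_zero_iff, Multiset.mem_map]
      exact ⟨β, hβ, by rw [h0, norm_zero]⟩
    · calc ‖(x : ℂ) - β‖ ≤ ‖(x : ℂ)‖ + ‖β‖ := norm_sub_le _ _
        _ ≤ 4 * L + ‖β‖ := by
          rw [Complex.norm_real, Real.norm_eq_abs, abs_of_nonneg hx'.1]
          linarith [hx'.2]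
  linarith

lemma gr_nonneg {L : ℝ} (hL : 1 ≤ L) (P : ℝ[X]) : 0 ≤ gr L P := by
  unfold gr
  apply Multiset.sum_nonneg
  intro x hx
  rw [Multiset.mem_map] at hx
  obtain ⟨β, _, rfl⟩ := hx
  apply Real.log_nonneg
  linarith [norm_nonneg β]

section

variable {m : Measure ℝ} {L K : ℝ}

lemma finite_null (h : LogBdd m L K) {P : ℝ[X]} (hP : P ≠ 0) : ∀ᵐ x ∂m, P.eval x ≠ 0 := by
  have := h.atoms
  rw [ae_iff]
  have : {a | ¬ P.eval a ≠ 0} = (P.roots.toFinset : Set ℝ) := by
    ext a; simp [hP]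
  rw [this]
  exact (Finset.finite_toSet _).measure_zero m

lemma measurable_logabs (P : ℝ[X]) : Measurable (fun x : ℝ => Real.log |P.eval x|) :=
  Real.measurable_log.comp (P.continuous.measurable.abs)

lemma LogBdd.poly (h : LogBdd m L K) {P : ℝ[X]} (hP : P ≠ 0) :
    Integrable (fun x : ℝ => Real.log |P.eval x|) m ∧
    ∀ A : Set ℝ, m.real A * Real.log |P.leadingCoeff| - P.natDegree * K
      ≤ ∫ x in A, Real.log |P.eval x| ∂m := by
  have := h.fin
  have h1 := h.multiset (P.aroots ℂ)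
  have h2 : (fun x : ℝ => Real.log |P.eval x|) =ᵐ[m] fun x : ℝ => Real.log |P.leadingCoeff|
      + ((P.aroots ℂ).map fun β => Real.log ‖(x : ℂ) - β‖).sum := by
    filter_upwards [finite_null h hP] with x hx
    exact log_abs_eval hP hx
  constructor
  · exact (integrable_congr h2).2 ((integrable_const _).add h1.1)
  · intro A
    rw [integral_congr_ae (ae_restrict_of_ae h2), integral_add (integrable_const _)
      h1.1.integrableOn, setIntegral_const, smul_eq_mul]
    have h3 := h1.2 A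
    have h4 : (Multiset.card (P.aroots ℂ) : ℝ) ≤ P.natDegree := by exact_mod_cast card_aroots_le P
    have h5 := h.K_nonneg
    nlinarith

end

end Pool.Agent.SSS
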