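import Mathlib
import Pool.Agent.SSS.LemA

/-! The main lower bound for `∫ |x - a - ∑ b_j log |Q_j||`. -/

namespace Pool.Agent.SSS

open MeasureTheory Polynomial

lemma gr_mul {L : ℝ} {P Q : ℝ[X]} (hP : P ≠ 0) (hQ : Q ≠ 0) : gr L (P * Q) = gr L P + gr L Q := by
  unfold gr
  rw [aroots_mul (mul_ne_zero hP hQ), Multiset.map_add, Multiset.sum_add]

lemma gr_prod {L : ℝ} {ι : Type*} (s : Finset ι) (Q : ι → ℝ[X]) (hQ : ∀ j ∈ s, Q j ≠ 0) :
    gr L (∏ j ∈ s, Q j) = ∑ j ∈ s, gr L (Q j) := by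
  classical
  induction s using Finset.induction_on with
  | empty => simp [gr]
  | insert a s ha ih =>
    rw [Finset.prod_insert ha, Finset.sum_insert ha, gr_mul (hQ a (Finset.mem_insert_self a s)),
      ih (fun j hj => hQ j (Finset.mem_insert_of_mem hj))]
    exact Finset.prod_ne_zero_iff.2 fun j hj => hQ j (Finset.mem_insert_of_mem hj)

lemma filter_lt_card {Z : Finset ℝ} {x y : ℝ} (hxy : x < y) (_hx : x ∉ Z) (hy : y ∉ Z)
    (h : (Z.filter (· < x)).card = (Z.filter (· < y)).card) : ∀ t ∈ Set.Icc x y, t ∉ Z := by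
  intro t ht htZ
  have hsub : Z.filter (· < x) ⊆ Z.filter (· < y) := by
    intro r hr
    rw [Finset.mem_filter] at hr ⊢
    exact ⟨hr.1, hr.2.trans hxy⟩
  have heq := Finset.eq_of_subset_of_card_le hsub h.ge
  have h1 : t ∈ Z.filter (· < y) := by
    rw [Finset.mem_filter]
    exact ⟨htZ, lt_of_le_of_ne ht.2 (fun he => hy (he ▸ htZ))⟩
  rw [← heq, Finset.mem_filter] at h1
  exact absurd h1.2 (not_lt.2 ht.1)

theorem lemA {m : Measure ℝ} {L K : ℝ} (hL : 1 ≤ L) (h : LogBdd m L K) {ι : Type*}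
    (s : Finset ι) (Q : ι → ℝ[X]) (hQ : ∀ j ∈ s, Q j ≠ 0) (a0 : ℝ) (b : ι → ℝ)
    {Λ : ℝ} (hM0 : 0 < m.real Set.univ)
    (hΛ : ∑ j ∈ s, gr L (Q j) + 4 / m.real Set.univ * (3 * (∑ j ∈ s, ((Q j).natDegree : ℝ)) + 1) * K
      + 1 ≤ Λ) :
    m.real Set.univ / 2 * Real.exp (-2 * Λ)
      ≤ ∫ x, |x - a0 - ∑ j ∈ s, b j * Real.log (|(Q j).eval x|)| ∂m := by
  classical
  have := h.fin
  have := h.atoms
  set M0 := m.real Set.univ with hM
  have hK := h.K_nonneg
  set S : ℝ[X] := ∏ j ∈ s, Q j with hS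
  have hS0 : S ≠ 0 := Finset.prod_ne_zero_iff.2 hQ
  set d : ℕ := S.natDegree with hd
  have hdsum : (d : ℝ) = ∑ j ∈ s, ((Q j).natDegree : ℝ) := by
    rw [hd, hS, natDegree_prod _ _ hQ]; push_cast; rfl
  have hgr : gr L S = ∑ j ∈ s, gr L (Q j) := gr_prod s Q hQ
  rw [← hdsum, ← hgr] at hΛ
  have hgr0 := gr_nonneg hL S
  set R : ℝ[X] := ∑ j ∈ s, C (b j) * (derivative (Q j) * ∏ i ∈ s.erase j, Q i) with hR
  have hRdeg : R.degree < S.degree := by
    have hbot : ⊥ < S.degree := bot_lt_iff_ne_bot.2 (degree_ne_bot.2 hS0)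
    refine (degree_sum_le s _).trans_lt ((Finset.sup_lt_iff hbot).2 ?_)
    intro j hj
    have h1 : (derivative (Q j)).degree < (Q j).degree := degree_derivative_lt (hQ j hj)
    have h2 : S = Q j * ∏ i ∈ s.erase j, Q i := (Finset.mul_prod_erase s Q hj).symm
    have h3 : (∏ i ∈ s.erase j, Q i) ≠ 0 :=
      Finset.prod_ne_zero_iff.2 fun i hi => hQ i (Finset.mem_of_mem_erase hi)
    rw [← smul_eq_C_mul]
    refine (degree_smul_le _ _).trans_lt ?_
    rw [degree_mul, h2, degree_mul]
    exact WithBot.add_lt_add_right (degree_ne_bot.2 h3) h1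
  set G : ℝ[X] := S - R with hG
  have hGdeg : G.degree = S.degree := degree_sub_eq_left_of_degree_lt hRdeg
  have hGlead : G.leadingCoeff = S.leadingCoeff := leadingCoeff_sub_of_degree_lt hRdeg
  have hG0 : G ≠ 0 := by
    intro h0; rw [h0, degree_zero] at hGdeg
    exact degree_ne_bot.2 hS0 hGdeg.symm
  have hGnat : G.natDegree = d := natDegree_eq_of_degree_eq hGdeg
  set τ := Real.exp (-Λ) with hτ
  have hτ0 : 0 < τ := Real.exp_pos _
  have hC0 : 0 ≤ 4 / M0 * (3 * (d : ℝ) + 1) * K := by positivity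
  have hΛ1 : 1 ≤ Λ := by linarith
  have hτ1 : τ < 1 := by rw [hτ, Real.exp_lt_one_iff]; linarith
  set ε := Real.exp (-2 * Λ) with hε
  have hετ : ε = τ * τ := by rw [hε, hτ, ← Real.exp_add]; ring_nf
  have hε0 : 0 < ε := Real.exp_pos _
  have hGc : G.coeff d = S.leadingCoeff := by rw [← hGlead, leadingCoeff, hGnat]
  have hSlead : S.leadingCoeff ≠ 0 := leadingCoeff_ne_zero.2 hS0
  set P1 : ℝ[X] := G - C τ * S with hP1
  set P2 : ℝ[X] := G + C τ * S with hP2
  have hP10 : P1 ≠ 0 := by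
    intro h0
    have : P1.coeff d = 0 := by rw [h0]; simp
    rw [hP1, coeff_sub, hGc, coeff_C_mul, show S.coeff d = S.leadingCoeff from rfl] at this
    have h2 : (1 - τ) * S.leadingCoeff = 0 := by linarith
    rcases mul_eq_zero.1 h2 with h3 | h3
    · linarith
    · exact hSlead h3
  have hP20 : P2 ≠ 0 := by
    intro h0
    have : P2.coeff d = 0 := by rw [h0]; simp
    rw [hP2, coeff_add, hGc, coeff_C_mul, show S.coeff d = S.leadingCoeff from rfl] at this
    have h2 : (1 + τ) * S.leadingCoeff = 0 := by linarith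
    rcases mul_eq_zero.1 h2 with h3 | h3
    · linarith
    · exact hSlead h3
  have hP1n : P1.natDegree ≤ d := by
    refine (natDegree_sub_le _ _).trans (max_le hGnat.le ?_)
    exact natDegree_C_mul_le _ _
  have hP2n : P2.natDegree ≤ d := by
    refine (natDegree_add_le _ _).trans (max_le hGnat.le ?_)
    exact natDegree_C_mul_le _ _
  set Z : Finset ℝ := (S * P1 * P2).roots.toFinset with hZ
  have hprod0 : S * P1 * P2 ≠ 0 := mul_ne_zero (mul_ne_zero hS0 hP10) hP20
  have hZcard : Z.card ≤ 3 * d := by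
    refine (Multiset.toFinset_card_le _).trans ((card_roots' _).trans ?_)
    refine natDegree_mul_le.trans ?_
    have := natDegree_mul_le (p := S) (q := P1)
    omega
  have hZmem : ∀ t, t ∉ Z → S.eval t ≠ 0 ∧ P1.eval t ≠ 0 ∧ P2.eval t ≠ 0 := by
    intro t ht
    rw [hZ, Multiset.mem_toFinset, mem_roots hprod0, IsRoot.def, eval_mul, eval_mul] at ht
    refine ⟨fun h0 => ht (by rw [h0]; ring), fun h0 => ht (by rw [h0]; ring),
      fun h0 => ht (by rw [h0]; ring)⟩
  set f : ℝ → ℝ := fun x => x - a0 - ∑ j ∈ s, b j * Real.log |(Q j).eval x| with hf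
  set φ : ℝ → ℝ := fun x => G.eval x / S.eval x with hφ
  have hder : ∀ t, t ∉ Z → HasDerivAt f (φ t) t := by
    intro t ht
    obtain ⟨hSt, -, -⟩ := hZmem t ht
    have hQt : ∀ j ∈ s, (Q j).eval t ≠ 0 := by
      have : S.eval t = ∏ j ∈ s, (Q j).eval t := by rw [hS, eval_prod]
      rw [this] at hSt
      exact Finset.prod_ne_zero_iff.1 hSt
    have e1 : f = fun x => x - a0 - ∑ j ∈ s, b j * Real.log ((Q j).eval x) := by
      ext x; simp only [hf, Real.log_abs]
    rw [e1]
    have h1 : HasDerivAt (fun x => x - a0 - ∑ j ∈ s, b j * Real.log ((Q j).eval x))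
        (1 - ∑ j ∈ s, b j * ((derivative (Q j)).eval t / (Q j).eval t)) t := by
      apply HasDerivAt.sub
      · exact (hasDerivAt_id t).sub_const a0
      · apply HasDerivAt.fun_sum
        intro j hj
        exact (((Q j).hasDerivAt t).log (hQt j hj)).const_mul (b j)
    convert h1 using 1
    simp only [hφ, hG, eval_sub, hR, eval_finsetSum, eval_mul, eval_C]
    rw [sub_div, div_self hSt, Finset.sum_div]
    congr 1
    refine Finset.sum_congr rfl fun j hj => ?_
    have h2 : S.eval t = (Q j).eval t * (∏ i ∈ s.erase j, Q i).eval t := by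
      rw [← eval_mul, Finset.mul_prod_erase s Q hj]
    have h3 : (∏ i ∈ s.erase j, Q i).eval t ≠ 0 := by
      intro h0; rw [h0, mul_zero] at h2; exact hSt h2
    rw [h2]
    field_simp [hQt j hj]
  have hφne : ∀ t, t ∉ Z → φ t ≠ τ ∧ φ t ≠ -τ := by
    intro t ht
    obtain ⟨hSt, h1, h2⟩ := hZmem t ht
    constructor
    · intro he
      rw [hφ] at he
      simp only at he
      rw [div_eq_iff hSt] at he
      apply h1
      rw [hP1, eval_sub, eval_mul, eval_C, he]; ring
    · intro he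
      rw [hφ] at he
      simp only at he
      rw [div_eq_iff hSt] at he
      apply h2
      rw [hP2, eval_add, eval_mul, eval_C, he]; ring
  -- measurability
  have hfm : Measurable f := by
    simp only [hf]
    apply Measurable.sub (measurable_id.sub_const a0)
    apply Finset.measurable_sum
    intro j _
    exact (measurable_logabs (Q j)).const_mul _
  have hφm : Measurable φ := G.continuous.measurable.div S.continuous.measurable
  have hfint : Integrable f m := by
    apply Integrable.sub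
    · refine (Integrable.of_bound (measurable_id.sub_const a0).aestronglyMeasurable
        (|4 * L| + |a0|) ?_)
      filter_upwards [h.supp] with x hx
      rw [Real.norm_eq_abs]
      refine (abs_sub _ _).trans ?_
      have : |x| ≤ |4 * L| := abs_le_abs_of_nonneg hx.1 hx.2
      linarith
    · apply integrable_finsetSum
      intro j hj
      exact (h.poly (hQ j hj)).1.const_mul _
  -- the sets
  set A0 : Set ℝ := {x | ε ≤ |f x|} with hA0
  set A1 : ℕ → Set ℝ := fun k => {x | x ∉ Z ∧ |f x| < ε ∧ τ < |φ x| ∧ (Z.filter (· < x)).card = k}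
    with hA1
  set A2 : Set ℝ := {x | x ∉ Z ∧ |f x| < ε ∧ |φ x| ≤ τ} with hA2
  have hcover : (Set.univ : Set ℝ) ⊆ (↑Z ∪ A0) ∪ ((⋃ k ∈ Finset.range (3 * d + 1), A1 k) ∪ A2) := by
    intro x _
    by_cases h1 : x ∈ Z
    · exact Or.inl (Or.inl h1)
    by_cases h2 : ε ≤ |f x|
    · exact Or.inl (Or.inr h2)
    push Not at h2
    by_cases h3 : |φ x| ≤ τ
    · exact Or.inr (Or.inr ⟨h1, h2, h3⟩)
    push Not at h3
    refine Or.inr (Or.inl ?_)
    simp only [Set.mem_iUnion]
    refine ⟨(Z.filter (· < x)).card, ?_, h1, h2, h3, rfl⟩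
    rw [Finset.mem_range]
    have := Finset.card_filter_le Z (· < x)
    omega
  have hlog2 : Real.log 2 < 1 := by
    have := Real.log_two_lt_d9; linarith
  have hlog20 : 0 < Real.log 2 := Real.log_pos (by norm_num)
  have hΛ2 : 0 < Λ - Real.log 2 := by linarith
  have hA1le : ∀ k, m (A1 k) ≤ ENNReal.ofReal (K / (Λ - Real.log 2)) := by
    intro k
    have key : ∀ x ∈ A1 k, ∀ y ∈ A1 k, x < y → |x - y| ≤ 2 * τ := by
      intro x hx y hy hxy
      obtain ⟨hx1, hx2, hx3, hx4⟩ := hx
      obtain ⟨hy1, hy2, hy3, hy4⟩ := hy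
      have hno := filter_lt_card hxy hx1 hy1 (hx4.trans hy4.symm)
      have h1 := piece_slope hxy (fun t ht => hder t (hno t ht))
        (ContinuousOn.div G.continuous.continuousOn S.continuous.continuousOn
          (fun t ht => (hZmem t (hno t ht)).1))
        (fun t ht => (hφne t (hno t ht)).1) (fun t ht => (hφne t (hno t ht)).2) hx3
      have h2 : |f y - f x| ≤ 2 * (τ * τ) := by
        refine (abs_sub _ _).trans ?_
        rw [← hετ]; linarith
      have h3 : τ * (y - x) ≤ τ * (2 * τ) := by linarith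
      have h4 := le_of_mul_le_mul_left h3 hτ0
      rw [abs_sub_comm, abs_of_pos (by linarith)]
      exact h4
    refine h.mass_le (ℓ := 2 * τ) hΛ2 ?_ ?_
    · rw [neg_sub, sub_eq_add_neg, Real.exp_add, Real.exp_log (by norm_num)]
    · intro x hx y hy
      rcases lt_trichotomy x y with hlt | heq | hgt
      · exact key x hx y hy hlt
      · rw [heq]; simp; positivity
      · rw [abs_sub_comm]; exact key y hy x hx hgt
  have hA1sum : m.real (⋃ k ∈ Finset.range (3 * d + 1), A1 k) ≤ M0 / 4 := by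
    have h1 : m (⋃ k ∈ Finset.range (3 * d + 1), A1 k)
        ≤ ∑ k ∈ Finset.range (3 * d + 1), ENNReal.ofReal (K / (Λ - Real.log 2)) :=
      (measure_biUnion_finset_le _ _).trans (Finset.sum_le_sum fun k _ => hA1le k)
    rw [← ENNReal.ofReal_sum_of_nonneg (fun _ _ => by positivity)] at h1
    have h2 : m.real (⋃ k ∈ Finset.range (3 * d + 1), A1 k)
        ≤ ∑ k ∈ Finset.range (3 * d + 1), K / (Λ - Real.log 2) :=
      ENNReal.toReal_le_of_le_ofReal (Finset.sum_nonneg fun _ _ => by positivity) h1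
    refine h2.trans ?_
    rw [Finset.sum_const, Finset.card_range, nsmul_eq_mul, ← mul_div_assoc, div_le_iff₀ hΛ2]
    push_cast
    have h3 : 4 / M0 * (3 * (d : ℝ) + 1) * K ≤ Λ - Real.log 2 := by linarith
    calc (3 * (d : ℝ) + 1) * K = M0 / 4 * (4 / M0 * (3 * (d : ℝ) + 1) * K) := by
          field_simp
      _ ≤ M0 / 4 * (Λ - Real.log 2) := mul_le_mul_of_nonneg_left h3 (by positivity)
  have hA2m : MeasurableSet A2 := by
    have e : A2 = (↑Z : Set ℝ)ᶜ ∩ ({x | |f x| < ε} ∩ {x | |φ x| ≤ τ}) := by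
      ext x; simp [hA2]
    rw [e]
    exact (Finset.measurableSet Z).compl.inter ((measurableSet_lt hfm.abs measurable_const).inter
      (measurableSet_le hφm.abs measurable_const))
  have hA2le : m.real A2 ≤ M0 / 4 := by
    have hp1 := (h.poly hG0).2 A2
    rw [hGlead, hGnat] at hp1
    have hp2 : ∫ x in A2, Real.log |G.eval x| ∂m
        ≤ ∫ x in A2, (-Λ + (Real.log |S.leadingCoeff| + gr L S)) ∂m := by
      apply integral_mono_ae (h.poly hG0).1.integrableOn (integrable_const _)
      filter_upwards [ae_restrict_mem hA2m, ae_restrict_of_ae (finite_null h hG0),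
        ae_restrict_of_ae h.supp] with x hx hGx hxs
      obtain ⟨hx1, -, hx3⟩ := hx
      obtain ⟨hSx, -, -⟩ := hZmem x hx1
      rw [hφ] at hx3
      simp only at hx3
      rw [abs_div, div_le_iff₀ (abs_pos.2 hSx)] at hx3
      have h1 := Real.log_le_log (abs_pos.2 hGx) hx3
      rw [Real.log_mul hτ0.ne' (abs_pos.2 hSx).ne', hτ, Real.log_exp] at h1
      have h2 := log_abs_eval_le (L := L) hS0 hSx hxs
      linarith
    rw [setIntegral_const, smul_eq_mul] at hp2
    have h1 : m.real A2 * (Λ - gr L S) ≤ d * K := by nlinarith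
    have h2 : (d : ℝ) * K ≤ M0 / 4 * (Λ - gr L S) := by
      have h3 : 4 / M0 * (3 * (d : ℝ) + 1) * K ≤ Λ - gr L S := by linarith
      calc (d : ℝ) * K ≤ (3 * (d : ℝ) + 1) * K := by
            apply mul_le_mul_of_nonneg_right _ hK
            have : (0 : ℝ) ≤ d := Nat.cast_nonneg _
            linarith
        _ = M0 / 4 * (4 / M0 * (3 * (d : ℝ) + 1) * K) := by field_simp
        _ ≤ M0 / 4 * (Λ - gr L S) := mul_le_mul_of_nonneg_left h3 (by positivity)
    have h4 : 0 < Λ - gr L S := by linarith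
    exact le_of_mul_le_mul_right (h1.trans h2) h4
  have hZnull : m.real (↑Z : Set ℝ) = 0 := by
    rw [measureReal_def, (Finset.finite_toSet Z).measure_zero m]; simp
  have hA0ge : M0 / 2 ≤ m.real A0 := by
    have h1 : M0 ≤ m.real ((↑Z ∪ A0) ∪ ((⋃ k ∈ Finset.range (3 * d + 1), A1 k) ∪ A2)) :=
      measureReal_mono hcover
    have h2 := measureReal_union_le (μ := m) (↑Z ∪ A0) ((⋃ k ∈ Finset.range (3 * d + 1), A1 k) ∪ A2)
    have h3 := measureReal_union_le (μ := m) (↑Z) A0
    have h4 := measureReal_union_le (μ := m) (⋃ k ∈ Finset.range (3 * d + 1), A1 k) A2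
    linarith
  have hfin := mul_meas_ge_le_integral_of_nonneg (μ := m)
    (Filter.Eventually.of_forall fun x => abs_nonneg (f x)) hfint.abs ε
  calc M0 / 2 * ε ≤ ε * m.real A0 := by nlinarith
    _ ≤ ∫ x, |f x| ∂m := hfin

end Pool.Agent.SSS
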