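import Mathlib
import Pool.Agent.SSS.LemA2

/-! Duality: existence of bounded perturbations with prescribed moments. -/

namespace Pool.Agent.SSS

open MeasureTheory Polynomial

lemma integrable_bdd_mul {m : Measure ℝ} {f g : ℝ → ℝ} (hf : Measurable f) (hf1 : ∀ x, |f x| ≤ 1)
    (hg : Integrable g m) : Integrable (fun x => f x * g x) m := by
  refine hg.bdd_mul (c := 1) hf.aestronglyMeasurable ?_
  filter_upwards with x
  rw [Real.norm_eq_abs]; exact hf1 x

theorem exists_dual {m : Measure ℝ} {ι : Type*} [Fintype ι] (v : ι → ℝ → ℝ)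
    (hvm : ∀ j, Measurable (v j)) (hv : ∀ j, Integrable (v j) m) (x0 : ℝ → ℝ)
    (hxm : Measurable x0) (hx : Integrable x0 m) {κ : ℝ} (hκ0 : 0 < κ)
    (hκ : ∀ b : ι → ℝ, κ ≤ ∫ x, |x0 x - ∑ j, b j * v j x| ∂m) {ε : ℝ} (hε : 0 < ε) :
    ∃ f : ℝ → ℝ, Measurable f ∧ (∀ x, |f x| ≤ 1) ∧ (∀ j, |∫ x, f x * v j x ∂m| ≤ ε) ∧
      ∫ x, f x * x0 x ∂m ≤ -κ + ε := by
  classical
  set V : Option ι → ℝ → ℝ := fun o => o.elim x0 v with hV
  have hVm : ∀ o, Measurable (V o) := by
    rintro (_ | j)
    · exact hxm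
    · exact hvm j
  have hVi : ∀ o, Integrable (V o) m := by
    rintro (_ | j)
    · exact hx
    · exact hv j
  set C : Set (Option ι → ℝ) := {y | ∃ f : ℝ → ℝ, Measurable f ∧ (∀ x, |f x| ≤ 1) ∧
    y = fun o => ∫ x, f x * V o x ∂m} with hC
  have hconv : Convex ℝ C := by
    rintro y ⟨f, hf, hf1, rfl⟩ z ⟨g, hg, hg1, rfl⟩ a b ha hb hab
    refine ⟨fun x => a * f x + b * g x, (hf.const_mul a).add (hg.const_mul b), ?_, ?_⟩
    · intro x
      calc |a * f x + b * g x| ≤ |a * f x| + |b * g x| := abs_add_le _ _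
        _ = a * |f x| + b * |g x| := by rw [abs_mul, abs_mul, abs_of_nonneg ha, abs_of_nonneg hb]
        _ ≤ a * 1 + b * 1 := by
          gcongr
          · exact hf1 x
          · exact hg1 x
        _ = 1 := by linarith
    · ext o
      simp only [Pi.add_apply, Pi.smul_apply, smul_eq_mul]
      rw [← integral_const_mul, ← integral_const_mul, ← integral_add
        ((integrable_bdd_mul hf hf1 (hVi o)).const_mul a)
        ((integrable_bdd_mul hg hg1 (hVi o)).const_mul b)]
      congr 1
      ext x; ring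
  set p : Option ι → ℝ := fun o => o.elim (-κ) (fun _ => 0) with hp
  by_cases hmem : p ∈ closure C
  · rw [Metric.mem_closure_iff] at hmem
    obtain ⟨y, ⟨f, hf, hf1, rfl⟩, hy⟩ := hmem ε hε
    refine ⟨f, hf, hf1, ?_, ?_⟩
    · intro j
      have := (dist_le_pi_dist p _ (some j)).trans hy.le
      rw [Real.dist_eq] at this
      simpa [hp, hV] using this
    · have := (dist_le_pi_dist p _ none).trans hy.le
      rw [Real.dist_eq] at this
      have h2 := abs_le.1 this
      simp only [hp, hV, Option.elim] at h2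
      linarith [h2.1]
  · exfalso
    obtain ⟨φ, u, h1, h2⟩ := geometric_hahn_banach_point_closed hconv.closure isClosed_closure hmem
    set β : Option ι → ℝ := fun o => φ (Pi.single o 1) with hβ
    have hφ : ∀ y, φ y = ∑ o, y o * β o := by
      intro y
      have := LinearMap.pi_apply_eq_sum_univ (φ : (Option ι → ℝ) →ₗ[ℝ] ℝ) y
      simp only [ContinuousLinearMap.coe_coe, smul_eq_mul] at this
      rw [this]
      refine Finset.sum_congr rfl fun o _ => ?_
      simp only [hβ]
      congr 2
      ext i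
      by_cases h : o = i
      · subst h; simp
      · have h' : i ≠ o := fun h'' => h h''.symm
        simp [h, h']
    set g : ℝ → ℝ := fun x => ∑ o, β o * V o x with hg
    have hgm : Measurable g := Finset.measurable_sum _ fun o _ => (hVm o).const_mul _
    have hgi : Integrable g m := integrable_finsetSum _ fun o _ => (hVi o).const_mul _
    set f0 : ℝ → ℝ := fun x => if 0 ≤ g x then -1 else 1 with hf0
    have hf0m : Measurable f0 := Measurable.ite (measurableSet_le measurable_const hgm)
      measurable_const measurable_const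
    have hf01 : ∀ x, |f0 x| ≤ 1 := by
      intro x; simp only [hf0]; split_ifs <;> simp
    have h3 := h2 _ (subset_closure (⟨f0, hf0m, hf01, rfl⟩ : (fun o => ∫ x, f0 x * V o x ∂m) ∈ C))
    have h4 : φ (fun o => ∫ x, f0 x * V o x ∂m) = -∫ x, |g x| ∂m := by
      rw [hφ, ← integral_neg]
      have e1 : ∀ o, (∫ x, f0 x * V o x ∂m) * β o = ∫ x, β o * (f0 x * V o x) ∂m := by
        intro o; rw [integral_const_mul, mul_comm]
      simp only [e1]
      rw [← integral_finsetSum _ fun o _ => (integrable_bdd_mul hf0m hf01 (hVi o)).const_mul _]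
      congr 1
      ext x
      have e2 : ∑ o, β o * (f0 x * V o x) = f0 x * g x := by
        simp only [hg, Finset.mul_sum]
        refine Finset.sum_congr rfl fun o _ => by ring
      rw [e2]
      simp only [hf0]
      split_ifs with h
      · rw [abs_of_nonneg h]; ring
      · push Not at h
        rw [abs_of_neg h]; ring
    rw [h4] at h3
    have h5 : φ p = -κ * β none := by
      rw [hφ, Fintype.sum_option]
      simp [hp]
    rw [h5] at h1
    have h6 : 0 ≤ ∫ x, |g x| ∂m := integral_nonneg fun x => abs_nonneg _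
    have h7 : ∫ x, |g x| ∂m < κ * β none := by linarith
    have hβ0 : 0 < β none := by
      by_contra hcon
      push Not at hcon
      have : κ * β none ≤ 0 := mul_nonpos_of_nonneg_of_nonpos hκ0.le hcon
      linarith
    have h8 := hκ (fun j => -(β (some j)) / β none)
    have h9 : ∫ x, |x0 x - ∑ j, -(β (some j)) / β none * v j x| ∂m
        = (∫ x, |g x| ∂m) / β none := by
      rw [← integral_div]
      congr 1
      ext x
      have e : x0 x - ∑ j, -(β (some j)) / β none * v j x = g x / β none := by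
        simp only [hg]
        rw [Fintype.sum_option]
        simp only [hV, Option.elim]
        rw [add_div, mul_div_cancel_left₀ _ hβ0.ne', sub_eq_add_neg, ← Finset.sum_neg_distrib,
          Finset.sum_div]
        congr 1
        refine Finset.sum_congr rfl fun j _ => by ring
      rw [e, abs_div, abs_of_pos hβ0]
    rw [h9, le_div_iff₀ hβ0] at h8
    linarith

/-- the perturbation used in the main argument -/
theorem exists_perturb {m : Measure ℝ} {L K : ℝ} (hL : 1 ≤ L) (h : LogBdd m L K) {ι : Type*}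
    (s : Finset ι) (Q : ι → ℝ[X]) (hQ : ∀ j ∈ s, Q j ≠ 0) {Λ : ℝ} (hM0 : 0 < m.real Set.univ)
    (hΛ : ∑ j ∈ s, gr L (Q j) + 4 / m.real Set.univ * (3 * (∑ j ∈ s, ((Q j).natDegree : ℝ)) + 1) * K
      + 1 ≤ Λ) {ε : ℝ} (hε : 0 < ε) :
    ∃ f : ℝ → ℝ, Measurable f ∧ (∀ x, |f x| ≤ 1) ∧ ∫ x, f x ∂m = 0 ∧
      (∀ j ∈ s, |∫ x, f x * Real.log (|(Q j).eval x|) ∂m| ≤ ε) ∧
      ∫ x, f x * x ∂m ≤ -(m.real Set.univ / 8 * Real.exp (-2 * Λ)) := by
  classical
  have := h.fin
  have := h.atoms
  set M0 := m.real Set.univ with hM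
  set κ := M0 / 2 * Real.exp (-2 * Λ) with hκ
  have hκ0 : 0 < κ := by positivity
  -- the integrals
  have hxi : Integrable (fun x : ℝ => x) m := by
    refine Integrable.of_bound measurable_id.aestronglyMeasurable (|4 * L|) ?_
    filter_upwards [h.supp] with x hx
    rw [Real.norm_eq_abs]
    exact abs_le_abs_of_nonneg hx.1 hx.2
  set V : Option s → ℝ → ℝ := fun o => o.elim (fun _ => 1) (fun j x => Real.log (|(Q j).eval x|))
    with hV
  have hVm : ∀ o, Measurable (V o) := by
    rintro (_ | j)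
    · exact measurable_const
    · exact measurable_logabs (Q j)
  have hVi : ∀ o, Integrable (V o) m := by
    rintro (_ | j)
    · exact integrable_const _
    · exact (h.poly (hQ j j.2)).1
  have hlow : ∀ b : Option s → ℝ, κ ≤ ∫ x, |x - ∑ o, b o * V o x| ∂m := by
    intro b
    have := lemA hL h s Q hQ (b none) (fun j => if hj : j ∈ s then b (some ⟨j, hj⟩) else 0) hM0 hΛ
    refine this.trans (le_of_eq ?_)
    congr 1
    ext x
    congr 1
    rw [Fintype.sum_option]
    simp only [hV, Option.elim, mul_one]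
    rw [← Finset.sum_coe_sort s (fun j => (if hj : j ∈ s then b (some ⟨j, hj⟩) else 0) *
      Real.log (|(Q j).eval x|))]
    have : ∀ j : s, (if hj : (j : ι) ∈ s then b (some ⟨j, hj⟩) else 0) = b (some j) := by
      intro j; rw [dif_pos j.2]
    simp only [this]
    ring
  set B : ℝ := (|∫ x, x ∂m| + ∑ j ∈ s, |∫ x, Real.log (|(Q j).eval x|) ∂m|) / M0 with hB
  have hB0 : 0 ≤ B := by positivity
  set ε' := min (min (ε / (1 + B)) (κ / 2 / (1 + B))) M0 with hε'
  have hε'0 : 0 < ε' := by positivity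
  have hε'1 : ε' * (1 + B) ≤ ε := by
    have : ε' ≤ ε / (1 + B) := (min_le_left _ _).trans (min_le_left _ _)
    rwa [le_div_iff₀ (by positivity)] at this
  have hε'2 : ε' * (1 + B) ≤ κ / 2 := by
    have : ε' ≤ κ / 2 / (1 + B) := (min_le_left _ _).trans (min_le_right _ _)
    rwa [le_div_iff₀ (by positivity)] at this
  have hε'3 : ε' ≤ M0 := min_le_right _ _
  obtain ⟨f0, hf0m, hf01, hf0v, hf0x⟩ := exists_dual V hVm hVi (fun x => x) measurable_id hxi hκ0
    hlow hε'0
  have hf0i : Integrable f0 m := by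
    have := integrable_bdd_mul hf0m hf01 (integrable_const (μ := m) (1 : ℝ))
    simpa using this
  set δ := (∫ x, f0 x ∂m) / M0 with hδ
  have hδ1 : |δ| ≤ ε' / M0 := by
    rw [hδ, abs_div, abs_of_pos hM0]
    have := hf0v none
    simp only [hV, Option.elim, mul_one] at this
    gcongr
  have hδ2 : |δ| ≤ 1 := hδ1.trans (by rw [div_le_one hM0]; exact hε'3)
  have hpos : 0 < 1 + |δ| := by positivity
  refine ⟨fun x => (f0 x - δ) / (1 + |δ|), (hf0m.sub_const δ).div_const _, ?_, ?_, ?_, ?_⟩
  · intro x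
    rw [abs_div, abs_of_pos hpos, div_le_one hpos]
    exact (abs_sub _ _).trans (by linarith [hf01 x])
  · rw [integral_div, integral_sub hf0i (integrable_const _), integral_const]
    simp only [smul_eq_mul]
    rw [← hM, hδ]
    field_simp
    simp
  · intro j hj
    have hji := (h.poly (hQ j hj)).1
    have e : (fun x => (f0 x - δ) / (1 + |δ|) * Real.log (|(Q j).eval x|))
        = fun x => (f0 x * Real.log (|(Q j).eval x|) - δ * Real.log (|(Q j).eval x|)) / (1 + |δ|) := by
      ext x; ring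
    rw [e, integral_div, integral_sub (integrable_bdd_mul hf0m hf01 hji) (hji.const_mul δ),
      integral_const_mul, abs_div, abs_of_pos hpos, div_le_iff₀ hpos]
    have h1 : |∫ x, f0 x * Real.log (|(Q j).eval x|) ∂m| ≤ ε' := hf0v (some ⟨j, hj⟩)
    have h2 : |∫ x, Real.log (|(Q j).eval x|) ∂m| ≤ B * M0 := by
      rw [hB, div_mul_cancel₀ _ hM0.ne']
      have := Finset.single_le_sum (f := fun j => |∫ x, Real.log (|(Q j).eval x|) ∂m|)
        (fun i _ => abs_nonneg _) hj
      linarith [abs_nonneg (∫ x, x ∂m)]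
    have h3 : |δ * ∫ x, Real.log (|(Q j).eval x|) ∂m| ≤ ε' * B := by
      rw [abs_mul]
      calc |δ| * |∫ x, Real.log (|(Q j).eval x|) ∂m| ≤ (ε' / M0) * (B * M0) := by gcongr
        _ = ε' * B := by field_simp
    calc _ ≤ |∫ x, f0 x * Real.log (|(Q j).eval x|) ∂m| + |δ * ∫ x, Real.log (|(Q j).eval x|) ∂m| :=
          abs_sub _ _
      _ ≤ ε := by linarith
      _ ≤ ε * (1 + |δ|) := by nlinarith [abs_nonneg δ]
  · have e : (fun x => (f0 x - δ) / (1 + |δ|) * x)
        = fun x => (f0 x * x - δ * x) / (1 + |δ|) := by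
      ext x; ring
    rw [e, integral_div, integral_sub (integrable_bdd_mul hf0m hf01 hxi) (hxi.const_mul δ),
      integral_const_mul, div_le_iff₀ hpos]
    have h2 : |∫ x, x ∂m| ≤ B * M0 := by
      rw [hB, div_mul_cancel₀ _ hM0.ne']
      have : 0 ≤ ∑ j ∈ s, |∫ x, Real.log (|(Q j).eval x|) ∂m| :=
        Finset.sum_nonneg fun _ _ => abs_nonneg _
      linarith
    have h3 : |δ * ∫ x, x ∂m| ≤ ε' * B := by
      rw [abs_mul]
      calc |δ| * |∫ x, x ∂m| ≤ (ε' / M0) * (B * M0) := by gcongr
        _ = ε' * B := by field_simp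
    have h4 := (abs_le.1 h3).1
    have h5 : M0 / 8 * Real.exp (-2 * Λ) = κ / 4 := by rw [hκ]; ring
    rw [h5]
    have h6 : ∫ x, f0 x * x ∂m ≤ -κ + ε' := hf0x
    nlinarith [abs_nonneg δ]

end Pool.Agent.SSS
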