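import Mathlib
import Pool.Agent.SSS.RealPt

/-! Measures on `[0,4L]`: Chebyshev moments and potentials. -/

namespace Pool.Agent.SSS

open Complex ComplexConjugate MeasureTheory

/-- Chebyshev moments -/
noncomputable def mom (L : ℝ) (μ : Measure ℝ) (k : ℕ) : ℝ := ∫ x, ((ee L x) ^ k).re ∂μ

/-- the kernel `log |L(2+u⁻¹+u) - x|` for `x ∈ [0,4L]` -/
noncomputable def KK (L : ℝ) (u : ℂ) (x : ℝ) : ℝ :=
  Real.log L - Real.log ‖u‖ + (Real.log ‖1 - u * ee L x‖ + Real.log ‖1 - u * conj (ee L x)‖)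

variable {L : ℝ} {μ : Measure ℝ} [IsProbabilityMeasure μ]

omit [IsProbabilityMeasure μ] in
lemma ae_norm_ee (hL : 0 < L) (hμ : ∀ᵐ x ∂μ, x ∈ Set.Icc 0 (4 * L)) :
    ∀ᵐ x ∂μ, ‖ee L x‖ = 1 := by
  filter_upwards [hμ] with x hx
  exact (ee_norm_eq_one hL hx.1 hx.2).1

omit [IsProbabilityMeasure μ] in
lemma ae_abs_re_pow (hL : 0 < L) (hμ : ∀ᵐ x ∂μ, x ∈ Set.Icc 0 (4 * L)) (k : ℕ) :
    ∀ᵐ x ∂μ, |((ee L x) ^ k).re| ≤ 1 := by
  filter_upwards [ae_norm_ee hL hμ] with x hx
  have := abs_re_pow_le (ee L x) k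
  rwa [hx, one_pow] at this

lemma integrable_re_pow (hL : 0 < L) (hμ : ∀ᵐ x ∂μ, x ∈ Set.Icc 0 (4 * L)) (k : ℕ) :
    Integrable (fun x => ((ee L x) ^ k).re) μ := by
  refine Integrable.of_bound ?_ 1 ?_
  · exact (Complex.continuous_re.comp ((continuous_ee L).pow k)).aestronglyMeasurable
  · filter_upwards [ae_abs_re_pow hL hμ k] with x hx
    rwa [Real.norm_eq_abs]

lemma abs_mom_le (hL : 0 < L) (hμ : ∀ᵐ x ∂μ, x ∈ Set.Icc 0 (4 * L)) (k : ℕ) :
    |mom L μ k| ≤ 1 := by
  have := norm_integral_le_of_norm_le_const (μ := μ) (f := fun x => ((ee L x) ^ k).re) (C := 1)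
    (by filter_upwards [ae_abs_re_pow hL hμ k] with x hx; rwa [Real.norm_eq_abs])
  simpa [mom] using this

/-- integrate a geometrically bounded series -/
lemma hasSum_integral_series (hL : 0 < L) (hμ : ∀ᵐ x ∂μ, x ∈ Set.Icc 0 (4 * L))
    {b : ℕ → ℝ} {q M : ℝ} (hq0 : 0 ≤ q) (hq1 : q < 1) (hb : ∀ k, |b k| ≤ M * q ^ k)
    {f : ℝ → ℝ} (hf : ∀ᵐ x ∂μ, HasSum (fun k : ℕ => b k * ((ee L x) ^ k).re) (f x)) :
    Integrable f μ ∧ HasSum (fun k : ℕ => b k * mom L μ k) (∫ x, f x ∂μ) := by
  have hM : 0 ≤ M := by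
    have := (abs_nonneg _).trans (hb 0); simpa using this
  have hgeo : Summable (fun k : ℕ => M * q ^ k) :=
    (summable_geometric_of_lt_one hq0 hq1).mul_left M
  have hint : ∀ k, Integrable (fun x => b k * ((ee L x) ^ k).re) μ :=
    fun k => (integrable_re_pow hL hμ k).const_mul _
  have hbound : ∀ k, ∀ᵐ x ∂μ, ‖b k * ((ee L x) ^ k).re‖ ≤ M * q ^ k := by
    intro k
    filter_upwards [ae_abs_re_pow hL hμ k] with x hx
    rw [Real.norm_eq_abs, abs_mul]
    calc |b k| * |((ee L x) ^ k).re| ≤ (M * q ^ k) * 1 := by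
          gcongr
          exact hb k
      _ = M * q ^ k := by ring
  have hnorm : ∀ k, ∫ x, ‖b k * ((ee L x) ^ k).re‖ ∂μ ≤ M * q ^ k := by
    intro k
    calc ∫ x, ‖b k * ((ee L x) ^ k).re‖ ∂μ ≤ ∫ x, M * q ^ k ∂μ :=
          integral_mono_ae (hint k).norm (integrable_const _) (hbound k)
      _ = M * q ^ k := by simp
  have hsum : Summable (fun k => ∫ x, ‖b k * ((ee L x) ^ k).re‖ ∂μ) :=
    Summable.of_nonneg_of_le (fun k => integral_nonneg fun x => norm_nonneg _) hnorm hgeo
  have h1 := hasSum_integral_of_summable_integral_norm hint hsum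
  have hfe : (fun x => ∑' k, b k * ((ee L x) ^ k).re) =ᵐ[μ] f := by
    filter_upwards [hf] with x hx using hx.tsum_eq
  have h2 : ∫ x, ∑' k, b k * ((ee L x) ^ k).re ∂μ = ∫ x, f x ∂μ := integral_congr_ae hfe
  rw [h2] at h1
  constructor
  · -- integrable: bounded by geometric sum
    apply Integrable.congr _ hfe
    have hmeas : AEStronglyMeasurable (fun x => ∑' k, b k * ((ee L x) ^ k).re) μ := by
      apply AEStronglyMeasurable.congr _ hfe.symm
      refine aestronglyMeasurable_of_tendsto_ae Filter.atTop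
        (f := fun n x => ∑ k ∈ Finset.range n, b k * ((ee L x) ^ k).re) ?_ ?_
      · intro n
        have : Continuous (fun x => ∑ k ∈ Finset.range n, b k * ((ee L x) ^ k).re) := by
          apply continuous_finsetSum
          intro k _
          exact continuous_const.mul (Complex.continuous_re.comp ((continuous_ee L).pow k))
        exact this.aestronglyMeasurable
      · filter_upwards [hf] with x hx using hx.tendsto_sum_nat
    refine Integrable.of_bound hmeas (∑' k, M * q ^ k) ?_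
    have := ae_all_iff.2 hbound
    filter_upwards [this] with x hx
    exact tsum_of_norm_bounded hgeo.hasSum hx
  · have e : (fun k : ℕ => b k * mom L μ k) = fun k => ∫ x, b k * ((ee L x) ^ k).re ∂μ := by
      ext k
      rw [integral_const_mul]; rfl
    rw [e]; exact h1

/-- integral of the kernel `KK` -/
lemma integral_KK (hL : 0 < L) (hμ : ∀ᵐ x ∂μ, x ∈ Set.Icc 0 (4 * L)) {u : ℂ} (hu : ‖u‖ < 1) :
    Integrable (KK L u) μ ∧
    ∫ x, KK L u x ∂μ = Real.log L - Real.log ‖u‖ - Om (mom L μ) u := by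
  have h := hasSum_integral_series (μ := μ) hL hμ (b := fun k => (2 / (k : ℝ)) * (u ^ k).re)
    (q := ‖u‖) (M := 2) (norm_nonneg _) hu (by
      intro k
      rw [abs_mul, abs_of_nonneg (two_div_nat_nonneg k)]
      exact mul_le_mul (two_div_nat_le k) (abs_re_pow_le u k) (abs_nonneg _) (by norm_num))
    (f := fun x => -(Real.log ‖1 - u * ee L x‖ + Real.log ‖1 - u * conj (ee L x)‖)) (by
      filter_upwards [ae_norm_ee hL hμ] with x hx
      have := hasSum_log_pair hu hx.le
      convert this using 1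
      ext k; ring)
  have e : (fun x => KK L u x) = fun x => (Real.log L - Real.log ‖u‖)
      - (-(Real.log ‖1 - u * ee L x‖ + Real.log ‖1 - u * conj (ee L x)‖)) := by
    ext x; unfold KK; ring
  constructor
  · show Integrable (fun x => KK L u x) μ
    rw [e]
    exact (integrable_const _).sub h.1
  · rw [e, integral_sub (integrable_const _) h.1, integral_const]
    simp only [probReal_univ, smul_eq_mul, one_mul]
    congr 1
    rw [← h.2.tsum_eq]
    unfold Om
    congr 1
    ext k; ring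

/-- integral of the smoothed potential -/
lemma integral_Wf (hL : 0 < L) (hμ : ∀ᵐ x ∂μ, x ∈ Set.Icc 0 (4 * L)) {c : ℕ → ℝ}
    (hc : ∀ k, |c k| ≤ 1) {q : ℝ} (hq0 : 0 < q) (hq1 : q < 1) :
    Integrable (fun x => Wf L c q (ee L x)) μ ∧
    ∫ x, Wf L c q (ee L x) ∂μ
      = Real.log L - ∑' k : ℕ, (2 / (k : ℝ)) * (q ^ k * (c k * mom L μ k)) := by
  have h := hasSum_integral_series (μ := μ) hL hμ (b := fun k => (2 / (k : ℝ)) * (c k * q ^ k))
    (q := q) (M := 2) hq0.le hq1 (by
      intro k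
      rw [abs_mul, abs_of_nonneg (two_div_nat_nonneg k), abs_mul,
        abs_of_nonneg (by positivity : 0 ≤ q ^ k)]
      have h1 := two_div_nat_le k
      have h2 := hc k
      have h3 : 0 ≤ q ^ k := by positivity
      calc 2 / (k : ℝ) * (|c k| * q ^ k) ≤ 2 * (1 * q ^ k) := by gcongr
        _ = 2 * q ^ k := by ring)
    (f := fun x => Om c (q / ee L x)) (by
      filter_upwards [ae_norm_ee hL hμ] with x hx
      have hu : ‖(q : ℂ) / ee L x‖ < 1 := by
        rw [norm_div, hx, div_one, Complex.norm_real, Real.norm_of_nonneg hq0.le]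
        exact hq1
      have h2 := (summable_Om hc hu).hasSum
      unfold Om
      convert h2 using 1
      ext k
      have hinv : (ee L x)⁻¹ = conj (ee L x) := by
        rw [Complex.inv_def, Complex.normSq_eq_norm_sq, hx]; simp
      have : (((q : ℂ) / ee L x) ^ k).re = q ^ k * ((ee L x) ^ k).re := by
        rw [div_eq_mul_inv, hinv, mul_pow, ← Complex.ofReal_pow, Complex.re_ofReal_mul,
          ← map_pow, Complex.conj_re]
      rw [this]; ring)
  have e : (fun x => Wf L c q (ee L x)) =ᵐ[μ] fun x => Real.log L - Om c (q / ee L x) := by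
    filter_upwards [ae_norm_ee hL hμ] with x hx
    unfold Wf
    rw [hx, Real.log_one, add_zero]
  constructor
  · apply Integrable.congr _ e.symm
    exact (integrable_const _).sub h.1
  · rw [integral_congr_ae e, integral_sub (integrable_const _) h.1, integral_const]
    simp only [probReal_univ, smul_eq_mul, one_mul]
    congr 1
    rw [← h.2.tsum_eq]
    congr 1
    ext k; ring

end Pool.Agent.SSS
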