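import Mathlib
import Pool.Agent.SSS.Bad
import Pool.Agent.SSS.Meas
import Pool.Agent.SSS.Defs
import Pool.Agent.SSS.Dual

/-! The perturbed measure and its smoothed potentials. -/

namespace Pool.Agent.SSS

open Complex ComplexConjugate MeasureTheory Polynomial

/-- the pair term -/
noncomputable def prt (L : ℝ) (u : ℂ) (x : ℝ) : ℝ :=
  Real.log ‖1 - u * ee L x‖ + Real.log ‖1 - u * conj (ee L x)‖

lemma KK_eq {L : ℝ} {q : ℝ} (hq : 0 < q) {w : ℂ} (hw : 1 ≤ ‖w‖) (x : ℝ) :
    KK L (q / w) x = Real.log L - Real.log q + Real.log ‖w‖ + prt L (q / w) x := by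
  unfold KK prt
  rw [norm_div, Complex.norm_real, Real.norm_of_nonneg hq.le,
    Real.log_div hq.ne' (by linarith)]
  ring

lemma KK_lower {L : ℝ} (hL : 0 < L) {q : ℝ} (hq0 : 0 < q) (hq1 : q < 1) {w : ℂ} (hw : 1 ≤ ‖w‖)
    {x : ℝ} (hx : x ∈ Set.Icc 0 (4 * L)) (hne : (L : ℂ) * (2 + w + w⁻¹) ≠ x) :
    Real.log ‖(x : ℂ) - (L : ℂ) * (2 + w + w⁻¹)‖ ≤ KK L (q / w) x := by
  obtain ⟨-, hxe⟩ := ee_spec hL hx.1
  have hn := (ee_norm_eq_one hL hx.1 hx.2).1
  set e := ee L x with he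
  have e0 : e ≠ 0 := norm_ne_zero_iff.1 (by rw [hn]; norm_num)
  have w0 : w ≠ 0 := norm_ne_zero_iff.1 (by linarith)
  have hwp : 0 < ‖w‖ := by linarith
  have ec : conj e = e⁻¹ := by
    rw [Complex.inv_def, Complex.normSq_eq_norm_sq, hn]; simp
  rw [KK_eq hq0 hw]
  unfold prt
  rw [← he]
  have h1 : ‖(x : ℂ) - (L : ℂ) * (2 + w + w⁻¹)‖
      = L * ‖w‖ * ‖1 - w⁻¹ * e‖ * ‖1 - w⁻¹ * conj e‖ := by
    rw [norm_sub_rev, hxe, jouk_sub w0 e0, norm_mul, norm_mul, Complex.norm_real,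
      Real.norm_of_nonneg hL.le]
    have a1 : ‖w - e‖ = ‖w‖ * ‖1 - w⁻¹ * e‖ := by
      rw [← norm_mul]; congr 1; field_simp
    have a2 : 1 - (w * e)⁻¹ = 1 - w⁻¹ * conj e := by rw [ec, mul_inv]
    rw [a1, a2]; ring
  have hpos : 0 < ‖(x : ℂ) - (L : ℂ) * (2 + w + w⁻¹)‖ := by
    rw [norm_pos_iff, sub_ne_zero]; exact hne.symm
  rw [h1] at hpos ⊢
  have p1 : ‖1 - w⁻¹ * e‖ ≠ 0 := by intro h; rw [h] at hpos; simp at hpos
  have p2 : ‖1 - w⁻¹ * conj e‖ ≠ 0 := by intro h; rw [h] at hpos; simp at hpos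
  rw [Real.log_mul (by positivity) p2, Real.log_mul (by positivity) p1,
    Real.log_mul hL.ne' hwp.ne']
  have n1 : ‖w⁻¹ * e‖ ≤ 1 := by
    rw [norm_mul, norm_inv, hn, mul_one]; exact inv_le_one_of_one_le₀ hw
  have n2 : ‖w⁻¹ * conj e‖ ≤ 1 := by
    rw [norm_mul, norm_inv, Complex.norm_conj, hn, mul_one]; exact inv_le_one_of_one_le₀ hw
  have c1 := log_one_sub_mul hq0 hq1.le n1 (fun h => p1 (by rw [h]; simp))
  have c2 := log_one_sub_mul hq0 hq1.le n2 (fun h => p2 (by rw [h]; simp))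
  have e1 : (q : ℂ) / w * e = q * (w⁻¹ * e) := by rw [div_eq_mul_inv]; ring
  have e2 : (q : ℂ) / w * conj e = q * (w⁻¹ * conj e) := by rw [div_eq_mul_inv]; ring
  rw [e1, e2]
  linarith

lemma norm_u {q : ℝ} (hq0 : 0 < q) {w : ℂ} (hw : 1 ≤ ‖w‖) : ‖(q : ℂ) / w‖ ≤ q := by
  rw [norm_div, Complex.norm_real, Real.norm_of_nonneg hq0.le]
  exact div_le_self hq0.le hw

lemma Wf_eq {L : ℝ} (hL : 0 < L) {ν : Measure ℝ} [IsProbabilityMeasure ν]
    (hν : ∀ᵐ x ∂ν, x ∈ Set.Icc 0 (4 * L)) {q : ℝ} (hq0 : 0 < q) (hq1 : q < 1) {w : ℂ}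
    (hw : 1 ≤ ‖w‖) :
    Wf L (mom L ν) q w = ∫ x, KK L (q / w) x ∂ν + Real.log q := by
  have hu : ‖(q : ℂ) / w‖ < 1 := (norm_u hq0 hw).trans_lt hq1
  rw [(integral_KK (μ := ν) hL hν hu).2, norm_div, Complex.norm_real, Real.norm_of_nonneg hq0.le,
    Real.log_div hq0.ne' (by linarith)]
  unfold Wf
  ring

lemma log_norm_one_sub_le {v : ℂ} {r : ℝ} (hv : ‖v‖ ≤ r) (hr : r < 1) :
    |Real.log ‖1 - v‖| ≤ max (Real.log (1 + r)) (-Real.log (1 - r)) := by
  have h1 : ‖1 - v‖ ≤ 1 + r := by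
    calc ‖1 - v‖ ≤ ‖(1 : ℂ)‖ + ‖v‖ := norm_sub_le _ _
      _ ≤ 1 + r := by rw [norm_one]; linarith
  have h2 : 1 - r ≤ ‖1 - v‖ := by
    have := norm_sub_norm_le (1 : ℂ) v
    rw [norm_one] at this; linarith
  have h3 : 0 < 1 - r := by linarith
  rw [abs_le']
  constructor
  · exact le_max_of_le_left (Real.log_le_log (by linarith) h1)
  · apply le_max_of_le_right
    have := Real.log_le_log h3 h2
    linarith

lemma measurable_prt (L : ℝ) (u : ℂ) : Measurable (prt L u) := by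
  unfold prt
  have h1 : Measurable (fun x : ℝ => ee L x) := (continuous_ee L).measurable
  have h3 : Measurable (fun x : ℝ => conj (ee L x)) := Complex.continuous_conj.measurable.comp h1
  apply Measurable.add
  · apply Real.measurable_log.comp
    apply Measurable.norm
    exact measurable_const.sub (measurable_const.mul h1)
  · apply Real.measurable_log.comp
    apply Measurable.norm
    exact measurable_const.sub (measurable_const.mul h3)

/-- integral bound for the pair term -/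
lemma LogBdd.prt_bound {m : Measure ℝ} {L K : ℝ} (hL : 1 ≤ L) (h : LogBdd m L K)
    (hm1 : m.real Set.univ ≤ 1) {q : ℝ} (hq0 : 1 / 2 ≤ q) (hq1 : q < 1) {w : ℂ} (hw : 1 ≤ ‖w‖) :
    Integrable (prt L (q / w)) m ∧
    ∫ x, |prt L (q / w) x| ∂m ≤ K + Real.log L + 2 * Real.log 2 := by
  have := h.fin
  have := h.atoms
  have hL0 : 0 < L := by linarith
  have hq : 0 < q := by linarith
  have hlogL : 0 ≤ Real.log L := Real.log_nonneg hL
  have hlog2 : 0 < Real.log 2 := Real.log_pos (by norm_num)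
  set z : ℂ := (L : ℂ) * (2 + w + w⁻¹) with hz
  have hbd : ∀ᵐ x ∂m, |prt L (q / w) x| ≤ nl z x + (Real.log L + 2 * Real.log 2) := by
    have hne : ∀ᵐ x : ℝ ∂m, z ≠ (x : ℂ) := by
      by_cases hzr : ∃ y : ℝ, z = y
      · obtain ⟨y, hy⟩ := hzr
        have : ∀ᵐ x : ℝ ∂m, x ≠ y := by rw [ae_iff]; simp
        filter_upwards [this] with x hx
        rw [hy]; intro h'; exact hx (by exact_mod_cast h'.symm)
      · filter_upwards with x hx
        exact hzr ⟨x, hx⟩
    filter_upwards [h.supp, hne] with x hx hxz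
    have hn := (ee_norm_eq_one hL0 hx.1 hx.2).1
    have hnl : 0 ≤ nl z x := nl_nonneg _ _
    have hnorm : ‖(q : ℂ) / w‖ = q / ‖w‖ := by
      rw [norm_div, Complex.norm_real, Real.norm_of_nonneg hq.le]
    rcases le_or_gt ‖w‖ 2 with h2 | h2
    · have hup : prt L (q / w) x ≤ 2 * Real.log 2 := by
        have key : ∀ v : ℂ, ‖v‖ = 1 → Real.log ‖1 - (q : ℂ) / w * v‖ ≤ Real.log 2 := by
          intro v hv
          have hb : ‖(q : ℂ) / w * v‖ ≤ q := by
            rw [norm_mul, hv, mul_one]; exact norm_u hq hw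
          have h3 : ‖1 - (q : ℂ) / w * v‖ ≤ 2 := by
            calc ‖1 - (q : ℂ) / w * v‖ ≤ ‖(1 : ℂ)‖ + ‖(q : ℂ) / w * v‖ := norm_sub_le _ _
              _ ≤ 2 := by rw [norm_one]; linarith
          have h4 : 0 < ‖1 - (q : ℂ) / w * v‖ := by
            have := norm_sub_norm_le (1 : ℂ) ((q : ℂ) / w * v)
            rw [norm_one] at this; linarith
          exact Real.log_le_log h4 h3
        have k1 := key (ee L x) hn
        have k2 := key (conj (ee L x)) (by rw [Complex.norm_conj, hn])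
        unfold prt; linarith
      have hlo := KK_lower hL0 hq hq1 hw hx hxz
      rw [KK_eq hq hw] at hlo
      have h3 : -Real.log ‖(x : ℂ) - z‖ ≤ nl z x := le_max_right _ _
      have h4 : Real.log ‖w‖ ≤ Real.log 2 := Real.log_le_log (by linarith) h2
      have h5 : -Real.log 2 ≤ Real.log q := by
        have := Real.log_le_log (by norm_num) hq0
        rw [one_div, Real.log_inv] at this; exact this
      have h6 : Real.log q ≤ 0 := Real.log_nonpos hq.le hq1.le
      rw [abs_le]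
      constructor <;> linarith
    · have key : ∀ v : ℂ, ‖v‖ = 1 → |Real.log ‖1 - (q : ℂ) / w * v‖| ≤ Real.log 2 := by
        intro v hv
        have hb : ‖(q : ℂ) / w * v‖ ≤ 1 / 2 := by
          rw [norm_mul, hv, mul_one, hnorm, div_le_iff₀ (by linarith)]
          linarith
        refine (log_norm_one_sub_le hb (by norm_num)).trans (max_le ?_ ?_)
        · exact Real.log_le_log (by norm_num) (by norm_num)
        · rw [show (1 - 1 / 2 : ℝ) = 2⁻¹ by norm_num, Real.log_inv]; simp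
      have k1 := key (ee L x) hn
      have k2 := key (conj (ee L x)) (by rw [Complex.norm_conj, hn])
      unfold prt
      refine (abs_add_le _ _).trans ?_
      linarith
  have hint : Integrable (fun x => nl z x + (Real.log L + 2 * Real.log 2)) m :=
    (h.bdd z).1.add (integrable_const _)
  have hint2 : Integrable (prt L (q / w)) m :=
    Integrable.mono' hint (measurable_prt L _).aestronglyMeasurable hbd
  refine ⟨hint2, ?_⟩
  refine (integral_mono_ae hint2.abs hint hbd).trans ?_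
  rw [integral_add (h.bdd z).1 (integrable_const _), integral_const, smul_eq_mul]
  have := (h.bdd z).2
  nlinarith

/-- perturbed potentials -/
lemma LogBdd.KK_bound {m : Measure ℝ} {L K : ℝ} (hL : 1 ≤ L) (h : LogBdd m L K)
    (hm1 : m.real Set.univ ≤ 1) {q : ℝ} (hq0 : 1 / 2 ≤ q) (hq1 : q < 1) {w : ℂ} (hw : 1 ≤ ‖w‖)
    {f : ℝ → ℝ} (hf : Measurable f) (hf1 : ∀ x, |f x| ≤ 1) (hf0 : ∫ x, f x ∂m = 0) :
    |∫ x, f x * KK L (q / w) x ∂m| ≤ K + Real.log L + 2 * Real.log 2 := by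
  have := h.fin
  obtain ⟨h1, h2⟩ := h.prt_bound hL hm1 hq0 hq1 hw
  have hfi : Integrable f m := by
    have := integrable_bdd_mul hf hf1 (integrable_const (μ := m) (1 : ℝ))
    simpa using this
  have e : (fun x => f x * KK L (q / w) x)
      = fun x => (Real.log L - Real.log q + Real.log ‖w‖) * f x + f x * prt L (q / w) x := by
    ext x; rw [KK_eq (by linarith) hw]; ring
  rw [e, integral_add (hfi.const_mul _) (integrable_bdd_mul hf hf1 h1), integral_const_mul, hf0,
    mul_zero, zero_add]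
  refine (abs_integral_le_integral_abs).trans (le_trans ?_ h2)
  apply integral_mono (integrable_bdd_mul hf hf1 h1).abs h1.abs
  intro x
  simp only
  rw [abs_mul]
  calc |f x| * |prt L (q / w) x| ≤ 1 * |prt L (q / w) x| := by
        gcongr
        exact hf1 x
    _ = _ := one_mul _

/-- the density -/
noncomputable def psi (K0 : Set ℝ) (η : ℝ) (f : ℝ → ℝ) (x : ℝ) : ℝ := 1 + η * K0.indicator f x

/-- the perturbed measure -/
noncomputable def nuM (μ : Measure ℝ) (K0 : Set ℝ) (η : ℝ) (f : ℝ → ℝ) : Measure ℝ :=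
  μ.withDensity (fun x => ENNReal.ofReal (psi K0 η f x))

section nu

variable {μ : Measure ℝ} [IsProbabilityMeasure μ] {K0 : Set ℝ} {η : ℝ} {f : ℝ → ℝ}

lemma psi_bounds (hη0 : 0 ≤ η) (hη1 : η ≤ 1) (hf1 : ∀ x, |f x| ≤ 1) (x : ℝ) :
    0 ≤ psi K0 η f x ∧ psi K0 η f x ≤ 2 := by
  have h : |K0.indicator f x| ≤ 1 := by
    by_cases hx : x ∈ K0
    · rw [Set.indicator_of_mem hx]; exact hf1 x
    · rw [Set.indicator_of_notMem hx]; simp
  have h1 := abs_le.1 h
  unfold psi
  constructor <;> nlinarith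

lemma measurable_psi (hK0 : MeasurableSet K0) (hf : Measurable f) : Measurable (psi K0 η f) := by
  unfold psi
  exact measurable_const.add ((hf.indicator hK0).const_mul η)

omit [IsProbabilityMeasure μ] in
lemma nu_integral (hK0 : MeasurableSet K0) (hf : Measurable f) (hf1 : ∀ x, |f x| ≤ 1)
    (hη0 : 0 ≤ η) (hη1 : η ≤ 1) {g : ℝ → ℝ} (hg : Integrable g μ) :
    Integrable g (nuM μ K0 η f) ∧
    ∫ x, g x ∂(nuM μ K0 η f) = ∫ x, g x ∂μ + η * ∫ x in K0, f x * g x ∂μ := by
  have hψm : Measurable (fun x => ENNReal.ofReal (psi K0 η f x)) :=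
    (measurable_psi hK0 hf).ennreal_ofReal
  have hlt : ∀ᵐ x ∂μ, ENNReal.ofReal (psi K0 η f x) < ⊤ :=
    Filter.Eventually.of_forall fun x => ENNReal.ofReal_lt_top
  have e1 : ∀ x, (ENNReal.ofReal (psi K0 η f x)).toReal • g x
      = g x + η * K0.indicator (fun x => f x * g x) x := by
    intro x
    rw [ENNReal.toReal_ofReal (psi_bounds hη0 hη1 hf1 x).1, smul_eq_mul]
    unfold psi
    by_cases hx : x ∈ K0
    · rw [Set.indicator_of_mem hx, Set.indicator_of_mem hx]; ring
    · rw [Set.indicator_of_notMem hx, Set.indicator_of_notMem hx]; ring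
  have hi : Integrable (fun x => f x * g x) μ := integrable_bdd_mul hf hf1 hg
  unfold nuM
  constructor
  · rw [integrable_withDensity_iff_integrable_smul' hψm hlt]
    simp only [e1]
    exact hg.add ((hi.indicator hK0).const_mul η)
  · rw [integral_withDensity_eq_integral_toReal_smul hψm hlt]
    simp only [e1]
    rw [integral_add hg ((hi.indicator hK0).const_mul η), integral_const_mul,
      integral_indicator hK0]

lemma nu_prob (hK0 : MeasurableSet K0) (hf : Measurable f) (hf1 : ∀ x, |f x| ≤ 1)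
    (hη0 : 0 ≤ η) (hη1 : η ≤ 1) (hf0 : ∫ x in K0, f x ∂μ = 0) :
    IsProbabilityMeasure (nuM μ K0 η f) := by
  constructor
  unfold nuM
  rw [withDensity_apply _ MeasurableSet.univ, Measure.restrict_univ]
  have hfi : Integrable (K0.indicator f) μ := by
    have := integrable_bdd_mul hf hf1 (integrable_const (μ := μ) (1 : ℝ))
    simp only [mul_one] at this
    exact this.indicator hK0
  have hi : Integrable (psi K0 η f) μ := by
    unfold psi
    exact (integrable_const _).add (hfi.const_mul η)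
  rw [← ofReal_integral_eq_lintegral_ofReal hi
    (Filter.Eventually.of_forall fun x => (psi_bounds hη0 hη1 hf1 x).1)]
  have : ∫ x, psi K0 η f x ∂μ = 1 := by
    unfold psi
    rw [integral_add (integrable_const _) (hfi.const_mul η), integral_const_mul,
      integral_indicator hK0, hf0]
    simp
  rw [this]; simp

omit [IsProbabilityMeasure μ] in
lemma nu_ae {p : ℝ → Prop} (h : ∀ᵐ x ∂μ, p x) : ∀ᵐ x ∂(nuM μ K0 η f), p x :=
  (withDensity_absolutelyContinuous μ _).ae_le h

end nu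

/-- the height of `Q` for the smoothed measure is almost nonnegative -/
lemma hh_lower {L : ℝ} (hL : 1 ≤ L) {ν : Measure ℝ} [IsProbabilityMeasure ν]
    (hν : ∀ᵐ x ∂ν, x ∈ Set.Icc 0 (4 * L)) {q : ℝ} (hq0 : 0 < q) (hq1 : q < 1) {Q : ℤ[X]}
    (hQ : Irreducible Q) (hd : Q.natDegree ≠ 0) (hz : ∀ᵐ x : ℝ ∂ν, aeval x Q ≠ 0)
    (hi : Integrable (fun x : ℝ => Real.log |aeval x Q|) ν) :
    ∫ x : ℝ, Real.log |aeval x Q| ∂ν + Q.natDegree * Real.log q ≤ hh L (mom L ν) q Q := by
  have hL0 : 0 < L := by linarith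
  have hu : ∀ α : ℂ, ‖(q : ℂ) / jw L α‖ < 1 := fun α => (norm_u hq0 (jw_norm hL0 α)).trans_lt hq1
  have hint : ∀ α : ℂ, Integrable (KK L (q / jw L α)) ν :=
    fun α => (integral_KK (μ := ν) hL0 hν (hu α)).1
  unfold hh
  have h1 : ∑ α ∈ crt Q, Wf L (mom L ν) q (jw L α)
      = ∫ x, ∑ α ∈ crt Q, KK L (q / jw L α) x ∂ν + Q.natDegree * Real.log q := by
    rw [integral_finsetSum _ (fun α _ => hint α), ← card_crt hQ hd, ← nsmul_eq_mul,
      ← Finset.sum_const, ← Finset.sum_add_distrib]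
    exact Finset.sum_congr rfl fun α _ => Wf_eq hL0 hν hq0 hq1 (jw_norm hL0 α)
  rw [h1]
  have h2 : ∫ x : ℝ, Real.log |aeval x Q| ∂ν
      ≤ ∫ x, (la Q + ∑ α ∈ crt Q, KK L (q / jw L α) x) ∂ν := by
    apply integral_mono_ae hi ((integrable_const _).add (integrable_finsetSum _ fun α _ => hint α))
    filter_upwards [hν, hz] with x hx hxz
    have hnorm : |aeval x Q| = ‖aeval (x : ℂ) Q‖ := by
      have : aeval (x : ℂ) Q = ((aeval x Q : ℝ) : ℂ) := by
        rw [show (x : ℂ) = algebraMap ℝ ℂ x from rfl, aeval_algebraMap_apply]; rfl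
      rw [this, Complex.norm_real, Real.norm_eq_abs]
    have hne : ∀ α ∈ crt Q, (x : ℂ) ≠ α := by
      intro α hα he
      rw [mem_crt hQ.ne_zero] at hα
      rw [← he] at hα
      rw [hα, norm_zero, abs_eq_zero] at hnorm
      exact hxz hnorm
    rw [hnorm, norm_aeval_eq, multiset_map_prod_crt hQ hd]
    have hl0 : |(Q.leadingCoeff : ℝ)| ≠ 0 := by
      rw [abs_ne_zero]; exact_mod_cast leadingCoeff_ne_zero.2 hQ.ne_zero
    rw [Real.log_mul hl0 (Finset.prod_ne_zero_iff.2 fun α hα => by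
      rw [norm_ne_zero_iff, sub_ne_zero]; exact hne α hα), Real.log_prod (fun α hα => by
      rw [norm_ne_zero_iff, sub_ne_zero]; exact hne α hα)]
    unfold la
    apply add_le_add le_rfl
    refine Finset.sum_le_sum fun α hα => ?_
    have := KK_lower hL0 hq0 hq1 (jw_norm hL0 α) hx (by
      rw [jw_spec hL0]; exact (hne α hα).symm)
    rwa [jw_spec hL0] at this
  rw [integral_add (integrable_const _) (integrable_finsetSum _ fun α _ => hint α),
    integral_const] at h2
  simp only [probReal_univ, smul_eq_mul, one_mul] at h2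
  linarith

end Pool.Agent.SSS
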