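import Mathlib
import Pool.Agent.SSS.Meas

/-! Poisson smoothing of a measure on `[0,4L]`. -/

namespace Pool.Agent.SSS

open Complex ComplexConjugate MeasureTheory Metric

/-- Blaschke-type map -/
noncomputable def bl (a ζ : ℂ) : ℂ := (ζ + a) / (1 + conj a * ζ)

lemma bl_den_ne {a ζ : ℂ} (ha : ‖a‖ < 1) (hζ : ‖ζ‖ ≤ 1) : 1 + conj a * ζ ≠ 0 := by
  intro h
  have h1 : conj a * ζ = -1 := by linear_combination h
  have h2 : ‖conj a * ζ‖ = 1 := by rw [h1, norm_neg, norm_one]
  rw [norm_mul, Complex.norm_conj] at h2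
  nlinarith [norm_nonneg a, norm_nonneg ζ]

lemma norm_bl {a ζ : ℂ} (ha : ‖a‖ < 1) (hζ : ‖ζ‖ = 1) : ‖bl a ζ‖ = 1 := by
  have hne := bl_den_ne ha hζ.le
  unfold bl
  rw [norm_div, div_eq_one_iff_eq (norm_ne_zero_iff.2 hne)]
  have h1 : ζ + a = ζ * conj (1 + conj a * ζ) := by
    rw [map_add, map_one, map_mul, Complex.conj_conj, mul_add, mul_one]
    have : ζ * (a * conj ζ) = a * (ζ * conj ζ) := by ring
    rw [this, Complex.mul_conj, Complex.normSq_eq_norm_sq, hζ]; simp
  rw [h1, norm_mul, hζ, one_mul, Complex.norm_conj]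

lemma circleAverage_bl_pow {a : ℂ} (ha : ‖a‖ < 1) (k : ℕ) :
    Real.circleAverage (fun ζ => (bl a ζ) ^ k) 0 1 = a ^ k := by
  have hd : DifferentiableOn ℂ (fun ζ => (bl a ζ) ^ k) (closedBall 0 1) := by
    intro ζ hζ
    rw [mem_closedBall, dist_zero_right] at hζ
    have hne := bl_den_ne ha hζ
    unfold bl
    have : DifferentiableAt ℂ (fun ζ : ℂ => ((ζ + a) / (1 + conj a * ζ)) ^ k) ζ := by
      apply DifferentiableAt.pow
      exact DifferentiableAt.div (by fun_prop) (by fun_prop) hne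
    exact this.differentiableWithinAt
  have hdc : DiffContOnCl ℂ (fun ζ => (bl a ζ) ^ k) (ball (0 : ℂ) |(1 : ℝ)|) := by
    rw [abs_one]
    refine DifferentiableOn.diffContOnCl ?_
    rw [closure_ball _ one_ne_zero]
    exact hd
  have := hdc.circleAverage
  rw [this]
  simp [bl]

/-- the uniform measure on `(0,1]` -/
noncomputable def u01 : Measure ℝ := volume.restrict (Set.Ioc (0 : ℝ) 1)

instance : IsProbabilityMeasure u01 := by
  constructor
  unfold u01
  rw [Measure.restrict_apply_univ, Real.volume_Ioc]; simp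

/-- point of the circle -/
noncomputable def zt (s : ℝ) : ℂ := circleMap 0 1 (2 * Real.pi * s)

lemma norm_zt (s : ℝ) : ‖zt s‖ = 1 := by
  unfold zt; simp

lemma continuous_zt : Continuous zt := by
  unfold zt
  exact (continuous_circleMap 0 1).comp (by fun_prop)

lemma integral_bl_pow {a : ℂ} (ha : ‖a‖ < 1) (k : ℕ) :
    ∫ s, ((bl a (zt s)) ^ k).re ∂u01 = (a ^ k).re := by
  have hc : Continuous (fun s : ℝ => (bl a (zt s)) ^ k) := by
    unfold bl
    apply Continuous.pow
    refine Continuous.div (continuous_zt.add continuous_const)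
      (continuous_const.add (continuous_const.mul continuous_zt)) ?_
    intro s
    exact bl_den_ne ha (norm_zt s).le
  have hi : Integrable (fun s : ℝ => (bl a (zt s)) ^ k) u01 := by
    unfold u01
    exact (hc.integrableOn_Icc (a := (0 : ℝ)) (b := 1)).mono_set Set.Ioc_subset_Icc_self
  have h1 : ∫ s, ((bl a (zt s)) ^ k).re ∂u01 = (∫ s, (bl a (zt s)) ^ k ∂u01).re := by
    exact integral_re hi
  rw [h1]
  congr 1
  rw [← circleAverage_bl_pow ha k, Real.circleAverage_def]
  unfold u01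
  rw [← intervalIntegral.integral_of_le zero_le_one]
  have h2 := intervalIntegral.integral_comp_mul_left (a := (0 : ℝ)) (b := 1)
    (fun θ => (bl a (circleMap 0 1 θ)) ^ k) (c := 2 * Real.pi) (by positivity)
  simp only [mul_zero, mul_one] at h2
  unfold zt
  rw [h2]

/-- the smoothing map -/
noncomputable def Ph (L q : ℝ) (p : ℝ × ℝ) : ℝ := L * (2 + 2 * (bl (q * ee L p.1) (zt p.2)).re)

lemma measurable_bl (L q : ℝ) : Measurable (fun p : ℝ × ℝ => bl (q * ee L p.1) (zt p.2)) := by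
  unfold bl
  have h1 : Measurable (fun p : ℝ × ℝ => (q : ℂ) * ee L p.1) :=
    measurable_const.mul ((continuous_ee L).measurable.comp measurable_fst)
  have h2 : Measurable (fun p : ℝ × ℝ => zt p.2) := continuous_zt.measurable.comp measurable_snd
  exact (h2.add h1).div (measurable_const.add
    ((Complex.continuous_conj.measurable.comp h1).mul h2))

lemma measurable_Ph (L q : ℝ) : Measurable (Ph L q) := by
  unfold Ph
  exact (((Complex.measurable_re.comp (measurable_bl L q)).const_mul 2).const_add 2).const_mul L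

/-- the smoothed measure -/
noncomputable def rho (L q : ℝ) (ν : Measure ℝ) : Measure ℝ := (ν.prod u01).map (Ph L q)

lemma re_pow_of_re_eq {X e : ℂ} (hX : ‖X‖ = 1) (he : ‖e‖ = 1) (h : e.re = X.re) (k : ℕ) :
    (e ^ k).re = (X ^ k).re := by
  have h1 : e.im ^ 2 = X.im ^ 2 := by
    have a1 : ‖X‖ ^ 2 = X.re ^ 2 + X.im ^ 2 := by
      rw [← Complex.normSq_eq_norm_sq, Complex.normSq_apply]; ring
    have a2 : ‖e‖ ^ 2 = e.re ^ 2 + e.im ^ 2 := by
      rw [← Complex.normSq_eq_norm_sq, Complex.normSq_apply]; ring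
    rw [hX] at a1; rw [he, h] at a2; linarith
  rcases sq_eq_sq_iff_eq_or_eq_neg.1 h1 with h2 | h2
  · have : e = X := Complex.ext h h2
    rw [this]
  · have : e = conj X := Complex.ext (by simpa using h) (by simpa using h2)
    rw [this, ← map_pow, Complex.conj_re]

section

variable {L q : ℝ} {ν : Measure ℝ} [IsProbabilityMeasure ν]

instance : IsProbabilityMeasure (rho L q ν) :=
  Measure.isProbabilityMeasure_map (measurable_Ph L q).aemeasurable

lemma norm_qe (hL : 0 < L) (hq0 : 0 < q) (hq1 : q < 1) {x : ℝ} (hx : x ∈ Set.Icc 0 (4 * L)) :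
    ‖(q : ℂ) * ee L x‖ < 1 := by
  rw [norm_mul, (ee_norm_eq_one hL hx.1 hx.2).1, Complex.norm_real, Real.norm_of_nonneg hq0.le]
  linarith

omit [IsProbabilityMeasure ν] in
lemma rho_supp (hL : 0 < L) (hν : ∀ᵐ x ∂ν, x ∈ Set.Icc 0 (4 * L)) (hq0 : 0 < q) (hq1 : q < 1) :
    ∀ᵐ y ∂(rho L q ν), y ∈ Set.Icc 0 (4 * L) := by
  unfold rho
  refine (ae_map_iff (measurable_Ph L q).aemeasurable (p := fun y => y ∈ Set.Icc 0 (4 * L))
    measurableSet_Icc).2 ?_
  have h1 : ∀ᵐ p : ℝ × ℝ ∂(ν.prod u01), p.1 ∈ Set.Icc 0 (4 * L) :=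
    Measure.quasiMeasurePreserving_fst.ae hν
  filter_upwards [h1] with p hp
  have hX := norm_bl (norm_qe hL hq0 hq1 hp) (norm_zt p.2)
  have h2 := abs_le.1 ((Complex.abs_re_le_norm (bl (q * ee L p.1) (zt p.2))).trans hX.le)
  unfold Ph
  constructor
  · exact mul_nonneg hL.le (by linarith [h2.1])
  · nlinarith [h2.2]

lemma mom_rho (hL : 0 < L) (hν : ∀ᵐ x ∂ν, x ∈ Set.Icc 0 (4 * L)) (hq0 : 0 < q) (hq1 : q < 1)
    (k : ℕ) : mom L (rho L q ν) k = q ^ k * mom L ν k := by
  unfold mom rho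
  have hcont : Continuous (fun x : ℝ => ((ee L x) ^ k).re) :=
    Complex.continuous_re.comp ((continuous_ee L).pow k)
  rw [integral_map (measurable_Ph L q).aemeasurable hcont.aestronglyMeasurable]
  have h1 : ∀ᵐ p : ℝ × ℝ ∂(ν.prod u01), p.1 ∈ Set.Icc 0 (4 * L) :=
    Measure.quasiMeasurePreserving_fst.ae hν
  have h2 : ∀ᵐ p : ℝ × ℝ ∂(ν.prod u01),
      ((ee L (Ph L q p)) ^ k).re = ((bl (q * ee L p.1) (zt p.2)) ^ k).re := by
    filter_upwards [h1] with p hp
    have hX := norm_bl (norm_qe hL hq0 hq1 hp) (norm_zt p.2)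
    have h3 := abs_le.1 ((Complex.abs_re_le_norm (bl (q * ee L p.1) (zt p.2))).trans hX.le)
    have hP : Ph L q p ∈ Set.Icc 0 (4 * L) := by
      unfold Ph
      constructor
      · exact mul_nonneg hL.le (by linarith [h3.1])
      · nlinarith [h3.2]
    obtain ⟨h4, h5⟩ := ee_norm_eq_one hL hP.1 hP.2
    apply re_pow_of_re_eq hX h4
    have h6 : Ph L q p = L * (2 + 2 * (bl (q * ee L p.1) (zt p.2)).re) := rfl
    rw [h6] at h5
    have h7 := mul_left_cancel₀ hL.ne' h5
    rw [← h6] at h7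
    linarith
  rw [integral_congr_ae h2]
  have hmeas : Measurable (fun p : ℝ × ℝ => ((bl (q * ee L p.1) (zt p.2)) ^ k).re) :=
    Complex.measurable_re.comp ((measurable_bl L q).pow_const k)
  have hint : Integrable (fun p : ℝ × ℝ => ((bl (q * ee L p.1) (zt p.2)) ^ k).re) (ν.prod u01) := by
    refine Integrable.of_bound hmeas.aestronglyMeasurable 1 ?_
    filter_upwards [h1] with p hp
    have hX := norm_bl (norm_qe hL hq0 hq1 hp) (norm_zt p.2)
    rw [Real.norm_eq_abs]
    refine (Complex.abs_re_le_norm _).trans ?_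
    rw [norm_pow, hX, one_pow]
  rw [integral_prod _ hint, ← integral_const_mul]
  apply integral_congr_ae
  filter_upwards [hν] with x hx
  rw [integral_bl_pow (norm_qe hL hq0 hq1 hx), mul_pow, ← Complex.ofReal_pow, Complex.re_ofReal_mul]

end

end Pool.Agent.SSS
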