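import Mathlib
import Pool.Agent.SSS.Poisson
import Pool.Agent.SSS.Cheb
import Pool.Agent.SSS.Nu

/-! Discretisation of the smoothed measure by equilibrium measures of small cells. -/

namespace Pool.Agent.SSS

open Complex ComplexConjugate MeasureTheory Metric Filter Topology

lemma abs_Om_le {c : ℕ → ℝ} (hc : ∀ k, |c k| ≤ 1) {u : ℂ} {q : ℝ} (hu : ‖u‖ ≤ q) (hq : q < 1) :
    |Om c u| ≤ 2 / (1 - q) := by
  have hq0 : 0 ≤ q := (norm_nonneg _).trans hu
  have hg : HasSum (fun k : ℕ => 2 * q ^ k) (2 * (1 - q)⁻¹) :=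
    (hasSum_geometric_of_lt_one hq0 hq).mul_left _
  unfold Om
  rw [← Real.norm_eq_abs, div_eq_mul_inv]
  apply tsum_of_norm_bounded hg
  intro k
  rw [Real.norm_eq_abs, abs_mul, abs_mul, abs_of_nonneg (two_div_nat_nonneg k)]
  have h1 := two_div_nat_le k
  have h2 : |(u ^ k).re| ≤ q ^ k := (abs_re_pow_le _ k).trans (by gcongr)
  calc (2 / (k : ℝ)) * (|c k| * |(u ^ k).re|) ≤ 2 * (1 * q ^ k) := by
        gcongr
        exact hc k
    _ = 2 * q ^ k := by ring

/-- the kernel at an exterior point equals the logarithmic distance -/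
lemma KK_eq_log {L : ℝ} (hL : 0 < L) {w : ℂ} (hw : 1 < ‖w‖)
    {x : ℝ} (hx : x ∈ Set.Icc 0 (4 * L)) :
    (L : ℂ) * (2 + w + w⁻¹) ≠ x ∧
    KK L w⁻¹ x = Real.log ‖(x : ℂ) - (L : ℂ) * (2 + w + w⁻¹)‖ := by
  obtain ⟨-, hxe⟩ := ee_spec hL hx.1
  have hn := (ee_norm_eq_one hL hx.1 hx.2).1
  set e := ee L x with he
  have e0 : e ≠ 0 := norm_ne_zero_iff.1 (by rw [hn]; norm_num)
  have w0 : w ≠ 0 := norm_ne_zero_iff.1 (by linarith)
  have hwp : 0 < ‖w‖ := by linarith
  have ec : conj e = e⁻¹ := by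
    rw [Complex.inv_def, Complex.normSq_eq_norm_sq, hn]; simp
  have hwi : ‖w⁻¹‖ < 1 := by rw [norm_inv]; exact inv_lt_one_of_one_lt₀ hw
  have n1 : ‖w⁻¹ * e‖ < 1 := by rw [norm_mul, hn, mul_one]; exact hwi
  have n2 : ‖w⁻¹ * conj e‖ < 1 := by rw [norm_mul, Complex.norm_conj, hn, mul_one]; exact hwi
  have p1 : ‖1 - w⁻¹ * e‖ ≠ 0 := by
    intro h
    rw [norm_eq_zero, sub_eq_zero] at h
    rw [← h, norm_one] at n1; linarith
  have p2 : ‖1 - w⁻¹ * conj e‖ ≠ 0 := by
    intro h
    rw [norm_eq_zero, sub_eq_zero] at h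
    rw [← h, norm_one] at n2; linarith
  have h1 : ‖(x : ℂ) - (L : ℂ) * (2 + w + w⁻¹)‖
      = L * ‖w‖ * ‖1 - w⁻¹ * e‖ * ‖1 - w⁻¹ * conj e‖ := by
    rw [norm_sub_rev, hxe, jouk_sub w0 e0, norm_mul, norm_mul, Complex.norm_real,
      Real.norm_of_nonneg hL.le]
    have a1 : ‖w - e‖ = ‖w‖ * ‖1 - w⁻¹ * e‖ := by
      rw [← norm_mul]; congr 1; field_simp
    have a2 : 1 - (w * e)⁻¹ = 1 - w⁻¹ * conj e := by rw [ec, mul_inv]
    rw [a1, a2]; ring
  constructor
  · intro h
    rw [← h, sub_self, norm_zero] at h1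
    have : 0 < L * ‖w‖ * ‖1 - w⁻¹ * e‖ * ‖1 - w⁻¹ * conj e‖ := by positivity
    linarith
  · rw [h1, Real.log_mul (by positivity) p2, Real.log_mul (by positivity) p1,
      Real.log_mul hL.ne' hwp.ne']
    unfold KK
    rw [← he, norm_inv, Real.log_inv]
    ring

section

variable {L q : ℝ} {ν : Measure ℝ} [IsProbabilityMeasure ν]

/-- potential of the smoothed measure off the interval -/
lemma integral_log_rho (hL : 0 < L) (hν : ∀ᵐ x ∂ν, x ∈ Set.Icc 0 (4 * L)) (hq0 : 0 < q)
    (hq1 : q < 1) {w : ℂ} (hw : 1 < ‖w‖) :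
    Integrable (fun x : ℝ => Real.log ‖(x : ℂ) - (L : ℂ) * (2 + w + w⁻¹)‖) (rho L q ν) ∧
    ∫ x : ℝ, Real.log ‖(x : ℂ) - (L : ℂ) * (2 + w + w⁻¹)‖ ∂(rho L q ν)
      = Wf L (mom L ν) q w := by
  have hs := rho_supp (L := L) (q := q) hL hν hq0 hq1
  have hwi : ‖w⁻¹‖ < 1 := by rw [norm_inv]; exact inv_lt_one_of_one_lt₀ hw
  have h := integral_KK (μ := rho L q ν) hL hs hwi
  have hae : KK L w⁻¹ =ᵐ[rho L q ν]
      fun x : ℝ => Real.log ‖(x : ℂ) - (L : ℂ) * (2 + w + w⁻¹)‖ := by
    filter_upwards [hs] with x hx using (KK_eq_log hL hw hx).2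
  refine ⟨h.1.congr hae, ?_⟩
  rw [← integral_congr_ae hae, h.2, norm_inv, Real.log_inv]
  unfold Wf
  have : Om (mom L (rho L q ν)) w⁻¹ = Om (mom L ν) (q / w) := by
    unfold Om
    congr 1
    ext k
    have hdiv : (q : ℂ) / w = q * w⁻¹ := div_eq_mul_inv _ _
    rw [mom_rho hL hν hq0 hq1, hdiv, mul_pow, ← Complex.ofReal_pow,
      Complex.re_ofReal_mul]
    ring
  rw [this]; ring

lemma integral_id_rho (hL : 0 < L) (hν : ∀ᵐ x ∂ν, x ∈ Set.Icc 0 (4 * L)) (hq0 : 0 < q)
    (hq1 : q < 1) : ∫ x, x ∂(rho L q ν) = L * (2 + 2 * (q * mom L ν 1)) := by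
  have hs := rho_supp (L := L) (q := q) hL hν hq0 hq1
  have hae : (fun x : ℝ => x) =ᵐ[rho L q ν] fun x => L * (2 + 2 * ((ee L x) ^ 1).re) := by
    filter_upwards [hs] with x hx
    rw [pow_one]
    exact (ee_norm_eq_one hL hx.1 hx.2).2
  have h1 := mom_rho (L := L) (q := q) hL hν hq0 hq1 1
  rw [pow_one] at h1
  rw [integral_congr_ae hae, integral_const_mul, integral_add (integrable_const _)
    ((integrable_re_pow hL hs 1).const_mul 2), integral_const_mul, ← h1]
  simp [mom]

end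

/-- near/far comparison of the distance with the cell potential -/
lemma cell_pointwise {c r : ℝ} (hr : 0 < r) {x : ℝ} (hx : |x - c| ≤ 2 * r) {z : ℂ}
    (hz : z ≠ x) {D ε : ℝ} (hε : 0 < ε) (hrD : r * (3 + 6 / ε) ≤ D) :
    Real.log ‖(x : ℂ) - z‖ ≤ UU c r z + (Real.log 4 * (if ‖(x : ℂ) - z‖ < D then 1 else 0) + ε / 2) := by
  have hw := wj_norm (c := c) hr z
  have hspec := wj_spec (c := c) hr z
  set w := wj c r z with hwdef
  have hwp : 0 < ‖w‖ := by linarith
  have hpos : 0 < ‖(x : ℂ) - z‖ := by rw [norm_pos_iff, sub_ne_zero]; exact hz.symm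
  have h1 : ‖w‖⁻¹ ≤ 1 := inv_le_one_of_one_le₀ hw
  have hzc : ‖z - c‖ ≤ r * (‖w‖ + 1) := by
    have : z - c = r * (w + w⁻¹) := by rw [← hspec]; ring
    rw [this, norm_mul, Complex.norm_real, Real.norm_of_nonneg hr.le]
    apply mul_le_mul_of_nonneg_left _ hr.le
    refine (norm_add_le _ _).trans ?_
    rw [norm_inv]; linarith
  have hxc : ‖(x : ℂ) - c‖ ≤ 2 * r := by
    rw [← Complex.ofReal_sub, Complex.norm_real, Real.norm_eq_abs]; exact hx
  have hxz : ‖(x : ℂ) - z‖ ≤ r * (‖w‖ + 3) := by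
    calc ‖(x : ℂ) - z‖ = ‖((x : ℂ) - c) - (z - c)‖ := by ring_nf
      _ ≤ ‖(x : ℂ) - c‖ + ‖z - c‖ := norm_sub_le _ _
      _ ≤ r * (‖w‖ + 3) := by linarith
  have hlog : Real.log ‖(x : ℂ) - z‖ ≤ UU c r z + Real.log (1 + 3 / ‖w‖) := by
    have h2 := Real.log_le_log hpos hxz
    have h3 : r * (‖w‖ + 3) = r * ‖w‖ * (1 + 3 / ‖w‖) := by field_simp
    rw [h3, Real.log_mul (by positivity) (by positivity), Real.log_mul hr.ne' hwp.ne'] at h2
    unfold UU
    rw [← hwdef]
    linarith
  split_ifs with hnear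
  · have h4 : Real.log (1 + 3 / ‖w‖) ≤ Real.log 4 := by
      apply Real.log_le_log (by positivity)
      have : 3 / ‖w‖ ≤ 3 := by rw [div_le_iff₀ hwp]; linarith
      linarith
    linarith
  · push Not at hnear
    have h5 : Real.log (1 + 3 / ‖w‖) ≤ 3 / ‖w‖ := by
      have := Real.log_le_sub_one_of_pos (show 0 < 1 + 3 / ‖w‖ by positivity)
      linarith
    have h6 : 3 + 6 / ε ≤ ‖w‖ + 3 := by
      have := hrD.trans (hnear.trans hxz)
      exact le_of_mul_le_mul_left this hr
    have h7 : 3 / ‖w‖ ≤ ε / 2 := by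
      rw [div_le_iff₀ hwp]
      have h8 : 6 / ε ≤ ‖w‖ := by linarith
      rw [div_le_iff₀ hε] at h8
      linarith
    linarith

section

variable {L q : ℝ} {ν : Measure ℝ} [IsProbabilityMeasure ν]

/-- concentration bound for the smoothed measure -/
lemma rho_near (hL : 1 ≤ L) (hν : ∀ᵐ x ∂ν, x ∈ Set.Icc 0 (4 * L)) (hq0 : 0 < q)
    (hq1 : q < 1) {w : ℂ} (hw : 1 < ‖w‖) {M : ℝ} (hM : 0 < M) :
    (rho L q ν).real {x : ℝ | ‖(x : ℂ) - (L : ℂ) * (2 + w + w⁻¹)‖ < Real.exp (-M)}
      ≤ (Real.log (4 * L + 1) + 2 / (1 - q)) / M := by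
  have hL0 : 0 < L := by linarith
  have hs := rho_supp (L := L) (q := q) hL0 hν hq0 hq1
  set z : ℂ := (L : ℂ) * (2 + w + w⁻¹) with hz
  set A : Set ℝ := {x : ℝ | ‖(x : ℂ) - z‖ < Real.exp (-M)} with hA
  have hAm : MeasurableSet A :=
    measurableSet_lt ((Complex.measurable_ofReal.sub_const z).norm) measurable_const
  set B := Real.log (4 * L + 1) with hB
  have hB0 : 0 ≤ B := Real.log_nonneg (by linarith)
  have hq2 : 0 < 2 / (1 - q) := by
    have : 0 < 1 - q := by linarith
    positivity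
  rw [le_div_iff₀ hM]
  by_cases hne : ∃ x1 ∈ Set.Icc 0 (4 * L), x1 ∈ A
  · obtain ⟨x1, hx1, hx1A⟩ := hne
    obtain ⟨hint, hval⟩ := integral_log_rho (L := L) (q := q) hL0 hν hq0 hq1 hw
    rw [← hz] at hint hval
    have hW : -(2 / (1 - q)) ≤ Wf L (mom L ν) q w := by
      have h1 := abs_Om_le (abs_mom_le hL0 hν) (norm_u hq0 hw.le) hq1
      have h2 := abs_le.1 h1
      unfold Wf
      have h3 : 0 ≤ Real.log L := Real.log_nonneg hL
      have h4 : 0 ≤ Real.log ‖w‖ := Real.log_nonneg hw.le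
      linarith [h2.2]
    have hup : ∫ x : ℝ, Real.log ‖(x : ℂ) - z‖ ∂(rho L q ν)
        ≤ ∫ x : ℝ, (B - (B + M) * A.indicator (fun _ => (1 : ℝ)) x) ∂(rho L q ν) := by
      apply integral_mono_ae hint
      · exact (integrable_const _).sub (((integrable_const (1 : ℝ)).indicator hAm).const_mul _)
      filter_upwards [hs] with x hx
      have hpos : 0 < ‖(x : ℂ) - z‖ := by
        rw [norm_pos_iff, sub_ne_zero]
        exact (KK_eq_log hL0 hw hx).1.symm
      by_cases hxA : x ∈ A
      · rw [Set.indicator_of_mem hxA]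
        have h5 : Real.log ‖(x : ℂ) - z‖ ≤ -M := by
          have := Real.log_le_log hpos (le_of_lt (show ‖(x : ℂ) - z‖ < Real.exp (-M) from hxA))
          rwa [Real.log_exp] at this
        linarith
      · rw [Set.indicator_of_notMem hxA]
        have h6 : ‖(x : ℂ) - z‖ ≤ 4 * L + 1 := by
          have h7 : ‖(x1 : ℂ) - z‖ < Real.exp (-M) := hx1A
          have h8 : Real.exp (-M) ≤ 1 := by rw [Real.exp_le_one_iff]; linarith
          have h9 : ‖(x : ℂ) - x1‖ ≤ 4 * L := by
            rw [← Complex.ofReal_sub, Complex.norm_real, Real.norm_eq_abs, abs_le]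
            constructor <;> linarith [hx.1, hx.2, hx1.1, hx1.2]
          calc ‖(x : ℂ) - z‖ = ‖((x : ℂ) - x1) + ((x1 : ℂ) - z)‖ := by ring_nf
            _ ≤ ‖(x : ℂ) - x1‖ + ‖(x1 : ℂ) - z‖ := norm_add_le _ _
            _ ≤ 4 * L + 1 := by linarith
        have := Real.log_le_log hpos h6
        linarith
    rw [hval, integral_sub (integrable_const _)
      (((integrable_const (1 : ℝ)).indicator hAm).const_mul _), integral_const_mul,
      integral_indicator hAm, setIntegral_const, integral_const] at hup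
    simp only [probReal_univ, smul_eq_mul, one_mul, mul_one] at hup
    have h10 : 0 ≤ (rho L q ν).real A := measureReal_nonneg
    nlinarith
  · push Not at hne
    have : (rho L q ν).real A = 0 := by
      rw [measureReal_def]
      have h0 : rho L q ν A = 0 := by
        rw [ae_iff] at hs
        refine measure_mono_null ?_ hs
        intro x hx hx2
        exact hne x hx2 hx
      rw [h0]; simp
    rw [this, zero_mul]
    linarith

end

theorem exists_cells {L q : ℝ} (hL : 1 ≤ L) {ν : Measure ℝ} [IsProbabilityMeasure ν]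
    (hν : ∀ᵐ x ∂ν, x ∈ Set.Icc 0 (4 * L)) (hq0 : 0 < q) (hq1 : q < 1) {ε : ℝ} (hε : 0 < ε) :
    ∃ (N : ℕ) (p : ℕ → ℝ), 0 < N ∧ 4 * L / N ≤ 1 ∧ (∀ l, 0 ≤ p l) ∧
      ∑ l ∈ Finset.range (N + 1), p l = 1 ∧
      (∀ w : ℂ, 1 ≤ ‖w‖ → Wf L (mom L ν) q w - ε ≤ ∑ l ∈ Finset.range (N + 1),
        p l * UU ((l + 1 / 2) * (4 * L / N)) (L / N) ((L : ℂ) * (2 + w + w⁻¹))) ∧
      ∑ l ∈ Finset.range (N + 1), p l * ((l + 1) * (4 * L / N))
        ≤ L * (2 + 2 * (q * mom L ν 1)) + ε := by
  have hL0 : 0 < L := by linarith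
  have hs := rho_supp (L := L) (q := q) hL0 hν hq0 hq1
  set ρ := rho L q ν with hρ
  have h1q : 0 < 1 - q := by linarith
  set Bq := Real.log (4 * L + 1) + 2 / (1 - q) with hBq
  have hBq0 : 0 < Bq := by
    have : 0 ≤ Real.log (4 * L + 1) := Real.log_nonneg (by linarith)
    positivity
  have hlog4 : 0 < Real.log 4 := Real.log_pos (by norm_num)
  set M := Real.log 4 * Bq * (2 / ε) with hM
  have hM0 : 0 < M := by positivity
  have hMε : Real.log 4 * (Bq / M) = ε / 2 := by rw [hM]; field_simp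
  set D := Real.exp (-M) with hD
  have hD0 : 0 < D := Real.exp_pos _
  obtain ⟨N, hN⟩ := exists_nat_gt (max (4 * L) (max (4 * L / ε) (L * (3 + 6 / ε) / D)))
  have hN1 : 4 * L < N := (le_max_left _ _).trans_lt hN
  have hN2 : 4 * L / ε < N := ((le_max_left _ _).trans (le_max_right _ _)).trans_lt hN
  have hN3 : L * (3 + 6 / ε) / D < N := ((le_max_right _ _).trans (le_max_right _ _)).trans_lt hN
  have hN0 : (0 : ℝ) < N := by linarith
  set h' := 4 * L / N with hh'
  set r := L / N with hr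
  have hh4 : h' = 4 * r := by rw [hh', hr]; ring
  have hr0 : 0 < r := by positivity
  have hh0 : 0 < h' := by positivity
  have hh1 : h' ≤ 1 := by rw [hh', div_le_one hN0]; linarith
  have hhε : h' ≤ ε := by
    rw [hh', div_le_iff₀ hN0]
    rw [div_lt_iff₀ hε] at hN2; linarith
  have hrD : r * (3 + 6 / ε) ≤ D := by
    rw [hr, div_mul_eq_mul_div, div_le_iff₀ hN0]
    rw [div_lt_iff₀ hD0] at hN3; linarith
  set lam : ℝ → ℕ := fun x => ⌊x / h'⌋₊ with hlam
  have hlamm : Measurable lam := Nat.measurable_floor.comp (measurable_id.div_const h')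
  set p : ℕ → ℝ := fun l => ρ.real {x | lam x = l} with hp
  have hlm : ∀ l, MeasurableSet {x | lam x = l} := fun l => hlamm (measurableSet_singleton l)
  have hlam_lt : ∀ x ∈ Set.Icc 0 (4 * L), lam x ∈ Finset.range (N + 1) := by
    intro x hx
    rw [Finset.mem_range, Nat.lt_succ_iff]
    apply Nat.floor_le_of_le
    rw [div_le_iff₀ hh0, hh']
    have : (N : ℝ) * (4 * L / N) = 4 * L := by field_simp
    rw [this]; exact hx.2
  -- integration over the cells
  have hsum : ∀ φ : ℕ → ℝ, ∑ l ∈ Finset.range (N + 1), p l * φ l = ∫ x, φ (lam x) ∂ρ := by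
    intro φ
    have hae : (fun x => φ (lam x)) =ᵐ[ρ] fun x => ∑ l ∈ Finset.range (N + 1),
        φ l * ({x | lam x = l} : Set ℝ).indicator (fun _ => (1 : ℝ)) x := by
      filter_upwards [hs] with x hx
      rw [Finset.sum_eq_single (lam x)]
      · rw [Set.indicator_of_mem (by simp)]; ring
      · intro l _ hl
        rw [Set.indicator_of_notMem]; · ring
        intro h; exact hl h.symm
      · intro h; exact absurd (hlam_lt x hx) h
    rw [integral_congr_ae hae, integral_finsetSum _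
      (fun l _ => ((integrable_const (1 : ℝ)).indicator (hlm l)).const_mul _)]
    refine Finset.sum_congr rfl fun l _ => ?_
    rw [integral_const_mul, integral_indicator (hlm l), setIntegral_const]
    simp only [smul_eq_mul, mul_one, hp]; ring
  have hintφ : ∀ φ : ℕ → ℝ, Integrable (fun x => φ (lam x)) ρ := by
    intro φ
    have hae : (fun x => φ (lam x)) =ᵐ[ρ] fun x => ∑ l ∈ Finset.range (N + 1),
        φ l * ({x | lam x = l} : Set ℝ).indicator (fun _ => (1 : ℝ)) x := by
      filter_upwards [hs] with x hx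
      rw [Finset.sum_eq_single (lam x)]
      · rw [Set.indicator_of_mem (by simp)]; ring
      · intro l _ hl
        rw [Set.indicator_of_notMem]; · ring
        intro h; exact hl h.symm
      · intro h; exact absurd (hlam_lt x hx) h
    exact (integrable_finsetSum _
      (fun l _ => ((integrable_const (1 : ℝ)).indicator (hlm l)).const_mul _)).congr hae.symm
  have hcell : ∀ x, 0 ≤ x → (lam x : ℝ) * h' ≤ x ∧ x ≤ ((lam x : ℝ) + 1) * h' := by
    intro x hx
    have h1 := Nat.floor_le (div_nonneg hx hh0.le)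
    have h2 := Nat.lt_floor_add_one (x / h')
    rw [le_div_iff₀ hh0] at h1
    rw [div_lt_iff₀ hh0] at h2
    exact ⟨h1, h2.le⟩
  -- the potential inequality off the circle
  have hmain : ∀ w : ℂ, 1 < ‖w‖ → Wf L (mom L ν) q w - ε ≤ ∑ l ∈ Finset.range (N + 1),
        p l * UU ((l + 1 / 2) * h') r ((L : ℂ) * (2 + w + w⁻¹)) := by
    intro w hw
    set z : ℂ := (L : ℂ) * (2 + w + w⁻¹) with hz
    obtain ⟨hint, hval⟩ := integral_log_rho (L := L) (q := q) hL0 hν hq0 hq1 hw
    rw [← hz] at hint hval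
    rw [hsum (fun l => UU ((l + 1 / 2) * h') r z)]
    set A : Set ℝ := {x : ℝ | ‖(x : ℂ) - z‖ < D} with hA
    have hAm : MeasurableSet A :=
      measurableSet_lt ((Complex.measurable_ofReal.sub_const z).norm) measurable_const
    have i1 : Integrable (fun x : ℝ => UU ((lam x + 1 / 2) * h') r z) ρ :=
      hintφ (fun l => UU ((l + 1 / 2) * h') r z)
    have i2 : Integrable (fun x : ℝ => Real.log 4 * A.indicator (fun _ => (1 : ℝ)) x) ρ :=
      ((integrable_const (1 : ℝ)).indicator hAm).const_mul _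
    have i3 : Integrable (fun x : ℝ => Real.log 4 * A.indicator (fun _ => (1 : ℝ)) x + ε / 2) ρ :=
      i2.add (integrable_const _)
    have hle : ∫ x : ℝ, Real.log ‖(x : ℂ) - z‖ ∂ρ
        ≤ ∫ x : ℝ, (UU ((lam x + 1 / 2) * h') r z
          + (Real.log 4 * A.indicator (fun _ => (1 : ℝ)) x + ε / 2)) ∂ρ := by
      apply integral_mono_ae hint (i1.add i3)
      filter_upwards [hs] with x hx
      have hzx := (KK_eq_log hL0 hw hx).1
      have hc := hcell x hx.1
      have h1 : |x - (lam x + 1 / 2) * h'| ≤ 2 * r := by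
        rw [abs_le, hh4] at *
        constructor <;> nlinarith [hc.1, hc.2]
      have h2 := cell_pointwise hr0 h1 hzx hε hrD
      refine h2.trans (le_of_eq ?_)
      congr 2
    rw [hval, integral_add i1 i3, integral_add i2 (integrable_const _),
      integral_const_mul, integral_indicator hAm, setIntegral_const, integral_const] at hle
    simp only [probReal_univ, smul_eq_mul, one_mul, mul_one] at hle
    have hnear := rho_near (L := L) (q := q) hL hν hq0 hq1 hw hM0
    have h3 : Real.log 4 * ρ.real A ≤ ε / 2 := by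
      rw [← hMε]
      exact mul_le_mul_of_nonneg_left hnear hlog4.le
    linarith
  refine ⟨N, p, by exact_mod_cast hN0, hh1, fun l => measureReal_nonneg, ?_, ?_, ?_⟩
  · have := hsum (fun _ => 1)
    simpa using this
  · intro w hw
    rcases lt_or_eq_of_le hw with hlt | heq
    · exact hmain w hlt
    · have w0 : w ≠ 0 := norm_ne_zero_iff.1 (by rw [← heq]; norm_num)
      set t : ℕ → ℝ := fun n => 1 + 1 / ((n : ℝ) + 1) with ht
      have ht1 : ∀ n, 1 < t n := by
        intro n; simp only [ht]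
        have : (0 : ℝ) < 1 / ((n : ℝ) + 1) := by positivity
        linarith
      have htl : Tendsto t atTop (𝓝 1) := by
        have := (tendsto_const_nhds (x := (1 : ℝ))).add tendsto_one_div_add_atTop_nhds_zero_nat
        simpa [ht] using this
      have hineq : ∀ n, Wf L (mom L ν) q w - ε ≤ ∑ l ∈ Finset.range (N + 1),
          p l * UU ((l + 1 / 2) * h') r ((L : ℂ) * (2 + (t n : ℂ) * w + ((t n : ℂ) * w)⁻¹))
          + 2 * (1 - (t n)⁻¹) / (1 - q) := by
        intro n
        have htn := ht1 n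
        have htp : 0 < t n := by linarith
        have hwn : 1 < ‖(t n : ℂ) * w‖ := by
          rw [norm_mul, ← heq, mul_one, Complex.norm_real, Real.norm_of_nonneg htp.le]; exact htn
        have h1 := hmain _ hwn
        have h2 := Om_sub_le (abs_mom_le hL0 hν) (norm_u hq0 hw) hq1 (t := (t n)⁻¹)
          (by positivity) (inv_le_one_of_one_le₀ htn.le)
        have h3 : (((t n)⁻¹ : ℝ) : ℂ) * ((q : ℂ) / w) = (q : ℂ) / ((t n : ℂ) * w) := by
          push_cast; field_simp
        rw [h3] at h2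
        have h4 := abs_le.1 h2
        have h5 : Wf L (mom L ν) q w ≤ Wf L (mom L ν) q ((t n : ℂ) * w)
            + 2 * (1 - (t n)⁻¹) / (1 - q) := by
          unfold Wf
          rw [← heq, Real.log_one]
          have := Real.log_nonneg hwn.le
          linarith [h4.1]
        linarith
      have hlim : Tendsto (fun n => ∑ l ∈ Finset.range (N + 1),
          p l * UU ((l + 1 / 2) * h') r ((L : ℂ) * (2 + (t n : ℂ) * w + ((t n : ℂ) * w)⁻¹))
          + 2 * (1 - (t n)⁻¹) / (1 - q)) atTop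
          (𝓝 (∑ l ∈ Finset.range (N + 1),
          p l * UU ((l + 1 / 2) * h') r ((L : ℂ) * (2 + w + w⁻¹)) + 0)) := by
        have htc : Tendsto (fun n => ((t n : ℝ) : ℂ) * w) atTop (𝓝 w) := by
          have := ((Complex.continuous_ofReal.tendsto 1).comp htl).mul_const w
          simpa using this
        have hzc : Tendsto (fun n => (L : ℂ) * (2 + (t n : ℂ) * w + ((t n : ℂ) * w)⁻¹)) atTop
            (𝓝 ((L : ℂ) * (2 + w + w⁻¹))) :=
          ((tendsto_const_nhds.add htc).add (htc.inv₀ w0)).const_mul _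
        apply Tendsto.add
        · apply tendsto_finsetSum
          intro l _
          exact (((continuous_UU hr0).tendsto _).comp hzc).const_mul _
        · have h1 := (((tendsto_const_nhds (x := (1 : ℝ))).sub (htl.inv₀ one_ne_zero)).const_mul
            2).div_const (1 - q)
          simpa using h1
      have := ge_of_tendsto' hlim hineq
      rw [add_zero] at this
      exact this
  · rw [hsum (fun l => ((l + 1 : ℝ) * h')), ← integral_id_rho hL0 hν hq0 hq1]
    have hxi : Integrable (fun x : ℝ => x) ρ := by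
      refine Integrable.of_bound measurable_id.aestronglyMeasurable (4 * L) ?_
      filter_upwards [hs] with x hx
      rw [Real.norm_eq_abs, abs_of_nonneg hx.1]; exact hx.2
    calc ∫ x, ((lam x + 1 : ℝ) * h') ∂ρ ≤ ∫ x, (x + h') ∂ρ := by
          apply integral_mono_ae (hintφ (fun l => ((l + 1 : ℝ) * h'))) (hxi.add (integrable_const _))
          filter_upwards [hs] with x hx
          have := (hcell x hx.1).1
          simp only [Pi.add_apply]
          linarith
      _ = ∫ x, x ∂ρ + h' := by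
          rw [integral_add hxi (integrable_const _)]; simp
      _ ≤ _ := by linarith

end Pool.Agent.SSS
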