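import Mathlib
import Pool.Agent.SSS.LemA

/-! Restricting a measure of finite energy to a compact set with bounded potentials. -/

namespace Pool.Agent.SSS

open MeasureTheory Polynomial

variable {μ : Measure ℝ} [IsProbabilityMeasure μ] {L : ℝ}

lemma singleton_null (hd : (μ.prod μ) {p : ℝ × ℝ | p.1 = p.2} = 0) (x : ℝ) : μ {x} = 0 := by
  have h1 : ({x} : Set ℝ) ×ˢ ({x} : Set ℝ) ⊆ {p : ℝ × ℝ | p.1 = p.2} := by
    rintro ⟨a, b⟩ ⟨ha, hb⟩
    simp only [Set.mem_singleton_iff] at ha hb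
    simp [ha, hb]
  have h2 : (μ.prod μ) (({x} : Set ℝ) ×ˢ ({x} : Set ℝ)) = 0 := measure_mono_null h1 hd
  rw [Measure.prod_prod, mul_self_eq_zero] at h2
  exact h2

lemma measurable_nl_prod : Measurable (fun p : ℝ × ℝ => nl p.1 p.2) := by
  unfold nl
  apply Measurable.max measurable_const
  apply Measurable.neg
  apply Real.measurable_log.comp
  apply Measurable.norm
  exact (Complex.measurable_ofReal.comp measurable_snd).sub
    (Complex.measurable_ofReal.comp measurable_fst)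

lemma measurable_nl (β : ℂ) : Measurable (nl β) := by
  unfold nl
  exact Measurable.max measurable_const (measurable_logdist β).neg

theorem exists_logBdd (hμ : ∀ᵐ x ∂μ, x ∈ Set.Icc 0 (4 * L))
    (hd : (μ.prod μ) {p : ℝ × ℝ | p.1 = p.2} = 0)
    (hi : Integrable (fun p : ℝ × ℝ => Real.log |p.1 - p.2|) (μ.prod μ)) :
    ∃ (K0 : Set ℝ) (K : ℝ), MeasurableSet K0 ∧ 0 < μ K0 ∧ LogBdd (μ.restrict K0) L K := by
  set u : ℝ → ENNReal := fun y => ∫⁻ x, ENNReal.ofReal (nl y x) ∂μ with hu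
  have hum : Measurable u :=
    Measurable.lintegral_prod_right' (f := fun p : ℝ × ℝ => ENNReal.ofReal (nl p.1 p.2))
      measurable_nl_prod.ennreal_ofReal
  have hfin : ∫⁻ y, u y ∂μ < ⊤ := by
    have h1 : ∫⁻ y, u y ∂μ = ∫⁻ p : ℝ × ℝ, ENNReal.ofReal (nl p.1 p.2) ∂(μ.prod μ) := by
      rw [lintegral_prod _ measurable_nl_prod.ennreal_ofReal.aemeasurable]
    rw [h1]
    have h2 : Integrable (fun p : ℝ × ℝ => nl p.1 p.2) (μ.prod μ) := by
      refine Integrable.mono' hi.norm measurable_nl_prod.aestronglyMeasurable ?_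
      filter_upwards with p
      rw [Real.norm_eq_abs, abs_of_nonneg (nl_nonneg _ _), Real.norm_eq_abs]
      unfold nl
      rw [← Complex.ofReal_sub, Complex.norm_real, Real.norm_eq_abs, abs_sub_comm]
      exact max_le (abs_nonneg _) (neg_le_abs _)
    exact h2.lintegral_lt_top
  have hae : ∀ᵐ y ∂μ, u y < ⊤ := ae_lt_top hum hfin.ne
  obtain ⟨n, hn⟩ : ∃ n : ℕ, 0 < μ {y | u y ≤ n} := by
    by_contra hcon
    push Not at hcon
    have h1 : μ (⋃ n : ℕ, {y | u y ≤ n}) = 0 :=
      measure_iUnion_null fun n => le_antisymm (hcon n) zero_le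
    have h2 : (Set.univ : Set ℝ) ⊆ (⋃ n : ℕ, {y | u y ≤ n}) ∪ {y | ¬ u y < ⊤} := by
      intro y _
      by_cases h : u y < ⊤
      · left
        rw [Set.mem_iUnion]
        obtain ⟨n, hn⟩ := ENNReal.exists_nat_gt h.ne
        exact ⟨n, hn.le⟩
      · right; exact h
    have h3 : μ Set.univ ≤ 0 := by
      refine (measure_mono h2).trans ((measure_union_le _ _).trans ?_)
      rw [h1, ae_iff.1 hae]; simp
    rw [measure_univ] at h3
    exact absurd h3 (by norm_num)
  have hmeas : MeasurableSet {y | u y ≤ n} := measurableSet_le hum measurable_const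
  obtain ⟨K0, hK0sub, hK0c, hK0pos⟩ := hmeas.exists_lt_isCompact hn
  refine ⟨K0, n + Real.log 2, hK0c.measurableSet, hK0pos, ?_⟩
  have hne : K0.Nonempty := by
    rw [Set.nonempty_iff_ne_empty]
    rintro rfl
    simp at hK0pos
  have hnull := singleton_null hd
  have hlog2 : 0 < Real.log 2 := Real.log_pos (by norm_num)
  have hy0 : ∀ y0 ∈ K0, Integrable (nl y0) μ ∧ ∫ x, nl y0 x ∂μ ≤ n := by
    intro y0 hy0
    have h1 : u y0 ≤ n := hK0sub hy0
    have h2 : Integrable (nl (y0 : ℂ)) μ := by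
      refine ⟨(measurable_nl _).aestronglyMeasurable, ?_⟩
      rw [hasFiniteIntegral_iff_ofReal (Filter.Eventually.of_forall (nl_nonneg _))]
      exact h1.trans_lt (by simp)
    refine ⟨h2, ?_⟩
    rw [integral_eq_lintegral_of_nonneg_ae (Filter.Eventually.of_forall (nl_nonneg _))
      (measurable_nl _).aestronglyMeasurable]
    exact ENNReal.toReal_le_of_le_ofReal (Nat.cast_nonneg n) (by simpa [hu] using h1)
  refine ⟨inferInstance, ⟨fun x => ?_⟩, ae_restrict_of_ae hμ, fun β => ?_⟩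
  · exact le_antisymm ((Measure.restrict_apply_le K0 {x}).trans (hnull x).le) zero_le
  · obtain ⟨y0, hy0K, hmin⟩ := hK0c.exists_isMinOn hne
      (f := fun x : ℝ => ‖(x : ℂ) - β‖) (by fun_prop)
    have hbd : ∀ᵐ x ∂(μ.restrict K0), nl β x ≤ nl y0 x + Real.log 2 := by
      have hne0 : ∀ᵐ x ∂(μ.restrict K0), x ≠ y0 := by
        apply ae_restrict_of_ae
        rw [ae_iff]
        simpa using hnull y0
      filter_upwards [ae_restrict_mem hK0c.measurableSet, hne0] with x hx hxy
      have h1 : ‖(y0 : ℂ) - β‖ ≤ ‖(x : ℂ) - β‖ := hmin hx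
      have h2 : ‖(x : ℂ) - y0‖ ≤ 2 * ‖(x : ℂ) - β‖ := by
        calc ‖(x : ℂ) - y0‖ = ‖((x : ℂ) - β) - ((y0 : ℂ) - β)‖ := by ring_nf
          _ ≤ ‖(x : ℂ) - β‖ + ‖(y0 : ℂ) - β‖ := norm_sub_le _ _
          _ ≤ 2 * ‖(x : ℂ) - β‖ := by linarith
      have h3 : 0 < ‖(x : ℂ) - y0‖ := by
        rw [norm_pos_iff, sub_ne_zero]; exact_mod_cast hxy
      have h4 : 0 < ‖(x : ℂ) - β‖ := by linarith
      have h5 := Real.log_le_log h3 h2
      rw [Real.log_mul (by norm_num) h4.ne'] at h5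
      unfold nl
      apply max_le
      · exact add_nonneg (le_max_left _ _) hlog2.le
      · have : -Real.log ‖(x : ℂ) - y0‖ ≤ max 0 (-Real.log ‖(x : ℂ) - y0‖) := le_max_right _ _
        linarith
    obtain ⟨hi1, hi2⟩ := hy0 y0 hy0K
    have hint : Integrable (fun x => nl (y0 : ℂ) x + Real.log 2) (μ.restrict K0) :=
      hi1.restrict.add (integrable_const _)
    have hint2 : Integrable (nl β) (μ.restrict K0) := by
      refine Integrable.mono' hint (measurable_nl β).aestronglyMeasurable ?_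
      filter_upwards [hbd] with x hx
      rw [Real.norm_eq_abs, abs_of_nonneg (nl_nonneg _ _)]
      exact hx
    refine ⟨hint2, ?_⟩
    refine (integral_mono_ae hint2 hint hbd).trans ?_
    rw [integral_add hi1.restrict (integrable_const _), setIntegral_const, smul_eq_mul]
    have h1 : ∫ x in K0, nl (y0 : ℂ) x ∂μ ≤ ∫ x, nl (y0 : ℂ) x ∂μ :=
      setIntegral_le_integral hi1 (Filter.Eventually.of_forall (nl_nonneg _))
    have h2 : μ.real K0 ≤ 1 := measureReal_le_one
    nlinarith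

end Pool.Agent.SSS
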