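import Mathlib
import Pool.Agent.SSS.Mink
import Pool.Agent.SSS.Resul
import Pool.Agent.SSS.Bad

/-! Integer polynomials with small values at the roots of an irreducible polynomial. -/

namespace Pool.Agent.SSS

open Complex ComplexConjugate Polynomial

lemma minkowski_linear_forms' {ι : Type*} [Fintype ι] [DecidableEq ι] (A : Matrix ι ι ℝ)
    (hA : A.det ≠ 0) (r : ι → ℝ) (hr : ∀ i, 0 < r i) (h : |A.det| < ∏ i, r i) :
    ∃ y : ι → ℤ, y ≠ 0 ∧ ∀ i, |(A.mulVec (fun j => (y j : ℝ))) i| < r i := by
  set e : ι ≃ Fin (Fintype.card ι) := Fintype.equivFin ι with he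
  set A' : Matrix (Fin (Fintype.card ι)) (Fin (Fintype.card ι)) ℝ := Matrix.reindex e e A with hA'
  have hdet : A'.det = A.det := Matrix.det_reindex_self e A
  obtain ⟨y, hy0, hy⟩ := minkowski_linear_forms A' (by rw [hdet]; exact hA)
    (fun i => r (e.symm i)) (fun i => hr _) (by
      rw [hdet]
      rw [← e.prod_comp (fun i => r (e.symm i))]
      simpa using h)
  refine ⟨fun i => y (e i), ?_, ?_⟩
  · intro h0
    apply hy0
    ext i
    have := congrFun h0 (e.symm i)
    simpa using this
  · intro i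
    have := hy (e i)
    simp only [Equiv.symm_apply_apply] at this
    convert this using 2
    simp only [Matrix.mulVec, dotProduct, hA', Matrix.reindex_apply, Matrix.submatrix_apply,
      Equiv.symm_apply_apply]
    rw [← e.sum_comp]
    simp

/-- the real linear form attached to a complex number -/
noncomputable def lf (α : ℂ) (z : ℂ → ℂ) : ℝ := if 0 ≤ α.im then (z α).re else (z (conj α)).im

lemma aeval_conj_real (P : ℝ[X]) (α : ℂ) : aeval (conj α) P = conj (aeval α P) :=
  Polynomial.aeval_conj P α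

lemma aeval_conj_int (P : ℤ[X]) (α : ℂ) : aeval (conj α) P = conj (aeval α P) := by
  have h1 := Polynomial.aeval_conj (P.map (algebraMap ℤ ℝ)) α
  rw [aeval_map_algebraMap, aeval_map_algebraMap] at h1
  exact h1

lemma conj_mem_crt {Q : ℤ[X]} (hQ : Q ≠ 0) {α : ℂ} (h : α ∈ crt Q) : conj α ∈ crt Q := by
  rw [mem_crt hQ] at h ⊢
  rw [aeval_conj_int, h, map_zero]

/-- the forms at all roots determine the values -/
lemma norm_le_of_lf {S : Finset ℂ} (hS : ∀ α ∈ S, conj α ∈ S) {z : ℂ → ℂ}
    (hz : ∀ α, z (conj α) = conj (z α)) {r : ℂ → ℝ} (hr0 : ∀ α ∈ S, 0 ≤ r α)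
    (hr : ∀ α ∈ S, r (conj α) = r α) (h : ∀ α ∈ S, |lf α z| ≤ r α) :
    ∀ α ∈ S, ‖z α‖ ≤ 2 * r α := by
  have key : ∀ α ∈ S, 0 ≤ α.im → ‖z α‖ ≤ 2 * r α := by
    intro α hα him
    have h1 := h α hα
    have e1 : lf α z = (z α).re := by unfold lf; rw [if_pos him]
    rw [e1] at h1
    rcases eq_or_lt_of_le him with h0 | h0
    · have hreal : conj α = α := Complex.ext (by simp) (by simp [← h0])
      have h2 := hz α
      rw [hreal] at h2
      have h3 : (z α).im = 0 := by
        have := congrArg Complex.im h2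
        simp at this; linarith
      have : ‖z α‖ = |(z α).re| := by
        rw [show z α = ((z α).re : ℂ) from Complex.ext (by simp) (by simp [h3]), Complex.norm_real]
        simp
      rw [this]
      linarith [hr0 α hα]
    · have h2 := h (conj α) (hS α hα)
      have h3 : ¬ 0 ≤ (conj α).im := by rw [Complex.conj_im]; linarith
      have e2 : lf (conj α) z = (z α).im := by
        unfold lf; rw [if_neg h3, Complex.conj_conj]
      rw [e2, hr α hα] at h2
      have := Complex.norm_le_abs_re_add_abs_im (z α)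
      linarith
  intro α hα
  rcases le_or_gt 0 α.im with h0 | h0
  · exact key α hα h0
  · have := key (conj α) (hS α hα) (by rw [Complex.conj_im]; linarith)
    rw [hz, Complex.norm_conj, hr α hα] at this
    exact this

lemma lf_sum {ι : Type*} (s : Finset ι) (α : ℂ) (a : ι → ℝ) (k : ι → ℕ) :
    lf α (fun z => ∑ i ∈ s, (a i : ℂ) * z ^ (k i)) = ∑ i ∈ s, a i * lf α (fun z => z ^ (k i)) := by
  unfold lf
  split_ifs
  · rw [Complex.re_sum]
    refine Finset.sum_congr rfl fun i _ => ?_
    rw [Complex.re_ofReal_mul]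
  · rw [Complex.im_sum]
    refine Finset.sum_congr rfl fun i _ => ?_
    rw [Complex.im_ofReal_mul]

theorem exists_small_at_roots {Q : ℤ[X]} (hQ : Irreducible Q) (hd : Q.natDegree ≠ 0) {v : ℂ → ℝ}
    (hv : ∀ α, v (conj α) = v α) (hpos : 0 < la Q + ∑ α ∈ crt Q, v α) :
    ∃ (N : ℕ) (b : ℤ[X]) (c1 : ℝ), 0 < c1 ∧ b.natDegree < N ∧ ¬ Q ∣ b ∧
      ∀ α ∈ crt Q, ‖aeval α b‖ ≤ Real.exp (N * (v α - c1)) := by
  classical
  have hQ0 := hQ.ne_zero
  set n := Q.natDegree with hn
  have hcard := card_crt hQ hd
  have hnpos : 0 < n := Nat.pos_of_ne_zero hd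
  have hn0 : (0 : ℝ) < n := by exact_mod_cast hnpos
  set H := la Q + ∑ α ∈ crt Q, v α with hH
  -- enumeration of the roots
  have e : Fin n ≃ crt Q := (Fintype.equivFinOfCardEq (by simp [hcard, hn])).symm
  -- the small matrix
  set A0 : Matrix (Fin n) (Fin n) ℝ := fun i j => lf (e i) (fun z => z ^ (j : ℕ)) with hA0
  have hdet0 : A0.det ≠ 0 := by
    intro h0
    obtain ⟨y, hy0, hy⟩ := Matrix.exists_mulVec_eq_zero_iff.2 h0
    apply hy0
    set P : ℝ[X] := ∑ j : Fin n, C (y j) * X ^ (j : ℕ) with hP
    have hev : ∀ z : ℂ, aeval z P = ∑ j : Fin n, (y j : ℂ) * z ^ (j : ℕ) := by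
      intro z; simp [hP, map_sum]
    have hroot : ∀ α ∈ crt Q, aeval α P = 0 := by
      have := norm_le_of_lf (S := crt Q) (fun α hα => conj_mem_crt hQ0 hα)
        (z := fun z => aeval z P) (fun α => aeval_conj_real P α) (r := fun _ => 0)
        (fun _ _ => le_rfl) (fun _ _ => rfl) (by
          intro α hα
          have h1 : lf α (fun z => aeval z P) = 0 := by
            have h2 := congrFun hy (e.symm ⟨α, hα⟩)
            simp only [Matrix.mulVec, dotProduct, hA0, Equiv.apply_symm_apply, Pi.zero_apply] at h2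
            have h3 : (fun z => aeval z P) = fun z : ℂ => ∑ j : Fin n, (y j : ℂ) * z ^ (j : ℕ) := by
              ext z; exact hev z
            rw [h3, lf_sum, ← h2]
            refine Finset.sum_congr rfl fun j _ => by ring
          rw [h1]; simp)
      intro α hα
      have := this α hα
      simpa using this
    have hPdeg : (P.map (algebraMap ℝ ℂ)).degree < (crt Q).card := by
      rw [hcard, degree_map]
      rw [hP]
      refine (degree_sum_le _ _).trans_lt ?_
      rw [Finset.sup_lt_iff (by exact_mod_cast WithBot.bot_lt_coe n)]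
      intro j _
      exact (degree_C_mul_X_pow_le _ _).trans_lt (by exact_mod_cast j.2)
    have hPz : P.map (algebraMap ℝ ℂ) = 0 := by
      apply Polynomial.eq_zero_of_degree_lt_of_eval_finset_eq_zero (crt Q) hPdeg
      intro α hα
      rw [eval_map_algebraMap]; exact hroot α hα
    have hP0 : P = 0 := (Polynomial.map_eq_zero _).1 hPz
    ext j
    have : P.coeff j = y j := by
      rw [hP, finsetSum_coeff]
      simp only [coeff_C_mul, coeff_X_pow]
      rw [Finset.sum_eq_single j]
      · simp
      · intro i _ hij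
        rw [if_neg]; · ring
        intro h; exact hij (Fin.ext h.symm)
      · intro h; exact absurd (Finset.mem_univ j) h
    rw [← this, hP0]; simp
  set Δ := |A0.det| with hΔ
  have hΔ0 : 0 < Δ := abs_pos.2 hdet0
  obtain ⟨k, hk⟩ := exists_nat_gt ((n * (la Q + Real.log 2) + Real.log Δ) / (H / 2))
  set c1 := H / (2 * n) with hc1
  have hc10 : 0 < c1 := by positivity
  set N := n + k with hN
  -- big matrix
  set A : Matrix (Fin n ⊕ Fin k) (Fin n ⊕ Fin k) ℝ := Matrix.fromBlocks A0
    (fun i j => lf (e i) (fun z => z ^ (n + (j : ℕ)))) 0 1 with hA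
  have hdetA : A.det = A0.det := by rw [hA, Matrix.det_fromBlocks_zero₂₁, Matrix.det_one, mul_one]
  have hl1 : (1 : ℝ) ≤ |(Q.leadingCoeff : ℝ)| := by
    exact_mod_cast Int.one_le_abs (leadingCoeff_ne_zero.2 hQ0)
  set ra : ℂ → ℝ := fun α => Real.exp (N * (v α - c1)) / 2 with hra
  set rr : Fin n ⊕ Fin k → ℝ := Sum.elim (fun i => ra (e i)) (fun _ => |(Q.leadingCoeff : ℝ)|)
    with hrr
  have hrr0 : ∀ i, 0 < rr i := by
    rintro (i | j)
    · simp only [hrr, hra, Sum.elim_inl]; positivity
    · simp only [hrr, Sum.elim_inr]; linarith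
  have hprod : ∏ i, rr i = Real.exp (N * (∑ α ∈ crt Q, v α) - N * n * c1 - n * Real.log 2
      + k * la Q) := by
    rw [Fintype.prod_sum_type]
    simp only [hrr, Sum.elim_inl, Sum.elim_inr, Finset.prod_const, Finset.card_univ,
      Fintype.card_fin]
    have h1 : ∏ i : Fin n, ra (e i) = ∏ α ∈ crt Q, ra α := by
      rw [← Finset.prod_coe_sort (crt Q) ra]
      exact e.prod_comp (fun α : crt Q => ra α)
    rw [h1]
    have h2 : ∀ α, ra α = Real.exp (N * v α - N * c1 - Real.log 2) := by
      intro α
      simp only [hra]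
      rw [Real.exp_sub _ (Real.log 2), Real.exp_log (by norm_num)]
      congr 2; ring
    simp only [h2]
    rw [← Real.exp_sum]
    have h3 : |(Q.leadingCoeff : ℝ)| = Real.exp (la Q) := by
      unfold la; rw [Real.exp_log (by linarith)]
    rw [h3, ← Real.exp_nat_mul, ← Real.exp_add]
    congr 1
    rw [Finset.sum_sub_distrib, Finset.sum_sub_distrib, Finset.sum_const, Finset.sum_const, hcard,
      ← Finset.mul_sum]
    simp only [nsmul_eq_mul]
    ring
  have hcond : |A.det| < ∏ i, rr i := by
    rw [hdetA, ← hΔ, hprod, ← Real.exp_log hΔ0]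
    apply Real.exp_lt_exp.2
    rw [div_lt_iff₀ (by positivity)] at hk
    have h1 : (N : ℝ) = n + k := by rw [hN]; push_cast; ring
    have h2 : (N : ℝ) * n * c1 = N * (H / 2) := by rw [hc1]; field_simp
    rw [h2]
    have h3 : ∑ α ∈ crt Q, v α = H - la Q := by rw [hH]; ring
    rw [h3, h1]
    nlinarith
  obtain ⟨y, hy0, hy⟩ := minkowski_linear_forms' A (by rw [hdetA]; exact hdet0) rr hrr0 hcond
  -- the polynomial
  set ix : Fin n ⊕ Fin k → ℕ := Sum.elim (fun i => (i : ℕ)) (fun j => n + (j : ℕ)) with hix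
  have hixinj : Function.Injective ix := by
    rintro (i | i) (j | j) h
    · simp only [hix, Sum.elim_inl] at h; rw [Fin.ext h]
    · simp only [hix, Sum.elim_inl, Sum.elim_inr] at h; have := i.2; omega
    · simp only [hix, Sum.elim_inl, Sum.elim_inr] at h; have := j.2; omega
    · simp only [hix, Sum.elim_inr] at h
      have : i = j := Fin.ext (by omega)
      rw [this]
  set b : ℤ[X] := ∑ i, C (y i) * X ^ (ix i) with hb
  have hcoeff : ∀ i, b.coeff (ix i) = y i := by
    intro i
    rw [hb, finsetSum_coeff]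
    simp only [coeff_C_mul, coeff_X_pow]
    rw [Finset.sum_eq_single i]
    · simp
    · intro j _ hij
      rw [if_neg]; · ring
      intro h; exact hij (hixinj h.symm)
    · intro h; exact absurd (Finset.mem_univ i) h
  have hev : ∀ z : ℂ, aeval z b = ∑ i, ((y i : ℝ) : ℂ) * z ^ (ix i) := by
    intro z; simp [hb, map_sum]
  have hNpos : 0 < N := by omega
  have hixlt : ∀ i, ix i < N := by
    rintro (i | j)
    · simp only [hix, Sum.elim_inl]; have := i.2; omega
    · simp only [hix, Sum.elim_inr]; have := j.2; omega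
  refine ⟨N, b, c1, hc10, ?_, ?_, ?_⟩
  · refine lt_of_le_of_lt (natDegree_sum_le_of_forall_le (n := N - 1) _ _ ?_) (by omega)
    intro i _
    refine (natDegree_C_mul_X_pow_le _ _).trans ?_
    have := hixlt i
    omega
  · rintro ⟨t, ht⟩
    have hb0 : b ≠ 0 := by
      intro h0
      apply hy0
      ext i
      rw [← hcoeff i, h0]; simp
    have ht0 : t ≠ 0 := by rintro rfl; rw [mul_zero] at ht; exact hb0 ht
    have hdeg : b.natDegree = n + t.natDegree := by rw [ht, natDegree_mul hQ0 ht0]
    have hblt : b.natDegree < N := by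
      refine lt_of_le_of_lt (natDegree_sum_le_of_forall_le (n := N - 1) _ _ ?_) (by omega)
      intro i _
      refine (natDegree_C_mul_X_pow_le _ _).trans ?_
      have := hixlt i
      omega
    have hlead : b.leadingCoeff = Q.leadingCoeff * t.leadingCoeff := by
      rw [ht, leadingCoeff_mul]
    have htl : (1 : ℝ) ≤ |(t.leadingCoeff : ℝ)| := by
      exact_mod_cast Int.one_le_abs (leadingCoeff_ne_zero.2 ht0)
    have hj : t.natDegree < k := by omega
    have h1 := hcoeff (Sum.inr ⟨t.natDegree, hj⟩)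
    have h2 := hy (Sum.inr ⟨t.natDegree, hj⟩)
    simp only [hix, Sum.elim_inr] at h1
    rw [← hdeg, coeff_natDegree, hlead] at h1
    have h3 : (A.mulVec (fun j => (y j : ℝ))) (Sum.inr ⟨t.natDegree, hj⟩)
        = y (Sum.inr ⟨t.natDegree, hj⟩) := by
      rw [hA, Matrix.fromBlocks_mulVec]
      simp [Matrix.zero_mulVec, Function.comp_def]
    rw [h3, ← h1] at h2
    simp only [hrr, Sum.elim_inr] at h2
    push_cast at h2
    rw [abs_mul] at h2
    nlinarith
  · have hlf : ∀ α ∈ crt Q, |lf α (fun z => aeval z b)| ≤ ra α := by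
      intro α hα
      have h1 := (hy (Sum.inl (e.symm ⟨α, hα⟩))).le
      have h2 : rr (Sum.inl (e.symm ⟨α, hα⟩)) = ra α := by
        simp only [hrr, Sum.elim_inl, Equiv.apply_symm_apply]
      rw [h2] at h1
      have h3 : (A.mulVec (fun j => (y j : ℝ))) (Sum.inl (e.symm ⟨α, hα⟩))
          = lf α (fun z => aeval z b) := by
        have h4 : (fun z => aeval z b) = fun z : ℂ => ∑ i, ((y i : ℝ) : ℂ) * z ^ (ix i) := by
          ext z; exact hev z
        rw [h4, lf_sum, Fintype.sum_sum_type]
        simp only [Matrix.mulVec, dotProduct, Fintype.sum_sum_type, hA, Matrix.fromBlocks_apply₁₁,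
          Matrix.fromBlocks_apply₁₂, hA0, hix, Sum.elim_inl, Sum.elim_inr, Equiv.apply_symm_apply]
        congr 1
        · refine Finset.sum_congr rfl fun i _ => by ring
        · refine Finset.sum_congr rfl fun i _ => by ring
      rw [← h3]; exact h1
    have := norm_le_of_lf (S := crt Q) (fun α hα => conj_mem_crt hQ0 hα)
        (z := fun z => aeval z b) (fun α => aeval_conj_int b α) (r := ra)
        (fun α _ => by simp only [hra]; positivity)
        (fun α _ => by simp only [hra, hv]) hlf
    intro α hα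
    have h1 := this α hα
    simp only [hra] at h1
    linarith

end Pool.Agent.SSS
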