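import Mathlib
import Pool.Agent.SSS.Cheb

/-! Polynomials adapted to a mixture of equilibrium potentials. -/

namespace Pool.Agent.SSS

open Complex ComplexConjugate Polynomial

/-- mixture of the potentials of `n0` intervals -/
noncomputable def Up (n0 : ℕ) (c : ℕ → ℝ) (r : ℝ) (p : ℕ → ℝ) (z : ℂ) : ℝ :=
  ∑ l ∈ Finset.range n0, p l * UU (c l) r z

variable {n0 : ℕ} {c : ℕ → ℝ} {r : ℝ} {p : ℕ → ℝ} {M' : ℝ}

lemma Up_conj (hr : 0 < r) (z : ℂ) : Up n0 c r p (conj z) = Up n0 c r p z := by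
  unfold Up; simp only [UU_conj hr]

lemma continuous_Up (hr : 0 < r) : Continuous (Up n0 c r p) := by
  unfold Up
  exact continuous_finsetSum _ fun l _ => continuous_const.mul (continuous_UU hr)

lemma exists_UU_bound (n0 : ℕ) (c : ℕ → ℝ) (hr : 0 < r) (M' : ℝ) :
    ∃ Cb : ℝ, 0 ≤ Cb ∧ ∀ l ∈ Finset.range n0, ∀ x ∈ Set.Icc 0 M', |UU (c l) r ((x : ℝ) : ℂ)| ≤ Cb := by
  have h : ∀ l : ℕ, ∃ C : ℝ, 0 ≤ C ∧ ∀ x ∈ Set.Icc 0 M', |UU (c l) r ((x : ℝ) : ℂ)| ≤ C := by
    intro l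
    have hc : ContinuousOn (fun x : ℝ => UU (c l) r (x : ℂ)) (Set.Icc 0 M') :=
      ((continuous_UU hr).comp Complex.continuous_ofReal).continuousOn
    obtain ⟨C, hC⟩ := isCompact_Icc.exists_bound_of_continuousOn hc
    refine ⟨|C|, abs_nonneg _, fun x hx => ?_⟩
    have := hC x hx
    rw [Real.norm_eq_abs] at this
    exact this.trans (le_abs_self _)
  choose C hC0 hC using h
  refine ⟨∑ l ∈ Finset.range n0, C l, Finset.sum_nonneg fun l _ => hC0 l, fun l hl x hx => ?_⟩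
  exact (hC l x hx).trans (Finset.single_le_sum (fun i _ => hC0 i) hl)

lemma exists_Up_bound (n0 : ℕ) (c : ℕ → ℝ) (hr : 0 < r) (p : ℕ → ℝ) (M' : ℝ) :
    ∃ Cb : ℝ, 0 ≤ Cb ∧ ∀ x ∈ Set.Icc 0 M', |Up n0 c r p ((x : ℝ) : ℂ)| ≤ Cb := by
  have hc : ContinuousOn (fun x : ℝ => Up n0 c r p (x : ℂ)) (Set.Icc 0 M') :=
    ((continuous_Up hr).comp Complex.continuous_ofReal).continuousOn
  obtain ⟨C, hC⟩ := isCompact_Icc.exists_bound_of_continuousOn hc
  refine ⟨|C|, abs_nonneg _, fun x hx => ?_⟩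
  have := hC x hx
  rw [Real.norm_eq_abs] at this
  exact this.trans (le_abs_self _)

lemma floor_diff (hp0 : ∀ l, 0 ≤ p l) (k l : ℕ) :
    0 ≤ p l * k - (⌊p l * k⌋₊ : ℝ) ∧ p l * k - (⌊p l * k⌋₊ : ℝ) ≤ 1 := by
  have h1 := Nat.floor_le (mul_nonneg (hp0 l) (Nat.cast_nonneg k))
  have h2 := Nat.lt_floor_add_one (p l * k)
  constructor <;> linarith

lemma sum_floor_le (hp0 : ∀ l, 0 ≤ p l) (hp1 : ∑ l ∈ Finset.range n0, p l = 1) (k : ℕ) :
    ∑ l ∈ Finset.range n0, ⌊p l * k⌋₊ ≤ k ∧ k ≤ ∑ l ∈ Finset.range n0, ⌊p l * k⌋₊ + n0 := by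
  have h1 : ∑ l ∈ Finset.range n0, (⌊p l * k⌋₊ : ℝ) ≤ k := by
    calc ∑ l ∈ Finset.range n0, (⌊p l * k⌋₊ : ℝ) ≤ ∑ l ∈ Finset.range n0, p l * k :=
          Finset.sum_le_sum fun l _ => by linarith [(floor_diff hp0 k l).1]
      _ = k := by rw [← Finset.sum_mul, hp1, one_mul]
  have h2 : (k : ℝ) ≤ ∑ l ∈ Finset.range n0, (⌊p l * k⌋₊ : ℝ) + n0 := by
    calc (k : ℝ) = ∑ l ∈ Finset.range n0, p l * k := by rw [← Finset.sum_mul, hp1, one_mul]
      _ ≤ ∑ l ∈ Finset.range n0, ((⌊p l * k⌋₊ : ℝ) + 1) :=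
          Finset.sum_le_sum fun l _ => by linarith [(floor_diff hp0 k l).2]
      _ = _ := by rw [Finset.sum_add_distrib]; simp
  constructor
  · exact_mod_cast h1
  · exact_mod_cast h2

/-- evaluation of a real polynomial at a real point, complex form -/
lemma norm_aeval_ofReal (P : ℝ[X]) (x : ℝ) : ‖aeval (x : ℂ) P‖ = |P.eval x| := by
  have : aeval (x : ℂ) P = ((P.eval x : ℝ) : ℂ) := by
    rw [show (x : ℂ) = algebraMap ℝ ℂ x from rfl, aeval_algebraMap_apply]; rfl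
  rw [this, Complex.norm_real, Real.norm_eq_abs]

lemma abs_TT_le {c r : ℝ} (hr : 0 < r) (x : ℝ) (n : ℕ) :
    |(TT c r n).eval x| ≤ 2 * Real.exp (n * UU c r (x : ℂ)) := by
  rw [← norm_aeval_ofReal]; exact norm_TT_le hr _ n

theorem exists_monic (hr : 0 < r) (hp0 : ∀ l, 0 ≤ p l) (hp1 : ∑ l ∈ Finset.range n0, p l = 1)
    (M' : ℝ) : ∃ C : ℝ, 0 < C ∧ ∀ k : ℕ, ∃ B : ℝ[X], B.Monic ∧ B.natDegree = k ∧
      ∀ x ∈ Set.Icc 0 M', |B.eval x| ≤ C * Real.exp (k * Up n0 c r p (x : ℂ)) := by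
  obtain ⟨Cb, hCb0, hCb⟩ := exists_UU_bound n0 c hr M'
  set m1 : ℝ := max 1 M' with hm1
  have hm11 : 1 ≤ m1 := le_max_left _ _
  refine ⟨m1 ^ n0 * (2 ^ n0 * Real.exp (n0 * Cb)), by positivity, fun k => ?_⟩
  obtain ⟨hs1, hs2⟩ := sum_floor_le hp0 hp1 k
  set K : ℕ := ∑ l ∈ Finset.range n0, ⌊p l * k⌋₊ with hK
  have hTm : (∏ l ∈ Finset.range n0, TT (c l) r ⌊p l * k⌋₊).Monic :=
    monic_prod_of_monic _ _ fun l _ => TT_monic _ _ _
  have hTd : (∏ l ∈ Finset.range n0, TT (c l) r ⌊p l * k⌋₊).natDegree = K := by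
    rw [natDegree_prod_of_monic _ _ fun l _ => TT_monic _ _ _]
    simp only [TT_natDegree]; rfl
  refine ⟨X ^ (k - K) * ∏ l ∈ Finset.range n0, TT (c l) r ⌊p l * k⌋₊,
    (monic_X_pow _).mul hTm, ?_, ?_⟩
  · rw [Monic.natDegree_mul (monic_X_pow _) hTm, natDegree_X_pow, hTd]; omega
  · intro x hx
    rw [eval_mul, eval_pow, eval_X, eval_prod, abs_mul, Finset.abs_prod, abs_pow]
    have h1 : |x| ^ (k - K) ≤ m1 ^ n0 := by
      have hx1 : |x| ≤ m1 := by
        rw [abs_of_nonneg hx.1]; exact hx.2.trans (le_max_right _ _)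
      calc |x| ^ (k - K) ≤ m1 ^ (k - K) := by gcongr
        _ ≤ m1 ^ n0 := pow_le_pow_right₀ hm11 (by omega)
    have h2 : ∏ l ∈ Finset.range n0, |(TT (c l) r ⌊p l * k⌋₊).eval x|
        ≤ 2 ^ n0 * Real.exp (n0 * Cb) * Real.exp (k * Up n0 c r p (x : ℂ)) := by
      calc ∏ l ∈ Finset.range n0, |(TT (c l) r ⌊p l * k⌋₊).eval x|
          ≤ ∏ l ∈ Finset.range n0, (2 * Real.exp (Cb + p l * k * UU (c l) r (x : ℂ))) := by
            refine Finset.prod_le_prod (fun _ _ => abs_nonneg _) fun l hl => ?_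
            refine (abs_TT_le hr x _).trans ?_
            have hfd := floor_diff hp0 k l
            have hb := abs_le.1 (hCb l hl x hx)
            gcongr
            nlinarith [hfd.1, hfd.2, hb.1, hb.2]
        _ = _ := by
            rw [Finset.prod_mul_distrib, Finset.prod_const, Finset.card_range, ← Real.exp_sum,
              Finset.sum_add_distrib, Finset.sum_const, Finset.card_range, nsmul_eq_mul,
              Real.exp_add, mul_assoc]
            congr 3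
            unfold Up
            rw [Finset.mul_sum]
            exact Finset.sum_congr rfl fun l _ => by ring
    calc |x| ^ (k - K) * ∏ l ∈ Finset.range n0, |(TT (c l) r ⌊p l * k⌋₊).eval x|
        ≤ m1 ^ n0 * (2 ^ n0 * Real.exp (n0 * Cb) * Real.exp (k * Up n0 c r p (x : ℂ))) := by
          gcongr
      _ = _ := by ring

theorem exists_peak (hr : 0 < r) (hp0 : ∀ l, 0 ≤ p l) (hp1 : ∑ l ∈ Finset.range n0, p l = 1)
    (M' : ℝ) (α : ℂ) : ∃ C : ℝ, 0 < C ∧ ∀ k : ℕ, ∃ G : ℂ[X], G.natDegree ≤ k + n0 ∧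
      G.eval α = 1 ∧ ∀ x ∈ Set.Icc 0 M', ‖G.eval (x : ℂ)‖
        ≤ C * Real.exp (k * (Up n0 c r p (x : ℂ) - Up n0 c r p α)) := by
  obtain ⟨Cb, hCb0, hCb⟩ := exists_UU_bound n0 c hr M'
  have hlow : ∀ l : ℕ, ∃ κ > 0, ∀ k : ℕ, ∃ k', (k' = k ∨ k' = k + 1) ∧
      κ * Real.exp (k * UU (c l) r α) ≤ ‖aeval α (TT (c l) r k')‖ := fun l => exists_TT_lower hr α
  choose κ hκ0 hκ using hlow
  refine ⟨∏ l ∈ Finset.range n0, (2 / κ l * Real.exp (2 * Cb + |UU (c l) r α|)),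
    Finset.prod_pos fun l _ => by have := hκ0 l; positivity, fun k => ?_⟩
  choose k' hk' hk'2 using fun l : ℕ => hκ l ⌊p l * k⌋₊
  obtain ⟨hs1, hs2⟩ := sum_floor_le hp0 hp1 k
  have hne : ∀ l, aeval α (TT (c l) r (k' l)) ≠ 0 := by
    intro l
    have h1 := hk'2 l
    have h2 : 0 < κ l * Real.exp (⌊p l * k⌋₊ * UU (c l) r α) := by
      have := hκ0 l; positivity
    exact norm_pos_iff.1 (h2.trans_le h1)
  refine ⟨∏ l ∈ Finset.range n0, (C (aeval α (TT (c l) r (k' l)))⁻¹ *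
    (TT (c l) r (k' l)).map (algebraMap ℝ ℂ)), ?_, ?_, ?_⟩
  · refine (natDegree_prod_le _ _).trans ?_
    calc ∑ l ∈ Finset.range n0, (C (aeval α (TT (c l) r (k' l)))⁻¹ *
          (TT (c l) r (k' l)).map (algebraMap ℝ ℂ)).natDegree
        ≤ ∑ l ∈ Finset.range n0, (⌊p l * k⌋₊ + 1) := by
          refine Finset.sum_le_sum fun l _ => ?_
          refine (natDegree_C_mul_le _ _).trans (natDegree_map_le.trans ?_)
          rw [TT_natDegree]
          rcases hk' l with h | h <;> omega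
      _ ≤ k + n0 := by rw [Finset.sum_add_distrib]; simp; exact hs1
  · rw [eval_prod]
    apply Finset.prod_eq_one
    intro l _
    rw [eval_mul, eval_C, eval_map_algebraMap, inv_mul_cancel₀ (hne l)]
  · intro x hx
    rw [eval_prod, norm_prod]
    have hterm : ∀ l ∈ Finset.range n0, ‖eval (x : ℂ) (C (aeval α (TT (c l) r (k' l)))⁻¹ *
        (TT (c l) r (k' l)).map (algebraMap ℝ ℂ))‖ ≤ (2 / κ l * Real.exp (2 * Cb + |UU (c l) r α|))
          * Real.exp (p l * k * (UU (c l) r (x : ℂ) - UU (c l) r α)) := by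
      intro l hl
      rw [eval_mul, eval_C, eval_map_algebraMap, norm_mul, norm_inv]
      have h1 := norm_TT_le (c := c l) hr (x : ℂ) (k' l)
      have h2 := hk'2 l
      have hκl := hκ0 l
      have h3 : 0 < κ l * Real.exp (⌊p l * k⌋₊ * UU (c l) r α) := by positivity
      have hfd := floor_diff hp0 k l
      have hb := abs_le.1 (hCb l hl x hx)
      have hbα := abs_le.1 (le_refl |UU (c l) r α|)
      have hk1 : (⌊p l * k⌋₊ : ℝ) ≤ k' l ∧ (k' l : ℝ) ≤ ⌊p l * k⌋₊ + 1 := by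
        rcases hk' l with h | h <;> rw [h] <;> constructor <;> push_cast <;> linarith
      calc ‖aeval α (TT (c l) r (k' l))‖⁻¹ * ‖aeval (x : ℂ) (TT (c l) r (k' l))‖
          ≤ (κ l * Real.exp (⌊p l * k⌋₊ * UU (c l) r α))⁻¹
            * (2 * Real.exp (k' l * UU (c l) r (x : ℂ))) := by
            gcongr
        _ = 2 / κ l * Real.exp (k' l * UU (c l) r (x : ℂ) - ⌊p l * k⌋₊ * UU (c l) r α) := by
            rw [Real.exp_sub]; field_simp
        _ ≤ 2 / κ l * Real.exp ((2 * Cb + |UU (c l) r α|)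
              + p l * k * (UU (c l) r (x : ℂ) - UU (c l) r α)) := by
            gcongr
            have e1 : (k' l : ℝ) * UU (c l) r (x : ℂ) - p l * k * UU (c l) r (x : ℂ) ≤ 2 * Cb := by
              have a1 : |(k' l : ℝ) - p l * k| ≤ 1 := by
                rw [abs_le]; constructor <;> linarith [hfd.1, hfd.2, hk1.1, hk1.2]
              have a2 : ((k' l : ℝ) - p l * k) * UU (c l) r (x : ℂ)
                  ≤ |(k' l : ℝ) - p l * k| * |UU (c l) r (x : ℂ)| := by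
                rw [← abs_mul]; exact le_abs_self _
              have a3 : |(k' l : ℝ) - p l * k| * |UU (c l) r (x : ℂ)| ≤ 1 * Cb :=
                mul_le_mul a1 (hCb l hl x hx) (abs_nonneg _) zero_le_one
              linarith
            have e2 : p l * k * UU (c l) r α - ⌊p l * k⌋₊ * UU (c l) r α ≤ |UU (c l) r α| := by
              have a2 : (p l * k - (⌊p l * k⌋₊ : ℝ)) * UU (c l) r α
                  ≤ |p l * k - (⌊p l * k⌋₊ : ℝ)| * |UU (c l) r α| := by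
                rw [← abs_mul]; exact le_abs_self _
              have a1 : |p l * k - (⌊p l * k⌋₊ : ℝ)| ≤ 1 := by
                rw [abs_le]; constructor <;> linarith [hfd.1, hfd.2]
              have a3 : |p l * k - (⌊p l * k⌋₊ : ℝ)| * |UU (c l) r α| ≤ 1 * |UU (c l) r α| :=
                mul_le_mul_of_nonneg_right a1 (abs_nonneg _)
              linarith
            linarith
        _ = _ := by rw [Real.exp_add]; ring
    refine (Finset.prod_le_prod (fun _ _ => norm_nonneg _) hterm).trans (le_of_eq ?_)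
    rw [Finset.prod_mul_distrib, ← Real.exp_sum]
    congr 1
    unfold Up
    rw [← Finset.sum_sub_distrib, Finset.mul_sum]
    refine congrArg Real.exp (Finset.sum_congr rfl fun l _ => by ring)

end Pool.Agent.SSS
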