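import Mathlib
import Pool.Agent.SSS.Pots

/-! Reduction steps for approximating real polynomials by integer polynomials. -/

namespace Pool.Agent.SSS

open Polynomial

/-- a reduction step: any real polynomial of degree `< D` is, up to an exponentially small error
relative to `exp (D V)`, an integer polynomial plus `P` times a real polynomial of degree
`< D - d`. -/
def Stp (V : ℝ → ℝ) (M' : ℝ) (P : ℤ[X]) (d : ℕ) : Prop :=
  P.natDegree ≤ d ∧ ∃ C δ : ℝ, 0 ≤ C ∧ 0 < δ ∧ ∃ D0 : ℕ, d < D0 ∧ ∀ D ≥ D0, ∀ R : ℝ[X],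
    R.natDegree < D → ∃ (g : ℤ[X]) (R' : ℝ[X]), g.natDegree < D ∧ R'.natDegree < D - d ∧
      ∀ x ∈ Set.Icc 0 M', |R.eval x - aeval x g - aeval x P * R'.eval x|
        ≤ C * Real.exp (-(δ * D)) * Real.exp (D * V x)

variable {V : ℝ → ℝ} {M' : ℝ}

lemma exists_bound_aeval (P : ℤ[X]) (M' : ℝ) :
    ∃ B : ℝ, 0 ≤ B ∧ ∀ x ∈ Set.Icc 0 M', |aeval x P| ≤ B := by
  have hc : ContinuousOn (fun x : ℝ => aeval x P) (Set.Icc 0 M') :=
    (Polynomial.continuous_aeval P).continuousOn
  obtain ⟨C, hC⟩ := isCompact_Icc.exists_bound_of_continuousOn hc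
  refine ⟨|C|, abs_nonneg _, fun x hx => ?_⟩
  have := hC x hx
  rw [Real.norm_eq_abs] at this
  exact this.trans (le_abs_self _)

lemma Stp.comp {b : ℝ} (hb : ∀ x ∈ Set.Icc 0 M', -b ≤ V x) {P Q : ℤ[X]} {d d' : ℕ}
    (h1 : Stp V M' P d) (h2 : Stp V M' Q d') : Stp V M' (P * Q) (d + d') := by
  obtain ⟨hP, C1, δ1, hC1, hδ1, D1, hD1, H1⟩ := h1
  obtain ⟨hQ, C2, δ2, hC2, hδ2, D2, hD2, H2⟩ := h2
  obtain ⟨B, hB0, hB⟩ := exists_bound_aeval P M'
  refine ⟨natDegree_mul_le.trans (add_le_add hP hQ),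
    C1 + B * C2 * Real.exp (δ2 * d + d * b), min δ1 δ2, by positivity, lt_min hδ1 hδ2,
    D1 + D2 + d + d', by omega, ?_⟩
  intro D hD R hR
  obtain ⟨g1, R1, hg1, hR1, he1⟩ := H1 D (by omega) R hR
  obtain ⟨g2, R2, hg2, hR2, he2⟩ := H2 (D - d) (by omega) R1 hR1
  refine ⟨g1 + P * g2, R2, ?_, ?_, ?_⟩
  · refine (natDegree_add_le _ _).trans_lt (max_lt hg1 ?_)
    have := natDegree_mul_le (p := P) (q := g2)
    omega
  · have : D - d - d' = D - (d + d') := by omega
    rwa [this] at hR2
  · intro x hx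
    have e1 := he1 x hx
    have e2 := he2 x hx
    have hbx := hb x hx
    have hBx := hB x hx
    have hdec : R.eval x - aeval x (g1 + P * g2) - aeval x (P * Q) * R2.eval x
        = (R.eval x - aeval x g1 - aeval x P * R1.eval x)
          + aeval x P * (R1.eval x - aeval x g2 - aeval x Q * R2.eval x) := by
      simp only [map_add, map_mul]; ring
    have hcast : (((D - d : ℕ) : ℕ) : ℝ) = D - d := by
      rw [Nat.cast_sub (by omega)]
    rw [hcast] at e2
    have hD0 : (0 : ℝ) ≤ D := Nat.cast_nonneg _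
    have hd0 : (0 : ℝ) ≤ d := Nat.cast_nonneg _
    rw [hdec]
    calc |(R.eval x - aeval x g1 - aeval x P * R1.eval x)
          + aeval x P * (R1.eval x - aeval x g2 - aeval x Q * R2.eval x)|
        ≤ |R.eval x - aeval x g1 - aeval x P * R1.eval x|
          + |aeval x P| * |R1.eval x - aeval x g2 - aeval x Q * R2.eval x| := by
          rw [← abs_mul]; exact abs_add_le _ _
      _ ≤ C1 * Real.exp (-(δ1 * D)) * Real.exp (D * V x)
          + B * (C2 * Real.exp (-(δ2 * (D - d))) * Real.exp ((D - d) * V x)) := by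
          gcongr
      _ ≤ C1 * Real.exp (-(min δ1 δ2 * D)) * Real.exp (D * V x)
          + B * (C2 * (Real.exp (-(min δ1 δ2 * D)) * Real.exp (δ2 * d + d * b))
            * Real.exp (D * V x)) := by
          have a1 : Real.exp (-(δ1 * D)) ≤ Real.exp (-(min δ1 δ2 * D)) := by
            apply Real.exp_le_exp.2
            nlinarith [min_le_left δ1 δ2]
          have a2 : Real.exp (-(δ2 * (D - d))) * Real.exp ((D - d) * V x)
              ≤ (Real.exp (-(min δ1 δ2 * D)) * Real.exp (δ2 * d + d * b)) * Real.exp (D * V x) := by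
            rw [← Real.exp_add, ← Real.exp_add, ← Real.exp_add]
            apply Real.exp_le_exp.2
            nlinarith [min_le_right δ1 δ2]
          have a3 : C2 * Real.exp (-(δ2 * (D - d))) * Real.exp ((D - d) * V x)
              ≤ C2 * (Real.exp (-(min δ1 δ2 * D)) * Real.exp (δ2 * d + d * b))
                * Real.exp (D * V x) := by
            rw [mul_assoc, mul_assoc]
            exact mul_le_mul_of_nonneg_left a2 hC2
          gcongr
      _ = _ := by ring

lemma Stp.const {a : ℤ} (ha : a ≠ 0) : Stp V M' (C a) 0 := by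
  refine ⟨by simp, 0, 1, le_rfl, one_pos, 1, by omega, ?_⟩
  intro D hD R hR
  refine ⟨0, C ((a : ℝ)⁻¹) * R, by rw [natDegree_zero]; omega, ?_, ?_⟩
  · exact (natDegree_C_mul_le _ _).trans_lt (by simpa using hR)
  · intro x _
    have ha' : (a : ℝ) ≠ 0 := by exact_mod_cast ha
    have hc : aeval x (C a : ℤ[X]) = (a : ℝ) := by rw [aeval_C]; rfl
    rw [hc, map_zero, sub_zero, eval_mul, eval_C, ← mul_assoc, mul_inv_cancel₀ ha', one_mul, sub_self, abs_zero]
    positivity

lemma natDegree_lt_of_coeff {P : ℝ[X]} {n : ℕ} (h : P.natDegree ≤ n) (hc : P.coeff n = 0)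
    (hn : 0 < n) : P.natDegree < n := by
  rcases lt_or_eq_of_le h with h1 | h1
  · exact h1
  · exfalso
    rw [← h1, coeff_natDegree, leadingCoeff_eq_zero] at hc
    rw [hc, natDegree_zero] at h1
    omega

lemma Stp.infty {n0 : ℕ} {c : ℕ → ℝ} {r : ℝ} {p : ℕ → ℝ} (hr : 0 < r) (hp0 : ∀ l, 0 ≤ p l)
    (hp1 : ∑ l ∈ Finset.range n0, p l = 1) {κ : ℝ} (hκ : 0 < κ) (M' : ℝ) :
    Stp (fun x => Up n0 c r p (x : ℂ) + κ) M' 1 1 := by
  obtain ⟨C, hC, hB⟩ := exists_monic (n0 := n0) (c := c) hr hp0 hp1 M'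
  obtain ⟨Cb, hCb0, hCb⟩ := exists_Up_bound n0 c hr p M'
  refine ⟨by simp, C * Real.exp Cb, κ, by positivity, hκ, 3, by omega, ?_⟩
  intro D hD R hR
  obtain ⟨B, hBm, hBd, hBb⟩ := hB (D - 1)
  set ρ := R.coeff (D - 1) with hρ
  set a : ℤ := round ρ with ha
  refine ⟨Polynomial.C a * X ^ (D - 1),
    R - (Polynomial.C (a : ℝ) * X ^ (D - 1)) - Polynomial.C (ρ - a) * B, ?_, ?_, ?_⟩
  · exact (natDegree_C_mul_X_pow_le _ _).trans_lt (by omega)
  · have hle : (R - (Polynomial.C (a : ℝ) * X ^ (D - 1)) - Polynomial.C (ρ - a) * B).natDegree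
        ≤ D - 1 := by
      refine (natDegree_sub_le _ _).trans (max_le ((natDegree_sub_le _ _).trans (max_le ?_ ?_)) ?_)
      · omega
      · exact natDegree_C_mul_X_pow_le _ _
      · exact (natDegree_C_mul_le _ _).trans hBd.le
    have hcoef : (R - (Polynomial.C (a : ℝ) * X ^ (D - 1)) - Polynomial.C (ρ - a) * B).coeff (D - 1)
        = 0 := by
      have hBc : B.coeff (D - 1) = 1 := by rw [← hBd]; exact hBm
      rw [coeff_sub, coeff_sub, coeff_C_mul, coeff_C_mul, coeff_X_pow_self, hBc]; ring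
    exact natDegree_lt_of_coeff hle hcoef (by omega)
  · intro x hx
    have h1 : R.eval x - aeval x (Polynomial.C a * X ^ (D - 1) : ℤ[X]) - aeval x (1 : ℤ[X]) *
        (R - (Polynomial.C (a : ℝ) * X ^ (D - 1)) - Polynomial.C (ρ - a) * B).eval x
        = (ρ - a) * B.eval x := by
      simp
    rw [h1, abs_mul]
    have h2 : |ρ - a| ≤ 1 := (abs_sub_round ρ).trans (by norm_num)
    have h3 := hBb x hx
    have hcast : (((D - 1 : ℕ) : ℕ) : ℝ) = D - 1 := by
      rw [Nat.cast_sub (by omega)]; simp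
    rw [hcast] at h3
    have h4 := abs_le.1 (hCb x hx)
    calc |ρ - a| * |B.eval x| ≤ 1 * (C * Real.exp ((D - 1) * Up n0 c r p (x : ℂ))) := by
          gcongr
      _ ≤ C * Real.exp (Cb + -(κ * D) + D * (Up n0 c r p (x : ℂ) + κ)) := by
          rw [one_mul]
          gcongr
          nlinarith [h4.1]
      _ = _ := by rw [Real.exp_add, Real.exp_add]; ring

lemma Stp.infty_iter {n0 : ℕ} {c : ℕ → ℝ} {r : ℝ} {p : ℕ → ℝ} (hr : 0 < r) (hp0 : ∀ l, 0 ≤ p l)
    (hp1 : ∑ l ∈ Finset.range n0, p l = 1) {κ : ℝ} (hκ : 0 < κ) (M' : ℝ) (j : ℕ) :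
    Stp (fun x => Up n0 c r p (x : ℂ) + κ) M' 1 j := by
  obtain ⟨Cb, hCb0, hCb⟩ := exists_Up_bound n0 c hr p M'
  induction j with
  | zero => simpa using Stp.const (V := fun x => Up n0 c r p (x : ℂ) + κ) (M' := M')
              (a := 1) one_ne_zero
  | succ j ih =>
    have := Stp.comp (b := Cb) (fun x hx => by linarith [(abs_le.1 (hCb x hx)).1]) ih
      (Stp.infty hr hp0 hp1 hκ M')
    simpa using this

/-- covering statement -/
def Cov (V : ℝ → ℝ) (M' : ℝ) (D : ℕ) (θ : ℝ) : Prop :=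
  ∀ R : ℝ[X], R.natDegree < D → ∃ g : ℤ[X], g.natDegree < D ∧
    ∀ x ∈ Set.Icc 0 M', |R.eval x - aeval x g| ≤ θ * Real.exp (D * V x)

lemma Cov.mono {D : ℕ} {θ θ' : ℝ} (h : Cov V M' D θ) (hle : θ ≤ θ') : Cov V M' D θ' := by
  intro R hR
  obtain ⟨g, hg, he⟩ := h R hR
  exact ⟨g, hg, fun x hx => (he x hx).trans (by gcongr)⟩

lemma exists_cov {b : ℝ} (hb : ∀ x ∈ Set.Icc 0 M', -b ≤ V x) (D : ℕ) (hD : 0 < D) :
    ∃ θ : ℝ, 0 ≤ θ ∧ Cov V M' D θ := by
  refine ⟨(∑ i ∈ Finset.range D, |M'| ^ i) * Real.exp (D * b), by positivity, ?_⟩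
  intro R hR
  refine ⟨∑ i ∈ Finset.range D, C (round (R.coeff i)) * X ^ i, ?_, ?_⟩
  · refine lt_of_le_of_lt (natDegree_sum_le_of_forall_le (n := D - 1) _ _ ?_) (by omega)
    intro i hi
    rw [Finset.mem_range] at hi
    exact (natDegree_C_mul_X_pow_le _ _).trans (by omega)
  · intro x hx
    have h1 : R.eval x = ∑ i ∈ Finset.range D, R.coeff i * x ^ i :=
      eval_eq_sum_range' hR x
    have h2 : aeval x (∑ i ∈ Finset.range D, C (round (R.coeff i)) * X ^ i : ℤ[X])
        = ∑ i ∈ Finset.range D, (round (R.coeff i) : ℝ) * x ^ i := by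
      simp [map_sum]
    rw [h1, h2, ← Finset.sum_sub_distrib]
    have h3 : |∑ i ∈ Finset.range D, (R.coeff i * x ^ i - (round (R.coeff i) : ℝ) * x ^ i)|
        ≤ ∑ i ∈ Finset.range D, |M'| ^ i := by
      refine (Finset.abs_sum_le_sum_abs _ _).trans (Finset.sum_le_sum fun i _ => ?_)
      rw [← sub_mul, abs_mul, abs_pow]
      have a1 : |R.coeff i - round (R.coeff i)| ≤ 1 := (abs_sub_round _).trans (by norm_num)
      have a2 : |x| ≤ |M'| := abs_le_abs_of_nonneg hx.1 hx.2
      calc |R.coeff i - round (R.coeff i)| * |x| ^ i ≤ 1 * |M'| ^ i := by gcongr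
        _ = _ := one_mul _
    have h4 : 1 ≤ Real.exp (D * b) * Real.exp (D * V x) := by
      rw [← Real.exp_add]
      apply Real.one_le_exp
      have := hb x hx
      have hD0 : (0 : ℝ) ≤ D := Nat.cast_nonneg _
      nlinarith
    have h5 : 0 ≤ ∑ i ∈ Finset.range D, |M'| ^ i := by positivity
    calc _ ≤ ∑ i ∈ Finset.range D, |M'| ^ i := h3
      _ ≤ (∑ i ∈ Finset.range D, |M'| ^ i) * (Real.exp (D * b) * Real.exp (D * V x)) :=
          le_mul_of_one_le_right h5 h4
      _ = _ := by ring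

/-- the covering radius tends to zero exponentially -/
theorem cov_decay {b : ℝ} (hb : ∀ x ∈ Set.Icc 0 M', -b ≤ V x) {s : ℤ[X]} {m : ℕ} (hm : 0 < m)
    (hs : Stp V M' s m) {c' : ℝ} (hc' : 0 < c')
    (hsb : ∀ x ∈ Set.Icc 0 M', |aeval x s| ≤ Real.exp (m * (V x - c'))) :
    ∃ A δ : ℝ, 0 ≤ A ∧ 0 < δ ∧ ∀ D : ℕ, 0 < D → Cov V M' D (A * Real.exp (-(δ * D))) := by
  obtain ⟨hsd, C, δ0, hC, hδ0, D0, hD0, H⟩ := hs
  set δ := min δ0 (c' / 2) with hδ
  have hδpos : 0 < δ := lt_min hδ0 (by positivity)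
  have hδ1 : δ ≤ δ0 := min_le_left _ _
  have hδ2 : δ ≤ c' / 2 := min_le_right _ _
  have hex : ∀ D : ℕ, ∃ θ : ℝ, 0 ≤ θ ∧ (0 < D → Cov V M' D θ) := by
    intro D
    rcases Nat.eq_zero_or_pos D with h | h
    · exact ⟨0, le_rfl, fun h' => by omega⟩
    · obtain ⟨θ, h1, h2⟩ := exists_cov hb D h
      exact ⟨θ, h1, fun _ => h2⟩
  choose θ hθ0 hθ using hex
  set γ := 1 - Real.exp (-(m * (c' / 2))) with hγ
  have hm0 : (0 : ℝ) < m := by exact_mod_cast hm
  have hγ0 : 0 < γ := by
    have : Real.exp (-(m * (c' / 2))) < 1 := by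
      rw [Real.exp_lt_one_iff]; have : 0 < m * (c' / 2) := by positivity
      linarith
    linarith
  obtain ⟨A, hA⟩ : ∃ A, A = C / γ + ∑ D ∈ Finset.range (D0 + m + 1), θ D * Real.exp (δ * D) :=
    ⟨_, rfl⟩
  have hsum0 : 0 ≤ ∑ D ∈ Finset.range (D0 + m + 1), θ D * Real.exp (δ * D) :=
    Finset.sum_nonneg fun D _ => mul_nonneg (hθ0 D) (Real.exp_pos _).le
  have hA0 : 0 ≤ A := by rw [hA]; positivity
  refine ⟨A, δ, hA0, hδpos, ?_⟩
  intro D
  induction D using Nat.strong_induction_on with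
  | _ D ih =>
    intro hD
    rcases lt_or_ge D (D0 + m + 1) with hlt | hge
    · apply (hθ D hD).mono
      have h1 : θ D * Real.exp (δ * D) ≤ A := by
        have := Finset.single_le_sum (f := fun D : ℕ => θ D * Real.exp (δ * D))
          (fun i _ => mul_nonneg (hθ0 i) (Real.exp_pos _).le) (Finset.mem_range.2 hlt)
        have h2 : 0 ≤ C / γ := by positivity
        linarith
      calc θ D = θ D * Real.exp (δ * D) * Real.exp (-(δ * D)) := by
            rw [mul_assoc, ← Real.exp_add]; simp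
        _ ≤ A * Real.exp (-(δ * D)) := by gcongr
    · intro R hR
      obtain ⟨g, R', hg, hR', he⟩ := H D (by omega) R hR
      obtain ⟨g', hg', he'⟩ := ih (D - m) (by omega) (by omega) R' hR'
      refine ⟨g + s * g', ?_, ?_⟩
      · refine (natDegree_add_le _ _).trans_lt (max_lt hg ?_)
        have := natDegree_mul_le (p := s) (q := g')
        omega
      · intro x hx
        have e1 := he x hx
        have e2 := he' x hx
        have e3 := hsb x hx
        have hcast : (((D - m : ℕ) : ℕ) : ℝ) = D - m := by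
          rw [Nat.cast_sub (by omega)]
        rw [hcast] at e2
        have hDr : (0 : ℝ) ≤ D := Nat.cast_nonneg _
        have hdec : R.eval x - aeval x (g + s * g')
            = (R.eval x - aeval x g - aeval x s * R'.eval x)
              + aeval x s * (R'.eval x - aeval x g') := by
          simp only [map_add, map_mul]; ring
        rw [hdec]
        calc _ ≤ |R.eval x - aeval x g - aeval x s * R'.eval x|
              + |aeval x s| * |R'.eval x - aeval x g'| := by
              rw [← abs_mul]; exact abs_add_le _ _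
          _ ≤ C * Real.exp (-(δ0 * D)) * Real.exp (D * V x)
              + Real.exp (m * (V x - c')) * (A * Real.exp (-(δ * (D - m)))
                * Real.exp ((D - m) * V x)) := by gcongr
          _ = (C * Real.exp (-(δ0 * D)) + A * Real.exp (-(δ * D) - m * (c' - δ)))
                * Real.exp (D * V x) := by
              rw [add_mul]
              congr 1
              have : Real.exp (m * (V x - c')) * (A * Real.exp (-(δ * (D - m)))
                * Real.exp ((D - m) * V x)) = A * (Real.exp (m * (V x - c')) *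
                (Real.exp (-(δ * (D - m))) * Real.exp ((D - m) * V x))) := by ring
              rw [this, ← Real.exp_add, ← Real.exp_add, mul_assoc, ← Real.exp_add]
              congr 2; ring
          _ ≤ (A * Real.exp (-(δ * D))) * Real.exp (D * V x) := by
              apply mul_le_mul_of_nonneg_right _ (Real.exp_pos _).le
              have a1 : Real.exp (-(δ0 * D)) ≤ Real.exp (-(δ * D)) := by
                apply Real.exp_le_exp.2; nlinarith
              have a2 : Real.exp (-(δ * D) - m * (c' - δ))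
                  ≤ Real.exp (-(m * (c' / 2))) * Real.exp (-(δ * D)) := by
                rw [← Real.exp_add]
                apply Real.exp_le_exp.2; nlinarith
              have a3 : C ≤ A * γ := by
                have : C / γ ≤ A := by linarith
                rwa [div_le_iff₀ hγ0] at this
              have a4 := Real.exp_pos (-(δ * (D : ℝ)))
              calc C * Real.exp (-(δ0 * D)) + A * Real.exp (-(δ * D) - m * (c' - δ))
                  ≤ C * Real.exp (-(δ * D))
                    + A * (Real.exp (-(m * (c' / 2))) * Real.exp (-(δ * D))) := by gcongr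
                _ ≤ (A * γ) * Real.exp (-(δ * D))
                    + A * (Real.exp (-(m * (c' / 2))) * Real.exp (-(δ * D))) := by gcongr
                _ = A * Real.exp (-(δ * D)) := by rw [hγ]; ring

end Pool.Agent.SSS
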