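import Mathlib
import Pool.Agent.SSS.StepDef
import Pool.Agent.SSS.BLem

/-! The reduction step at an irreducible polynomial of positive height. -/

namespace Pool.Agent.SSS

open Complex ComplexConjugate Polynomial

/-- real-part polynomial -/
noncomputable def rePoly (D : ℕ) (P : ℂ[X]) : ℝ[X] :=
  ∑ i ∈ Finset.range D, C ((P.coeff i).re) * X ^ i

lemma rePoly_natDegree {D : ℕ} (hD : 0 < D) (P : ℂ[X]) : (rePoly D P).natDegree < D := by
  unfold rePoly
  refine lt_of_le_of_lt (natDegree_sum_le_of_forall_le (n := D - 1) _ _ ?_) (by omega)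
  intro i hi
  rw [Finset.mem_range] at hi
  exact (natDegree_C_mul_X_pow_le _ _).trans (by omega)

lemma rePoly_aeval {D : ℕ} {P : ℂ[X]} (hP : P.natDegree < D) (α : ℂ) :
    2 * aeval α (rePoly D P) = P.eval α + conj (P.eval (conj α)) := by
  rw [eval_eq_sum_range' hP, eval_eq_sum_range' hP, map_sum, ← Finset.sum_add_distrib]
  unfold rePoly
  rw [map_sum, Finset.mul_sum]
  refine Finset.sum_congr rfl fun i _ => ?_
  simp only [map_mul, aeval_C, map_pow, aeval_X, Complex.conj_conj, coe_algebraMap]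
  have : P.coeff i + conj (P.coeff i) = 2 * ((P.coeff i).re : ℂ) := by
    rw [Complex.add_conj]; push_cast; ring
  linear_combination (-α ^ i) * this

lemma rePoly_eval {D : ℕ} {P : ℂ[X]} (hP : P.natDegree < D) (x : ℝ) :
    (rePoly D P).eval x = (P.eval (x : ℂ)).re := by
  have h := rePoly_aeval hP (x : ℂ)
  have h1 : aeval (x : ℂ) (rePoly D P) = (((rePoly D P).eval x : ℝ) : ℂ) := by
    rw [show (x : ℂ) = algebraMap ℝ ℂ x from rfl, aeval_algebraMap_apply]; rfl
  rw [h1, Complex.conj_ofReal, Complex.add_conj] at h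
  have h2 := congrArg Complex.re h
  simp at h2
  linarith

lemma isCoprime_real {Q b : ℤ[X]} (hQ : Irreducible Q) (hd : Q.natDegree ≠ 0) (hb : ¬ Q ∣ b) :
    IsCoprime (b.map (algebraMap ℤ ℝ)) (Q.map (algebraMap ℤ ℝ)) := by
  have hp := hQ.isPrimitive hd
  have i1 : Irreducible (Q.map (Int.castRingHom ℚ)) :=
    (IsPrimitive.Int.irreducible_iff_irreducible_map_cast hp).1 hQ
  have h1 : ¬ (Q.map (Int.castRingHom ℚ)) ∣ (b.map (Int.castRingHom ℚ)) := fun h =>
    hb ((IsPrimitive.Int.dvd_iff_map_cast_dvd_map_cast Q b hp).2 h)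
  have h2 : IsCoprime (Q.map (Int.castRingHom ℚ)) (b.map (Int.castRingHom ℚ)) :=
    (Irreducible.coprime_iff_not_dvd i1).2 h1
  have h3 := h2.map (mapRingHom (algebraMap ℚ ℝ))
  simp only [coe_mapRingHom, Polynomial.map_map] at h3
  have e : (algebraMap ℚ ℝ).comp (Int.castRingHom ℚ) = algebraMap ℤ ℝ := RingHom.ext_int _ _
  rw [e] at h3
  exact h3.symm

lemma dvd_of_roots {Q : ℤ[X]} (hQ : Irreducible Q) (hd : Q.natDegree ≠ 0) {F : ℝ[X]}
    (h : ∀ α ∈ crt Q, aeval α F = 0) : Q.map (algebraMap ℤ ℝ) ∣ F := by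
  rw [← Polynomial.map_dvd_map' (algebraMap ℝ ℂ), Polynomial.map_map]
  have e : (algebraMap ℝ ℂ).comp (algebraMap ℤ ℝ) = algebraMap ℤ ℂ := RingHom.ext_int _ _
  rw [e]
  set φ : ℤ →+* ℂ := algebraMap ℤ ℂ with hφ
  have hinj : Function.Injective φ := RingHom.injective_int φ
  have hsplit : (Q.map φ).Splits := IsAlgClosed.splits _
  have hfac : Q.map φ = C (φ Q.leadingCoeff) * ∏ β ∈ crt Q, (X - C β) := by
    have h := hsplit.eq_prod_roots
    rw [leadingCoeff_map_of_injective hinj] at h
    rw [h]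
    congr 1
    have : (Q.map φ).roots = (crt Q).val := aroots_eq_crt hQ hd
    rw [this]; rfl
  have hne : φ Q.leadingCoeff ≠ 0 := by
    rw [map_ne_zero_iff φ hinj]; exact leadingCoeff_ne_zero.2 hQ.ne_zero
  rw [hfac]
  have hu : IsUnit (C (φ Q.leadingCoeff)) := isUnit_C.2 (isUnit_iff_ne_zero.2 hne)
  rw [hu.mul_left_dvd]
  apply Finset.prod_dvd_of_coprime
  · intro a _ b _ hab
    exact pairwise_coprime_X_sub_C Function.injective_id hab
  · intro α hα
    rw [dvd_iff_isRoot, IsRoot.def, eval_map_algebraMap]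
    exact h α hα

lemma aeval_map_int_real (P : ℤ[X]) (x : ℝ) : (P.map (algebraMap ℤ ℝ)).eval x = aeval x P := by
  rw [eval_map_algebraMap]

theorem Stp.irred {n0 : ℕ} {c : ℕ → ℝ} {r : ℝ} {p : ℕ → ℝ} (hr : 0 < r) (hp0 : ∀ l, 0 ≤ p l)
    (hp1 : ∑ l ∈ Finset.range n0, p l = 1) {κ : ℝ} (M' : ℝ) {Q : ℤ[X]} (hQ : Irreducible Q)
    (hd : Q.natDegree ≠ 0) (hpos : 0 < la Q + ∑ α ∈ crt Q, (Up n0 c r p α + κ)) :
    Stp (fun x => Up n0 c r p (x : ℂ) + κ) M' Q Q.natDegree := by
  classical
  have hQ0 := hQ.ne_zero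
  set n := Q.natDegree with hn
  have hnpos : 0 < n := Nat.pos_of_ne_zero hd
  have hcard := card_crt hQ hd
  set v : ℂ → ℝ := fun z => Up n0 c r p z + κ with hv
  obtain ⟨N, b, c1, hc1, hbN, hQb, hbα⟩ := exists_small_at_roots hQ hd (v := v)
    (fun α => by simp only [hv, Up_conj hr]) hpos
  have hN0 : 0 < N := by omega
  obtain ⟨Cb, hCb0, hCb⟩ := exists_Up_bound n0 c hr p M'
  choose CG hCG0 hCG using fun α : ℂ => exists_peak (n0 := n0) (c := c) hr hp0 hp1 M' α
  -- Lagrange basis bounds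
  set Λ : ℂ → ℂ[X] := fun α => Lagrange.basis (crt Q) id α with hΛ
  have hΛb : ∀ α : ℂ, ∃ B : ℝ, 0 ≤ B ∧ ∀ x ∈ Set.Icc 0 M', ‖(Λ α).eval ((x : ℝ) : ℂ)‖ ≤ B := by
    intro α
    have hc : ContinuousOn (fun x : ℝ => (Λ α).eval ((x : ℝ) : ℂ)) (Set.Icc 0 M') :=
      ((Λ α).continuous.comp Complex.continuous_ofReal).continuousOn
    obtain ⟨C, hC⟩ := isCompact_Icc.exists_bound_of_continuousOn hc
    exact ⟨|C|, abs_nonneg _, fun x hx => (hC x hx).trans (le_abs_self _)⟩
  choose BΛ hBΛ0 hBΛ using hΛb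
  set CR : ℂ → ℝ := fun α => ∑ j ∈ Finset.range n, ‖α‖ ^ j with hCR
  have hCR0 : ∀ α, 0 ≤ CR α := fun α => Finset.sum_nonneg fun _ _ => by positivity
  set KK' : ℂ → ℝ := fun α => CR α * CG α * BΛ α *
    Real.exp ((n + N) * |v α - c1| + (n + n0) * (Cb + |Up n0 c r p α|)) with hKK
  refine ⟨le_rfl, ∑ α ∈ crt Q, KK' α, c1, Finset.sum_nonneg fun α _ => ?_, hc1,
    n + n0 + N + 2, by omega, ?_⟩
  · have := hCG0 α; have := hBΛ0 α; have := hCR0 α
    simp only [hKK]; positivity
  intro D hD R hR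
  -- the exponent
  set G := (D - n) / N with hG
  have hG1 : N * G ≤ D - n := Nat.mul_div_le _ _
  have hG2 : D - n < N * G + N := by
    have := Nat.lt_mul_div_succ (D - n) hN0
    rw [← hG] at this
    linarith [Nat.mul_succ N G]
  set Qr := Q.map (algebraMap ℤ ℝ) with hQr
  set br := b.map (algebraMap ℤ ℝ) with hbr
  have hinjR : Function.Injective (algebraMap ℤ ℝ) := RingHom.injective_int _
  have hQr0 : Qr ≠ 0 := (Polynomial.map_ne_zero_iff hinjR).2 hQ0
  have hQrn : Qr.natDegree = n := natDegree_map_eq_of_injective hinjR _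
  obtain ⟨u, t, hut⟩ := (isCoprime_real hQ hd hQb).pow_left (m := G)
  set ρ := (R * u) % Qr with hρ
  have hρd : ρ.natDegree < n := by
    rw [← hQrn]
    exact natDegree_mod_lt _ (by rw [hQrn]; omega)
  have hdiv : Qr ∣ R - ρ * br ^ G := by
    have h1 : Qr * (R * u / Qr) + ρ = R * u := EuclideanDomain.div_add_mod _ _
    rw [← hbr, ← hQr] at hut
    refine ⟨R * t + (R * u / Qr) * br ^ G, ?_⟩
    linear_combination (-R) * hut - br ^ G * h1
  set ap : ℤ[X] := ∑ j ∈ Finset.range n, C (round (ρ.coeff j)) * X ^ j with hap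
  have hapd : ap.natDegree ≤ n - 1 := by
    refine natDegree_sum_le_of_forall_le _ _ ?_
    intro i hi
    rw [Finset.mem_range] at hi
    exact (natDegree_C_mul_X_pow_le _ _).trans (by omega)
  set g := ap * b ^ G with hg
  have hbG : (b ^ G).natDegree ≤ G * (N - 1) :=
    natDegree_pow_le.trans (Nat.mul_le_mul_left _ (by omega))
  have hGN : G * (N - 1) ≤ D - n := by
    calc G * (N - 1) ≤ G * N := Nat.mul_le_mul_left _ (by omega)
      _ = N * G := Nat.mul_comm _ _
      _ ≤ D - n := hG1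
  have hgd : g.natDegree < D := by
    have h1 := natDegree_mul_le (p := ap) (q := b ^ G)
    have h2 : n ≤ D := by omega
    rw [← hg] at h1
    omega
  set E := R - g.map (algebraMap ℤ ℝ) with hE
  have hEd : E.natDegree < D :=
    (natDegree_sub_le _ _).trans_lt (max_lt hR (natDegree_map_le.trans_lt hgd))
  have hEα : ∀ α ∈ crt Q, ‖aeval α E‖ ≤ CR α * Real.exp (G * (N * (v α - c1))) := by
    intro α hα
    have hQα : aeval α Qr = 0 := by
      rw [hQr, aeval_map_algebraMap]; exact (mem_crt hQ0).1 hα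
    have h1 : aeval α R = aeval α ρ * (aeval α b) ^ G := by
      obtain ⟨s, hs⟩ := hdiv
      have := congrArg (aeval α) hs
      rw [map_sub, map_mul, map_mul, hQα, zero_mul, map_pow, hbr, aeval_map_algebraMap] at this
      linear_combination this
    have h2 : aeval α E = (aeval α ρ - aeval α ap) * (aeval α b) ^ G := by
      rw [hE, map_sub, aeval_map_algebraMap, h1, hg, map_mul, map_pow]; ring
    have h3 : ‖aeval α ρ - aeval α ap‖ ≤ CR α := by
      have e1 : aeval α ρ = ∑ j ∈ Finset.range n, (ρ.coeff j : ℂ) * α ^ j := by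
        rw [aeval_eq_sum_range' hρd]
        refine Finset.sum_congr rfl fun j _ => ?_
        rw [Complex.real_smul]
      have e2 : aeval α ap = ∑ j ∈ Finset.range n, ((round (ρ.coeff j) : ℝ) : ℂ) * α ^ j := by
        rw [hap, map_sum]
        refine Finset.sum_congr rfl fun j _ => ?_
        simp
      rw [e1, e2, ← Finset.sum_sub_distrib]
      refine (norm_sum_le _ _).trans (Finset.sum_le_sum fun j _ => ?_)
      rw [← sub_mul, norm_mul, norm_pow, ← Complex.ofReal_sub, Complex.norm_real,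
        Real.norm_eq_abs]
      have a1 : |ρ.coeff j - round (ρ.coeff j)| ≤ 1 := (abs_sub_round _).trans (by norm_num)
      calc |ρ.coeff j - round (ρ.coeff j)| * ‖α‖ ^ j ≤ 1 * ‖α‖ ^ j := by gcongr
        _ = _ := one_mul _
    have h4 : ‖aeval α b‖ ^ G ≤ Real.exp (G * (N * (v α - c1))) := by
      rw [Real.exp_nat_mul]
      exact pow_le_pow_left₀ (norm_nonneg _) (hbα α hα) _
    rw [h2, norm_mul, norm_pow]
    exact mul_le_mul h3 h4 (by positivity) (hCR0 α)
  -- the interpolating polynomial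
  set k := D - n - n0 with hk
  choose GG hGGd hGG1 hGGb using fun α : ℂ => hCG α k
  set TC : ℂ[X] := ∑ α ∈ crt Q, C (aeval α E) * (GG α * Λ α) with hTC
  have hTCd : TC.natDegree < D := by
    refine lt_of_le_of_lt (natDegree_sum_le_of_forall_le (n := D - 1) _ _ ?_) (by omega)
    intro α hα
    refine (natDegree_C_mul_le _ _).trans (natDegree_mul_le.trans ?_)
    have h1 : (Λ α).natDegree = n - 1 := by
      have := Lagrange.natDegree_basis (s := crt Q) (v := id)
        (fun _ _ _ _ h => h) hα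
      rw [hcard] at this
      exact this
    have h2 := hGGd α
    omega
  have hTCα : ∀ β ∈ crt Q, TC.eval β = aeval β E := by
    intro β hβ
    rw [hTC, eval_finsetSum, Finset.sum_eq_single β]
    · rw [eval_mul, eval_C, eval_mul, hGG1]
      have : (Λ β).eval β = 1 :=
        Lagrange.eval_basis_self (s := crt Q) (v := id) (fun _ _ _ _ h => h) hβ
      rw [this]; ring
    · intro α _ hne
      have : (Λ α).eval β = 0 :=
        Lagrange.eval_basis_of_ne (s := crt Q) (v := id) hne hβ
      rw [eval_mul, eval_mul, this]; ring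
    · intro h; exact absurd hβ h
  set T := rePoly D TC with hT
  have hTd : T.natDegree < D := rePoly_natDegree (by omega) _
  have hTα : ∀ β ∈ crt Q, aeval β (E - T) = 0 := by
    intro β hβ
    have h1 := rePoly_aeval hTCd β
    rw [hTCα β hβ, hTCα _ (conj_mem_crt hQ0 hβ), aeval_conj_real, Complex.conj_conj] at h1
    rw [← hT] at h1
    rw [map_sub]
    linear_combination (-1 / 2 : ℂ) * h1
  obtain ⟨R', hR'⟩ := dvd_of_roots hQ hd hTα
  refine ⟨g, R', hgd, ?_, ?_⟩
  · rcases eq_or_ne R' 0 with h0 | h0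
    · rw [h0, natDegree_zero]; omega
    · have h1 : (E - T).natDegree = n + R'.natDegree := by
        rw [hR', natDegree_mul hQr0 h0, hQrn]
      have h2 : (E - T).natDegree < D := (natDegree_sub_le _ _).trans_lt (max_lt hEd hTd)
      omega
  · intro x hx
    have h1 : R.eval x - aeval x g - aeval x Q * R'.eval x = (TC.eval (x : ℂ)).re := by
      have h2 := congrArg (Polynomial.eval x) hR'
      rw [eval_sub, eval_mul, hE, eval_sub, aeval_map_int_real, aeval_map_int_real, hT,
        rePoly_eval hTCd] at h2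
      linarith
    rw [h1]
    refine (Complex.abs_re_le_norm _).trans ?_
    rw [hTC, eval_finsetSum]
    refine (norm_sum_le _ _).trans ?_
    rw [Finset.sum_mul, Finset.sum_mul]
    refine Finset.sum_le_sum fun α hα => ?_
    rw [eval_mul, eval_C, eval_mul, norm_mul, norm_mul]
    have t1 := hEα α hα
    have t2 := hGGb α x hx
    have t3 := hBΛ α x hx
    have hCGα := hCG0 α
    have hBα := hBΛ0 α
    have hCRα := hCR0 α
    have hUx := abs_le.1 (hCb x hx)
    have hcastk : ((k : ℕ) : ℝ) = D - n - n0 := by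
      rw [hk, Nat.cast_sub (by omega), Nat.cast_sub (by omega)]
    have hDn : (((D - n : ℕ) : ℕ) : ℝ) = D - n := by rw [Nat.cast_sub (by omega)]
    have hGr1 : (N : ℝ) * G ≤ D - n := by rw [← hDn]; exact_mod_cast hG1
    have hGr2 : (D : ℝ) - n < N * G + N := by rw [← hDn]; exact_mod_cast hG2
    have hnr : (0 : ℝ) ≤ n := Nat.cast_nonneg _
    have hNr : (0 : ℝ) ≤ N := Nat.cast_nonneg _
    have hn0r : (0 : ℝ) ≤ n0 := Nat.cast_nonneg _
    calc ‖aeval α E‖ * (‖(GG α).eval (x : ℂ)‖ * ‖(Λ α).eval (x : ℂ)‖)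
        ≤ (CR α * Real.exp (G * (N * (v α - c1)))) *
          ((CG α * Real.exp (k * (Up n0 c r p (x : ℂ) - Up n0 c r p α))) * BΛ α) := by
          gcongr
      _ = CR α * CG α * BΛ α * Real.exp (G * (N * (v α - c1))
            + k * (Up n0 c r p (x : ℂ) - Up n0 c r p α)) := by
          rw [Real.exp_add]; ring
      _ ≤ CR α * CG α * BΛ α * Real.exp (((n + N) * |v α - c1|
            + (n + n0) * (Cb + |Up n0 c r p α|)) + -(c1 * D)
            + D * (Up n0 c r p (x : ℂ) + κ)) := by
          refine mul_le_mul_of_nonneg_left (Real.exp_le_exp.2 ?_) (by positivity)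
          have a1 : G * (N * (v α - c1)) ≤ D * (v α - c1) + (n + N) * |v α - c1| := by
            have b1 : (G : ℝ) * (N * (v α - c1)) - D * (v α - c1)
                = (N * G - D) * (v α - c1) := by ring
            have b2 : (N * G - D) * (v α - c1) ≤ |(N : ℝ) * G - D| * |v α - c1| := by
              rw [← abs_mul]; exact le_abs_self _
            have b3 : |(N : ℝ) * G - D| ≤ n + N := by
              rw [abs_le]; constructor <;> linarith
            have b4 := mul_le_mul_of_nonneg_right b3 (abs_nonneg (v α - c1))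
            linarith
          have a2 : k * (Up n0 c r p (x : ℂ) - Up n0 c r p α)
              ≤ D * (Up n0 c r p (x : ℂ) - Up n0 c r p α)
                + (n + n0) * (Cb + |Up n0 c r p α|) := by
            rw [hcastk]
            have b1 : -(Up n0 c r p (x : ℂ) - Up n0 c r p α) ≤ Cb + |Up n0 c r p α| := by
              have := le_abs_self (Up n0 c r p α)
              linarith [hUx.1]
            have b2 := mul_le_mul_of_nonneg_left b1 (add_nonneg hnr hn0r)
            linarith
          have a3 : v α = Up n0 c r p α + κ := rfl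
          have a4 : D * (v α - c1) + D * (Up n0 c r p (x : ℂ) - Up n0 c r p α)
              = -(c1 * D) + D * (Up n0 c r p (x : ℂ) + κ) := by rw [a3]; ring
          linarith
      _ = _ := by rw [Real.exp_add, Real.exp_add, hKK]; ring

end Pool.Agent.SSS
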