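import Mathlib
import Pool.Agent.SSS.QStep

/-! The covering radius of the integer polynomials tends to zero. -/

namespace Pool.Agent.SSS

open Complex ComplexConjugate Polynomial UniqueFactorizationMonoid

variable {n0 : ℕ} {c : ℕ → ℝ} {r : ℝ} {p : ℕ → ℝ} {κ M' : ℝ}

lemma Stp.multiset (hr : 0 < r) (F : Multiset ℤ[X])
    (hF : ∀ Q ∈ F, Stp (fun x => Up n0 c r p (x : ℂ) + κ) M' Q Q.natDegree) :
    Stp (fun x => Up n0 c r p (x : ℂ) + κ) M' F.prod (F.map natDegree).sum := by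
  obtain ⟨Cb, hCb0, hCb⟩ := exists_Up_bound n0 c hr p M'
  induction F using Multiset.induction_on with
  | empty =>
    simpa using Stp.const (V := fun x => Up n0 c r p (x : ℂ) + κ) (M' := M')
      (a := 1) one_ne_zero
  | cons a F ih =>
    rw [Multiset.prod_cons, Multiset.map_cons, Multiset.sum_cons]
    exact Stp.comp (b := Cb + |κ|)
      (fun x hx => by linarith [(abs_le.1 (hCb x hx)).1, neg_abs_le κ])
      (hF a (Multiset.mem_cons_self a F)) (ih fun Q hQ => hF Q (Multiset.mem_cons_of_mem hQ))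

theorem cov_final (hr : 0 < r) (hp0 : ∀ l, 0 ≤ p l) (hp1 : ∑ l ∈ Finset.range n0, p l = 1)
    (hκ : 0 < κ) {s0 : ℤ[X]} (hs0 : s0 ≠ 0) {m : ℕ} (hm : s0.natDegree < m)
    (hfac : ∀ Q ∈ normalizedFactors s0, Q.natDegree ≠ 0 →
      0 < la Q + ∑ α ∈ crt Q, (Up n0 c r p α + κ)) {c' : ℝ} (hc' : 0 < c')
    (hsb : ∀ x ∈ Set.Icc 0 M', |aeval x s0| ≤ Real.exp (m * ((Up n0 c r p (x : ℂ) + κ) - c'))) :
    ∃ A δ : ℝ, 0 ≤ A ∧ 0 < δ ∧ ∀ D : ℕ, 0 < D →
      Cov (fun x => Up n0 c r p (x : ℂ) + κ) M' D (A * Real.exp (-(δ * D))) := by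
  obtain ⟨Cb, hCb0, hCb⟩ := exists_Up_bound n0 c hr p M'
  have hb : ∀ x ∈ Set.Icc 0 M', -Cb ≤ Up n0 c r p (x : ℂ) + κ :=
    fun x hx => by linarith [(abs_le.1 (hCb x hx)).1]
  set F := normalizedFactors s0 with hF
  have h1 : Stp (fun x => Up n0 c r p (x : ℂ) + κ) M' F.prod (F.map natDegree).sum := by
    apply Stp.multiset hr
    intro Q hQ
    have hirr := irreducible_of_normalized_factor Q hQ
    by_cases hd : Q.natDegree = 0
    · rw [hd]
      have h2 : Q = C (Q.coeff 0) := eq_C_of_natDegree_eq_zero hd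
      have h3 : Q.coeff 0 ≠ 0 := by
        intro h0; rw [h0, C_0] at h2; exact hirr.ne_zero h2
      rw [h2]
      exact Stp.const h3
    · exact Stp.irred hr hp0 hp1 M' hirr hd (hfac Q hQ hd)
  have hne : ∀ Q ∈ F, Q ≠ 0 := fun Q hQ => (irreducible_of_normalized_factor Q hQ).ne_zero
  have hdeg : (F.map natDegree).sum = F.prod.natDegree := by
    rw [natDegree_multiset_prod _ (fun h0 => hne 0 h0 rfl)]
  rw [hdeg] at h1
  obtain ⟨u, hu⟩ := prod_normalizedFactors hs0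
  obtain ⟨a, ha, hau⟩ := Polynomial.isUnit_iff.1 u.isUnit
  have ha0 : a ≠ 0 := ha.ne_zero
  have hsdeg : s0.natDegree = F.prod.natDegree := by
    rw [← hu, ← hau, natDegree_mul_C ha0]
  have h2 : Stp (fun x => Up n0 c r p (x : ℂ) + κ) M' s0 (s0.natDegree + 0) := by
    rw [hsdeg]
    nth_rewrite 1 [← hu]
    rw [← hau]
    exact Stp.comp hb h1 (Stp.const ha0)
  have h3 := Stp.comp hb h2 (Stp.infty_iter (c := c) hr hp0 hp1 hκ M' (m - s0.natDegree))
  have h4 : s0.natDegree + 0 + (m - s0.natDegree) = m := by omega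
  rw [mul_one, h4] at h3
  exact cov_decay hb (by omega) h3 hc' hsb

end Pool.Agent.SSS
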