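import Mathlib
import Pool.Agent.SSS.Pots

/-! Real values of the monic Chebyshev polynomials. -/

namespace Pool.Agent.SSS

open Complex ComplexConjugate Polynomial

lemma exp_UU_pow {c r : ℝ} (hr : 0 < r) {w z : ℂ} (hw : 1 ≤ ‖w‖)
    (hz : (c : ℂ) + r * (w + w⁻¹) = z) (n : ℕ) :
    Real.exp (n * UU c r z) = r ^ n * ‖w‖ ^ n := by
  rw [UU_eq hr hw hz, ← Real.log_mul hr.ne' (by linarith), ← Real.log_pow,
    Real.exp_log (by positivity), mul_pow]

lemma eval_DD_real {c r t : ℝ} (ht : t ≠ 0) (n : ℕ) :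
    (DD c r n).eval (c + r * (t + t⁻¹)) = r ^ n * (t ^ n + (t⁻¹) ^ n) := by
  have htc : (t : ℂ) ≠ 0 := by exact_mod_cast ht
  have h := aeval_DD (c := c) (r := r) htc n
  have h1 : aeval (((c + r * (t + t⁻¹) : ℝ)) : ℂ) (DD c r n)
      = (((DD c r n).eval (c + r * (t + t⁻¹)) : ℝ) : ℂ) := by
    rw [show ((c + r * (t + t⁻¹) : ℝ) : ℂ) = algebraMap ℝ ℂ (c + r * (t + t⁻¹)) from rfl,
      aeval_algebraMap_apply]; rfl
  have h2 : (((c + r * (t + t⁻¹) : ℝ)) : ℂ) = (c : ℂ) + r * ((t : ℂ) + (t : ℂ)⁻¹) := by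
    push_cast; ring
  rw [h2, h] at h1
  exact_mod_cast h1.symm

lemma eval_DD_cos {c r θ : ℝ} (n : ℕ) :
    (DD c r n).eval (c + 2 * r * Real.cos θ) = 2 * r ^ n * Real.cos (n * θ) := by
  induction n using Nat.twoStepInduction with
  | zero => rw [DD_zero]; simp
  | one => rw [DD_one]; simp
  | more n h1 h2 =>
    rw [DD_add_two, eval_sub, eval_mul, eval_mul, h1, h2]
    simp only [eval_sub, eval_X, eval_C]
    have e1 : Real.cos (((n + 2 : ℕ) : ℝ) * θ) = 2 * Real.cos θ * Real.cos (((n + 1 : ℕ) : ℝ) * θ)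
        - Real.cos (n * θ) := by
      have a1 : ((n + 2 : ℕ) : ℝ) * θ = ((n + 1 : ℕ) : ℝ) * θ + θ := by push_cast; ring
      have a2 : (n : ℝ) * θ = ((n + 1 : ℕ) : ℝ) * θ - θ := by push_cast; ring
      rw [a1, a2, Real.cos_add, Real.cos_sub]; ring
    rw [e1]; ring

/-- points to the right of the interval -/
lemma exists_right {c r x : ℝ} (hr : 0 < r) (hx : c + 2 * r ≤ x) :
    ∃ t : ℝ, 1 ≤ t ∧ x = c + r * (t + t⁻¹) := by
  set s := (x - c) / (2 * r) with hs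
  have hs1 : 1 ≤ s := by rw [hs, le_div_iff₀ (by positivity)]; linarith
  have hsq : 0 ≤ s ^ 2 - 1 := by nlinarith
  have hsqrt := Real.sq_sqrt hsq
  have h0 := Real.sqrt_nonneg (s ^ 2 - 1)
  refine ⟨s + √(s ^ 2 - 1), by linarith, ?_⟩
  have hinv : (s + √(s ^ 2 - 1))⁻¹ = s - √(s ^ 2 - 1) := by
    apply inv_eq_of_mul_eq_one_right; nlinarith
  rw [hinv, hs]
  field_simp
  ring

lemma exists_left {c r x : ℝ} (hr : 0 < r) (hx : x ≤ c - 2 * r) :
    ∃ t : ℝ, 1 ≤ t ∧ x = c - r * (t + t⁻¹) := by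
  obtain ⟨t, ht, he⟩ := exists_right (c := -c) (x := -x) hr (by linarith)
  exact ⟨t, ht, by linarith⟩

lemma UU_right {c r t : ℝ} (hr : 0 < r) (ht : 1 ≤ t) (n : ℕ) :
    Real.exp (n * UU c r ((c + r * (t + t⁻¹) : ℝ) : ℂ)) = r ^ n * t ^ n := by
  have := exp_UU_pow (c := c) (w := (t : ℂ)) (z := ((c + r * (t + t⁻¹) : ℝ) : ℂ)) hr
    (by rw [Complex.norm_real, Real.norm_of_nonneg (by linarith)]; exact ht)
    (by push_cast; ring) n
  rw [this, Complex.norm_real, Real.norm_of_nonneg (by linarith)]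

lemma UU_left {c r t : ℝ} (hr : 0 < r) (ht : 1 ≤ t) (n : ℕ) :
    Real.exp (n * UU c r ((c - r * (t + t⁻¹) : ℝ) : ℂ)) = r ^ n * t ^ n := by
  have := exp_UU_pow (c := c) (w := (-t : ℂ)) (z := ((c - r * (t + t⁻¹) : ℝ) : ℂ)) hr
    (by rw [norm_neg, Complex.norm_real, Real.norm_of_nonneg (by linarith)]; exact ht)
    (by rw [inv_neg]; push_cast; ring) n
  rw [this, norm_neg, Complex.norm_real, Real.norm_of_nonneg (by linarith)]

lemma UU_mid {c r θ : ℝ} (hr : 0 < r) :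
    UU c r ((c + 2 * r * Real.cos θ : ℝ) : ℂ) = Real.log r := by
  have h1 : ‖Complex.exp (θ * I)‖ = 1 := Complex.norm_exp_ofReal_mul_I θ
  rw [UU_eq (w := Complex.exp (θ * I)) hr h1.ge, h1, Real.log_one, add_zero]
  rw [← Complex.exp_neg]
  push_cast
  rw [Complex.cos]
  have : -(↑θ * I) = -↑θ * I := by ring
  rw [this]; ring

lemma TT_eval_of_pos {c r x : ℝ} {n : ℕ} (hn : n ≠ 0) : (TT c r n).eval x = (DD c r n).eval x := by
  unfold TT; rw [if_neg hn]

lemma TT_right {c r x : ℝ} (hr : 0 < r) (hx : c + 2 * r ≤ x) (n : ℕ) :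
    Real.exp (n * UU c r (x : ℂ)) ≤ (TT c r n).eval x := by
  obtain ⟨t, ht, rfl⟩ := exists_right hr hx
  rcases Nat.eq_zero_or_pos n with h | h
  · subst h; rw [TT_zero]; simp
  · rw [UU_right hr ht, TT_eval_of_pos h.ne', eval_DD_real (by linarith)]
    have : 0 < r ^ n * (t⁻¹) ^ n := by positivity
    linarith

lemma eval_DD_left {c r t : ℝ} (ht : t ≠ 0) (n : ℕ) :
    (DD c r n).eval (c - r * (t + t⁻¹)) = (-1) ^ n * (r ^ n * (t ^ n + (t⁻¹) ^ n)) := by
  have h := eval_DD_real (c := c) (r := r) (t := -t) (neg_ne_zero.2 ht) n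
  have e : c + r * (-t + (-t)⁻¹) = c - r * (t + t⁻¹) := by rw [inv_neg]; ring
  rw [e] at h
  rw [h, inv_neg, neg_pow t, neg_pow t⁻¹]; ring

lemma TT_left {c r x : ℝ} (hr : 0 < r) (hx : x ≤ c - 2 * r) (n : ℕ) :
    Real.exp (n * UU c r (x : ℂ)) ≤ (-1) ^ n * (TT c r n).eval x := by
  obtain ⟨t, ht, rfl⟩ := exists_left hr hx
  rcases Nat.eq_zero_or_pos n with h | h
  · subst h; rw [TT_zero]; simp
  · have e : ∀ Z : ℝ, (-1 : ℝ) ^ n * ((-1) ^ n * Z) = Z := by
      intro Z; rw [← mul_assoc, ← mul_pow]; norm_num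
    rw [UU_left hr ht, TT_eval_of_pos h.ne', eval_DD_left (by linarith), e]
    have : 0 < r ^ n * (t⁻¹) ^ n := by positivity
    linarith

/-- extremal points -/
noncomputable def xp (c r : ℝ) (n j : ℕ) : ℝ := c + 2 * r * Real.cos (j * Real.pi / n)

lemma TT_ext {c r : ℝ} (hr : 0 < r) {n : ℕ} (hn : n ≠ 0) (j : ℕ) :
    (-1) ^ j * (TT c r n).eval (xp c r n j) = 2 * Real.exp (n * UU c r (xp c r n j : ℂ)) := by
  unfold xp
  rw [TT_eval_of_pos hn, eval_DD_cos, UU_mid hr]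
  have h1 : (n : ℝ) * (j * Real.pi / n) = j * Real.pi := by
    have : (n : ℝ) ≠ 0 := by exact_mod_cast hn
    field_simp
  rw [h1, Real.cos_nat_mul_pi, ← Real.log_pow, Real.exp_log (by positivity)]
  have : (-1 : ℝ) ^ j * (-1) ^ j = 1 := by rw [← mul_pow]; norm_num
  linear_combination (2 * r ^ n) * this

lemma xp_mem {c r : ℝ} (hr : 0 < r) (n j : ℕ) :
    c - 2 * r ≤ xp c r n j ∧ xp c r n j ≤ c + 2 * r := by
  unfold xp
  have h1 := Real.neg_one_le_cos (j * Real.pi / n)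
  have h2 := Real.cos_le_one (j * Real.pi / n)
  constructor <;> nlinarith

lemma xp_anti {c r : ℝ} (hr : 0 < r) {n j k : ℕ} (hn : n ≠ 0) (hjk : j < k) (hk : k ≤ n) :
    xp c r n k < xp c r n j := by
  unfold xp
  have hn0 : (0 : ℝ) < n := by exact_mod_cast Nat.pos_of_ne_zero hn
  have hlt : Real.cos (k * Real.pi / n) < Real.cos (j * Real.pi / n) := by
    apply Real.cos_lt_cos_of_nonneg_of_le_pi
    · positivity
    · rw [div_le_iff₀ hn0]
      have : (k : ℝ) ≤ n := by exact_mod_cast hk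
      nlinarith [Real.pi_pos]
    · have : (j : ℝ) < k := by exact_mod_cast hjk
      have hpi := Real.pi_pos
      gcongr
  nlinarith

lemma cosh_mono {t : ℝ} (ht : 1 ≤ t) {m n : ℕ} (h : m ≤ n) :
    t ^ m + (t⁻¹) ^ m ≤ t ^ n + (t⁻¹) ^ n := by
  have ht0 : 0 < t := by linarith
  have h1 : t ^ m ≤ t ^ n := pow_le_pow_right₀ ht h
  have h2 : (t⁻¹) ^ (m + n) ≤ 1 := pow_le_one₀ (by positivity) (inv_le_one_of_one_le₀ ht)
  have h3 : (t ^ n + (t⁻¹) ^ n) - (t ^ m + (t⁻¹) ^ m) = (t ^ n - t ^ m) * (1 - (t⁻¹) ^ (m + n)) := by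
    have e1 : t ^ m * (t⁻¹) ^ m = 1 := by rw [← mul_pow, mul_inv_cancel₀ ht0.ne', one_pow]
    have e2 : t ^ n * (t⁻¹) ^ n = 1 := by rw [← mul_pow, mul_inv_cancel₀ ht0.ne', one_pow]
    rw [pow_add]
    linear_combination (-(t⁻¹) ^ n) * e1 + (t⁻¹) ^ m * e2
  have h4 : 0 ≤ (t ^ n - t ^ m) * (1 - (t⁻¹) ^ (m + n)) :=
    mul_nonneg (by linarith) (by linarith)
  linarith

/-- comparison of two monic Chebyshev polynomials to the left of the interval -/
lemma TT_ratio_left {c r x : ℝ} (hr : 0 < r) (hx : x ≤ c - 2 * r) {n i : ℕ} (hi : i ≤ n) :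
    r ^ i * |(TT c r (n - i)).eval x| ≤ |(TT c r n).eval x| := by
  obtain ⟨t, ht, rfl⟩ := exists_left hr hx
  have ht0 : 0 < t := by linarith
  have habs : ∀ k : ℕ, |(DD c r k).eval (c - r * (t + t⁻¹))| = r ^ k * (t ^ k + (t⁻¹) ^ k) := by
    intro k
    rw [eval_DD_left ht0.ne', abs_mul, abs_pow, abs_neg, abs_one, one_pow, one_mul,
      abs_of_nonneg (by positivity)]
  rcases Nat.eq_zero_or_pos (n - i) with h | h
  · have hn : n = i := by omega
    subst hn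
    rw [h, TT_zero, eval_one, abs_one, mul_one]
    rcases Nat.eq_zero_or_pos n with h0 | h0
    · subst h0; rw [TT_zero]; simp
    · rw [TT_eval_of_pos h0.ne', habs]
      have : 1 ≤ t ^ n := one_le_pow₀ ht
      have h3 : 0 < (t⁻¹) ^ n := by positivity
      have h4 : 0 < r ^ n := by positivity
      nlinarith
  · rw [TT_eval_of_pos h.ne', TT_eval_of_pos (by omega), habs, habs, ← mul_assoc, ← pow_add]
    have : i + (n - i) = n := by omega
    rw [this]
    exact mul_le_mul_of_nonneg_left (cosh_mono ht (by omega)) (by positivity)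

/-- comparison at extremal points -/
lemma TT_ratio_ext {c r : ℝ} (hr : 0 < r) {n i : ℕ} (hn : n ≠ 0) (hi : i ≤ n) (j : ℕ) :
    r ^ i * |(TT c r (n - i)).eval (xp c r n j)| ≤ |(TT c r n).eval (xp c r n j)| := by
  have h1 := TT_ext (c := c) hr hn j
  have hU : UU c r (xp c r n j : ℂ) = Real.log r := UU_mid hr
  have hE : ∀ k : ℕ, Real.exp (k * UU c r (xp c r n j : ℂ)) = r ^ k := by
    intro k; rw [hU, ← Real.log_pow, Real.exp_log (by positivity)]
  rw [hE] at h1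
  have h2 : |(TT c r n).eval (xp c r n j)| = 2 * r ^ n := by
    have h3 := congrArg abs h1
    rw [abs_mul, abs_pow, abs_neg, abs_one, one_pow, one_mul] at h3
    rw [h3]
    exact abs_of_pos (by positivity)
  rw [h2]
  have h3 := abs_TT_le (c := c) hr (xp c r n j) (n - i)
  rw [hE] at h3
  have : r ^ i * r ^ (n - i) = r ^ n := by rw [← pow_add]; congr 1; omega
  calc r ^ i * |(TT c r (n - i)).eval (xp c r n j)| ≤ r ^ i * (2 * r ^ (n - i)) := by gcongr
    _ = 2 * (r ^ i * r ^ (n - i)) := by ring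
    _ = 2 * r ^ n := by rw [this]

end Pool.Agent.SSS
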