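import Mathlib
import Pool.Agent.SSS.ChebReal

/-! Real-rootedness of small perturbations of Chebyshev products. -/

namespace Pool.Agent.SSS

open Polynomial

/-- product of monic Chebyshev polynomials of several intervals -/
noncomputable def PP (k0 : ℕ) (cc rr : ℕ → ℝ) (N : ℕ → ℕ) : ℝ[X] :=
  ∏ l ∈ Finset.range k0, TT (cc l) (rr l) (N l)

lemma PP_monic (k0 : ℕ) (cc rr : ℕ → ℝ) (N : ℕ → ℕ) : (PP k0 cc rr N).Monic :=
  monic_prod_of_monic _ _ fun _ _ => TT_monic _ _ _

lemma PP_natDegree (k0 : ℕ) (cc rr : ℕ → ℝ) (N : ℕ → ℕ) :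
    (PP k0 cc rr N).natDegree = ∑ l ∈ Finset.range k0, N l := by
  unfold PP
  rw [natDegree_prod_of_monic _ _ fun _ _ => TT_monic _ _ _]
  simp only [TT_natDegree]

/-- sign of the factors outside the `l`-th -/
noncomputable def sg (k0 : ℕ) (N : ℕ → ℕ) (l : ℕ) : ℝ :=
  ∏ l' ∈ (Finset.range k0).erase l, (if l' < l then 1 else (-1) ^ (N l'))

variable {k0 : ℕ} {cc rr : ℕ → ℝ} {N : ℕ → ℕ}

lemma PP_sign (hrr : ∀ l, 0 < rr l)
    (hord : ∀ l l', l < l' → l' < k0 → cc l + 2 * rr l ≤ cc l' - 2 * rr l')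
    {l : ℕ} (hl : l < k0) (hN : N l ≠ 0) (j : ℕ) :
    ∏ l' ∈ Finset.range k0, Real.exp (N l' * UU (cc l') (rr l') (xp (cc l) (rr l) (N l) j : ℂ))
      ≤ (-1) ^ j * sg k0 N l * (PP k0 cc rr N).eval (xp (cc l) (rr l) (N l) j) := by
  set x := xp (cc l) (rr l) (N l) j with hx
  obtain ⟨hx1, hx2⟩ := xp_mem (c := cc l) (hrr l) (N l) j
  rw [← hx] at hx1 hx2
  have hmem : l ∈ Finset.range k0 := Finset.mem_range.2 hl
  unfold PP sg
  rw [eval_prod, ← Finset.mul_prod_erase _ _ hmem, ← Finset.mul_prod_erase _ (fun l' =>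
    eval x (TT (cc l') (rr l') (N l'))) hmem]
  have h1 : Real.exp (N l * UU (cc l) (rr l) (x : ℂ)) ≤ (-1) ^ j * (TT (cc l) (rr l) (N l)).eval x := by
    rw [hx, TT_ext (hrr l) hN]
    have := Real.exp_pos (N l * UU (cc l) (rr l) ((xp (cc l) (rr l) (N l) j : ℝ) : ℂ))
    linarith
  have h2 : ∏ l' ∈ (Finset.range k0).erase l, Real.exp (N l' * UU (cc l') (rr l') (x : ℂ))
      ≤ ∏ l' ∈ (Finset.range k0).erase l, ((if l' < l then 1 else (-1) ^ (N l'))
        * (TT (cc l') (rr l') (N l')).eval x) := by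
    refine Finset.prod_le_prod (fun _ _ => (Real.exp_pos _).le) fun l' hl' => ?_
    have hne := Finset.ne_of_mem_erase hl'
    have hl'k := Finset.mem_range.1 (Finset.mem_of_mem_erase hl')
    split_ifs with h
    · rw [one_mul]
      exact TT_right (hrr l') (by linarith [hord l' l h hl]) _
    · have h' : l < l' := by omega
      exact TT_left (hrr l') (by linarith [hord l l' h' hl'k]) _
  rw [Finset.prod_mul_distrib] at h2
  calc _ ≤ ((-1) ^ j * (TT (cc l) (rr l) (N l)).eval x) *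
        ((∏ l' ∈ (Finset.range k0).erase l, (if l' < l then (1 : ℝ) else (-1) ^ (N l')))
          * ∏ l' ∈ (Finset.range k0).erase l, (TT (cc l') (rr l') (N l')).eval x) :=
        mul_le_mul h1 h2 (Finset.prod_nonneg fun _ _ => (Real.exp_pos _).le)
          ((Real.exp_pos _).le.trans h1)
    _ = _ := by ring

lemma sg_abs (k0 : ℕ) (N : ℕ → ℕ) (l : ℕ) : |sg k0 N l| = 1 := by
  unfold sg
  rw [Finset.abs_prod]
  apply Finset.prod_eq_one
  intro l' _
  split_ifs
  · simp
  · rw [abs_pow, abs_neg, abs_one, one_pow]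

theorem roots_of_perturbation (hrr : ∀ l, 0 < rr l)
    (hord : ∀ l l', l < l' → l' < k0 → cc l + 2 * rr l ≤ cc l' - 2 * rr l')
    {f : ℝ[X]} (hf : f.Monic) (hfd : f.natDegree = ∑ l ∈ Finset.range k0, N l)
    (hpert : ∀ l < k0, N l ≠ 0 → ∀ j ≤ N l,
      |f.eval (xp (cc l) (rr l) (N l) j) - (PP k0 cc rr N).eval (xp (cc l) (rr l) (N l) j)|
        < |(PP k0 cc rr N).eval (xp (cc l) (rr l) (N l) j)|) :
    ∃ S : Finset ℝ, f.roots = S.val ∧ S.card = f.natDegree ∧
      (∀ y ∈ S, ∃ l < k0, cc l - 2 * rr l ≤ y ∧ y ≤ cc l + 2 * rr l) ∧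
      ∑ y ∈ S, y ≤ ∑ l ∈ Finset.range k0, N l * (cc l + 2 * rr l) := by
  classical
  set P := PP k0 cc rr N with hP
  set x : ℕ → ℕ → ℝ := fun l j => xp (cc l) (rr l) (N l) j with hx
  -- signs of f
  have hsign : ∀ l < k0, N l ≠ 0 → ∀ j ≤ N l, 0 < (-1) ^ j * sg k0 N l * f.eval (x l j) := by
    intro l hl hN j hj
    have h1 := PP_sign hrr hord hl hN j (N := N)
    have h2 : 0 < (-1) ^ j * sg k0 N l * P.eval (x l j) :=
      lt_of_lt_of_le (Finset.prod_pos fun _ _ => Real.exp_pos _) h1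
    have h3 := hpert l hl hN j hj
    have hs : |(-1) ^ j * sg k0 N l| = 1 := by
      rw [abs_mul, abs_pow, abs_neg, abs_one, one_pow, one_mul, sg_abs]
    have h4 : |P.eval (x l j)| = (-1) ^ j * sg k0 N l * P.eval (x l j) := by
      rw [← abs_of_pos h2, abs_mul, hs, one_mul]
    have h5 : |(-1) ^ j * sg k0 N l * (f.eval (x l j) - P.eval (x l j))|
        = |f.eval (x l j) - P.eval (x l j)| := by rw [abs_mul, hs, one_mul]
    have h6 := neg_abs_le ((-1) ^ j * sg k0 N l * (f.eval (x l j) - P.eval (x l j)))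
    rw [h5] at h6
    have h7 : |f.eval (x l j) - P.eval (x l j)| < |P.eval (x l j)| := h3
    rw [h4] at h7
    linarith
  -- roots between consecutive extremal points
  have hroot : ∀ l j : ℕ, ∃ y : ℝ, l < k0 → j < N l → (x l (j + 1) < y ∧ y < x l j ∧ f.eval y = 0) := by
    intro l j
    by_cases h : l < k0 ∧ j < N l
    · obtain ⟨hl, hj⟩ := h
      have hN : N l ≠ 0 := by omega
      have hlt : x l (j + 1) < x l j := xp_anti (hrr l) hN (by omega) (by omega)
      have s1 := hsign l hl hN j (by omega)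
      have s2 := hsign l hl hN (j + 1) (by omega)
      have hc : ContinuousOn (fun t => (-1) ^ j * sg k0 N l * f.eval t) (Set.Icc (x l (j + 1)) (x l j)) :=
        (continuous_const.mul f.continuous).continuousOn
      have h0 : (0 : ℝ) ∈ Set.Ioo ((-1) ^ j * sg k0 N l * f.eval (x l (j + 1)))
          ((-1) ^ j * sg k0 N l * f.eval (x l j)) := by
        refine ⟨?_, s1⟩
        rw [pow_succ] at s2; linarith
      obtain ⟨y, hy, hy0⟩ := intermediate_value_Ioo hlt.le hc h0
      refine ⟨y, fun _ _ => ⟨hy.1, hy.2, ?_⟩⟩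
      have hne : (-1) ^ j * sg k0 N l ≠ 0 := by
        intro h0'
        have : |(-1) ^ j * sg k0 N l| = 1 := by
          rw [abs_mul, abs_pow, abs_neg, abs_one, one_pow, one_mul, sg_abs]
        rw [h0'] at this; simp at this
      exact (mul_eq_zero.1 hy0).resolve_left hne
    · exact ⟨0, fun h1 h2 => absurd ⟨h1, h2⟩ h⟩
  choose y hy using hroot
  set T : Finset ((_ : ℕ) × ℕ) := (Finset.range k0).sigma (fun l => Finset.range (N l)) with hT
  have hTmem : ∀ i ∈ T, i.1 < k0 ∧ i.2 < N i.1 := by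
    intro i hi
    rw [hT, Finset.mem_sigma, Finset.mem_range, Finset.mem_range] at hi
    exact hi
  have hyb : ∀ i ∈ T, cc i.1 - 2 * rr i.1 < y i.1 i.2 ∧ y i.1 i.2 < cc i.1 + 2 * rr i.1 := by
    intro i hi
    obtain ⟨h1, h2⟩ := hTmem i hi
    obtain ⟨a, b, -⟩ := hy i.1 i.2 h1 h2
    have m1 := xp_mem (c := cc i.1) (hrr i.1) (N i.1) (i.2 + 1)
    have m2 := xp_mem (c := cc i.1) (hrr i.1) (N i.1) i.2
    exact ⟨lt_of_le_of_lt m1.1 a, lt_of_lt_of_le b m2.2⟩
  have hne1 : ∀ i ∈ T, ∀ i' ∈ T, i.1 < i'.1 → y i.1 i.2 < y i'.1 i'.2 := by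
    intro i hi i' hi' hlt
    have := hord i.1 i'.1 hlt (hTmem i' hi').1
    linarith [(hyb i hi).2, (hyb i' hi').1]
  have hne2 : ∀ l j j', l < k0 → j < j' → j' < N l → y l j' < y l j := by
    intro l j j' hl hjj hj'
    obtain ⟨-, b, -⟩ := hy l j' hl hj'
    obtain ⟨a, -, -⟩ := hy l j hl (by omega)
    rcases Nat.lt_or_ge (j + 1) j' with h | h
    · have : x l j' < x l (j + 1) := xp_anti (hrr l) (by omega) h (by omega)
      linarith
    · have : j' = j + 1 := by omega
      rw [this] at b ⊢; linarith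
  have hinj : Set.InjOn (fun i : (_ : ℕ) × ℕ => y i.1 i.2) T := by
    intro i hi i' hi' he
    simp only at he
    rcases lt_trichotomy i.1 i'.1 with h | h | h
    · exact absurd he (hne1 i hi i' hi' h).ne
    · obtain ⟨l, j⟩ := i
      obtain ⟨l', j'⟩ := i'
      simp only at h he
      subst h
      rcases lt_trichotomy j j' with h2 | h2 | h2
      · exact absurd he (hne2 l j j' (hTmem _ hi).1 h2 (hTmem _ hi').2).ne'
      · rw [h2]
      · exact absurd he (hne2 l j' j (hTmem _ hi).1 h2 (hTmem _ hi).2).ne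
    · exact absurd he (hne1 i' hi' i hi h).ne'
  set S : Finset ℝ := T.image (fun i => y i.1 i.2) with hS
  have hScard : S.card = f.natDegree := by
    rw [hS, Finset.card_image_of_injOn hinj, hT, Finset.card_sigma, hfd]
    simp
  have hf0 : f ≠ 0 := hf.ne_zero
  have hSle : S.val ≤ f.roots := by
    rw [Multiset.le_iff_subset S.nodup]
    intro z hz
    rw [Finset.mem_val, hS, Finset.mem_image] at hz
    obtain ⟨i, hi, rfl⟩ := hz
    rw [mem_roots hf0, IsRoot.def]
    exact (hy i.1 i.2 (hTmem i hi).1 (hTmem i hi).2).2.2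
  have hroots : f.roots = S.val := by
    symm
    apply Multiset.eq_of_le_of_card_le hSle
    rw [Finset.card_val, hScard]
    exact card_roots' f
  refine ⟨S, hroots, hScard, ?_, ?_⟩
  · intro z hz
    rw [hS, Finset.mem_image] at hz
    obtain ⟨i, hi, rfl⟩ := hz
    exact ⟨i.1, (hTmem i hi).1, (hyb i hi).1.le, (hyb i hi).2.le⟩
  · rw [hS, Finset.sum_image hinj, hT, Finset.sum_sigma]
    refine Finset.sum_le_sum fun l hl => ?_
    calc ∑ j ∈ Finset.range (N l), y l j ≤ ∑ j ∈ Finset.range (N l), (cc l + 2 * rr l) := by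
          refine Finset.sum_le_sum fun j hj => ?_
          have : (⟨l, j⟩ : (_ : ℕ) × ℕ) ∈ T := by
            rw [hT, Finset.mem_sigma]; exact ⟨hl, hj⟩
          exact (hyb _ this).2.le
      _ = N l * (cc l + 2 * rr l) := by
          rw [Finset.sum_const, Finset.card_range, nsmul_eq_mul]

/-- sequential rounding of the top coefficients -/
lemma exists_rounding {n : ℕ} {P : ℝ[X]} (hP : P.Monic) (hPd : P.natDegree = n) (B : ℕ → ℝ[X])
    (hB : ∀ i, 1 ≤ i → i < n → (B i).Monic ∧ (B i).natDegree = n - i) (k : ℕ) (hk : k < n) :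
    ∃ (δ : ℕ → ℝ) (H : ℤ[X]), (∀ i, |δ i| ≤ 2) ∧ H.natDegree < n ∧
      (P - ∑ i ∈ Finset.Icc 1 k, C (δ i) * B i - X ^ n
        - C 4 * H.map (algebraMap ℤ ℝ)).natDegree < n - k := by
  induction k with
  | zero =>
    refine ⟨fun _ => 0, 0, fun _ => by simp, by rw [natDegree_zero]; omega, ?_⟩
    have h1 : (P - X ^ n).natDegree < n := by
      apply ndlt
      · refine (natDegree_sub_le _ _).trans (max_le hPd.le ?_)
        exact natDegree_X_pow_le n
      · rw [coeff_sub, coeff_X_pow_self]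
        have : P.coeff n = 1 := by rw [← hPd]; exact hP
        rw [this]; ring
      · omega
    simpa using h1
  | succ k ih =>
    obtain ⟨δ, H, hδ, hH, hR⟩ := ih (by omega)
    set R := P - ∑ i ∈ Finset.Icc 1 k, C (δ i) * B i - X ^ n - C 4 * H.map (algebraMap ℤ ℝ) with hRdef
    set ρ := R.coeff (n - (k + 1)) with hρ
    set a : ℤ := round (ρ / 4) with ha
    obtain ⟨hBm, hBd⟩ := hB (k + 1) (by omega) hk
    refine ⟨Function.update δ (k + 1) (ρ - 4 * a), H + C a * X ^ (n - (k + 1)), ?_, ?_, ?_⟩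
    · intro i
      by_cases hi : i = k + 1
      · subst hi
        rw [Function.update_self]
        have := abs_sub_round (ρ / 4)
        rw [← ha] at this
        have e : ρ - 4 * a = 4 * (ρ / 4 - a) := by ring
        rw [e, abs_mul]
        norm_num
        linarith
      · rw [Function.update_of_ne hi]; exact hδ i
    · refine (natDegree_add_le _ _).trans_lt (max_lt hH ?_)
      exact (natDegree_C_mul_X_pow_le _ _).trans_lt (by omega)
    · have hsum : ∑ i ∈ Finset.Icc 1 (k + 1), C (Function.update δ (k + 1) (ρ - 4 * a) i) * B i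
          = ∑ i ∈ Finset.Icc 1 k, C (δ i) * B i + C (ρ - 4 * a) * B (k + 1) := by
        rw [Finset.sum_Icc_succ_top (by omega), Function.update_self]
        congr 1
        refine Finset.sum_congr rfl fun i hi => ?_
        rw [Finset.mem_Icc] at hi
        rw [Function.update_of_ne (by omega)]
      have hnew : P - ∑ i ∈ Finset.Icc 1 (k + 1), C (Function.update δ (k + 1) (ρ - 4 * a) i) * B i
          - X ^ n - C 4 * (H + C a * X ^ (n - (k + 1))).map (algebraMap ℤ ℝ)
          = R - C (ρ - 4 * a) * B (k + 1) - C (4 * (a : ℝ)) * X ^ (n - (k + 1)) := by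
        have hmap : (C a : ℤ[X]).map (algebraMap ℤ ℝ) = C (a : ℝ) := by rw [map_C]; rfl
        rw [hsum, hRdef, Polynomial.map_add, Polynomial.map_mul, hmap, Polynomial.map_pow, map_X,
          C_mul]
        ring
      rw [hnew]
      apply ndlt
      · refine (natDegree_sub_le _ _).trans (max_le ((natDegree_sub_le _ _).trans (max_le ?_ ?_)) ?_)
        · omega
        · exact (natDegree_C_mul_le _ _).trans hBd.le
        · exact natDegree_C_mul_X_pow_le _ _
      · have hBc : (B (k + 1)).coeff (n - (k + 1)) = 1 := by rw [← hBd]; exact hBm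
        rw [coeff_sub, coeff_sub, coeff_C_mul, coeff_C_mul, coeff_X_pow_self, hBc]; ring
      · omega
where
  /-- auxiliary -/
  ndlt {P : ℝ[X]} {n : ℕ} (h : P.natDegree ≤ n) (hc : P.coeff n = 0)
      (hn : 0 < n) : P.natDegree < n := by
    rcases lt_or_eq_of_le h with h1 | h1
    · exact h1
    · exfalso
      rw [← h1, coeff_natDegree, leadingCoeff_eq_zero] at hc
      rw [hc, natDegree_zero] at h1
      omega

end Pool.Agent.SSS
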