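import Mathlib
import Pool.Agent.SSS.Roots
import Pool.Agent.SSS.StepDef

/-! Construction of irreducible totally real polynomials. -/

namespace Pool.Agent.SSS

open Polynomial

lemma eisenstein_two {n : ℕ} (hn : 0 < n) {H : ℤ[X]} (hH : H.natDegree < n) :
    (X ^ n + C 4 * H + C 2 : ℤ[X]).Monic ∧ (X ^ n + C 4 * H + C 2 : ℤ[X]).natDegree = n ∧
      Irreducible (X ^ n + C 4 * H + C 2 : ℤ[X]) := by
  have hlt : (C 4 * H + C 2 : ℤ[X]).natDegree < n := by
    refine (natDegree_add_le _ _).trans_lt (max_lt ((natDegree_C_mul_le _ _).trans_lt hH) ?_)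
    rw [natDegree_C]; exact hn
  have hlt' : (C 4 * H + C 2 : ℤ[X]).degree < n :=
    lt_of_le_of_lt degree_le_natDegree (by exact_mod_cast hlt)
  have hmon : (X ^ n + (C 4 * H + C 2) : ℤ[X]).Monic := monic_X_pow_add hlt'
  have hdeg : (X ^ n + (C 4 * H + C 2) : ℤ[X]).natDegree = n := by
    rw [natDegree_add_eq_left_of_natDegree_lt (by rw [natDegree_X_pow]; exact hlt), natDegree_X_pow]
  rw [add_assoc]
  refine ⟨hmon, hdeg, ?_⟩
  have hprime : (Ideal.span {(2 : ℤ)}).IsPrime := by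
    rw [Ideal.span_singleton_prime (by norm_num)]
    exact Int.prime_two
  have hE : (X ^ n + (C 4 * H + C 2) : ℤ[X]).IsEisensteinAt (Ideal.span {(2 : ℤ)}) := by
    constructor
    · rw [hmon.leadingCoeff, Ideal.mem_span_singleton]; norm_num
    · intro i hi
      rw [hdeg] at hi
      rw [Ideal.mem_span_singleton, coeff_add, coeff_X_pow, if_neg hi.ne, zero_add, coeff_add,
        coeff_C_mul, coeff_C]
      split_ifs
      · exact ⟨2 * H.coeff i + 1, by ring⟩
      · exact ⟨2 * H.coeff i, by ring⟩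
    · rw [Ideal.span_singleton_pow, Ideal.mem_span_singleton, coeff_add, coeff_X_pow,
        if_neg hn.ne, zero_add, coeff_add, coeff_C_mul, coeff_C, if_pos rfl]
      rintro ⟨t, ht⟩
      omega
  exact hE.irreducible hprime hmon.isPrimitive (by rw [hdeg]; exact hn)

lemma geom_bound (ns : ℕ) : ∑ i ∈ Finset.Icc 1 ns, (2 : ℝ) * (1 / 8) ^ i ≤ 2 / 7 := by
  have h : ∑ i ∈ Finset.Icc 1 ns, (2 : ℝ) * (1 / 8) ^ i = 2 / 7 * (1 - (1 / 8) ^ ns) := by
    induction ns with
    | zero => simp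
    | succ k ih => rw [Finset.sum_Icc_succ_top (by omega), ih, pow_succ]; ring
  rw [h]
  have : (0 : ℝ) < (1 / 8) ^ ns := by positivity
  linarith

lemma floor_abs {F p X D n0 : ℝ} (h1 : 0 ≤ p * X - F) (h2 : p * X - F ≤ 1) (h3 : X ≤ D + n0)
    (h4 : D ≤ X) (h6 : 0 ≤ p) (h7 : p ≤ 1) : |F - D * p| ≤ n0 + 1 := by
  have e1 : p * (X - D) ≤ 1 * (X - D) := mul_le_mul_of_nonneg_right h7 (by linarith)
  have e2 : 0 ≤ p * (X - D) := mul_nonneg h6 (by linarith)
  have e3 : p * (X - D) = p * X - D * p := by ring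
  rw [e3] at e1 e2
  rw [abs_le]; constructor <;> linarith

theorem exists_irred {n0 : ℕ} {c : ℕ → ℝ} {r : ℝ} {p : ℕ → ℝ} {κ a0 : ℝ} (hr : 0 < r)
    (hp0 : ∀ l, 0 ≤ p l) (hp1 : ∑ l ∈ Finset.range n0, p l = 1) (hκ : 0 < κ)
    (hord : ∀ l l', l < l' → l' < n0 → c l + 2 * r ≤ c l' - 2 * r)
    (h0 : ∀ l < n0, 0 ≤ c l - 2 * r) (ha0 : ∀ l < n0, c l + 2 * r ≤ a0) (ha00 : 0 ≤ a0)
    {A δ : ℝ} (hA : 0 ≤ A) (hδ : 0 < δ)
    (hcov : ∀ D : ℕ, 0 < D → Cov (fun x => Up n0 c r p (x : ℂ) + κ) (a0 + 32) D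
      (A * Real.exp (-(δ * D)))) {ε : ℝ} (hε : 0 < ε) (nmin : ℕ) :
    ∃ f : ℤ[X], f.Monic ∧ Irreducible f ∧ nmin ≤ f.natDegree ∧ ∃ S : Finset ℝ,
      (f.map (algebraMap ℤ ℝ)).roots = S.val ∧ S.card = f.natDegree ∧ (∀ y ∈ S, 0 ≤ y) ∧
      ∑ y ∈ S, y ≤ f.natDegree *
        (∑ l ∈ Finset.range n0, p l * (c l + 2 * r) + κ / Real.log 8 * (a0 + 32) + ε) := by
  classical
  obtain ⟨Cb, hCb0, hCb⟩ := exists_UU_bound n0 c hr (a0 + 32)
  have hlog8 : 0 < Real.log 8 := Real.log_pos (by norm_num)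
  set M' := a0 + 32 with hM'
  have hM'0 : 0 < M' := by linarith
  set E := ∑ l ∈ Finset.range n0, p l * (c l + 2 * r) with hE
  have hE0 : 0 ≤ E := Finset.sum_nonneg fun l hl =>
    mul_nonneg (hp0 l) (by linarith [h0 l (Finset.mem_range.1 hl)])
  set Cc : ℝ := n0 * (n0 + 1) * Cb with hCc
  -- choose the size
  obtain ⟨D1, hD1⟩ : ∃ D1 : ℕ, ∀ D ≥ D1, 4 * (A * Real.exp (-(δ * (D : ℝ)))) * Real.exp Cc ≤ 1 / 7 := by
    have h1 : Filter.Tendsto (fun D : ℕ => 4 * (A * Real.exp (-(δ * (D : ℝ)))) * Real.exp Cc)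
        Filter.atTop (nhds (4 * (A * 0) * Real.exp Cc)) := by
      have h2 : Filter.Tendsto (fun D : ℕ => δ * (D : ℝ)) Filter.atTop Filter.atTop :=
        tendsto_natCast_atTop_atTop.const_mul_atTop hδ
      have h3 := Real.tendsto_exp_neg_atTop_nhds_zero.comp h2
      exact ((h3.const_mul A).const_mul 4).mul_const _
    have h2 : 4 * (A * 0) * Real.exp Cc < 1 / 7 := by norm_num
    exact Filter.eventually_atTop.1 ((h1.eventually (gt_mem_nhds h2)).mono fun _ h => le_of_lt h)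
  obtain ⟨D2, hD2⟩ := exists_nat_gt ((n0 * E + 2 * M') / ε)
  set Xn : ℕ := D1 + D2 + nmin + n0 + 1 with hXn
  set D : ℕ := ∑ l ∈ Finset.range n0, ⌊p l * Xn⌋₊ with hD
  obtain ⟨hDX, hXD⟩ := sum_floor_le hp0 hp1 Xn
  rw [← hD] at hDX hXD
  have hDpos : 0 < D := by omega
  have hDD1 : D1 ≤ D := by omega
  have hDD2 : D2 ≤ D := by omega
  have hDr : (0 : ℝ) < D := by exact_mod_cast hDpos
  set ns : ℕ := ⌈κ * D / Real.log 8⌉₊ + 1 with hns
  have hns1 : κ * D ≤ ns * Real.log 8 := by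
    have h1 := Nat.le_ceil (κ * D / Real.log 8)
    rw [div_le_iff₀ hlog8] at h1
    rw [hns]; push_cast
    rw [add_mul, one_mul]
    linarith
  have hns2 : (ns : ℝ) ≤ κ * D / Real.log 8 + 2 := by
    have h1 := Nat.ceil_lt_add_one (a := κ * D / Real.log 8) (by positivity)
    rw [hns]; push_cast; linarith
  set cc : ℕ → ℝ := fun l => if l < n0 then c l else a0 + 16 with hcc
  set rr : ℕ → ℝ := fun l => if l < n0 then r else 8 with hrr
  set N : ℕ → ℕ := fun l => if l < n0 then ⌊p l * Xn⌋₊ else ns with hN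
  have hrr0 : ∀ l, 0 < rr l := by
    intro l; simp only [hrr]; split_ifs
    · exact hr
    · norm_num
  have hcc1 : ∀ l, l < n0 → cc l = c l := fun l hl => by simp only [hcc, if_pos hl]
  have hrr1 : ∀ l, l < n0 → rr l = r := fun l hl => by simp only [hrr, if_pos hl]
  have hN1 : ∀ l, l < n0 → N l = ⌊p l * Xn⌋₊ := fun l hl => by simp only [hN, if_pos hl]
  have hccn : cc n0 = a0 + 16 := by simp [hcc]
  have hrrn : rr n0 = 8 := by simp [hrr]
  have hNn : N n0 = ns := by simp [hN]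
  have hord' : ∀ l l', l < l' → l' < n0 + 1 → cc l + 2 * rr l ≤ cc l' - 2 * rr l' := by
    intro l l' hll hl'
    have hl : l < n0 := by omega
    rcases Nat.lt_succ_iff_lt_or_eq.1 hl' with h | h
    · rw [hcc1 l hl, hrr1 l hl, hcc1 l' h, hrr1 l' h]; exact hord l l' hll h
    · rw [h, hcc1 l hl, hrr1 l hl, hccn, hrrn]
      linarith [ha0 l hl]
  have hloc : ∀ l < n0 + 1, 0 ≤ cc l - 2 * rr l ∧ cc l + 2 * rr l ≤ M' := by
    intro l hl
    rcases Nat.lt_succ_iff_lt_or_eq.1 hl with h | h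
    · rw [hcc1 l h, hrr1 l h]
      exact ⟨h0 l h, by linarith [ha0 l h]⟩
    · rw [h, hccn, hrrn]; constructor <;> linarith
  have hsumN : ∑ l ∈ Finset.range n0, N l = D := by
    rw [hD]; exact Finset.sum_congr rfl fun l hl => hN1 l (Finset.mem_range.1 hl)
  set n := D + ns with hn
  set P := PP (n0 + 1) cc rr N with hP
  have hPd : P.natDegree = n := by
    rw [hP, PP_natDegree, Finset.sum_range_succ, hsumN, hNn]
  have hPm : P.Monic := PP_monic _ _ _ _
  set P0 := PP n0 cc rr N with hP0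
  have hP0d : P0.natDegree = D := by rw [hP0, PP_natDegree, hsumN]
  have hP0m : P0.Monic := PP_monic _ _ _ _
  have hPP0 : P = P0 * TT (a0 + 16) 8 ns := by
    rw [hP, hP0]; unfold PP
    rw [Finset.prod_range_succ, hccn, hrrn, hNn]
  set B : ℕ → ℝ[X] := fun i => if i ≤ ns then P0 * TT (a0 + 16) 8 (ns - i) else X ^ (n - i) with hB
  have hBprop : ∀ i, 1 ≤ i → i < n → (B i).Monic ∧ (B i).natDegree = n - i := by
    intro i hi1 hin
    by_cases h : i ≤ ns
    · simp only [hB, if_pos h]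
      refine ⟨hP0m.mul (TT_monic _ _ _), ?_⟩
      rw [Monic.natDegree_mul hP0m (TT_monic _ _ _), hP0d, TT_natDegree]; omega
    · simp only [hB, if_neg h]
      exact ⟨monic_X_pow _, natDegree_X_pow _⟩
  obtain ⟨dl, H, hdl, hH, hRD⟩ := exists_rounding hPm hPd B hBprop ns (by omega)
  set RD := P - ∑ i ∈ Finset.Icc 1 ns, C (dl i) * B i - X ^ n - C 4 * H.map (algebraMap ℤ ℝ) with hRDdef
  have hRD' : RD.natDegree < D := by
    have : n - ns = D := by omega
    rwa [this] at hRD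
  set R : ℝ[X] := C (1 / 4) * RD - C (1 / 2) with hR
  have hRd : R.natDegree < D := by
    refine (natDegree_sub_le _ _).trans_lt (max_lt ((natDegree_C_mul_le _ _).trans_lt hRD') ?_)
    rw [natDegree_C]; exact hDpos
  obtain ⟨g, hg, hge⟩ := hcov D hDpos R hRd
  have hHg : (H + g).natDegree < n :=
    (natDegree_add_le _ _).trans_lt (max_lt hH (by omega))
  obtain ⟨hfm, hfd, hfi⟩ := eisenstein_two (n := n) (by omega) hHg
  set f : ℤ[X] := X ^ n + C 4 * (H + g) + C 2 with hf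
  set fr : ℝ[X] := f.map (algebraMap ℤ ℝ) with hfr
  have hfrm : fr.Monic := hfm.map _
  have hfrd : fr.natDegree = n := by
    rw [hfr, natDegree_map_eq_of_injective (RingHom.injective_int _), hfd]
  have heval : ∀ x : ℝ, fr.eval x - P.eval x
      = -(∑ i ∈ Finset.Icc 1 ns, dl i * (B i).eval x) - 4 * (R.eval x - aeval x g) := by
    intro x
    have h1 : fr.eval x = x ^ n + 4 * (aeval x H + aeval x g) + 2 := by
      rw [hfr, eval_map_algebraMap, hf]
      simp only [map_add, map_mul, map_pow, aeval_X, aeval_C]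
      norm_num
    have h2 : RD.eval x = P.eval x - ∑ i ∈ Finset.Icc 1 ns, dl i * (B i).eval x - x ^ n
        - 4 * aeval x H := by
      rw [hRDdef]
      simp only [eval_sub, eval_finsetSum, eval_mul, eval_C, eval_pow, eval_X,
        eval_map_algebraMap]
    have h3 : R.eval x = 1 / 4 * RD.eval x - 1 / 2 := by
      rw [hR]; simp only [eval_sub, eval_mul, eval_C]
    rw [h1, h3, h2]; ring
  have hpert : ∀ l < n0 + 1, N l ≠ 0 → ∀ j ≤ N l,
      |fr.eval (xp (cc l) (rr l) (N l) j) - P.eval (xp (cc l) (rr l) (N l) j)|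
        < |P.eval (xp (cc l) (rr l) (N l) j)| := by
    intro l hl hNl j hj
    set x := xp (cc l) (rr l) (N l) j with hx
    have hxm := xp_mem (c := cc l) (hrr0 l) (N l) j
    rw [← hx] at hxm
    have hxI : x ∈ Set.Icc 0 M' := ⟨by linarith [(hloc l hl).1], by linarith [(hloc l hl).2]⟩
    -- lower bound of |P|
    have hPlow : Real.exp (-Cc) * Real.exp (D * (Up n0 c r p (x : ℂ) + κ)) ≤ |P.eval x| := by
      have h1 := PP_sign hrr0 hord' hl hNl j (N := N)
      rw [← hx, ← hP] at h1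
      have h2 : (-1) ^ j * sg (n0 + 1) N l * P.eval x ≤ |P.eval x| := by
        refine (le_abs_self _).trans ?_
        rw [abs_mul, abs_mul, abs_pow, abs_neg, abs_one, one_pow, one_mul, sg_abs, one_mul]
      refine le_trans ?_ (h1.trans h2)
      rw [Finset.prod_range_succ, ← Real.exp_sum, ← Real.exp_add, ← Real.exp_add]
      apply Real.exp_le_exp.2
      have h3 : κ * D ≤ (N n0 : ℝ) * UU (cc n0) (rr n0) (x : ℂ) := by
        rw [hNn, hccn, hrrn]
        refine hns1.trans ?_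
        exact mul_le_mul_of_nonneg_left (UU_ge (by norm_num) _) (Nat.cast_nonneg _)
      have h4 : D * Up n0 c r p (x : ℂ) - Cc
          ≤ ∑ l' ∈ Finset.range n0, (N l' : ℝ) * UU (cc l') (rr l') (x : ℂ) := by
        have h5 : ∀ l' ∈ Finset.range n0, D * (p l' * UU (c l') r (x : ℂ)) - (n0 + 1) * Cb
            ≤ (N l' : ℝ) * UU (cc l') (rr l') (x : ℂ) := by
          intro l' hl'
          have hl'' := Finset.mem_range.1 hl'
          rw [hcc1 l' hl'', hrr1 l' hl'', hN1 l' hl'']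
          have hfd := floor_diff hp0 Xn l'
          have hXr : (Xn : ℝ) ≤ D + n0 := by exact_mod_cast hXD
          have hXr' : (D : ℝ) ≤ Xn := by exact_mod_cast hDX
          have hp1' : p l' ≤ 1 := by
            rw [← hp1]; exact Finset.single_le_sum (fun i _ => hp0 i) hl'
          have h6 : |(⌊p l' * Xn⌋₊ : ℝ) - D * p l'| ≤ n0 + 1 := by
            have := hp0 l'
            exact floor_abs hfd.1 hfd.2 hXr hXr' this hp1'
          have h7 : -(((⌊p l' * Xn⌋₊ : ℝ) - D * p l') * UU (c l') r (x : ℂ)) ≤ (n0 + 1) * Cb := by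
            refine (neg_le_abs _).trans ?_
            rw [abs_mul]
            exact mul_le_mul h6 (hCb l' hl' x hxI) (abs_nonneg _) (by positivity)
          linarith
        calc D * Up n0 c r p (x : ℂ) - Cc
            = ∑ l' ∈ Finset.range n0, (D * (p l' * UU (c l') r (x : ℂ)) - (n0 + 1) * Cb) := by
              unfold Up
              rw [Finset.sum_sub_distrib, Finset.mul_sum, Finset.sum_const, Finset.card_range,
                nsmul_eq_mul, hCc]
              ring
          _ ≤ _ := Finset.sum_le_sum h5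
      linarith
    have hPpos : 0 < |P.eval x| := lt_of_lt_of_le (by positivity) hPlow
    -- the B_i
    have hBi : ∀ i ∈ Finset.Icc 1 ns, |dl i * (B i).eval x| ≤ 2 * (1 / 8) ^ i * |P.eval x| := by
      intro i hi
      rw [Finset.mem_Icc] at hi
      have h1 : 8 ^ i * |(TT (a0 + 16) 8 (ns - i)).eval x| ≤ |(TT (a0 + 16) 8 ns).eval x| := by
        rcases Nat.lt_succ_iff_lt_or_eq.1 hl with h | h
        · refine TT_ratio_left (by norm_num) ?_ hi.2
          have := hxm.2
          rw [hcc1 l h, hrr1 l h] at this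
          linarith [ha0 l h]
        · have hx' : x = xp (a0 + 16) 8 ns j := by rw [hx, h, hccn, hrrn, hNn]
          rw [hx']
          exact TT_ratio_ext (by norm_num) (by omega) hi.2 j
      have h2 : (B i).eval x = P0.eval x * (TT (a0 + 16) 8 (ns - i)).eval x := by
        simp only [hB, if_pos hi.2, eval_mul]
      have h3 : P.eval x = P0.eval x * (TT (a0 + 16) 8 ns).eval x := by rw [hPP0, eval_mul]
      rw [h2, h3, abs_mul, abs_mul, abs_mul]
      have h4 : |(TT (a0 + 16) 8 (ns - i)).eval x| ≤ (1 / 8) ^ i * |(TT (a0 + 16) 8 ns).eval x| := by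
        rw [one_div, inv_pow, ← div_eq_inv_mul, le_div_iff₀ (by positivity)]
        linarith
      calc |dl i| * (|P0.eval x| * |(TT (a0 + 16) 8 (ns - i)).eval x|)
          ≤ 2 * (|P0.eval x| * ((1 / 8) ^ i * |(TT (a0 + 16) 8 ns).eval x|)) := by
            gcongr
            exact hdl i
        _ = _ := by ring
    have hsumB : |∑ i ∈ Finset.Icc 1 ns, dl i * (B i).eval x| ≤ 2 / 7 * |P.eval x| := by
      refine (Finset.abs_sum_le_sum_abs _ _).trans ((Finset.sum_le_sum hBi).trans ?_)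
      rw [← Finset.sum_mul]
      exact mul_le_mul_of_nonneg_right (geom_bound ns) (abs_nonneg _)
    have hcovx : |4 * (R.eval x - aeval x g)| ≤ 1 / 7 * |P.eval x| := by
      rw [abs_mul, abs_of_pos (by norm_num : (0 : ℝ) < 4)]
      have h1 := hge x hxI
      have h2 : Real.exp (D * (Up n0 c r p (x : ℂ) + κ)) ≤ Real.exp Cc * |P.eval x| := by
        have := mul_le_mul_of_nonneg_left hPlow (Real.exp_pos Cc).le
        rw [← mul_assoc, ← Real.exp_add, add_neg_cancel, Real.exp_zero, one_mul] at this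
        exact this
      calc 4 * |R.eval x - aeval x g|
          ≤ 4 * (A * Real.exp (-(δ * D)) * Real.exp (D * (Up n0 c r p (x : ℂ) + κ))) := by
            gcongr
        _ ≤ 4 * (A * Real.exp (-(δ * D)) * (Real.exp Cc * |P.eval x|)) := by gcongr
        _ = (4 * (A * Real.exp (-(δ * (D : ℝ)))) * Real.exp Cc) * |P.eval x| := by ring
        _ ≤ 1 / 7 * |P.eval x| := mul_le_mul_of_nonneg_right (hD1 D hDD1) (abs_nonneg _)
    rw [heval x]
    calc |-(∑ i ∈ Finset.Icc 1 ns, dl i * (B i).eval x) - 4 * (R.eval x - aeval x g)|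
        ≤ |-(∑ i ∈ Finset.Icc 1 ns, dl i * (B i).eval x)| + |4 * (R.eval x - aeval x g)| :=
          abs_sub _ _
      _ < |P.eval x| := by rw [abs_neg]; linarith
  have hfrsum : fr.natDegree = ∑ l ∈ Finset.range (n0 + 1), N l := by
    rw [hfrd, Finset.sum_range_succ, hsumN, hNn]
  obtain ⟨S, hS1, hS2, hS3, hS4⟩ := roots_of_perturbation hrr0 hord' hfrm hfrsum hpert
  refine ⟨f, hfm, hfi, by rw [hfd]; omega, S, hS1, by rw [hS2, hfrd, hfd], ?_, ?_⟩
  · intro y hy
    obtain ⟨l, hl, h1, -⟩ := hS3 y hy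
    linarith [(hloc l hl).1]
  · refine hS4.trans ?_
    rw [Finset.sum_range_succ, hNn, hccn, hrrn, hfd]
    have h1 : ∑ l ∈ Finset.range n0, (N l : ℝ) * (cc l + 2 * rr l) ≤ Xn * E := by
      rw [hE, Finset.mul_sum]
      refine Finset.sum_le_sum fun l hl => ?_
      have hl' := Finset.mem_range.1 hl
      rw [hN1 l hl', hcc1 l hl', hrr1 l hl']
      have h2 := (floor_diff hp0 Xn l).1
      have h3 : 0 ≤ c l + 2 * r := by linarith [h0 l hl']
      refine (mul_le_mul_of_nonneg_right (sub_nonneg.1 h2) h3).trans (le_of_eq ?_)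
      ring
    have hXr : (Xn : ℝ) ≤ D + n0 := by exact_mod_cast hXD
    have h2 : (Xn : ℝ) * E ≤ (D + n0) * E := mul_le_mul_of_nonneg_right hXr hE0
    have h3 : (a0 + 16 + 2 * 8 : ℝ) = M' := by rw [hM']; ring
    rw [h3]
    have h4 : (ns : ℝ) * M' ≤ (κ * D / Real.log 8 + 2) * M' :=
      mul_le_mul_of_nonneg_right hns2 hM'0.le
    have h5 : (n0 : ℝ) * E + 2 * M' ≤ D * ε := by
      rw [div_lt_iff₀ hε] at hD2
      have : (D2 : ℝ) ≤ D := by exact_mod_cast hDD2
      exact hD2.le.trans (mul_le_mul_of_nonneg_right this hε.le)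
    have h6 : 0 ≤ E + κ / Real.log 8 * M' + ε := by positivity
    have h7 : (D : ℝ) * (E + κ / Real.log 8 * M' + ε) ≤ n * (E + κ / Real.log 8 * M' + ε) := by
      apply mul_le_mul_of_nonneg_right _ h6
      exact_mod_cast (by omega : D ≤ n)
    have h8 : (D : ℝ) * (E + κ / Real.log 8 * M' + ε)
        = D * E + κ * D / Real.log 8 * M' + D * ε := by ring
    linarith

end Pool.Agent.SSS
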