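import Mathlib
import Pool.Agent.SSS.RealPt
import Pool.Agent.SSS.Mink

/-! Small integer polynomials with respect to a smoothed potential. -/

namespace Pool.Agent.SSS

open Complex ComplexConjugate Polynomial

/-- energy estimate for the Vandermonde determinant of real points. -/
lemma log_vandermonde_le {L M' q : ℝ} (hL : 1 ≤ L) (hq0 : 0 < q) (hq1 : q < 1)
    {c : ℕ → ℝ} (hc : ∀ k, |c k| ≤ 1) {m : ℕ} (hm : 2 ≤ m) (x : Fin m → ℝ)
    (hx : ∀ i, x i ∈ Set.Icc 0 M') (hinj : Function.Injective x) :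
    Real.log |(Matrix.vandermonde x).det| ≤
      m * ∑ i, Wf L c q (ee L (x i))
        - (m : ℝ) ^ 2 / 2 * (Real.log L - ∑' k : ℕ, (2 / (k : ℝ)) * (q ^ k * c k) ^ 2)
        + m * (2 / (1 - q) + 2 + Real.log m) := by
  classical
  have hL0 : 0 < L := by linarith
  have hm0 : (0 : ℝ) < m := by positivity
  have hm2 : (2 : ℝ) ≤ m := by exact_mod_cast hm
  set a : ℕ → ℝ := fun k => q ^ k * c k with ha
  have ha1 : ∀ k, |a k| ≤ 1 := by
    intro k
    rw [ha]; simp only; rw [abs_mul, abs_of_nonneg (by positivity)]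
    calc q ^ k * |c k| ≤ 1 * 1 := by
          gcongr
          · exact pow_le_one₀ hq0.le hq1.le
          · exact hc k
      _ = 1 := by ring
  have haS : Summable (fun k : ℕ => (2 / (k : ℝ)) * (a k) ^ 2) := by
    refine Summable.of_nonneg_of_le (fun k => mul_nonneg (two_div_nat_nonneg k) (sq_nonneg _))
      (f := fun k => 2 * q ^ k) ?_ ((summable_geometric_of_lt_one hq0.le hq1).mul_left 2)
    intro k
    have h1 := two_div_nat_le k
    have h2 : (a k) ^ 2 ≤ q ^ k := by
      rw [ha]; simp only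
      have h3 : (q ^ k * c k) ^ 2 = q ^ k * (q ^ k * (c k) ^ 2) := by ring
      rw [h3]
      have h4 : (c k) ^ 2 ≤ 1 := by
        rw [← sq_abs]; exact pow_le_one₀ (abs_nonneg _) (hc k)
      have h5 : q ^ k ≤ 1 := pow_le_one₀ hq0.le hq1.le
      have h6 : 0 ≤ q ^ k := by positivity
      have h7 : q ^ k * (c k) ^ 2 ≤ 1 := mul_le_one₀ h5 (sq_nonneg _) h4
      exact mul_le_of_le_one_right h6 h7
    exact mul_le_mul h1 h2 (sq_nonneg _) (by norm_num)
  set p : ℝ := 1 - 1 / m with hp
  have hp0 : 1 / 2 ≤ p := by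
    rw [hp]
    have : 1 / (m : ℝ) ≤ 1 / 2 := by
      apply one_div_le_one_div_of_le <;> linarith
    linarith
  have hp1 : p < 1 := by
    rw [hp]; have : 0 < 1 / (m : ℝ) := by positivity
    linarith
  have hspec : ∀ i, 1 ≤ ‖ee L (x i)‖ ∧ ((x i : ℝ) : ℂ) = L * (2 + ee L (x i) + (ee L (x i))⁻¹) :=
    fun i => ee_spec hL0 (hx i).1
  have hE := energy_ineq (Finset.univ : Finset (Fin m)) hL0 (fun i => ee L (x i))
    (fun i _ => (hspec i).1) (fun _ => p) (fun _ _ => by linarith) (fun _ _ => hp1)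
    (fun _ => 1 / (m : ℝ)) (fun _ _ => by positivity)
    (by
      intro i _ j _ hij
      rw [← (hspec i).2, ← (hspec j).2]
      intro h
      exact hij (hinj (by exact_mod_cast h))) ha1 haS
  -- distances
  have hdist : ∀ i j, ‖(L : ℂ) * (2 + ee L (x i) + (ee L (x i))⁻¹)
      - L * (2 + ee L (x j) + (ee L (x j))⁻¹)‖ = |x i - x j| := by
    intro i j
    rw [← (hspec i).2, ← (hspec j).2, ← Complex.ofReal_sub, Complex.norm_real, Real.norm_eq_abs]
  simp only [hdist] at hE
  -- Om terms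
  have hOm : ∀ i, Om a (p / ee L (x i)) ≥ Om c (q / ee L (x i)) - 2 * (1 - p) / (1 - q) := by
    intro i
    have e1 : Om a (p / ee L (x i)) = Om c (p * (q / ee L (x i))) := by
      unfold Om
      congr 1
      ext k
      have : ((((p : ℝ) : ℂ) * (q / ee L (x i))) ^ k).re = q ^ k * (((p : ℂ) / ee L (x i)) ^ k).re := by
        have e : (((p : ℝ) : ℂ) * (q / ee L (x i))) ^ k = ((q ^ k : ℝ) : ℂ) * ((p : ℂ) / ee L (x i)) ^ k := by
          push_cast
          rw [← mul_pow]
          congr 1; ring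
        rw [e, Complex.re_ofReal_mul]
      rw [this, ha]; simp only; ring
    have hn : ‖(q : ℂ) / ee L (x i)‖ ≤ q := by
      rw [norm_div, Complex.norm_real, Real.norm_of_nonneg hq0.le]
      exact div_le_self hq0.le (hspec i).1
    have := Om_sub_le hc hn hq1 (t := p) (by linarith) hp1.le
    rw [e1]
    have := abs_le.1 this
    linarith [this.2]
  -- the vandermonde
  have hdet : Real.log |(Matrix.vandermonde x).det| = ∑ i, ∑ j ∈ Finset.Ioi i, Real.log |x j - x i| := by
    rw [Matrix.det_vandermonde, Finset.abs_prod, Real.log_prod]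
    · refine Finset.sum_congr rfl fun i _ => ?_
      rw [Finset.abs_prod, Real.log_prod]
      intro j hj
      have hij : i ≠ j := (Finset.mem_Ioi.1 hj).ne
      have : x j - x i ≠ 0 := sub_ne_zero.2 fun h => hij (hinj h.symm)
      simpa using this
    · intro i _
      rw [Finset.abs_prod]
      apply Finset.prod_ne_zero_iff.2
      intro j hj
      have hij : i ≠ j := (Finset.mem_Ioi.1 hj).ne
      have : x j - x i ≠ 0 := sub_ne_zero.2 fun h => hij (hinj h.symm)
      simpa using this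
  have hdet2 : 2 * Real.log |(Matrix.vandermonde x).det|
      = ∑ i, ∑ j ∈ Finset.univ.erase i, Real.log |x i - x j| := by
    rw [hdet]
    have := Finset.sum_sum_Ioi_add_eq_sum_sum_off_diag (fun i j : Fin m => Real.log |x i - x j|)
    have e : ∀ i : Fin m, ({i}ᶜ : Finset (Fin m)) = Finset.univ.erase i := by
      intro i; ext j; simp
    simp only [e] at this
    have e2 : ∑ i : Fin m, ∑ j ∈ Finset.Ioi i, (Real.log |x j - x i| + Real.log |x i - x j|)
        = 2 * ∑ i : Fin m, ∑ j ∈ Finset.Ioi i, Real.log |x j - x i| := by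
      rw [Finset.mul_sum]
      refine Finset.sum_congr rfl fun i _ => ?_
      rw [Finset.mul_sum]
      refine Finset.sum_congr rfl fun j _ => ?_
      rw [abs_sub_comm (x i) (x j)]; ring
    rw [← e2, this]
    refine Finset.sum_congr rfl fun i _ => Finset.sum_congr rfl fun j _ => ?_
    rw [abs_sub_comm]
  -- expand the double sum
  set g : Fin m → ℝ := fun i => Real.log ‖ee L (x i)‖ with hg
  have hg0 : ∀ i, 0 ≤ g i := fun i => Real.log_nonneg (hspec i).1
  have hcard : ∀ i : Fin m, ((Finset.univ.erase i).card : ℝ) = m - 1 := by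
    intro i
    rw [Finset.card_erase_of_mem (Finset.mem_univ i), Finset.card_univ, Fintype.card_fin]
    push_cast [Nat.cast_sub (by omega : 1 ≤ m)]
    ring
  have hsum_g : ∀ i : Fin m, ∑ j ∈ Finset.univ.erase i, g j = ∑ j, g j - g i := by
    intro i
    rw [← Finset.add_sum_erase _ g (Finset.mem_univ i)]; ring
  have hdouble : ∑ i : Fin m, ∑ j ∈ Finset.univ.erase i, 1 / (m : ℝ) * (1 / m) *
      (-Real.log p - Real.log p - Real.log |x i - x j| + Real.log L
        + Real.log ‖ee L (x i)‖ + Real.log ‖ee L (x j)‖)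
      = (m - 1) / m * (-2 * Real.log p + Real.log L) + 2 * (m - 1) / m ^ 2 * ∑ i, g i
        - 1 / m ^ 2 * (2 * Real.log |(Matrix.vandermonde x).det|) := by
    rw [hdet2]
    have : ∀ i : Fin m, ∑ j ∈ Finset.univ.erase i, 1 / (m : ℝ) * (1 / m) *
      (-Real.log p - Real.log p - Real.log |x i - x j| + Real.log L
        + Real.log ‖ee L (x i)‖ + Real.log ‖ee L (x j)‖)
        = 1 / m ^ 2 * ((m - 1) * (-2 * Real.log p + Real.log L + g i) + (∑ j, g j - g i)
          - ∑ j ∈ Finset.univ.erase i, Real.log |x i - x j|) := by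
      intro i
      rw [← hsum_g i, ← hcard i, ← nsmul_eq_mul, ← Finset.sum_const, ← Finset.sum_add_distrib,
        ← Finset.sum_sub_distrib, Finset.mul_sum]
      refine Finset.sum_congr rfl fun j _ => ?_
      simp only [hg]; field_simp; ring
    rw [Finset.sum_congr rfl fun i _ => this i, ← Finset.mul_sum, Finset.sum_sub_distrib,
      Finset.sum_add_distrib, ← Finset.mul_sum, Finset.sum_add_distrib, Finset.sum_sub_distrib]
    simp only [Finset.sum_const, Finset.card_univ, Fintype.card_fin, nsmul_eq_mul]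
    field_simp
    ring
  rw [hdouble] at hE
  have hdiag : ∑ i : Fin m, (1 / (m : ℝ)) ^ 2 * (-2 * Real.log (1 - p)) = 2 / m * Real.log m := by
    have : 1 - p = (m : ℝ)⁻¹ := by rw [hp]; ring
    rw [this, Real.log_inv, Finset.sum_const, Finset.card_univ, Fintype.card_fin, nsmul_eq_mul]
    field_simp
  rw [hdiag] at hE
  have hOmsum : ∑ i : Fin m, 1 / (m : ℝ) * Om a (p / ee L (x i)) ≥
      1 / m * ∑ i, Om c (q / ee L (x i)) - 2 * (1 - p) / (1 - q) := by
    rw [← Finset.mul_sum]
    have h1 : ∑ i : Fin m, (Om c (q / ee L (x i)) - 2 * (1 - p) / (1 - q)) ≤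
        ∑ i : Fin m, Om a (p / ee L (x i)) := Finset.sum_le_sum fun i _ => hOm i
    rw [Finset.sum_sub_distrib, Finset.sum_const, Finset.card_univ, Fintype.card_fin,
      nsmul_eq_mul] at h1
    have h2 := mul_le_mul_of_nonneg_left h1 (by positivity : (0 : ℝ) ≤ 1 / m)
    have h3 : 1 / (m : ℝ) * (∑ i, Om c (q / ee L (x i)) - m * (2 * (1 - p) / (1 - q)))
        = 1 / m * ∑ i, Om c (q / ee L (x i)) - 2 * (1 - p) / (1 - q) := by
      field_simp
    rw [h3] at h2
    exact h2
  have hlogp : -Real.log p ≤ 2 / m := by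
    have h1 : -Real.log p = Real.log (p⁻¹) := by rw [Real.log_inv]
    rw [h1]
    have h2 := Real.log_le_sub_one_of_pos (show 0 < p⁻¹ by positivity)
    have h3 : p⁻¹ - 1 ≤ 2 / m := by
      have hpm : p * m = m - 1 := by rw [hp]; field_simp
      rw [sub_le_iff_le_add, inv_le_iff_one_le_mul₀ (by linarith)]
      have : (2 / m + 1) * p = 2 * p / m + p := by ring
      rw [this]
      have h4 : 2 * p / m ≥ 1 / m := by gcongr; linarith
      have h5 : p = 1 - 1 / m := hp
      linarith
    linarith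
  have hlogL : 0 ≤ Real.log L := Real.log_nonneg hL
  have hWsum : ∑ i, Wf L c q (ee L (x i)) = m * Real.log L + ∑ i, g i
      - ∑ i, Om c (q / ee L (x i)) := by
    unfold Wf
    rw [Finset.sum_sub_distrib, Finset.sum_add_distrib, Finset.sum_const, Finset.card_univ,
      Fintype.card_fin, nsmul_eq_mul]
  rw [hWsum]
  set D := Real.log |(Matrix.vandermonde x).det|
  set B := ∑' k : ℕ, (2 / (k : ℝ)) * (q ^ k * c k) ^ 2
  set O := ∑ i, Om c (q / ee L (x i))
  set G := ∑ i, g i
  have hG0 : 0 ≤ G := Finset.sum_nonneg fun i _ => hg0 i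
  have h1p : 1 - p = 1 / m := by rw [hp]; ring
  rw [h1p] at hOmsum
  -- multiply hE by m^2/2
  have hE2 : 0 ≤ (m : ℝ) ^ 2 / 2 * B - m ^ 2 * ∑ i : Fin m, 1 / (m : ℝ) * Om a (p / ee L (x i))
      + (m * (m - 1) / 2 * (-2 * Real.log p + Real.log L) + (m - 1) * G - D) + m * Real.log m := by
    have := mul_nonneg (by positivity : (0 : ℝ) ≤ m ^ 2 / 2) hE
    have e : (m : ℝ) ^ 2 / 2 * (B - 2 * ∑ i : Fin m, 1 / (m : ℝ) * Om a (p / ee L (x i))
      + ((m - 1) / m * (-2 * Real.log p + Real.log L) + 2 * (m - 1) / m ^ 2 * G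
        - 1 / m ^ 2 * (2 * D)) + 2 / m * Real.log m)
        = (m : ℝ) ^ 2 / 2 * B - m ^ 2 * ∑ i : Fin m, 1 / (m : ℝ) * Om a (p / ee L (x i))
      + (m * (m - 1) / 2 * (-2 * Real.log p + Real.log L) + (m - 1) * G - D) + m * Real.log m := by
      field_simp
    rw [e] at this
    exact this
  have hE3 : (m : ℝ) ^ 2 * ∑ i : Fin m, 1 / (m : ℝ) * Om a (p / ee L (x i)) ≥
      m * O - m * (2 / (1 - q)) := by
    have := mul_le_mul_of_nonneg_left hOmsum (by positivity : (0 : ℝ) ≤ (m : ℝ) ^ 2)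
    have e : (m : ℝ) ^ 2 * (1 / m * O - 2 * (1 / m) / (1 - q)) = m * O - m * (2 / (1 - q)) := by
      have : (1 - q) ≠ 0 := by linarith
      field_simp
    rw [e] at this
    exact this
  have hE4 : (m : ℝ) * (m - 1) / 2 * (-2 * Real.log p) ≤ 2 * m := by
    have h1 : (m : ℝ) * (m - 1) / 2 * (-2 * Real.log p) = m * (m - 1) * (-Real.log p) := by ring
    rw [h1]
    calc (m : ℝ) * (m - 1) * (-Real.log p) ≤ m * (m - 1) * (2 / m) := by
          apply mul_le_mul_of_nonneg_left hlogp
          apply mul_nonneg hm0.le; linarith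
      _ = 2 * (m - 1) := by field_simp
      _ ≤ 2 * m := by linarith
  have hE5 : (m : ℝ) * (m - 1) / 2 * Real.log L ≤ m ^ 2 / 2 * Real.log L := by
    apply mul_le_mul_of_nonneg_right _ hlogL
    have e1 : (m : ℝ) * (m - 1) / 2 = m ^ 2 / 2 - m / 2 := by ring
    rw [e1]; linarith
  have hE6 : ((m : ℝ) - 1) * G ≤ m * G := mul_le_mul_of_nonneg_right (by linarith) hG0
  linarith

end Pool.Agent.SSS
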