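import Mathlib
import Pool.Agent.SSS.Fekete

/-! Small integer polynomials with respect to a smoothed potential. -/

namespace Pool.Agent.SSS

open Complex ComplexConjugate Polynomial

/-- Cramer type identity -/
lemma cramer_identity {m : ℕ} (x : Fin m → ℝ) (y : Fin m → ℝ) (t : ℝ) :
    ∑ i, (Matrix.vandermonde (Function.update x i t)).det *
      (Matrix.vandermonde x).mulVec y i
      = (Matrix.vandermonde x).det * ∑ j : Fin m, t ^ (j : ℕ) * y j := by
  set V := Matrix.vandermonde x with hV
  set r : Fin m → ℝ := fun j => t ^ (j : ℕ) with hr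
  have h1 : ∀ i, Matrix.vandermonde (Function.update x i t) = V.updateRow i r := by
    intro i
    ext a b
    by_cases h : a = i
    · subst h
      simp [Matrix.vandermonde_apply, hr]
    · simp [Matrix.vandermonde_apply, hV, h]
  have h2 : ∀ i, (Matrix.vandermonde (Function.update x i t)).det = Matrix.cramer V.transpose r i := by
    intro i
    rw [h1, Matrix.cramer_transpose_apply]
  simp only [h2]
  have h3 := Matrix.mulVec_cramer V.transpose r
  have h4 : ∑ i, Matrix.cramer V.transpose r i * V.mulVec y i
      = Matrix.cramer V.transpose r ⬝ᵥ V.mulVec y := rfl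
  rw [h4, Matrix.dotProduct_mulVec]
  have h5 : Matrix.vecMul (Matrix.cramer V.transpose r) V
      = V.transpose.mulVec (Matrix.cramer V.transpose r) := by
    rw [Matrix.mulVec_transpose]
  rw [h5, h3, Matrix.det_transpose, smul_dotProduct]
  rfl

theorem small_poly {L M' q : ℝ} (hL : 1 ≤ L) (hq0 : 0 < q) (hq1 : q < 1) (hM' : 0 < M')
    {c : ℕ → ℝ} (hc : ∀ k, |c k| ≤ 1) {κ : ℝ}
    (hκ : κ < (Real.log L - ∑' k : ℕ, (2 / (k : ℝ)) * (q ^ k * c k) ^ 2) / 2) :
    ∃ m0 : ℕ, ∀ m ≥ m0, ∃ s : ℤ[X], s ≠ 0 ∧ s.natDegree < m ∧
      ∀ x ∈ Set.Icc 0 M', |aeval x s| ≤ Real.exp (m * (Wf L c q (ee L x) - κ)) := by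
  classical
  have hL0 : 0 < L := by linarith
  set E := Real.log L - ∑' k : ℕ, (2 / (k : ℝ)) * (q ^ k * c k) ^ 2 with hE
  -- choose m0
  have hlim : Filter.Tendsto (fun m : ℕ => (m : ℝ) * (E / 2 - κ) - 2 * Real.log m)
      Filter.atTop Filter.atTop := by
    have h1 : Filter.Tendsto (fun x : ℝ => x * (E / 2 - κ) - 2 * Real.log x)
        Filter.atTop Filter.atTop := by
      have h2 : (fun x : ℝ => 2 * Real.log x) =o[Filter.atTop] (fun x : ℝ => x * (E / 2 - κ)) := by
        apply Asymptotics.IsLittleO.const_mul_left
        have := Real.isLittleO_log_id_atTop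
        have h3 : (fun x : ℝ => x * (E / 2 - κ)) = fun x => (E / 2 - κ) * id x := by
          ext x; simp; ring
        rw [h3]
        apply Asymptotics.IsLittleO.const_mul_right _ this
        linarith
      have h4 : Filter.Tendsto (fun x : ℝ => x * (E / 2 - κ)) Filter.atTop Filter.atTop :=
        Filter.tendsto_id.atTop_mul_const (by linarith)
      have h5 : Asymptotics.IsEquivalent Filter.atTop
          (fun x : ℝ => x * (E / 2 - κ) - 2 * Real.log x) (fun x : ℝ => x * (E / 2 - κ)) := by
        unfold Asymptotics.IsEquivalent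
        have : ((fun x : ℝ => x * (E / 2 - κ) - 2 * Real.log x) - fun x : ℝ => x * (E / 2 - κ))
            = fun x => -(2 * Real.log x) := by
          ext x; simp
        rw [this]
        exact h2.neg_left
      exact h5.symm.tendsto_atTop h4
    exact h1.comp tendsto_natCast_atTop_atTop
  obtain ⟨m1, hm1⟩ := Filter.eventually_atTop.1
    (hlim.eventually_gt_atTop (2 / (1 - q) + 2))
  refine ⟨max m1 2, fun m hm => ?_⟩
  have hm2 : 2 ≤ m := le_trans (le_max_right _ _) hm
  have hmlog := hm1 m (le_trans (le_max_left _ _) hm)
  have hm0 : (0 : ℝ) < m := by positivity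
  -- the functional to maximise
  set W : ℝ → ℝ := fun x => Wf L c q (ee L x) with hW
  have hWc : ContinuousOn W (Set.Icc 0 M') :=
    (continuousOn_Wf hL0 hc hq0.le hq1).mono (fun x hx => hx.1)
  set K : Set (Fin m → ℝ) := Set.pi Set.univ fun _ => Set.Icc 0 M' with hK
  have hKc : IsCompact K := isCompact_univ_pi fun _ => isCompact_Icc
  set F : (Fin m → ℝ) → ℝ := fun x => |(Matrix.vandermonde x).det| * Real.exp (-(m * ∑ i, W (x i)))
    with hF
  have hFc : ContinuousOn F K := by
    apply ContinuousOn.mul
    · apply Continuous.continuousOn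
      apply Continuous.abs
      apply Continuous.matrix_det
      apply continuous_matrix
      intro i j
      simp only [Matrix.vandermonde_apply]
      fun_prop
    · apply Real.continuous_exp.comp_continuousOn
      apply ContinuousOn.neg
      apply ContinuousOn.mul continuousOn_const
      apply continuousOn_finsetSum
      intro i _
      exact hWc.comp (continuous_apply i).continuousOn (fun x hx => hx i (Set.mem_univ _))
  have hKne : K.Nonempty := ⟨fun _ => 0, fun _ _ => ⟨le_rfl, hM'.le⟩⟩
  obtain ⟨x, hxK, hxmax⟩ := hKc.exists_isMaxOn hKne hFc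
  -- positivity of the maximum
  have hFpos : 0 < F x := by
    have h1 : F (fun i => M' * ((i : ℕ) : ℝ) / m) ≤ F x := by
      apply hxmax
      intro i _
      constructor
      · positivity
      · have h1 : ((i : ℕ) : ℝ) / m ≤ 1 := by
          rw [div_le_one hm0]; exact_mod_cast i.2.le
        have h2 : M' * ((i : ℕ) : ℝ) / m = M' * (((i : ℕ) : ℝ) / m) := by ring
        change M' * ((i : ℕ) : ℝ) / m ≤ M'
        rw [h2]
        nlinarith
    refine lt_of_lt_of_le ?_ h1
    apply mul_pos _ (Real.exp_pos _)
    apply abs_pos.2
    rw [Matrix.det_vandermonde_ne_zero_iff]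
    intro i j hij
    simp only at hij
    have : ((i : ℕ) : ℝ) = ((j : ℕ) : ℝ) := by
      field_simp at hij
      exact hij
    exact Fin.ext (by exact_mod_cast this)
  have hdetpos : 0 < |(Matrix.vandermonde x).det| := by
    by_contra h
    have h0 : |(Matrix.vandermonde x).det| = 0 := le_antisymm (not_lt.1 h) (abs_nonneg _)
    rw [hF] at hFpos
    simp only [h0, zero_mul, lt_irrefl] at hFpos
  have hdet0 : (Matrix.vandermonde x).det ≠ 0 := abs_pos.1 hdetpos
  have hinj : Function.Injective x := Matrix.det_vandermonde_ne_zero_iff.1 hdet0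
  have hxI : ∀ i, x i ∈ Set.Icc 0 M' := fun i => hxK i (Set.mem_univ _)
  have hlog := log_vandermonde_le hL hq0 hq1 hc hm2 x hxI hinj
  -- linear forms
  set r : Fin m → ℝ := fun i => Real.exp (m * (W (x i) - κ)) / m with hr
  have hr0 : ∀ i, 0 < r i := fun i => by positivity
  have hprod : |(Matrix.vandermonde x).det| < ∏ i, r i := by
    rw [← Real.log_lt_log_iff hdetpos (Finset.prod_pos fun i _ => hr0 i)]
    have e1 : Real.log (∏ i, r i) = m * ∑ i, W (x i) - m ^ 2 * κ - m * Real.log m := by
      rw [Real.log_prod (fun i _ => (hr0 i).ne')]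
      have : ∀ i, Real.log (r i) = m * (W (x i) - κ) - Real.log m := by
        intro i
        rw [hr]; simp only
        rw [Real.log_div (Real.exp_pos _).ne' hm0.ne', Real.log_exp]
      rw [Finset.sum_congr rfl fun i _ => this i, Finset.sum_sub_distrib, ← Finset.mul_sum,
        Finset.sum_sub_distrib]
      simp only [Finset.sum_const, Finset.card_univ, Fintype.card_fin, nsmul_eq_mul]
      ring
    rw [e1]
    have e2 : (m : ℝ) * (2 / (1 - q) + 2 + Real.log m) < m ^ 2 * (E / 2 - κ) - m * Real.log m := by
      nlinarith
    have e3 : ∑ i, Wf L c q (ee L (x i)) = ∑ i, W (x i) := rfl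
    rw [e3] at hlog
    linarith
  obtain ⟨y, hy0, hy⟩ := minkowski_linear_forms (Matrix.vandermonde x) hdet0 r hr0 hprod
  -- the polynomial
  set s : ℤ[X] := ∑ j : Fin m, Polynomial.monomial (j : ℕ) (y j) with hs
  have hcoef : ∀ j : Fin m, s.coeff j = y j := by
    intro j
    rw [hs, Polynomial.finsetSum_coeff]
    rw [Finset.sum_eq_single j]
    · simp
    · intro b _ hb
      rw [Polynomial.coeff_monomial, if_neg]
      intro h; exact hb (Fin.ext h)
    · simp
  have hs0 : s ≠ 0 := by
    intro h0
    apply hy0
    ext j
    have := hcoef j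
    rw [h0] at this
    simpa using this.symm
  refine ⟨s, hs0, ?_, ?_⟩
  · rw [Polynomial.natDegree_lt_iff_degree_lt hs0]
    have : s ∈ Polynomial.degreeLT ℤ m := by
      rw [hs]
      apply Submodule.sum_mem
      intro j _
      rw [Polynomial.mem_degreeLT]
      refine lt_of_le_of_lt (Polynomial.degree_monomial_le _ _) ?_
      exact_mod_cast j.2
    rwa [Polynomial.mem_degreeLT] at this
  · intro t ht
    have hev : aeval t s = ∑ j : Fin m, t ^ (j : ℕ) * (y j : ℝ) := by
      rw [hs, map_sum]
      refine Finset.sum_congr rfl fun j _ => ?_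
      rw [Polynomial.aeval_monomial]
      simp [mul_comm]
    have hcr := cramer_identity x (fun j => (y j : ℝ)) t
    rw [← hev] at hcr
    have hmax : ∀ i, |(Matrix.vandermonde (Function.update x i t)).det| ≤
        |(Matrix.vandermonde x).det| * Real.exp (m * (W t - W (x i))) := by
      intro i
      have h1 : F (Function.update x i t) ≤ F x := by
        apply hxmax
        intro j _
        by_cases h : j = i
        · subst h; simpa using ht
        · simpa [h] using hxI j
      rw [hF] at h1
      simp only at h1
      have h2 : ∑ j, W (Function.update x i t j) = W t + ∑ j, W (x j) - W (x i) := by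
        rw [← Finset.add_sum_erase _ _ (Finset.mem_univ i),
          ← Finset.add_sum_erase _ (fun j => W (x j)) (Finset.mem_univ i)]
        have : ∑ j ∈ Finset.univ.erase i, W (Function.update x i t j)
            = ∑ j ∈ Finset.univ.erase i, W (x j) := by
          refine Finset.sum_congr rfl fun j hj => ?_
          rw [Function.update_of_ne (Finset.ne_of_mem_erase hj)]
        rw [this]; simp; ring
      rw [h2] at h1
      have h3 : Real.exp (-(m * (W t + ∑ j, W (x j) - W (x i))))
          = Real.exp (-(m * ∑ j, W (x j))) * Real.exp (-(m * (W t - W (x i)))) := by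
        rw [← Real.exp_add]; congr 1; ring
      rw [h3] at h1
      have h4 : 0 < Real.exp (-(m * ∑ j, W (x j))) := Real.exp_pos _
      have h5 : |(Matrix.vandermonde (Function.update x i t)).det| *
          Real.exp (-(m * (W t - W (x i)))) ≤ |(Matrix.vandermonde x).det| := by
        by_contra hcon
        push Not at hcon
        have := mul_lt_mul_of_pos_left hcon h4
        nlinarith
      rw [Real.exp_neg] at h5
      rwa [← div_eq_mul_inv, div_le_iff₀ (Real.exp_pos _)] at h5
    have h6 : |(Matrix.vandermonde x).det| * |aeval t s| ≤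
        |(Matrix.vandermonde x).det| * Real.exp (m * (W t - κ)) := by
      rw [← abs_mul, ← hcr]
      calc |∑ i, (Matrix.vandermonde (Function.update x i t)).det *
            (Matrix.vandermonde x).mulVec (fun j => (y j : ℝ)) i|
          ≤ ∑ i, |(Matrix.vandermonde (Function.update x i t)).det *
            (Matrix.vandermonde x).mulVec (fun j => (y j : ℝ)) i| :=
            Finset.abs_sum_le_sum_abs _ _
        _ ≤ ∑ i : Fin m, |(Matrix.vandermonde x).det| * Real.exp (m * (W t - κ)) / m := by
            refine Finset.sum_le_sum fun i _ => ?_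
            rw [abs_mul]
            calc |(Matrix.vandermonde (Function.update x i t)).det| *
                |(Matrix.vandermonde x).mulVec (fun j => (y j : ℝ)) i|
                ≤ (|(Matrix.vandermonde x).det| * Real.exp (m * (W t - W (x i)))) * r i := by
                  apply mul_le_mul (hmax i) (hy i).le (abs_nonneg _) (by positivity)
              _ = |(Matrix.vandermonde x).det| * Real.exp (m * (W t - κ)) / m := by
                  rw [hr]; simp only
                  have : Real.exp (m * (W t - κ)) = Real.exp (m * (W t - W (x i)))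
                      * Real.exp (m * (W (x i) - κ)) := by
                    rw [← Real.exp_add]; congr 1; ring
                  rw [this]; ring
        _ = |(Matrix.vandermonde x).det| * Real.exp (m * (W t - κ)) := by
            rw [Finset.sum_const, Finset.card_univ, Fintype.card_fin, nsmul_eq_mul]
            field_simp
    exact le_of_mul_le_mul_left h6 hdetpos

end Pool.Agent.SSS
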