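import Mathlib
import Pool.Agent.SSS.Meas
import Pool.Agent.SSS.SmallPoly
import Pool.Agent.SSS.Defs

/-! Nonnegativity of the energy of an arithmetic measure. -/

namespace Pool.Agent.SSS

open Complex ComplexConjugate MeasureTheory Polynomial

variable {L : ℝ} {μ : Measure ℝ}

lemma summable_bq {q : ℝ} (hq0 : 0 < q) (hq1 : q < 1)
    {a : ℕ → ℝ} (ha0 : ∀ k, 0 ≤ a k) (ha : ∀ k, a k ≤ q ^ k) :
    Summable (fun k : ℕ => (2 / (k : ℝ)) * a k) := by
  refine Summable.of_nonneg_of_le (fun k => mul_nonneg (two_div_nat_nonneg k) (ha0 k))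
      (f := fun k => 2 * q ^ k) ?_ ((summable_geometric_of_lt_one hq0.le hq1).mul_left 2)
  intro k
  exact mul_le_mul (two_div_nat_le k) (ha k) (ha0 k) (by norm_num)

lemma sq_le_one_of_abs {x : ℝ} (h : |x| ≤ 1) : x ^ 2 ≤ 1 := by
  rw [← sq_abs]; exact pow_le_one₀ (abs_nonneg _) h

/-- For an arithmetic measure the smoothed energies are nonnegative. -/
theorem smoothed_energy_nonneg (hL : 1 ≤ L) (hμ : ∀ᵐ x ∂μ, x ∈ Set.Icc 0 (4 * L))
    (ha : IsArithmetic μ) {q : ℝ} (hq0 : 0 < q) (hq1 : q < 1) :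
    0 ≤ Real.log L - ∑' k : ℕ, (2 / (k : ℝ)) * (q ^ k * (mom L μ k * mom L μ k)) := by
  have : IsProbabilityMeasure μ := ha.1
  have hL0 : 0 < L := by linarith
  set c := mom L μ with hcdef
  have hc : ∀ k, |c k| ≤ 1 := abs_mom_le hL0 hμ
  set I := Real.log L - ∑' k : ℕ, (2 / (k : ℝ)) * (q ^ k * (c k * c k)) with hI
  set E := Real.log L - ∑' k : ℕ, (2 / (k : ℝ)) * (q ^ k * c k) ^ 2 with hE
  by_contra hneg
  push Not at hneg
  have s1 : Summable (fun k : ℕ => (2 / (k : ℝ)) * (q ^ k * (c k * c k))) := by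
    apply summable_bq hq0 hq1
    · intro k
      have : 0 ≤ c k * c k := mul_self_nonneg _
      positivity
    · intro k
      have h1 : c k * c k ≤ 1 := by rw [← sq]; exact sq_le_one_of_abs (hc k)
      have h2 : 0 ≤ q ^ k := by positivity
      nlinarith
  have s2 : Summable (fun k : ℕ => (2 / (k : ℝ)) * (q ^ k * c k) ^ 2) := by
    apply summable_bq hq0 hq1
    · intro k; positivity
    · intro k
      have h1 : (c k) ^ 2 ≤ 1 := sq_le_one_of_abs (hc k)
      have h2 : 0 ≤ q ^ k := by positivity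
      have h3 : q ^ k ≤ 1 := pow_le_one₀ hq0.le hq1.le
      have h4 : q ^ k * (c k) ^ 2 ≤ 1 := by nlinarith [sq_nonneg (c k)]
      have h5 : (q ^ k * c k) ^ 2 = q ^ k * (q ^ k * (c k) ^ 2) := by ring
      rw [h5]; nlinarith
  have hIE : I ≤ E := by
    have : ∑' k : ℕ, (2 / (k : ℝ)) * (q ^ k * c k) ^ 2
        ≤ ∑' k : ℕ, (2 / (k : ℝ)) * (q ^ k * (c k * c k)) := by
      apply s2.tsum_le_tsum _ s1
      intro k
      apply mul_le_mul_of_nonneg_left _ (two_div_nat_nonneg k)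
      have h2 : 0 ≤ q ^ k := by positivity
      have h3 : q ^ k ≤ 1 := pow_le_one₀ hq0.le hq1.le
      have h5 : (q ^ k * c k) ^ 2 = q ^ k * (q ^ k * (c k * c k)) := by ring
      rw [h5]
      have h6 : 0 ≤ c k * c k := mul_self_nonneg _
      have h7 : q ^ k * (c k * c k) ≤ c k * c k := by nlinarith
      exact mul_le_mul_of_nonneg_left h7 h2
    linarith
  have hIE2 : I < E / 2 := by
    rcases le_or_gt 0 E with h | h <;> linarith
  obtain ⟨κ, hκ1, hκ2⟩ := exists_between hIE2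
  obtain ⟨m0, hm0⟩ := small_poly hL hq0 hq1 (show 0 < 4 * L by linarith) hc hκ2
  obtain ⟨s, hs0, -, hs⟩ := hm0 (max m0 1) (le_max_left _ _)
  set m := max m0 1 with hm
  have hm1 : 1 ≤ m := le_max_right _ _
  obtain ⟨hz, hint, hge⟩ := ha.2 s hs0
  obtain ⟨hWi, hWe⟩ := integral_Wf (μ := μ) hL0 hμ hc hq0 hq1
  have hi : Integrable (fun x => (m : ℝ) * (Wf L c q (ee L x) - κ)) μ :=
    (hWi.sub (integrable_const κ)).const_mul _
  have hz' : ∀ᵐ x : ℝ ∂μ, aeval x s ≠ 0 := by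
    rw [ae_iff]; simpa using hz
  have hle : ∫ x : ℝ, Real.log |aeval x s| ∂μ ≤ ∫ x, (m : ℝ) * (Wf L c q (ee L x) - κ) ∂μ := by
    apply integral_mono_ae hint hi
    filter_upwards [hμ, hz'] with x hx hx0
    rw [← Real.log_exp ((m : ℝ) * (Wf L c q (ee L x) - κ))]
    exact Real.log_le_log (abs_pos.2 hx0) (hs x hx)
  rw [integral_const_mul, integral_sub hWi (integrable_const _), hWe, integral_const] at hle
  simp only [probReal_univ, smul_eq_mul, one_mul] at hle
  have hm' : (0 : ℝ) < m := by exact_mod_cast hm1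
  have : (m : ℝ) * (Real.log L - ∑' k : ℕ, (2 / (k : ℝ)) * (q ^ k * (c k * mom L μ k)) - κ) < 0 := by
    apply mul_neg_of_pos_of_neg hm'
    have : Real.log L - ∑' k : ℕ, (2 / (k : ℝ)) * (q ^ k * (c k * mom L μ k)) = I := rfl
    rw [this]; linarith
  linarith

/-- the smoothed pair kernel -/
noncomputable def FF (L q : ℝ) (x y : ℝ) : ℝ :=
  Real.log L + (Real.log ‖1 - (q * ee L y) * ee L x‖ + Real.log ‖1 - (q * ee L y) * conj (ee L x)‖)

lemma dist_formula (hL : 0 < L) {x y : ℝ} (hx : x ∈ Set.Icc 0 (4 * L)) (hy : y ∈ Set.Icc 0 (4 * L)) :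
    |x - y| = L * ‖1 - ee L y * conj (ee L x)‖ * ‖1 - ee L y * ee L x‖ := by
  obtain ⟨h1, h2⟩ := ee_spec hL hx.1
  obtain ⟨h3, h4⟩ := ee_spec hL hy.1
  have n1 := (ee_norm_eq_one hL hx.1 hx.2).1
  have n2 := (ee_norm_eq_one hL hy.1 hy.2).1
  set e := ee L x
  set f := ee L y
  have e0 : e ≠ 0 := norm_ne_zero_iff.1 (by rw [n1]; norm_num)
  have f0 : f ≠ 0 := norm_ne_zero_iff.1 (by rw [n2]; norm_num)
  have ec : conj e = e⁻¹ := by
    rw [Complex.inv_def, Complex.normSq_eq_norm_sq, n1]; simp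
  have hxy : |x - y| = ‖(x : ℂ) - y‖ := by
    rw [← Complex.ofReal_sub, Complex.norm_real, Real.norm_eq_abs]
  rw [hxy, h2, h4, jouk_sub e0 f0, norm_mul, norm_mul, Complex.norm_real,
    Real.norm_of_nonneg hL.le]
  have a1 : ‖e - f‖ = ‖1 - f * conj e‖ := by
    rw [ec]
    have : e - f = e * (1 - f * e⁻¹) := by field_simp
    rw [this, norm_mul, n1, one_mul]
  have a2 : ‖1 - (e * f)⁻¹‖ = ‖1 - f * e‖ := by
    have : 1 - (e * f)⁻¹ = -((e * f)⁻¹ * (1 - f * e)) := by field_simp; ring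
    rw [this, norm_neg, norm_mul, norm_inv, norm_mul, n1, n2]; simp
  rw [a1, a2]

lemma FF_lower (hL : 0 < L) {q : ℝ} (hq0 : 0 < q) (hq1 : q < 1) {x y : ℝ}
    (hx : x ∈ Set.Icc 0 (4 * L)) (hy : y ∈ Set.Icc 0 (4 * L)) (hxy : x ≠ y) :
    Real.log q + Real.log |x - y| ≤ FF L q x y := by
  have hd := dist_formula hL hx hy
  have n1 := (ee_norm_eq_one hL hx.1 hx.2).1
  have n2 := (ee_norm_eq_one hL hy.1 hy.2).1
  have hpos : 0 < |x - y| := abs_pos.2 (sub_ne_zero.2 hxy)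
  rw [hd] at hpos
  have p1 : ‖1 - ee L y * conj (ee L x)‖ ≠ 0 := by
    intro h; rw [h] at hpos; simp at hpos
  have p2 : ‖1 - ee L y * ee L x‖ ≠ 0 := by
    intro h; rw [h] at hpos; simp at hpos
  rw [hd, Real.log_mul (by positivity) p2, Real.log_mul hL.ne' p1]
  unfold FF
  have c1 := log_one_sub_mul hq0 hq1.le (ζ := ee L y * ee L x)
    (by rw [norm_mul, n1, n2]; norm_num) (fun h => p2 (by rw [h]; simp))
  have c2 := log_one_sub_mul hq0 hq1.le (ζ := ee L y * conj (ee L x))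
    (by rw [norm_mul, Complex.norm_conj, n1, n2]; norm_num) (fun h => p1 (by rw [h]; simp))
  rw [← mul_assoc] at c1 c2
  linarith

lemma FF_upper (hL : 0 < L) {q : ℝ} (hq0 : 0 < q) (hq1 : q < 1) {x y : ℝ}
    (hx : x ∈ Set.Icc 0 (4 * L)) (hy : y ∈ Set.Icc 0 (4 * L)) :
    FF L q x y ≤ Real.log (4 * L) := by
  have n1 := (ee_norm_eq_one hL hx.1 hx.2).1
  have n2 := (ee_norm_eq_one hL hy.1 hy.2).1
  have key : ∀ v : ℂ, ‖v‖ = 1 → Real.log ‖1 - (q * ee L y) * v‖ ≤ Real.log 2 := by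
    intro v hv
    have hb : ‖((q : ℂ) * ee L y) * v‖ = q := by
      rw [norm_mul, norm_mul, n2, hv, Complex.norm_real, Real.norm_of_nonneg hq0.le]; ring
    have h1 : ‖1 - (q * ee L y) * v‖ ≤ 2 := by
      calc ‖1 - (q * ee L y) * v‖ ≤ ‖(1 : ℂ)‖ + ‖((q : ℂ) * ee L y) * v‖ := norm_sub_le _ _
        _ ≤ 2 := by rw [hb, norm_one]; linarith
    have h2 : 0 < ‖1 - (q * ee L y) * v‖ := by
      have := norm_sub_norm_le (1 : ℂ) (((q : ℂ) * ee L y) * v)
      rw [hb, norm_one] at this; linarith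
    exact Real.log_le_log h2 h1
  have k1 := key (ee L x) n1
  have k2 := key (conj (ee L x)) (by rw [Complex.norm_conj, n1])
  have : Real.log (4 * L) = Real.log L + (Real.log 2 + Real.log 2) := by
    rw [Real.log_mul (by norm_num) hL.ne', show (4 : ℝ) = 2 * 2 by norm_num,
      Real.log_mul (by norm_num) (by norm_num)]; ring
  unfold FF
  rw [this]; linarith

lemma measurable_FF (L q : ℝ) : Measurable (fun p : ℝ × ℝ => FF L q p.1 p.2) := by
  unfold FF
  have h1 : Measurable (fun p : ℝ × ℝ => ee L p.1) := (continuous_ee L).measurable.comp measurable_fst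
  have h2 : Measurable (fun p : ℝ × ℝ => ee L p.2) := (continuous_ee L).measurable.comp measurable_snd
  have h3 : Measurable (fun p : ℝ × ℝ => conj (ee L p.1)) :=
    Complex.continuous_conj.measurable.comp h1
  apply Measurable.add measurable_const
  apply Measurable.add
  · apply Real.measurable_log.comp
    apply Measurable.norm
    exact measurable_const.sub ((measurable_const.mul h2).mul h1)
  · apply Real.measurable_log.comp
    apply Measurable.norm
    exact measurable_const.sub ((measurable_const.mul h2).mul h3)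

lemma FF_bound (hL : 1 ≤ L) {q : ℝ} (hq0 : 0 < q) (hq1 : q < 1) {x y : ℝ}
    (hx : x ∈ Set.Icc 0 (4 * L)) (hy : y ∈ Set.Icc 0 (4 * L)) :
    ‖FF L q x y‖ ≤ Real.log (4 * L) - 2 * Real.log (1 - q) := by
  have hL0 : 0 < L := by linarith
  have n1 := (ee_norm_eq_one hL0 hx.1 hx.2).1
  have n2 := (ee_norm_eq_one hL0 hy.1 hy.2).1
  have key : ∀ v : ℂ, ‖v‖ = 1 → Real.log (1 - q) ≤ Real.log ‖1 - (q * ee L y) * v‖ := by
    intro v hv
    have hb : ‖((q : ℂ) * ee L y) * v‖ = q := by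
      rw [norm_mul, norm_mul, n2, hv, Complex.norm_real, Real.norm_of_nonneg hq0.le]; ring
    have h2 : 1 - q ≤ ‖1 - (q * ee L y) * v‖ := by
      have := norm_sub_norm_le (1 : ℂ) (((q : ℂ) * ee L y) * v)
      rw [hb, norm_one] at this; linarith
    exact Real.log_le_log (by linarith) h2
  have k1 := key (ee L x) n1
  have k2 := key (conj (ee L x)) (by rw [Complex.norm_conj, n1])
  have h0 : Real.log (1 - q) ≤ 0 := Real.log_nonpos (by linarith) (by linarith)
  have h1 : 0 ≤ Real.log (4 * L) := Real.log_nonneg (by linarith)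
  have h2 : 0 ≤ Real.log L := Real.log_nonneg hL
  have hup := FF_upper hL0 hq0 hq1 hx hy
  rw [Real.norm_eq_abs, abs_le]
  constructor
  · unfold FF; linarith
  · linarith

variable [IsProbabilityMeasure μ]

lemma integrable_FF (hL : 1 ≤ L) (hμ : ∀ᵐ x ∂μ, x ∈ Set.Icc 0 (4 * L))
    {q : ℝ} (hq0 : 0 < q) (hq1 : q < 1) :
    Integrable (fun p : ℝ × ℝ => FF L q p.1 p.2) (μ.prod μ) := by
  refine Integrable.of_bound (measurable_FF L q).aestronglyMeasurable
    (Real.log (4 * L) - 2 * Real.log (1 - q)) ?_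
  have h1 : ∀ᵐ p : ℝ × ℝ ∂(μ.prod μ), p.1 ∈ Set.Icc 0 (4 * L) :=
    Measure.quasiMeasurePreserving_fst.ae hμ
  have h2 : ∀ᵐ p : ℝ × ℝ ∂(μ.prod μ), p.2 ∈ Set.Icc 0 (4 * L) :=
    Measure.quasiMeasurePreserving_snd.ae hμ
  filter_upwards [h1, h2] with p hp1 hp2
  exact FF_bound hL hq0 hq1 hp1 hp2

lemma integral_FF (hL : 1 ≤ L) (hμ : ∀ᵐ x ∂μ, x ∈ Set.Icc 0 (4 * L))
    {q : ℝ} (hq0 : 0 < q) (hq1 : q < 1) :
    ∫ p : ℝ × ℝ, FF L q p.1 p.2 ∂(μ.prod μ)
      = Real.log L - ∑' k : ℕ, (2 / (k : ℝ)) * (q ^ k * (mom L μ k * mom L μ k)) := by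
  have hL0 : 0 < L := by linarith
  rw [integral_prod_symm _ (integrable_FF hL hμ hq0 hq1)]
  have h1 : ∀ᵐ y ∂μ, ∫ x, FF L q x y ∂μ = Wf L (mom L μ) q (ee L y) := by
    filter_upwards [hμ] with y hy
    have n2 := (ee_norm_eq_one hL0 hy.1 hy.2).1
    have hu : ‖(q : ℂ) * ee L y‖ < 1 := by
      rw [norm_mul, n2, Complex.norm_real, Real.norm_of_nonneg hq0.le]; linarith
    have h := (integral_KK (μ := μ) hL0 hμ hu)
    have e : (fun x => FF L q x y) = fun x => KK L (q * ee L y) x + Real.log ‖(q : ℂ) * ee L y‖ := by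
      ext x; unfold FF KK; ring
    rw [e, integral_add h.1 (integrable_const _), h.2]
    simp only [integral_const, probReal_univ, smul_eq_mul, one_mul]
    unfold Wf
    rw [n2, Real.log_one]
    have e2 : Om (mom L μ) ((q : ℂ) * ee L y) = Om (mom L μ) (q / ee L y) := by
      unfold Om
      congr 1
      ext k
      have hinv : (ee L y)⁻¹ = conj (ee L y) := by
        rw [Complex.inv_def, Complex.normSq_eq_norm_sq, n2]; simp
      have : (((q : ℂ) / ee L y) ^ k).re = (((q : ℂ) * ee L y) ^ k).re := by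
        rw [div_eq_mul_inv, hinv, mul_pow, mul_pow, ← Complex.ofReal_pow, Complex.re_ofReal_mul,
          Complex.re_ofReal_mul, ← map_pow, Complex.conj_re]
      rw [this]
    rw [e2]; ring
  rw [integral_congr_ae h1, (integral_Wf hL0 hμ (abs_mom_le hL0 hμ) hq0 hq1).2]

end Pool.Agent.SSS
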