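import Mathlib
import Pool.Agent.SSS.PartA

/-! Energy of arithmetic measures: integrability and the moment bound. -/

namespace Pool.Agent.SSS

open Complex ComplexConjugate MeasureTheory Polynomial Filter Topology

variable {L : ℝ} {μ : Measure ℝ}

lemma ae_prod_Icc [IsProbabilityMeasure μ] (hμ : ∀ᵐ x ∂μ, x ∈ Set.Icc 0 (4 * L)) :
    ∀ᵐ p : ℝ × ℝ ∂(μ.prod μ), p.1 ∈ Set.Icc 0 (4 * L) ∧ p.2 ∈ Set.Icc 0 (4 * L) := by
  have h1 : ∀ᵐ p : ℝ × ℝ ∂(μ.prod μ), p.1 ∈ Set.Icc 0 (4 * L) :=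
    Measure.quasiMeasurePreserving_fst.ae hμ
  have h2 : ∀ᵐ p : ℝ × ℝ ∂(μ.prod μ), p.2 ∈ Set.Icc 0 (4 * L) :=
    Measure.quasiMeasurePreserving_snd.ae hμ
  filter_upwards [h1, h2] with p hp1 hp2 using ⟨hp1, hp2⟩

lemma FF_tendsto (hL : 0 < L) {x y : ℝ}
    (hx : x ∈ Set.Icc 0 (4 * L)) (hy : y ∈ Set.Icc 0 (4 * L)) (hxy : x ≠ y) {q : ℕ → ℝ}
    (hq : Tendsto q atTop (𝓝 1)) :
    Tendsto (fun n => FF L (q n) x y) atTop (𝓝 (Real.log |x - y|)) := by
  have hd := dist_formula hL hx hy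
  have hpos : 0 < |x - y| := abs_pos.2 (sub_ne_zero.2 hxy)
  rw [hd] at hpos
  have p1 : ‖1 - ee L y * conj (ee L x)‖ ≠ 0 := by
    intro h; rw [h] at hpos; simp at hpos
  have p2 : ‖1 - ee L y * ee L x‖ ≠ 0 := by
    intro h; rw [h] at hpos; simp at hpos
  rw [hd, Real.log_mul (by positivity) p2, Real.log_mul hL.ne' p1]
  have hqc : Tendsto (fun n => ((q n : ℝ) : ℂ)) atTop (𝓝 ((1 : ℝ) : ℂ)) :=
    (Complex.continuous_ofReal.tendsto 1).comp hq
  have t1 : Tendsto (fun n => Real.log ‖1 - ((q n : ℝ) : ℂ) * ee L y * ee L x‖) atTop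
      (𝓝 (Real.log ‖1 - ee L y * ee L x‖)) := by
    refine (Real.continuousAt_log p2).tendsto.comp ?_
    have := ((tendsto_const_nhds (x := (1 : ℂ))).sub ((hqc.mul_const (ee L y)).mul_const (ee L x))).norm
    simpa using this
  have t2 : Tendsto (fun n => Real.log ‖1 - ((q n : ℝ) : ℂ) * ee L y * conj (ee L x)‖) atTop
      (𝓝 (Real.log ‖1 - ee L y * conj (ee L x)‖)) := by
    refine (Real.continuousAt_log p1).tendsto.comp ?_
    have := ((tendsto_const_nhds (x := (1 : ℂ))).sub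
      ((hqc.mul_const (ee L y)).mul_const (conj (ee L x)))).norm
    simpa using this
  have := (tendsto_const_nhds (x := Real.log L)).add (t1.add t2)
  unfold FF
  convert this using 2
  ring

lemma FF_diag (hL : 0 < L) {q : ℝ} (hq0 : 0 < q) (hq1 : q < 1) {x : ℝ}
    (hx : x ∈ Set.Icc 0 (4 * L)) :
    FF L q x x ≤ Real.log L + Real.log 2 + Real.log (1 - q) := by
  have n1 := (ee_norm_eq_one hL hx.1 hx.2).1
  have hb : ‖((q : ℂ) * ee L x) * ee L x‖ = q := by
    rw [norm_mul, norm_mul, n1, Complex.norm_real, Real.norm_of_nonneg hq0.le]; ring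
  have h1 : ‖1 - (q * ee L x) * ee L x‖ ≤ 2 := by
    calc ‖1 - (q * ee L x) * ee L x‖ ≤ ‖(1 : ℂ)‖ + ‖((q : ℂ) * ee L x) * ee L x‖ := norm_sub_le _ _
      _ ≤ 2 := by rw [hb, norm_one]; linarith
  have h2 : 0 < ‖1 - (q * ee L x) * ee L x‖ := by
    have := norm_sub_norm_le (1 : ℂ) (((q : ℂ) * ee L x) * ee L x)
    rw [hb, norm_one] at this; linarith
  have h3 : ‖1 - (q * ee L x) * conj (ee L x)‖ = 1 - q := by
    have : (1 : ℂ) - (q * ee L x) * conj (ee L x) = ((1 - q : ℝ) : ℂ) := by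
      rw [mul_assoc, Complex.mul_conj, Complex.normSq_eq_norm_sq, n1]; push_cast; ring
    rw [this, Complex.norm_real, Real.norm_of_nonneg (by linarith)]
  unfold FF
  rw [h3]
  have := Real.log_le_log h2 h1
  linarith

/-- the sequence of radii -/
noncomputable def qs (n : ℕ) : ℝ := 1 - 1 / ((n : ℝ) + 2)

lemma qs_pos (n : ℕ) : 0 < qs n := by
  unfold qs
  have : (1 : ℝ) / ((n : ℝ) + 2) < 1 := by
    rw [div_lt_one (by positivity)]; have : (0 : ℝ) ≤ n := Nat.cast_nonneg _; linarith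
  linarith

lemma qs_lt (n : ℕ) : qs n < 1 := by
  unfold qs
  have : (0 : ℝ) < 1 / ((n : ℝ) + 2) := by positivity
  linarith

lemma qs_tendsto : Tendsto qs atTop (𝓝 1) := by
  have h : Tendsto (fun n : ℕ => (1 : ℝ) / ((n : ℝ) + 2)) atTop (𝓝 0) := by
    have h1 : Tendsto (fun n : ℕ => (n : ℝ) + 2) atTop atTop :=
      tendsto_atTop_add_const_right _ _ tendsto_natCast_atTop_atTop
    simpa using h1.inv_tendsto_atTop.const_mul (1 : ℝ)
  have := (tendsto_const_nhds (x := (1 : ℝ))).sub h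
  rw [sub_zero] at this
  exact this

/-- The energy of an arithmetic measure is finite and nonnegative. -/
theorem energy_finite (hL : 1 ≤ L) (hμ : ∀ᵐ x ∂μ, x ∈ Set.Icc 0 (4 * L))
    (ha : IsArithmetic μ) :
    (μ.prod μ) {p | p.1 = p.2} = 0 ∧
    Integrable (fun p : ℝ × ℝ => Real.log |p.1 - p.2|) (μ.prod μ) ∧
    0 ≤ ∫ p : ℝ × ℝ, Real.log |p.1 - p.2| ∂(μ.prod μ) := by
  have : IsProbabilityMeasure μ := ha.1
  have hL0 : 0 < L := by linarith
  have hae := ae_prod_Icc (L := L) hμ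
  have hlog4 : 0 ≤ Real.log (4 * L) := Real.log_nonneg (by linarith)
  -- integral of G_q
  have hG : ∀ n, ∫ p : ℝ × ℝ, (Real.log (4 * L) - FF L (qs n) p.1 p.2) ∂(μ.prod μ)
      ≤ Real.log (4 * L) := by
    intro n
    rw [integral_sub (integrable_const _) (integrable_FF hL hμ (qs_pos n) (qs_lt n)),
      integral_FF hL hμ (qs_pos n) (qs_lt n)]
    have h := smoothed_energy_nonneg hL hμ ha (qs_pos n) (qs_lt n)
    simp only [integral_const, probReal_univ, smul_eq_mul, one_mul]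
    linarith
  have hGi : ∀ n, Integrable (fun p : ℝ × ℝ => Real.log (4 * L) - FF L (qs n) p.1 p.2) (μ.prod μ) :=
    fun n => (integrable_const _).sub (integrable_FF hL hμ (qs_pos n) (qs_lt n))
  have hG0 : ∀ n, ∀ᵐ p : ℝ × ℝ ∂(μ.prod μ), 0 ≤ Real.log (4 * L) - FF L (qs n) p.1 p.2 := by
    intro n
    filter_upwards [hae] with p hp
    have := FF_upper hL0 (qs_pos n) (qs_lt n) hp.1 hp.2
    linarith
  have hmd : MeasurableSet {p : ℝ × ℝ | p.1 = p.2} := measurableSet_eq_fun measurable_fst measurable_snd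
  -- the diagonal is null
  have hdiag : (μ.prod μ) {p | p.1 = p.2} = 0 := by
    by_contra hne
    have hpos : 0 < (μ.prod μ).real {p | p.1 = p.2} :=
      ENNReal.toReal_pos hne (measure_ne_top _ _)
    set δ := (μ.prod μ).real {p : ℝ × ℝ | p.1 = p.2} with hδ
    have key : ∀ n, δ * (Real.log 2 - Real.log (1 - qs n)) ≤ Real.log (4 * L) := by
      intro n
      have h1 : ∫ p in {p : ℝ × ℝ | p.1 = p.2}, (Real.log (4 * L) - FF L (qs n) p.1 p.2) ∂(μ.prod μ)
          ≤ ∫ p : ℝ × ℝ, (Real.log (4 * L) - FF L (qs n) p.1 p.2) ∂(μ.prod μ) :=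
        setIntegral_le_integral (hGi n) (hG0 n)
      have h2 : ∫ p in {p : ℝ × ℝ | p.1 = p.2}, (Real.log 2 - Real.log (1 - qs n)) ∂(μ.prod μ)
          ≤ ∫ p in {p : ℝ × ℝ | p.1 = p.2}, (Real.log (4 * L) - FF L (qs n) p.1 p.2) ∂(μ.prod μ) := by
        apply integral_mono_ae (integrable_const _) (hGi n).integrableOn
        have h3 : ∀ᵐ p : ℝ × ℝ ∂((μ.prod μ).restrict {p : ℝ × ℝ | p.1 = p.2}), p.1 = p.2 :=
          ae_restrict_mem hmd
        filter_upwards [ae_restrict_of_ae hae, h3] with p hp hpe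
        have h4 := FF_diag hL0 (qs_pos n) (qs_lt n) hp.1
        have h5 : Real.log (4 * L) = Real.log L + Real.log 2 + Real.log 2 := by
          rw [Real.log_mul (by norm_num) hL0.ne', show (4 : ℝ) = 2 * 2 by norm_num,
            Real.log_mul (by norm_num) (by norm_num)]; ring
        rw [← hpe, h5]
        linarith
      rw [setIntegral_const, smul_eq_mul] at h2
      exact (h2.trans h1).trans (hG n)
    have hlim : Tendsto (fun n => Real.log 2 - Real.log (1 - qs n)) atTop atTop := by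
      have h1 : (fun n => Real.log 2 - Real.log (1 - qs n))
          = fun n : ℕ => Real.log 2 + Real.log ((n : ℝ) + 2) := by
        ext n
        unfold qs
        have : (1 : ℝ) - (1 - 1 / ((n : ℝ) + 2)) = ((n : ℝ) + 2)⁻¹ := by ring
        rw [this, Real.log_inv]; ring
      rw [h1]
      apply tendsto_atTop_add_const_left
      apply Real.tendsto_log_atTop.comp
      exact tendsto_atTop_add_const_right _ _ tendsto_natCast_atTop_atTop
    obtain ⟨n, hn⟩ := (hlim.eventually_gt_atTop (Real.log (4 * L) / δ)).exists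
    have := key n
    rw [div_lt_iff₀ hpos] at hn
    linarith
  have hne : ∀ᵐ p : ℝ × ℝ ∂(μ.prod μ), p.1 ≠ p.2 := by
    rw [ae_iff]; simpa using hdiag
  -- Fatou
  have hmeas : Measurable (fun p : ℝ × ℝ => Real.log |p.1 - p.2|) :=
    Real.measurable_log.comp ((measurable_fst.sub measurable_snd).abs)
  have hfatou : ∫⁻ p : ℝ × ℝ, ENNReal.ofReal (Real.log (4 * L) - Real.log |p.1 - p.2|) ∂(μ.prod μ)
      ≤ ENNReal.ofReal (Real.log (4 * L)) := by
    have h1 : ∫⁻ p : ℝ × ℝ, ENNReal.ofReal (Real.log (4 * L) - Real.log |p.1 - p.2|) ∂(μ.prod μ)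
        = ∫⁻ p : ℝ × ℝ, liminf (fun n => ENNReal.ofReal (Real.log (4 * L) - FF L (qs n) p.1 p.2))
            atTop ∂(μ.prod μ) := by
      apply lintegral_congr_ae
      filter_upwards [hae, hne] with p hp hpe
      symm
      apply Tendsto.liminf_eq
      apply ENNReal.tendsto_ofReal
      exact tendsto_const_nhds.sub (FF_tendsto hL0 hp.1 hp.2 hpe qs_tendsto)
    rw [h1]
    refine (lintegral_liminf_le' fun n => ?_).trans ?_
    · exact ((hGi n).aestronglyMeasurable.aemeasurable).ennreal_ofReal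
    · have h2 : ∀ n, ∫⁻ p : ℝ × ℝ, ENNReal.ofReal (Real.log (4 * L) - FF L (qs n) p.1 p.2)
          ∂(μ.prod μ) ≤ ENNReal.ofReal (Real.log (4 * L)) := by
        intro n
        rw [← ofReal_integral_eq_lintegral_ofReal (hGi n) (hG0 n)]
        exact ENNReal.ofReal_le_ofReal (hG n)
      calc liminf (fun n => ∫⁻ p : ℝ × ℝ, ENNReal.ofReal (Real.log (4 * L) - FF L (qs n) p.1 p.2)
            ∂(μ.prod μ)) atTop
          ≤ liminf (fun _ : ℕ => ENNReal.ofReal (Real.log (4 * L))) atTop :=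
            liminf_le_liminf (Eventually.of_forall h2)
        _ = ENNReal.ofReal (Real.log (4 * L)) := liminf_const _
  have h0 : ∀ᵐ p : ℝ × ℝ ∂(μ.prod μ), 0 ≤ Real.log (4 * L) - Real.log |p.1 - p.2| := by
    filter_upwards [hae, hne] with p hp hpe
    have h1 : |p.1 - p.2| ≤ 4 * L := by
      rw [abs_le]; constructor <;> linarith [hp.1.1, hp.1.2, hp.2.1, hp.2.2]
    have h2 : 0 < |p.1 - p.2| := abs_pos.2 (sub_ne_zero.2 hpe)
    have := Real.log_le_log h2 h1
    linarith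
  have hi : Integrable (fun p : ℝ × ℝ => Real.log (4 * L) - Real.log |p.1 - p.2|) (μ.prod μ) := by
    refine ⟨(measurable_const.sub hmeas).aestronglyMeasurable, ?_⟩
    rw [hasFiniteIntegral_iff_ofReal h0]
    exact hfatou.trans_lt ENNReal.ofReal_lt_top
  have hi2 : Integrable (fun p : ℝ × ℝ => Real.log |p.1 - p.2|) (μ.prod μ) := by
    have := (integrable_const (μ := μ.prod μ) (Real.log (4 * L))).sub hi
    convert this using 1
    ext p; simp
  refine ⟨hdiag, hi2, ?_⟩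
  have h3 : ENNReal.ofReal (∫ p : ℝ × ℝ, (Real.log (4 * L) - Real.log |p.1 - p.2|) ∂(μ.prod μ))
      ≤ ENNReal.ofReal (Real.log (4 * L)) := by
    rw [ofReal_integral_eq_lintegral_ofReal hi h0]; exact hfatou
  have h4 := (ENNReal.ofReal_le_ofReal_iff hlog4).1 h3
  rw [integral_sub (integrable_const _) hi2] at h4
  simp only [integral_const, probReal_univ, smul_eq_mul, one_mul] at h4
  linarith

/-- the moment bound for the energy -/
theorem energy_moments [IsProbabilityMeasure μ] (hL : 1 ≤ L) (hμ : ∀ᵐ x ∂μ, x ∈ Set.Icc 0 (4 * L))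
    (hd : (μ.prod μ) {p | p.1 = p.2} = 0)
    (hi : Integrable (fun p : ℝ × ℝ => Real.log |p.1 - p.2|) (μ.prod μ)) :
    Summable (fun k : ℕ => (2 / (k : ℝ)) * (mom L μ k) ^ 2) ∧
    ∑' k : ℕ, (2 / (k : ℝ)) * (mom L μ k) ^ 2
      ≤ Real.log L - ∫ p : ℝ × ℝ, Real.log |p.1 - p.2| ∂(μ.prod μ) := by
  have hL0 : 0 < L := by linarith
  set I := ∫ p : ℝ × ℝ, Real.log |p.1 - p.2| ∂(μ.prod μ) with hI
  have hne : ∀ᵐ p : ℝ × ℝ ∂(μ.prod μ), p.1 ≠ p.2 := by
    rw [ae_iff]; simpa using hd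
  have key : ∀ q : ℝ, 0 < q → q < 1 → ∀ N : ℕ,
      ∑ k ∈ Finset.range N, (2 / (k : ℝ)) * (q ^ k * (mom L μ k * mom L μ k))
        ≤ Real.log L - I - Real.log q := by
    intro q hq0 hq1 N
    have h1 : Real.log q + I ≤ Real.log L
        - ∑' k : ℕ, (2 / (k : ℝ)) * (q ^ k * (mom L μ k * mom L μ k)) := by
      rw [← integral_FF hL hμ hq0 hq1, hI]
      have : Real.log q + ∫ p : ℝ × ℝ, Real.log |p.1 - p.2| ∂(μ.prod μ)
          = ∫ p : ℝ × ℝ, (Real.log q + Real.log |p.1 - p.2|) ∂(μ.prod μ) := by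
        rw [integral_add (integrable_const _) hi]; simp
      rw [this]
      apply integral_mono_ae ((integrable_const _).add hi) (integrable_FF hL hμ hq0 hq1)
      filter_upwards [ae_prod_Icc (L := L) hμ, hne] with p hp hpe
      exact FF_lower hL0 hq0 hq1 hp.1 hp.2 hpe
    have h0 : ∀ k : ℕ, 0 ≤ (2 / (k : ℝ)) * (q ^ k * (mom L μ k * mom L μ k)) := fun k =>
      mul_nonneg (two_div_nat_nonneg k) (mul_nonneg (by positivity) (mul_self_nonneg _))
    have s1 : Summable (fun k : ℕ => (2 / (k : ℝ)) * (q ^ k * (mom L μ k * mom L μ k))) := by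
      apply summable_bq hq0 hq1
      · intro k
        exact mul_nonneg (by positivity) (mul_self_nonneg _)
      · intro k
        have h1 : mom L μ k * mom L μ k ≤ 1 := by
          rw [← sq]; exact sq_le_one_of_abs (abs_mom_le hL0 hμ k)
        have h2 : 0 ≤ q ^ k := by positivity
        nlinarith
    have h2 := s1.sum_le_tsum (Finset.range N) (fun k _ => h0 k)
    linarith
  have key2 : ∀ N : ℕ, ∑ k ∈ Finset.range N, (2 / (k : ℝ)) * (mom L μ k) ^ 2 ≤ Real.log L - I := by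
    intro N
    have t1 : Tendsto (fun n => ∑ k ∈ Finset.range N,
        (2 / (k : ℝ)) * ((qs n) ^ k * (mom L μ k * mom L μ k))) atTop
        (𝓝 (∑ k ∈ Finset.range N, (2 / (k : ℝ)) * (1 ^ k * (mom L μ k * mom L μ k)))) := by
      apply tendsto_finsetSum
      intro k _
      exact ((qs_tendsto.pow k).mul_const _).const_mul _
    have t2 : Tendsto (fun n => Real.log L - I - Real.log (qs n)) atTop
        (𝓝 (Real.log L - I - Real.log 1)) :=
      tendsto_const_nhds.sub ((Real.continuousAt_log one_ne_zero).tendsto.comp qs_tendsto)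
    have := le_of_tendsto_of_tendsto' t1 t2 (fun n => key (qs n) (qs_pos n) (qs_lt n) N)
    simpa [sq] using this
  have h0 : ∀ k : ℕ, 0 ≤ (2 / (k : ℝ)) * (mom L μ k) ^ 2 := fun k =>
    mul_nonneg (two_div_nat_nonneg k) (sq_nonneg _)
  refine ⟨summable_of_sum_range_le h0 key2, ?_⟩
  exact Real.tsum_le_of_sum_range_le h0 key2

end Pool.Agent.SSS
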