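import Mathlib
import Pool.Agent.SSS.Bad
import Pool.Agent.SSS.SmallPoly

/-! The bad set is small at suitable scales. -/

namespace Pool.Agent.SSS

open Complex ComplexConjugate Polynomial

theorem bad_sum_le {L : ℝ} (hL : 1 ≤ L) {c : ℕ → ℝ} (hc : ∀ k, |c k| ≤ 1)
    (hB : Summable (fun k : ℕ => (2 / (k : ℝ)) * (c k) ^ 2)) {I : ℝ} (hI0 : 0 < I)
    (hI : ∑' k : ℕ, (2 / (k : ℝ)) * (c k) ^ 2 ≤ Real.log L - I) :
    ∃ C : ℝ, 0 < C ∧ ∀ F : Finset ℤ[X], (∀ Q ∈ F, Irreducible Q) → (∀ Q ∈ F, Q.natDegree ≠ 0) →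
      (∀ P ∈ F, ∀ Q ∈ F, P ≠ Q → ¬ Associated P Q) →
      ∀ q : ℤ[X] → ℝ, (∀ Q ∈ F, Real.exp (-I / 16) ≤ q Q) → (∀ Q ∈ F, q Q < 1) →
      (∀ Q ∈ F, hh L c (q Q) Q ≤ I / 16 * Q.natDegree) →
      ∑ Q ∈ F, (Q.natDegree + gg L Q) / (-Real.log (1 - q Q)) ≤ C := by
  have hL0 : 0 < L := by linarith
  have hlogL : 0 ≤ Real.log L := Real.log_nonneg hL
  obtain ⟨σ, hσ0, hσ1, hσ⟩ : ∃ σ : ℝ, 0 < σ ∧ σ < 1 ∧ σ ^ 2 * Real.log L ≤ I / 4 := by
    refine ⟨min (1 / 2) (I / (4 * (Real.log L + 1))), by positivity, ?_, ?_⟩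
    · exact lt_of_le_of_lt (min_le_left _ _) (by norm_num)
    · set σ := min (1 / 2) (I / (4 * (Real.log L + 1))) with hs
      have h1 : σ ≤ 1 / 2 := min_le_left _ _
      have h2 : σ ≤ I / (4 * (Real.log L + 1)) := min_le_right _ _
      have h0 : 0 < σ := by positivity
      have h3 : σ * (4 * (Real.log L + 1)) ≤ I := by
        rwa [le_div_iff₀ (by positivity)] at h2
      nlinarith [mul_nonneg h0.le hlogL]
  set c3 := min (I / 2) (2 * σ) with hc3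
  have hc30 : 0 < c3 := by positivity
  refine ⟨2 / c3, by positivity, ?_⟩
  intro F hirr hdeg hass q hq0 hq1 hbad
  rcases F.eq_empty_or_nonempty with hF | hF
  · subst hF; simp; positivity
  have hqpos : ∀ Q ∈ F, 0 < q Q := fun Q hQ => (Real.exp_pos _).trans_le (hq0 Q hQ)
  have ht : ∀ Q ∈ F, 0 < -Real.log (1 - q Q) := by
    intro Q hQ
    have := Real.log_neg (by linarith [hq1 Q hQ] : 0 < 1 - q Q) (by linarith [hqpos Q hQ])
    linarith
  set N := ∑ Q ∈ F, (Q.natDegree : ℝ) / (-Real.log (1 - q Q)) with hN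
  have hN0 : 0 < N := by
    apply Finset.sum_pos _ hF
    intro Q hQ
    have : (0 : ℝ) < Q.natDegree := by exact_mod_cast Nat.pos_of_ne_zero (hdeg Q hQ)
    exact div_pos this (ht Q hQ)
  set T := 1 - σ with hT
  have hT0 : 0 < T := by linarith
  have hT1 : T < 1 := by linarith
  obtain ⟨w, hw⟩ : ∃ w : ℤ[X] → ℝ, w = fun Q => T / N * (1 / (-Real.log (1 - q Q))) := ⟨_, rfl⟩
  have hwn : ∑ Q ∈ F, w Q * Q.natDegree = T := by
    have : ∀ Q ∈ F, w Q * (Q.natDegree : ℝ)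
        = T / N * ((Q.natDegree : ℝ) / (-Real.log (1 - q Q))) := by
      intro Q _; simp only [hw]; ring
    rw [Finset.sum_congr rfl this, ← Finset.mul_sum, ← hN]
    field_simp
  have hw0 : ∀ Q ∈ F, 0 ≤ w Q := by
    intro Q hQ; have := ht Q hQ; simp only [hw]; positivity
  have key := bad_ineq hL hc hB hI F hirr hdeg hass q hqpos hq1 w hw0 T hwn.symm
  have h1 : ∑ Q ∈ F, w Q * hh L c (q Q) Q ≤ I / 16 * T := by
    calc ∑ Q ∈ F, w Q * hh L c (q Q) Q ≤ ∑ Q ∈ F, w Q * (I / 16 * Q.natDegree) :=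
          Finset.sum_le_sum fun Q hQ => mul_le_mul_of_nonneg_left (hbad Q hQ) (hw0 Q hQ)
      _ = I / 16 * ∑ Q ∈ F, w Q * Q.natDegree := by
          rw [Finset.mul_sum]; refine Finset.sum_congr rfl fun Q _ => by ring
      _ = I / 16 * T := by rw [hwn]
  have h2 : ∑ Q ∈ F, w Q * (Q.natDegree * (-Real.log (q Q))) ≤ I / 16 * T := by
    calc ∑ Q ∈ F, w Q * (Q.natDegree * (-Real.log (q Q)))
          ≤ ∑ Q ∈ F, w Q * (Q.natDegree * (I / 16)) := by
          refine Finset.sum_le_sum fun Q hQ => mul_le_mul_of_nonneg_left ?_ (hw0 Q hQ)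
          apply mul_le_mul_of_nonneg_left _ (Nat.cast_nonneg _)
          have := Real.log_le_log (Real.exp_pos _) (hq0 Q hQ)
          rw [Real.log_exp] at this
          linarith
      _ = I / 16 * ∑ Q ∈ F, w Q * Q.natDegree := by
          rw [Finset.mul_sum]; refine Finset.sum_congr rfl fun Q _ => by ring
      _ = I / 16 * T := by rw [hwn]
  have h3 : ∑ Q ∈ F, (w Q) ^ 2 * (Q.natDegree * (-Real.log (1 - q Q))) = T ^ 2 / N := by
    have : ∀ Q ∈ F, (w Q) ^ 2 * (Q.natDegree * (-Real.log (1 - q Q)))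
        = (T / N) ^ 2 * ((Q.natDegree : ℝ) / (-Real.log (1 - q Q))) := by
      intro Q hQ
      have h := (ht Q hQ).ne'
      have h' : Real.log (1 - q Q) ≠ 0 := by intro h0; rw [h0] at h; simp at h
      simp only [hw]
      field_simp
    rw [Finset.sum_congr rfl this, ← Finset.mul_sum, ← hN]
    field_simp
  have h4 : ∑ Q ∈ F, w Q * gg L Q ≤ ∑ Q ∈ F, w Q * (la Q + gg L Q) := by
    refine Finset.sum_le_sum fun Q hQ => mul_le_mul_of_nonneg_left ?_ (hw0 Q hQ)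
    linarith [la_nonneg Q]
  have h5 : ∑ Q ∈ F, w Q * (Q.natDegree + gg L Q) = T + ∑ Q ∈ F, w Q * gg L Q := by
    rw [← hwn, ← Finset.sum_add_distrib]
    refine Finset.sum_congr rfl fun Q _ => by ring
  have h6 : ∑ Q ∈ F, w Q * (Q.natDegree + gg L Q)
      = T / N * ∑ Q ∈ F, (Q.natDegree + gg L Q) / (-Real.log (1 - q Q)) := by
    rw [Finset.mul_sum]
    refine Finset.sum_congr rfl fun Q _ => ?_
    simp only [hw]; ring
  set G := ∑ Q ∈ F, w Q * gg L Q with hG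
  have hG0 : 0 ≤ G := Finset.sum_nonneg fun Q hQ => mul_nonneg (hw0 Q hQ) (gg_nonneg hL0 Q)
  have h1T : 1 - T = σ := by rw [hT]; ring
  rw [h3, h1T] at key
  have h7 : I / 2 + 2 * σ * G ≤ 2 * (T ^ 2 / N) := by
    have b1 := mul_le_mul_of_nonneg_left h4 hσ0.le
    have b2 := mul_le_mul_of_nonneg_left h2 hT0.le
    have b3 : I / 16 * T ≤ I / 16 := by nlinarith
    have b4 : T * (I / 16 * T) ≤ I / 16 := by nlinarith
    linarith
  have h8 : c3 * (T + G) ≤ I / 2 + 2 * σ * G := by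
    have a1 : c3 ≤ I / 2 := min_le_left _ _
    have a2 : c3 ≤ 2 * σ := min_le_right _ _
    nlinarith
  rw [← h5, h6] at h8
  have h9 := h8.trans h7
  set Sg := ∑ Q ∈ F, (Q.natDegree + gg L Q) / (-Real.log (1 - q Q)) with hSg
  have h10 : c3 * Sg ≤ 2 * T := by
    have : c3 * (T / N * Sg) = (T / N) * (c3 * Sg) := by ring
    rw [this] at h9
    have h11 : 2 * (T ^ 2 / N) = (T / N) * (2 * T) := by ring
    rw [h11] at h9
    exact le_of_mul_le_mul_left h9 (by positivity)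
  rw [le_div_iff₀ hc30]
  linarith

lemma geom_tail (s : Finset ℕ) (J : ℕ) (h : ∀ j ∈ s, J ≤ j) :
    ∑ j ∈ s, (1 / 2 : ℝ) ^ j ≤ 2 * (1 / 2) ^ J := by
  have h1 : s ⊆ Finset.Ico J (s.sup id + 1) := by
    intro j hj
    rw [Finset.mem_Ico]
    refine ⟨h j hj, ?_⟩
    have : id j ≤ s.sup id := Finset.le_sup hj
    simp at this; omega
  refine (Finset.sum_le_sum_of_subset_of_nonneg h1 (fun _ _ _ => by positivity)).trans ?_
  rcases le_or_gt J (s.sup id + 1) with hle | hgt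
  · rw [Finset.sum_Ico_eq_sum_range]
    simp only [pow_add]
    rw [← Finset.mul_sum]
    have h2 := geom_sum_eq (x := (1 / 2 : ℝ)) (by norm_num) (s.sup id + 1 - J)
    rw [h2]
    have h3 : (0 : ℝ) ≤ (1 / 2) ^ (s.sup id + 1 - J) := by positivity
    have h4 : (0 : ℝ) < (1 / 2) ^ J := by positivity
    have h5 : ((1 / 2 : ℝ) ^ (s.sup id + 1 - J) - 1) / (1 / 2 - 1) ≤ 2 := by
      rw [div_le_iff_of_neg (by norm_num)]; linarith
    nlinarith
  · rw [Finset.Ico_eq_empty (by omega)]; simp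

/-- double counting over dyadic scales -/
lemma exists_small_scale {α : Type*} [DecidableEq α] (F : ℕ → Finset α) (m : α → ℝ)
    (hm : ∀ j, ∀ Q ∈ F j, 0 ≤ m Q) {C ε : ℝ} (hε : 0 < ε) (j0 : ℕ)
    (h : ∀ (G : Finset α) (J : α → ℕ), (∀ Q ∈ G, j0 ≤ J Q ∧ Q ∈ F (J Q)) →
      ∑ Q ∈ G, m Q * (1 / 2) ^ (J Q) ≤ C) :
    ∃ j ≥ j0, ∑ Q ∈ F j, m Q ≤ ε * 2 ^ j := by
  by_contra hcon
  push Not at hcon
  obtain ⟨K, hK⟩ := exists_nat_gt (2 * C / ε)
  set R := Finset.Ico j0 (j0 + K) with hR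
  set G := R.biUnion F with hG
  have hne : ∀ Q ∈ G, ∃ j, j0 ≤ j ∧ Q ∈ F j := by
    intro Q hQ
    rw [hG, Finset.mem_biUnion] at hQ
    obtain ⟨j, hj, hQj⟩ := hQ
    exact ⟨j, (Finset.mem_Ico.1 hj).1, hQj⟩
  classical
  set J : α → ℕ := fun Q => if h : ∃ j, j0 ≤ j ∧ Q ∈ F j then Nat.find h else 0 with hJ
  have hJ1 : ∀ Q ∈ G, j0 ≤ J Q ∧ Q ∈ F (J Q) := by
    intro Q hQ
    have := hne Q hQ
    simp only [hJ, dif_pos this]
    exact Nat.find_spec this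
  have hJ2 : ∀ Q ∈ G, ∀ j, j0 ≤ j → Q ∈ F j → J Q ≤ j := by
    intro Q hQ j hj hQj
    have := hne Q hQ
    simp only [hJ, dif_pos this]
    exact Nat.find_min' this ⟨hj, hQj⟩
  have h1 := h G J hJ1
  have h2 : ε * K ≤ ∑ j ∈ R, (1 / 2 : ℝ) ^ j * ∑ Q ∈ F j, m Q := by
    have : ∑ j ∈ R, ε ≤ ∑ j ∈ R, (1 / 2 : ℝ) ^ j * ∑ Q ∈ F j, m Q := by
      refine Finset.sum_le_sum fun j hj => ?_
      have h3 := (hcon j (Finset.mem_Ico.1 hj).1).le
      have h4 : (0 : ℝ) ≤ (1 / 2) ^ j := by positivity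
      calc ε = (1 / 2 : ℝ) ^ j * (ε * 2 ^ j) := by
            rw [one_div, inv_pow]; field_simp
        _ ≤ _ := mul_le_mul_of_nonneg_left h3 h4
    simp only [Finset.sum_const, hR, Nat.card_Ico, nsmul_eq_mul] at this
    simp only [add_tsub_cancel_left] at this
    linarith
  have h3 : ∑ j ∈ R, (1 / 2 : ℝ) ^ j * ∑ Q ∈ F j, m Q
      = ∑ Q ∈ G, m Q * ∑ j ∈ R.filter (fun j => Q ∈ F j), (1 / 2 : ℝ) ^ j := by
    simp only [Finset.mul_sum]
    rw [Finset.sum_comm' (s' := fun Q => R.filter (fun j => Q ∈ F j)) (t' := G)]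
    · refine Finset.sum_congr rfl fun Q _ => Finset.sum_congr rfl fun j _ => by ring
    · intro j Q
      simp only [Finset.mem_filter, hG, Finset.mem_biUnion]
      constructor
      · rintro ⟨a, b⟩; exact ⟨⟨a, b⟩, j, a, b⟩
      · rintro ⟨⟨a, b⟩, _⟩; exact ⟨a, b⟩
  have h4 : ∑ Q ∈ G, m Q * ∑ j ∈ R.filter (fun j => Q ∈ F j), (1 / 2 : ℝ) ^ j
      ≤ ∑ Q ∈ G, m Q * (2 * (1 / 2) ^ (J Q)) := by
    refine Finset.sum_le_sum fun Q hQ => mul_le_mul_of_nonneg_left ?_ (hm _ Q (hJ1 Q hQ).2)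
    apply geom_tail
    intro j hj
    rw [Finset.mem_filter] at hj
    exact hJ2 Q hQ j (Finset.mem_Ico.1 hj.1).1 hj.2
  have h5 : ∑ Q ∈ G, m Q * (2 * (1 / 2) ^ (J Q)) = 2 * ∑ Q ∈ G, m Q * (1 / 2) ^ (J Q) := by
    rw [Finset.mul_sum]; refine Finset.sum_congr rfl fun Q _ => by ring
  rw [div_lt_iff₀ hε] at hK
  linarith

/-- the dyadic radii -/
noncomputable def qd (j : ℕ) : ℝ := 1 - Real.exp (-(2 : ℝ) ^ j)

lemma qd_lt (j : ℕ) : qd j < 1 := by unfold qd; linarith [Real.exp_pos (-(2 : ℝ) ^ j)]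

lemma qd_pos (j : ℕ) : 0 < qd j := by
  unfold qd
  have : Real.exp (-(2 : ℝ) ^ j) < 1 := by
    rw [Real.exp_lt_one_iff]; have : (0 : ℝ) < 2 ^ j := by positivity
    linarith
  linarith

lemma log_one_sub_qd (j : ℕ) : -Real.log (1 - qd j) = 2 ^ j := by
  unfold qd
  have : 1 - (1 - Real.exp (-(2 : ℝ) ^ j)) = Real.exp (-(2 : ℝ) ^ j) := by ring
  rw [this, Real.log_exp]; ring

open Filter Topology in
lemma qd_tendsto : Tendsto qd atTop (𝓝 1) := by
  have h1 : Tendsto (fun j : ℕ => (2 : ℝ) ^ j) atTop atTop :=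
    tendsto_pow_atTop_atTop_of_one_lt (by norm_num)
  have h2 : Tendsto (fun j : ℕ => Real.exp (-(2 : ℝ) ^ j)) atTop (𝓝 0) :=
    Real.tendsto_exp_neg_atTop_nhds_zero.comp h1
  have := (tendsto_const_nhds (x := (1 : ℝ))).sub h2
  rw [sub_zero] at this
  exact this

/-- the irreducible nonconstant factors with small height at scale `q` -/
noncomputable def badset (L : ℝ) (c : ℕ → ℝ) (q κ : ℝ) (s : ℤ[X]) : Finset ℤ[X] := by
  classical
  exact (UniqueFactorizationMonoid.normalizedFactors s).toFinset.filter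
    (fun Q => Q.natDegree ≠ 0 ∧ hh L c q Q ≤ κ * Q.natDegree)

lemma mem_badset {L : ℝ} {c : ℕ → ℝ} {q κ : ℝ} {s Q : ℤ[X]} :
    Q ∈ badset L c q κ s ↔ Q ∈ UniqueFactorizationMonoid.normalizedFactors s ∧
      Q.natDegree ≠ 0 ∧ hh L c q Q ≤ κ * Q.natDegree := by
  classical
  unfold badset
  rw [Finset.mem_filter, Multiset.mem_toFinset]

/-- existence of scales at which the bad set of the auxiliary polynomial is small -/
theorem exists_good_scale {L : ℝ} (hL : 1 ≤ L) {c : ℕ → ℝ} (hc : ∀ k, |c k| ≤ 1)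
    (hB : Summable (fun k : ℕ => (2 / (k : ℝ)) * (c k) ^ 2)) {I : ℝ} (hI0 : 0 < I)
    (hI : ∑' k : ℕ, (2 / (k : ℝ)) * (c k) ^ 2 ≤ Real.log L - I) {M' : ℝ} (hM' : 0 < M')
    {ε : ℝ} (hε : 0 < ε) (j0 : ℕ) :
    ∃ j ≥ j0, ∃ s : ℤ[X], ∃ m : ℕ, s ≠ 0 ∧ s.natDegree < m ∧
      (∀ x ∈ Set.Icc 0 M', |aeval x s| ≤ Real.exp (m * (Wf L c (qd j) (ee L x) - I / 4))) ∧
      ∑ Q ∈ badset L c (qd j) (I / 16) s, (Q.natDegree + gg L Q) ≤ ε * 2 ^ j := by
  classical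
  obtain ⟨C, hC0, hC⟩ := bad_sum_le hL hc hB hI0 hI
  have hL0 : 0 < L := by linarith
  have hex : ∀ j, ∃ s : ℤ[X], ∃ m : ℕ, s ≠ 0 ∧ s.natDegree < m ∧
      (∀ x ∈ Set.Icc 0 M', |aeval x s| ≤ Real.exp (m * (Wf L c (qd j) (ee L x) - I / 4))) := by
    intro j
    have hE : I / 4 < (Real.log L - ∑' k : ℕ, (2 / (k : ℝ)) * ((qd j) ^ k * c k) ^ 2) / 2 := by
      have h1 : ∀ k : ℕ, (2 / (k : ℝ)) * ((qd j) ^ k * c k) ^ 2 ≤ (2 / (k : ℝ)) * (c k) ^ 2 := by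
        intro k
        apply mul_le_mul_of_nonneg_left _ (two_div_nat_nonneg k)
        have h3 : (qd j) ^ k ≤ 1 := pow_le_one₀ (qd_pos j).le (qd_lt j).le
        have h4 : 0 ≤ (qd j) ^ k := pow_nonneg (qd_pos j).le _
        rw [mul_pow]
        have h5 : ((qd j) ^ k) ^ 2 ≤ 1 := pow_le_one₀ h4 h3
        nlinarith [sq_nonneg (c k)]
      have h2 : Summable (fun k : ℕ => (2 / (k : ℝ)) * ((qd j) ^ k * c k) ^ 2) :=
        Summable.of_nonneg_of_le (fun k => mul_nonneg (two_div_nat_nonneg k) (sq_nonneg _)) h1 hB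
      have h3 := h2.tsum_le_tsum h1 hB
      linarith
    obtain ⟨m0, hm0⟩ := small_poly hL (qd_pos j) (qd_lt j) hM' hc hE
    obtain ⟨s, h1, h2, h3⟩ := hm0 m0 le_rfl
    exact ⟨s, m0, h1, h2, h3⟩
  choose s m hs using hex
  -- threshold for q
  obtain ⟨j1, hj1⟩ : ∃ j1, ∀ j ≥ j1, Real.exp (-I / 16) ≤ qd j := by
    have h1 : Real.exp (-I / 16) < 1 := by rw [Real.exp_lt_one_iff]; linarith
    exact Filter.eventually_atTop.1 ((qd_tendsto.eventually (lt_mem_nhds h1)).mono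
      fun j hj => le_of_lt hj)
  obtain ⟨j, hj, hsum⟩ := exists_small_scale (fun j => badset L c (qd j) (I / 16) (s j))
    (fun Q => (Q.natDegree : ℝ) + gg L Q)
    (fun j Q _ => add_nonneg (Nat.cast_nonneg _) (gg_nonneg hL0 Q)) hε (max j0 j1) (C := C) (by
      intro G J hGJ
      have h := hC G
        (fun Q hQ => UniqueFactorizationMonoid.irreducible_of_normalized_factor Q
          (mem_badset.1 (hGJ Q hQ).2).1)
        (fun Q hQ => (mem_badset.1 (hGJ Q hQ).2).2.1)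
        (fun P hP Q hQ hne has => hne (has.eq_of_normalized
          (UniqueFactorizationMonoid.normalize_normalized_factor P (mem_badset.1 (hGJ P hP).2).1)
          (UniqueFactorizationMonoid.normalize_normalized_factor Q (mem_badset.1 (hGJ Q hQ).2).1)))
        (fun Q => qd (J Q)) (fun Q hQ => hj1 _ ((le_max_right _ _).trans (hGJ Q hQ).1))
        (fun Q _ => qd_lt _) (fun Q hQ => (mem_badset.1 (hGJ Q hQ).2).2.2)
      simp only [log_one_sub_qd] at h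
      refine le_trans (le_of_eq ?_) h
      refine Finset.sum_congr rfl fun Q _ => ?_
      rw [one_div, inv_pow, div_eq_mul_inv])
  exact ⟨j, (le_max_left _ _).trans hj, s j, m j, (hs j).1, (hs j).2.1, (hs j).2.2, hsum⟩

end Pool.Agent.SSS
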