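import Mathlib
import Pool.Agent.SSS.PartA2
import Pool.Agent.SSS.Scale
import Pool.Agent.SSS.Compact
import Pool.Agent.SSS.Nu
import Pool.Agent.SSS.Cells
import Pool.Agent.SSS.CovFin
import Pool.Agent.SSS.Eis

/-! The core theorem: an arithmetic measure of positive energy does not minimise the trace. -/

namespace Pool.Agent.SSS

open Complex ComplexConjugate MeasureTheory Polynomial

/-- growth of an integer polynomial -/
lemma gr_int_le {L : ℝ} (hL : 1 ≤ L) {Q : ℤ[X]} (hQ : Irreducible Q) (hd : Q.natDegree ≠ 0) :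
    gr L (Q.map (algebraMap ℤ ℝ)) ≤ Q.natDegree * Real.log (8 * L) + gg L Q := by
  have hL0 : 0 < L := by linarith
  unfold gr gg
  have h1 : (Q.map (algebraMap ℤ ℝ)).aroots ℂ = (crt Q).val := by
    rw [← aroots_eq_crt hQ hd]
    unfold aroots
    rw [Polynomial.map_map]
    congr 1
  rw [h1]
  have h2 : ((crt Q).val.map fun β => Real.log (4 * L + ‖β‖)).sum
      = ∑ β ∈ crt Q, Real.log (4 * L + ‖β‖) := rfl
  rw [h2, ← card_crt hQ hd, ← nsmul_eq_mul, ← Finset.sum_const, ← Finset.sum_add_distrib]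
  refine Finset.sum_le_sum fun β _ => ?_
  have hw := jw_norm hL0 β
  have hs := jw_spec hL0 β
  have hwp : 0 < ‖jw L β‖ := by linarith
  rw [← Real.log_mul (by positivity) hwp.ne']
  apply Real.log_le_log (by positivity)
  have h3 : ‖β‖ ≤ L * (3 + ‖jw L β‖) := by
    calc ‖β‖ = ‖(L : ℂ) * (2 + jw L β + (jw L β)⁻¹)‖ := by rw [hs]
      _ = L * ‖2 + jw L β + (jw L β)⁻¹‖ := by
          rw [norm_mul, Complex.norm_real, Real.norm_of_nonneg hL0.le]
      _ ≤ L * (3 + ‖jw L β‖) := by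
          apply mul_le_mul_of_nonneg_left _ hL0.le
          calc ‖2 + jw L β + (jw L β)⁻¹‖ ≤ ‖2 + jw L β‖ + ‖(jw L β)⁻¹‖ := norm_add_le _ _
            _ ≤ (‖(2 : ℂ)‖ + ‖jw L β‖) + ‖(jw L β)⁻¹‖ := by
                have := norm_add_le (2 : ℂ) (jw L β)
                linarith
            _ ≤ 3 + ‖jw L β‖ := by
                rw [norm_inv]
                have h4 : ‖jw L β‖⁻¹ ≤ 1 := inv_le_one_of_one_le₀ hw
                norm_num
                linarith
  nlinarith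

lemma integral_id_mom {L : ℝ} (hL : 0 < L) {ν : Measure ℝ} [IsProbabilityMeasure ν]
    (hν : ∀ᵐ x ∂ν, x ∈ Set.Icc 0 (4 * L)) : ∫ x, x ∂ν = L * (2 + 2 * mom L ν 1) := by
  have hae : (fun x : ℝ => x) =ᵐ[ν] fun x => L * (2 + 2 * ((ee L x) ^ 1).re) := by
    filter_upwards [hν] with x hx
    rw [pow_one]
    exact (ee_norm_eq_one hL hx.1 hx.2).2
  rw [integral_congr_ae hae, integral_const_mul, integral_add (integrable_const _)
    ((integrable_re_pow hL hν 1).const_mul 2), integral_const_mul]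
  simp [mom]

lemma real_aeval_map (Q : ℤ[X]) (x : ℝ) : (Q.map (algebraMap ℤ ℝ)).eval x = aeval x Q :=
  eval_map_algebraMap Q x

theorem core {L : ℝ} (hL : 1 ≤ L) {μ : Measure ℝ} (hμ : ∀ᵐ x ∂μ, x ∈ Set.Icc 0 (4 * L))
    (ha : IsArithmetic μ) (hIpos : 0 < ∫ p : ℝ × ℝ, Real.log |p.1 - p.2| ∂(μ.prod μ)) :
    ∃ ε > 0, ∀ nmin : ℕ, ∃ f : ℤ[X], f.Monic ∧ Irreducible f ∧ nmin ≤ f.natDegree ∧
      ∃ S : Finset ℝ, (f.map (algebraMap ℤ ℝ)).roots = S.val ∧ S.card = f.natDegree ∧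
      (∀ y ∈ S, 0 ≤ y) ∧ ∑ y ∈ S, y ≤ f.natDegree * (∫ x, x ∂μ - ε) := by
  classical
  have : IsProbabilityMeasure μ := ha.1
  have hL0 : 0 < L := by linarith
  obtain ⟨hdiag, hEint, -⟩ := energy_finite hL hμ ha
  set I := ∫ p : ℝ × ℝ, Real.log |p.1 - p.2| ∂(μ.prod μ) with hI
  obtain ⟨hB, hBle⟩ := energy_moments hL hμ hdiag hEint
  obtain ⟨K0, K, hK0m, hK0pos, hLB⟩ := exists_logBdd (L := L) hμ hdiag hEint
  set m0 := μ.restrict K0 with hm0
  set M0 := m0.real Set.univ with hM0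
  have hM0pos : 0 < M0 := by
    rw [hM0, hm0, measureReal_restrict_apply_univ, measureReal_def]
    exact ENNReal.toReal_pos hK0pos.ne' (measure_ne_top _ _)
  have hM01 : M0 ≤ 1 := by
    rw [hM0, hm0, measureReal_restrict_apply_univ]; exact measureReal_le_one
  have hK := hLB.K_nonneg
  have hlogL : 0 ≤ Real.log L := Real.log_nonneg hL
  have hlog2 : 0 < Real.log 2 := Real.log_pos (by norm_num)
  have hlog8 : 0 < Real.log 8 := Real.log_pos (by norm_num)
  have hlog8L : 0 ≤ Real.log (8 * L) := Real.log_nonneg (by linarith)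
  set C5 := K + Real.log L + 2 * Real.log 2 with hC5
  have hC50 : 0 < C5 := by positivity
  obtain ⟨η, hη0, hη1, hηC⟩ : ∃ η : ℝ, 0 < η ∧ η ≤ 1 ∧ η * C5 ≤ I / 32 := by
    refine ⟨min 1 (I / (32 * C5)), by positivity, min_le_left _ _, ?_⟩
    calc min 1 (I / (32 * C5)) * C5 ≤ I / (32 * C5) * C5 :=
          mul_le_mul_of_nonneg_right (min_le_right _ _) hC50.le
      _ = I / 32 := by field_simp
  set C6 := Real.log (8 * L) + 1 + 12 * K / M0 with hC6
  have hC60 : 0 < C6 := by positivity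
  set C7 := 4 * K / M0 + 1 with hC7
  set C8 := 2 * L + 1 / 2 + 4 * (4 * L + 33) / Real.log 8 with hC8
  have hC80 : 0 < C8 := by positivity
  -- choice of the scale
  obtain ⟨j1, hj1⟩ : ∃ j1, ∀ j ≥ j1, 1 / 2 ≤ qd j ∧
      3 * C8 * Real.exp (-(2 : ℝ) ^ j) ≤ η * (M0 / 8 * Real.exp (-2 * C7)) * Real.exp (-(2 : ℝ) ^ j / 4) := by
    have e1 : ∀ᶠ j in Filter.atTop, (1 / 2 : ℝ) ≤ qd j :=
      (qd_tendsto.eventually (lt_mem_nhds (by norm_num : (1 / 2 : ℝ) < 1))).mono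
        fun _ h => le_of_lt h
    have e2 : ∀ᶠ j : ℕ in Filter.atTop, 3 * C8 * Real.exp (-(3 / 4 * (2 : ℝ) ^ j))
        ≤ η * (M0 / 8 * Real.exp (-2 * C7)) := by
      have h1 : Filter.Tendsto (fun j : ℕ => (2 : ℝ) ^ j) Filter.atTop Filter.atTop :=
        tendsto_pow_atTop_atTop_of_one_lt (by norm_num)
      have h2 := Real.tendsto_exp_neg_atTop_nhds_zero.comp
        (h1.const_mul_atTop (by norm_num : (0 : ℝ) < 3 / 4))
      have h3 := h2.const_mul (3 * C8)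
      rw [mul_zero] at h3
      have h4 : 0 < η * (M0 / 8 * Real.exp (-2 * C7)) := by positivity
      exact (h3.eventually (gt_mem_nhds h4)).mono fun _ h => le_of_lt h
    obtain ⟨j1, hj1⟩ := Filter.eventually_atTop.1 (e1.and e2)
    refine ⟨j1, fun j hj => ⟨(hj1 j hj).1, ?_⟩⟩
    have h1 := (hj1 j hj).2
    have h2 : Real.exp (-(2 : ℝ) ^ j) = Real.exp (-(3 / 4 * (2 : ℝ) ^ j)) * Real.exp (-(2 : ℝ) ^ j / 4) := by
      rw [← Real.exp_add]; congr 1; ring
    rw [h2, ← mul_assoc]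
    exact mul_le_mul_of_nonneg_right h1 (Real.exp_pos _).le
  obtain ⟨j, hj, s0, m, hs0, hsm, hsb, hbad⟩ := exists_good_scale hL (abs_mom_le hL0 hμ) hB hIpos
    hBle (M' := 4 * L + 1 + 32) (by positivity) (ε := 1 / (8 * C6)) (by positivity) j1
  obtain ⟨hq2, hscale⟩ := hj1 j hj
  set q := qd j with hq
  have hq0 : 0 < q := by linarith
  have hq1 : q < 1 := qd_lt j
  set τ := Real.exp (-(2 : ℝ) ^ j) with hτ
  have hτq : 1 - q = τ := by rw [hq, qd]; ring
  have hτ0 : 0 < τ := Real.exp_pos _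
  set ℓ := -Real.log q with hℓ
  have hℓ0 : 0 < ℓ := by have := Real.log_neg hq0 hq1; linarith
  have hℓτ : ℓ ≤ 2 * τ := by
    have h1 := Real.log_le_sub_one_of_pos (inv_pos.2 hq0)
    rw [Real.log_inv] at h1
    have h2 : q⁻¹ - 1 ≤ 2 * τ := by
      rw [← hτq]
      have h3 : q⁻¹ * q = 1 := inv_mul_cancel₀ hq0.ne'
      have h4 : q⁻¹ ≤ 2 := by
        rw [inv_le_comm₀ hq0 (by norm_num)]; linarith
      have h5 : (q⁻¹ - 2) * (1 - q) ≤ 0 :=
        mul_nonpos_of_nonpos_of_nonneg (by linarith) (by linarith)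
      have h6 : (q⁻¹ - 2) * (1 - q) = q⁻¹ - q⁻¹ * q - 2 + 2 * q := by ring
      rw [h6, h3] at h5
      linarith
    linarith
  -- the bad set
  set F := badset L (mom L μ) q (I / 16) s0 with hF
  set mF := ∑ Q ∈ F, ((Q.natDegree : ℝ) + gg L Q) with hmF
  have hirrF : ∀ Q ∈ F, Irreducible Q := fun Q hQ =>
    UniqueFactorizationMonoid.irreducible_of_normalized_factor Q (mem_badset.1 hQ).1
  have hdegF : ∀ Q ∈ F, Q.natDegree ≠ 0 := fun Q hQ => (mem_badset.1 hQ).2.1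
  have hgg0 : ∀ Q : ℤ[X], 0 ≤ gg L Q := gg_nonneg hL0
  set Λ := C6 * mF + C7 with hΛ
  have hsn : ∑ Q ∈ F, (((Q.map (algebraMap ℤ ℝ)).natDegree : ℕ) : ℝ) ≤ mF := by
    rw [hmF]
    refine Finset.sum_le_sum fun Q _ => ?_
    rw [natDegree_map_eq_of_injective (RingHom.injective_int _)]
    linarith [hgg0 Q]
  have hsg : ∑ Q ∈ F, gr L (Q.map (algebraMap ℤ ℝ)) ≤ (Real.log (8 * L) + 1) * mF := by
    rw [hmF, Finset.mul_sum]
    refine Finset.sum_le_sum fun Q hQ => ?_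
    refine (gr_int_le hL (hirrF Q hQ) (hdegF Q hQ)).trans ?_
    have h1 := mul_nonneg hlog8L (hgg0 Q)
    have h2 : (0 : ℝ) ≤ Q.natDegree := Nat.cast_nonneg _
    have h3 : (Real.log (8 * L) + 1) * ((Q.natDegree : ℝ) + gg L Q)
        = Q.natDegree * Real.log (8 * L) + gg L Q + Real.log (8 * L) * gg L Q
          + Q.natDegree := by ring
    rw [h3]
    linarith
  have hΛle : ∑ Q ∈ F, gr L (Q.map (algebraMap ℤ ℝ)) + 4 / M0 *
      (3 * (∑ Q ∈ F, (((Q.map (algebraMap ℤ ℝ)).natDegree : ℕ) : ℝ)) + 1) * K + 1 ≤ Λ := by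
    have h1 : 4 / M0 * (3 * (∑ Q ∈ F, (((Q.map (algebraMap ℤ ℝ)).natDegree : ℕ) : ℝ)) + 1) * K
        ≤ 4 / M0 * (3 * mF + 1) * K := by gcongr
    have h2 : Λ = (Real.log (8 * L) + 1) * mF + 4 / M0 * (3 * mF + 1) * K + 1 := by
      rw [hΛ, hC6, hC7]; field_simp; ring
    rw [h2]; linarith
  have hQne : ∀ Q ∈ F, Q.map (algebraMap ℤ ℝ) ≠ 0 := fun Q hQ =>
    (Polynomial.map_ne_zero_iff (RingHom.injective_int _)).2 (hirrF Q hQ).ne_zero
  obtain ⟨f1, hf1m, hf1b, hf10, hf1Q, hf1x⟩ := exists_perturb hL hLB F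
    (fun Q : ℤ[X] => Q.map (algebraMap ℤ ℝ)) hQne hM0pos hΛle (ε := ℓ / 4) (by positivity)
  rw [← hM0] at hf1x
  simp only [real_aeval_map] at hf1Q
  -- the perturbed measure
  set ν := nuM μ K0 η f1 with hν
  have hνp : IsProbabilityMeasure ν := nu_prob hK0m hf1m hf1b hη0.le hη1 hf10
  have hνs : ∀ᵐ x ∂ν, x ∈ Set.Icc 0 (4 * L) := nu_ae hμ
  -- comparison of the potentials
  have hcomp : ∀ w : ℂ, 1 ≤ ‖w‖ → |Wf L (mom L ν) q w - Wf L (mom L μ) q w| ≤ I / 32 := by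
    intro w hw
    have hu : ‖(q : ℂ) / w‖ < 1 := (norm_u hq0 hw).trans_lt hq1
    have h1 := nu_integral (μ := μ) hK0m hf1m hf1b hη0.le hη1 (integral_KK (μ := μ) hL0 hμ hu).1
    have h2 := hLB.KK_bound hL (by rw [← hM0]; exact hM01) hq2 hq1 hw hf1m hf1b hf10
    rw [Wf_eq hL0 hνs hq0 hq1 hw, Wf_eq hL0 hμ hq0 hq1 hw]
    rw [← hν] at h1
    have h3 : ∫ x, KK L (q / w) x ∂ν + Real.log q - (∫ x, KK L (q / w) x ∂μ + Real.log q)
        = η * ∫ x in K0, f1 x * KK L (q / w) x ∂μ := by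
      rw [h1.2]; ring
    rw [h3, abs_mul, abs_of_pos hη0]
    exact (mul_le_mul_of_nonneg_left h2 hη0.le).trans hηC
  -- the cells
  obtain ⟨N, p, hN0, hN1, hp0, hp1, hcell, htr⟩ := exists_cells hL hνs hq0 hq1 (ε := ℓ / 4)
    (by positivity)
  set h' := 4 * L / N with hh'
  have hNr : (0 : ℝ) < N := by exact_mod_cast hN0
  have hh'0 : 0 < h' := by positivity
  set r := L / N with hr
  have hr0 : 0 < r := by positivity
  have hr4 : h' = 4 * r := by rw [hh', hr]; ring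
  set c : ℕ → ℝ := fun l => (l + 1 / 2) * h' with hc
  have hUp : ∀ z : ℂ, ∑ l ∈ Finset.range (N + 1), p l * UU ((l + 1 / 2) * h') r z
      = Up (N + 1) c r p z := fun z => rfl
  have hpotz : ∀ z : ℂ, Wf L (mom L ν) q (jw L z) - ℓ / 4 ≤ Up (N + 1) c r p z := by
    intro z
    have := hcell (jw L z) (jw_norm hL0 z)
    rw [jw_spec hL0] at this
    exact this
  have hpotx : ∀ x : ℝ, 0 ≤ x → Wf L (mom L ν) q (ee L x) - ℓ / 4 ≤ Up (N + 1) c r p (x : ℂ) := by
    intro x hx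
    obtain ⟨h1, h2⟩ := ee_spec hL0 hx
    have := hcell (ee L x) h1
    rw [← h2] at this
    exact this
  -- positivity of the heights
  have hfac : ∀ Q ∈ UniqueFactorizationMonoid.normalizedFactors s0, Q.natDegree ≠ 0 →
      0 < la Q + ∑ α ∈ crt Q, (Up (N + 1) c r p α + 2 * ℓ) := by
    intro Q hQ hd
    have hirr := UniqueFactorizationMonoid.irreducible_of_normalized_factor Q hQ
    have hn1 : (1 : ℝ) ≤ Q.natDegree := by exact_mod_cast Nat.one_le_iff_ne_zero.2 hd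
    have h1 : hh L (mom L ν) q Q + Q.natDegree * (7 / 4 * ℓ)
        ≤ la Q + ∑ α ∈ crt Q, (Up (N + 1) c r p α + 2 * ℓ) := by
      unfold hh
      rw [add_assoc, ← card_crt hirr hd, ← nsmul_eq_mul, ← Finset.sum_const,
        ← Finset.sum_add_distrib]
      apply add_le_add le_rfl
      refine Finset.sum_le_sum fun α _ => ?_
      linarith [hpotz α]
    refine lt_of_lt_of_le ?_ h1
    by_cases hbadQ : hh L (mom L μ) q Q ≤ I / 16 * Q.natDegree
    · have hQF : Q ∈ F := mem_badset.2 ⟨hQ, hd, hbadQ⟩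
      obtain ⟨hz, hint, hge⟩ := ha.2 Q hirr.ne_zero
      have hz' : ∀ᵐ x : ℝ ∂μ, aeval x Q ≠ 0 := by rw [ae_iff]; simpa using hz
      have h2 := nu_integral (μ := μ) hK0m hf1m hf1b hη0.le hη1 hint
      rw [← hν] at h2
      have h3 := hh_lower hL hνs hq0 hq1 hirr hd (nu_ae hz') h2.1
      have h4 : |∫ x in K0, f1 x * Real.log |aeval x Q| ∂μ| ≤ ℓ / 4 := hf1Q Q hQF
      rw [h2.2] at h3
      have h5 := (abs_le.1 h4).1
      have h6 : -(ℓ / 4) ≤ η * ∫ x in K0, f1 x * Real.log |aeval x Q| ∂μ := by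
        have e1 := mul_le_mul_of_nonneg_left h5 hη0.le
        have e2 : η * (ℓ / 4) ≤ 1 * (ℓ / 4) := mul_le_mul_of_nonneg_right hη1 (by positivity)
        linarith
      have h7 : (Q.natDegree : ℝ) * Real.log q = -(Q.natDegree * ℓ) := by rw [hℓ]; ring
      rw [h7] at h3
      have h8 : 1 * ℓ ≤ (Q.natDegree : ℝ) * ℓ := mul_le_mul_of_nonneg_right hn1 hℓ0.le
      have h9 : (Q.natDegree : ℝ) * (7 / 4 * ℓ) = 7 / 4 * (Q.natDegree * ℓ) := by ring
      rw [h9]
      linarith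
    · push Not at hbadQ
      have h2 : hh L (mom L μ) q Q - Q.natDegree * (I / 32) ≤ hh L (mom L ν) q Q := by
        unfold hh
        rw [← card_crt hirr hd, ← nsmul_eq_mul, ← Finset.sum_const, add_sub_assoc,
          ← Finset.sum_sub_distrib]
        apply add_le_add le_rfl
        refine Finset.sum_le_sum fun α _ => ?_
        linarith [(abs_le.1 (hcomp (jw L α) (jw_norm hL0 α))).1]
      have e1 : 0 < (Q.natDegree : ℝ) * I := mul_pos (by linarith) hIpos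
      have e2 : 0 < (Q.natDegree : ℝ) * ℓ := mul_pos (by linarith) hℓ0
      have e3 : (Q.natDegree : ℝ) * (7 / 4 * ℓ) = 7 / 4 * (Q.natDegree * ℓ) := by ring
      have e4 : I / 16 * (Q.natDegree : ℝ) - Q.natDegree * (I / 32)
          = 1 / 32 * (Q.natDegree * I) := by ring
      rw [e3]
      linarith
  have hsb' : ∀ x ∈ Set.Icc 0 (4 * L + 1 + 32),
      |aeval x s0| ≤ Real.exp (m * ((Up (N + 1) c r p (x : ℂ) + 2 * ℓ) - I / 8)) := by
    intro x hx
    refine (hsb x hx).trans (Real.exp_le_exp.2 ?_)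
    apply mul_le_mul_of_nonneg_left _ (Nat.cast_nonneg _)
    have h1 := (abs_le.1 (hcomp (ee L x) (ee_spec hL0 hx.1).1)).1
    have h2 := hpotx x hx.1
    linarith
  obtain ⟨A, δ, hA, hδ, hcov⟩ := cov_final (n0 := N + 1) (c := c) (M' := 4 * L + 1 + 32) hr0 hp0 hp1
    (κ := 2 * ℓ) (by positivity) hs0 hsm hfac (c' := I / 8) (by positivity) hsb'
  refine ⟨C8 * τ, by positivity, fun nmin => ?_⟩
  have hcr : ∀ l : ℕ, c l + 2 * r = (l + 1) * h' ∧ c l - 2 * r = l * h' := by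
    intro l; simp only [hc]; rw [hr4]; constructor <;> ring
  obtain ⟨f, hfm, hfi, hfn, S, hS1, hS2, hS3, hS4⟩ := exists_irred (n0 := N + 1) (c := c)
    (a0 := 4 * L + 1) (κ := 2 * ℓ) hr0 hp0 hp1 (by positivity)
    (by
      intro l l' hll _
      rw [(hcr l).1, (hcr l').2]
      have : (l : ℝ) + 1 ≤ l' := by exact_mod_cast hll
      exact mul_le_mul_of_nonneg_right this hh'0.le)
    (by
      intro l _
      rw [(hcr l).2]; positivity)
    (by
      intro l hl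
      rw [(hcr l).1]
      have h1 : (l : ℝ) + 1 ≤ N + 1 := by exact_mod_cast hl
      have h2 : (N : ℝ) * h' = 4 * L := by rw [hh']; field_simp
      have h3 := mul_le_mul_of_nonneg_right h1 hh'0.le
      have h4 : ((N : ℝ) + 1) * h' = N * h' + h' := by ring
      have h5 : h' ≤ 1 := hN1
      rw [h4, h2] at h3
      linarith)
    (by positivity) hA hδ hcov (ε := C8 * τ) (by positivity) nmin
  refine ⟨f, hfm, hfi, hfn, S, hS1, hS2, hS3, hS4.trans ?_⟩
  apply mul_le_mul_of_nonneg_left _ (Nat.cast_nonneg _)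
  have hE : ∑ l ∈ Finset.range (N + 1), p l * (c l + 2 * r)
      ≤ L * (2 + 2 * (q * mom L ν 1)) + ℓ / 4 := by
    refine le_trans (le_of_eq ?_) htr
    refine Finset.sum_congr rfl fun l _ => ?_
    rw [(hcr l).1]
  have hid := integral_id_mom hL0 hνs
  have hxi : Integrable (fun x : ℝ => x) μ := by
    refine Integrable.of_bound measurable_id.aestronglyMeasurable (4 * L) ?_
    filter_upwards [hμ] with x hx
    rw [Real.norm_eq_abs, abs_of_nonneg hx.1]; exact hx.2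
  have hνx := (nu_integral (μ := μ) hK0m hf1m hf1b hη0.le hη1 hxi).2
  rw [← hν, hid] at hνx
  have hmom := abs_le.1 (abs_mom_le (μ := ν) hL0 hνs 1)
  have h1 : L * (2 + 2 * (q * mom L ν 1)) ≤ L * (2 + 2 * mom L ν 1) + 2 * L * τ := by
    rw [← hτq]
    have e1 : 0 ≤ (L * (1 - q)) * (mom L ν 1 + 1) :=
      mul_nonneg (mul_nonneg hL0.le (by linarith)) (by linarith [hmom.1])
    have e2 : (L * (1 - q)) * (mom L ν 1 + 1)
        = L * mom L ν 1 - L * (q * mom L ν 1) + L * (1 - q) := by ring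
    rw [e2] at e1
    linarith
  have h2 : η * ∫ x in K0, f1 x * x ∂μ ≤ -(η * (M0 / 8 * Real.exp (-2 * Λ))) := by
    have := mul_le_mul_of_nonneg_left hf1x hη0.le
    linarith
  have h3 : 3 * C8 * τ ≤ η * (M0 / 8 * Real.exp (-2 * Λ)) := by
    refine hscale.trans ?_
    have h4 : Real.exp (-2 * C7) * Real.exp (-(2 : ℝ) ^ j / 4) ≤ Real.exp (-2 * Λ) := by
      rw [← Real.exp_add]
      apply Real.exp_le_exp.2
      have h5 : C6 * mF ≤ 2 ^ j / 8 := by
        have := mul_le_mul_of_nonneg_left hbad hC60.le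
        have h6 : C6 * (1 / (8 * C6) * 2 ^ j) = 2 ^ j / 8 := by field_simp
        rw [h6] at this
        exact this
      rw [hΛ]; linarith
    calc η * (M0 / 8 * Real.exp (-2 * C7)) * Real.exp (-(2 : ℝ) ^ j / 4)
        = η * (M0 / 8 * (Real.exp (-2 * C7) * Real.exp (-(2 : ℝ) ^ j / 4))) := by ring
      _ ≤ η * (M0 / 8 * Real.exp (-2 * Λ)) := by gcongr
  have h4 : 2 * ℓ / Real.log 8 * (4 * L + 1 + 32) ≤ 4 * (4 * L + 33) / Real.log 8 * τ := by
    have e1 : 2 * ℓ / Real.log 8 * (4 * L + 1 + 32) = 2 * (4 * L + 33) / Real.log 8 * ℓ := by ring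
    have e2 : 4 * (4 * L + 33) / Real.log 8 * τ = 2 * (4 * L + 33) / Real.log 8 * (2 * τ) := by ring
    rw [e1, e2]
    exact mul_le_mul_of_nonneg_left hℓτ (by positivity)
  have h5 : C8 * τ = 2 * L * τ + 1 / 2 * τ + 4 * (4 * L + 33) / Real.log 8 * τ := by
    rw [hC8]; ring
  linarith

end Pool.Agent.SSS
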